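import Mathlib
import Pool.Agent.Lib.ANT.Mertens
import Pool.Agent.Lib.ANT.LBound
import Pool.Agent.Work.MP_5d318d_nt.Range
import Pool.Agent.Lib.ANT.DivisorBound

-- merged part: Pool.Agent.Work.MP_5d318d_nt.RT.Defs
section
/-! Definitions for the rank and trace bound for the variance of primes in progressions. -/

noncomputable section

open Complex MeasureTheory Finset Filter Topology Metric
open ArithmeticFunction hiding log
open scoped Real

namespace HooRT

/-- Gaussian kernel of frequency `x`. -/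
def kx (lam x v : ℝ) : ℂ :=
  (((√(4 * π * lam))⁻¹ : ℝ) : ℂ) * cexp (I * x * v - v ^ 2 / (4 * lam))

/-- Gaussian test function. -/
def Gz (lam x v : ℝ) (z : ℂ) : ℂ := cexp (lam * (z - I * x) ^ 2 + z * v)

/-- Band filter for the frequencies `[x0, x0 + w]`. -/
def kap (lam x0 w r : ℝ) : ℂ := ∫ x in x0..x0 + w, ((√(lam / π) : ℝ) : ℂ) * kx lam x r

/-- The prime side of the explicit formula, applied to the kernel `k`. -/
def mu (l : ℝ) (a b : ℕ → ℂ) (N : ℕ) (k : ℝ → ℂ) (v : ℝ) : ℂ :=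
  l * k v - ∑ n ∈ Icc 1 N, a n / ((√n : ℝ) : ℂ) * k (v - Real.log n) -
    ∑ n ∈ Icc 1 N, b n / ((√n : ℝ) : ℂ) * k (v + Real.log n)

/-- Truncated exponential. -/
def eta (C s : ℝ) : ℂ := if 0 ≤ s ∧ s < C then cexp (-s / 2) else 0

/-- The filtered truncated exponential. -/
def bet (lam x0 w C y : ℝ) : ℂ := ∫ s in (0 : ℝ)..C, cexp (-s / 2) * kap lam x0 w (y - s)

/-- Normalised summatory function. -/
def Ev (a : ℕ → ℂ) (N : ℕ) (v : ℝ) : ℂ :=
  cexp (-v / 2) * ∑ n ∈ Icc 1 N, if Real.log n ≤ v then a n else 0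

/-- Step function on the grid of mesh `h`, the cells being shrunk by `d`. -/
def st (s : Finset ℤ) (p : ℤ → ℝ) (h d x : ℝ) : ℝ :=
  ∑ k ∈ s, if k * h + d ≤ x ∧ x ≤ (k + 1) * h - d then p k else 0

/-- A weight: measurable, between `0` and `A`, zero outside `[-V, V]`. -/
structure Wt (ψ : ℝ → ℝ) (A V : ℝ) : Prop where
  meas : Measurable ψ
  nn : ∀ x, 0 ≤ ψ x
  le : ∀ x, ψ x ≤ A
  supp : ∀ x, V < |x| → ψ x = 0

/-- Data of a step function. -/
structure StD (s : Finset ℤ) (p : ℤ → ℝ) (h d A β : ℝ) : Prop where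
  d0 : 0 < d
  dh : 6 * d < h
  nn : ∀ k, 0 ≤ p k
  le : ∀ k, p k ≤ A
  supp : ∀ k ∈ s, -β ≤ k * h ∧ (k + 1) * h ≤ β

/-- Double integral of `u (t - y)` against two weights. -/
def dbl (ψ φ u : ℝ → ℝ) : ℝ := ∫ t, ψ t * ∫ y, φ y * u (t - y)

/-- Twisted von Mangoldt function. -/
def lc {q : ℕ} (χ : DirichletCharacter ℂ q) (n : ℕ) : ℂ := χ n * (vonMangoldt n : ℝ)

/-- Symmetric form of the completed `L`-function. -/
def Xi {q : ℕ} [NeZero q] (χ : DirichletCharacter ℂ q) (z : ℂ) : ℂ :=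
  cexp (z * Real.log q / 2) * χ.completedLFunction (1 / 2 + z)

/-- Logarithmic derivative of the gamma factor. -/
def gam {q : ℕ} (χ : DirichletCharacter ℂ q) (z : ℂ) : ℂ :=
  -logDeriv (fun s => (χ.gammaFactor s)⁻¹) (1 / 2 + z)

/-- Mean square of the `L`-function on a circle touching the critical line. -/
def mom {q : ℕ} [NeZero q] (χ : DirichletCharacter ℂ q) (R : ℝ) : ℝ :=
  Real.circleAverage (fun z => ‖χ.LFunction (1 / 2 + z)‖ ^ 2) (R : ℂ) R

/-- The explicit formula up to height `T` for the points `Z`. -/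
structure EFD (l K T : ℝ) (a b : ℕ → ℂ) {n : ℕ} (Z : Fin n → ℂ) : Prop where
  K1 : 1 ≤ K
  l0 : 0 ≤ l
  ha : ∀ m, ‖a m‖ ≤ vonMangoldt m
  hb : ∀ m, ‖b m‖ ≤ vonMangoldt m
  card : (n : ℝ) ≤ K * (1 + l)
  re : ∀ i, |(Z i).re| ≤ 1 / 2
  nrm : ∀ i, ‖Z i‖ ≤ K
  ef : ∀ (lam x v D : ℝ) (N : ℕ), 1 ≤ lam → 0 ≤ D → |x| + D ≤ T → 2 * |v| ≤ Real.log N →
    48 * lam ≤ Real.log N → ‖∑ i, Gz lam x v (Z i) - mu l a b N (kx lam x) v‖ ≤
      K / √lam + K * (1 + l) * Real.exp (9 * lam / 4 + 3 * |v| / 2 - lam * D ^ 2 / 2)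

/-- The points which are kept for the band `[x0, x0 + w]`. -/
def kept {n : ℕ} (Z : Fin n → ℂ) (σ x0 w d : ℝ) : Finset (Fin n) :=
  univ.filter fun i => σ < |(Z i).re| ∨ (x0 - d ≤ (Z i).im ∧ (Z i).im ≤ x0 + w + d)

/-- The conditions on a good character. -/
def Gd (R e lam0 C T0 w : ℝ) (J : ℕ) (L : ℝ) (N : ℕ) {q : ℕ} [NeZero q]
    (χ : DirichletCharacter ℂ q) : Prop :=
  mom χ R ≤ L ^ 2 ∧ mom χ⁻¹ R ≤ L ^ 2 ∧ ∀ j < J,
    ‖∑ n ∈ Icc 1 N, lc χ n / ((√n : ℝ) : ℂ) *
      bet (lam0 * L) (-T0 + j * w) w C (0 - Real.log n)‖ ≤ e * L ∧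
    ‖∑ n ∈ Icc 1 N, lc χ⁻¹ n / ((√n : ℝ) : ℂ) *
      bet (lam0 * L) (-T0 + j * w) w C (0 + Real.log n)‖ ≤ e * L

/-- The inequality for one character. -/
def Ineq (s : Finset ℤ) (p : ℤ → ℝ) (h d ε L : ℝ) (N : ℕ) (a : ℕ → ℂ) : Prop :=
  (1 - ε) * (∫ x, st s p h (3 * d) x) ^ 2 * L ^ 3 ≤
    (1 + ε) * L ^ 3 * (∫ x, st s p h d x ^ 2) + ε * L ^ 3 +
      2 * (1 + ε) * dbl (fun t => st s p h d (t / L)) (fun t => st s p h d (t / L))
        fun v => ‖Ev a N v‖ ^ 2

theorem norm_lc_le {q : ℕ} (χ : DirichletCharacter ℂ q) (n : ℕ) : ‖lc χ n‖ ≤ vonMangoldt n := by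
  rw [lc, norm_mul, norm_real, Real.norm_of_nonneg vonMangoldt_nonneg]
  exact mul_le_of_le_one_left vonMangoldt_nonneg (χ.norm_le_one _)

theorem Wt.A0 {ψ : ℝ → ℝ} {A V : ℝ} (h : Wt ψ A V) : 0 ≤ A := (h.nn 0).trans (h.le 0)

/-- The square of the norm of a sum, with a free parameter. -/
theorem sq_add_le {x y z θ : ℝ} (hθ : 0 < θ) (hz : 0 ≤ z) (h : z ≤ x + y) :
    z ^ 2 ≤ (1 + θ) * x ^ 2 + (1 + 1 / θ) * y ^ 2 := by
  have h1 : z ^ 2 ≤ (x + y) ^ 2 := pow_le_pow_left₀ hz h 2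
  have h2 : (1 + θ) * x ^ 2 + (1 + 1 / θ) * y ^ 2 - (x + y) ^ 2 = (θ * x - y) ^ 2 / θ := by
    field_simp
    ring
  have h3 : 0 ≤ (θ * x - y) ^ 2 / θ := by positivity
  linarith only [h1, h2, h3]

end HooRT
end
end

-- merged part: Pool.Agent.Work.MP_5d318d_nt.RT.Gau
section
/-! TASK RT Gau. Gaussian facts.
`norm_kx`, `norm_Gz`: `Complex.norm_exp` and real parts. `gau_tail`: on the set `exp (-lam y^2) ≤ exp (-lam D^2/2) *
exp (-(lam/2) y^2)`, `integral_gaussian`. `line_Gz`: the exponent is a quadratic in `t` with leading coefficient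
`-lam`; `integral_cexp_quadratic`; `(π / lam) ^ (1/2 : ℂ)` is the real `√(π / lam) = 2 π (√(4 π lam))⁻¹`.
`int_kx`: again `integral_cexp_quadratic` (leading coefficient `-1 / (4 lam)`).
`norm_kap_le`: `intervalIntegral.norm_integral_le_of_norm_le_const`, `√(lam / π) * (√(4 π lam))⁻¹ = 1 / (2 π)`.
`tail_le`: for `n > M` put `y = log n ≥ 2 u`, `y ≥ 48 lam`; then `(y - u)^2 / (4 lam) ≥ y^2 / (16 lam) ≥ 3 y`, and
`Λ n ≤ log n ≤ n`, `1 ≤ √n`, so a term is at most `1 / n^2`; `∑ 1 / n^2 ≤ 2` (`sum_Ioc_inv_sq_le_sub` or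
`hasSum_zeta_two`). `head_le`: `y^2 / (4 lam) ≥ 3 y - 9 lam`. About 170 lines. -/

noncomputable section

open Complex MeasureTheory Finset Filter Topology Metric
open ArithmeticFunction hiding log
open scoped Real

namespace HooRT

variable {lam x v : ℝ}

theorem norm_kx (hl : 0 < lam) (x v : ℝ) :
    ‖kx lam x v‖ = (√(4 * π * lam))⁻¹ * Real.exp (-v ^ 2 / (4 * lam)) := by
  have _ := hl
  have e : I * x * v - v ^ 2 / (4 * lam) = ((-v ^ 2 / (4 * lam) : ℝ) : ℂ) + (x * v : ℝ) * I := by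
    push_cast
    ring
  rw [kx, norm_mul, norm_real, Real.norm_of_nonneg (by positivity), e, Complex.exp_add, norm_mul,
    norm_exp_ofReal, norm_exp_ofReal_mul_I, mul_one]

theorem continuous_kx (lam : ℝ) : Continuous fun q : ℝ × ℝ => kx lam q.1 q.2 := by
  unfold kx
  fun_prop

theorem norm_Gz (lam x v : ℝ) (z : ℂ) :
    ‖Gz lam x v z‖ = Real.exp (lam * z.re ^ 2 - lam * (z.im - x) ^ 2 + z.re * v) := by
  rw [Gz, norm_exp]
  congr 1
  simp [sq]
  ring

theorem differentiable_Gz (lam x v : ℝ) : Differentiable ℂ (Gz lam x v) := by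
  unfold Gz
  fun_prop

theorem Gau_line (lam x v c y t : ℝ) : Gz lam x v (c + t * I) * cexp (-(c + t * I) * y) =
    cexp (-(lam : ℂ) * t ^ 2 + (2 * lam * (c - I * x) + (v - y)) * I * t +
      (lam * (c - I * x) ^ 2 + c * (v - y))) := by
  rw [Gz, ← Complex.exp_add]
  congr 1
  linear_combination (lam * t ^ 2 : ℂ) * I_sq

theorem integrable_Gz (hl : 0 < lam) (x v c : ℝ) :
    Integrable fun t : ℝ => Gz lam x v (c + t * I) := by
  refine (integrable_cexp_quadratic (b := lam) (by simpa using hl) _ _).congr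
    (Eventually.of_forall fun t => (Gau_line lam x v c 0 t).symm.trans ?_)
  simp

theorem integral_norm_Gz (hl : 0 < lam) (x v c : ℝ) :
    ∫ t : ℝ, ‖Gz lam x v (c + t * I)‖ = Real.exp (lam * c ^ 2 + c * v) * √(π / lam) := by
  have _ := hl
  have e : ∀ t : ℝ, ‖Gz lam x v (c + t * I)‖ =
      Real.exp (lam * c ^ 2 + c * v) * Real.exp (-lam * (t - x) ^ 2) := fun t => by
    rw [norm_Gz, ← Real.exp_add]
    congr 1
    simp
    ring
  simp_rw [e]
  rw [integral_const_mul, integral_sub_right_eq_self (fun t => Real.exp (-lam * t ^ 2)),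
    integral_gaussian]

theorem gau_tail (hl : 0 < lam) {D : ℝ} (hD : 0 ≤ D) {S : Set ℝ} (hS : MeasurableSet S)
    (h : ∀ y ∈ S, D ≤ |y - x|) :
    ∫ y in S, Real.exp (-lam * (y - x) ^ 2) ≤ Real.exp (-lam * D ^ 2 / 2) * √(2 * π / lam) := by
  have i1 := (integrable_exp_neg_mul_sq hl).comp_sub_right x
  have i2 := ((integrable_exp_neg_mul_sq (half_pos hl)).comp_sub_right x).const_mul
    (Real.exp (-lam * D ^ 2 / 2))
  refine (setIntegral_mono_on i1.integrableOn i2.integrableOn hS fun y hy => ?_).trans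
    ((setIntegral_le_integral i2 (Eventually.of_forall fun y => by positivity)).trans (le_of_eq ?_))
  · rw [← Real.exp_add, Real.exp_le_exp]
    have h1 := pow_le_pow_left₀ hD (h y hy) 2
    rw [sq_abs] at h1
    linarith only [hl, h1, mul_nonneg_of_nonpos_of_nonpos (le_of_lt (Mathlib.Tactic.Linarith.sub_neg_of_lt hl)) (Mathlib.Tactic.Linarith.sub_nonpos_of_le h1)]
  · rw [integral_const_mul, integral_sub_right_eq_self (fun t => Real.exp (-(lam / 2) * t ^ 2)),
      integral_gaussian]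
    congr 2
    field_simp

theorem Gau_cpow {b : ℝ} (hb : 0 < b) :
    ((π : ℂ) / -(-(b : ℂ))) ^ (1 / 2 : ℂ) = ((√(π / b) : ℝ) : ℂ) := by
  rw [neg_neg, Real.sqrt_eq_rpow, ofReal_cpow (by positivity)]
  push_cast
  rfl

theorem Gau_sqrt (hl : 0 < lam) : √(4 * π * lam) = 2 * π * √(lam / π) := by
  rw [← Real.sqrt_sq (by positivity : 0 ≤ 2 * π), ← Real.sqrt_mul (by positivity)]
  congr 1
  field_simp
  norm_num

theorem line_Gz (hl : 0 < lam) (x v c y : ℝ) :
    ∫ t : ℝ, Gz lam x v (c + t * I) * cexp (-(c + t * I) * y) = 2 * π * kx lam x (v - y) := by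
  have h0 : (lam : ℂ) ≠ 0 := ofReal_ne_zero.2 hl.ne'
  have h1 : √(π / lam) = 2 * π * (√(4 * π * lam))⁻¹ := by
    rw [Gau_sqrt hl, mul_inv, mul_inv_cancel_left₀ (by positivity), ← Real.sqrt_inv, inv_div]
  simp_rw [Gau_line]
  rw [integral_cexp_quadratic (by simpa using hl), Gau_cpow hl, h1, kx, ← mul_assoc]
  congr 1
  · push_cast
    rfl
  · congr 1
    push_cast
    field_simp
    linear_combination (2 * lam * (c - I * x) + (v - y)) ^ 2 * I_sq

theorem Gau_int (lam x v y : ℝ) (z : ℂ) : cexp (z * y) * kx lam x (v - y) =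
    (((√(4 * π * lam))⁻¹ : ℝ) : ℂ) * cexp (-((4 * lam)⁻¹ : ℝ) * y ^ 2 +
      (z - I * x + 2 * v / (4 * lam)) * y + (I * x * v - v ^ 2 / (4 * lam))) := by
  rw [kx, mul_left_comm, ← Complex.exp_add]
  congr 2
  push_cast
  ring

theorem integrable_kx (hl : 0 < lam) (x v : ℝ) (z : ℂ) :
    Integrable fun y : ℝ => cexp (z * y) * kx lam x (v - y) := by
  simp_rw [Gau_int]
  exact (integrable_cexp_quadratic (by rw [ofReal_re]; positivity) _ _).const_mul _

theorem int_kx (hl : 0 < lam) (x v : ℝ) (z : ℂ) :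
    ∫ y : ℝ, cexp (z * y) * kx lam x (v - y) = Gz lam x v z := by
  have h0 : (lam : ℂ) ≠ 0 := ofReal_ne_zero.2 hl.ne'
  have h1 : (√(4 * π * lam))⁻¹ * √(π / (4 * lam)⁻¹) = 1 := by
    rw [div_inv_eq_mul, mul_left_comm, ← mul_assoc, inv_mul_cancel₀ (by positivity)]
  simp_rw [Gau_int]
  rw [integral_const_mul, integral_cexp_quadratic (by rw [neg_re, ofReal_re, neg_lt_zero]; positivity),
    Gau_cpow (by positivity), ← mul_assoc, ← ofReal_mul, h1, ofReal_one, one_mul, Gz]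
  congr 1
  push_cast
  field_simp
  ring

theorem norm_kap_le (hl : 0 < lam) (x0 : ℝ) {w : ℝ} (hw : 0 ≤ w) (r : ℝ) :
    ‖kap lam x0 w r‖ ≤ w / (2 * π) * Real.exp (-r ^ 2 / (4 * lam)) := by
  refine (intervalIntegral.norm_integral_le_of_norm_le_const
    (C := 1 / (2 * π) * Real.exp (-r ^ 2 / (4 * lam))) fun x _ => le_of_eq ?_).trans (le_of_eq ?_)
  · rw [norm_mul, norm_kx hl, norm_real, Real.norm_of_nonneg (Real.sqrt_nonneg _), Gau_sqrt hl]
    have : 0 < √(lam / π) := by positivity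
    field_simp
  · rw [add_sub_cancel_left, abs_of_nonneg hw]
    ring

theorem continuous_kap (lam x0 w : ℝ) : Continuous (kap lam x0 w) := by
  refine intervalIntegral.continuous_parametric_intervalIntegral_of_continuous'
    (f := fun r x : ℝ => ((√(lam / π) : ℝ) : ℂ) * kx lam x r) ?_ _ _
  unfold kx Function.uncurry
  fun_prop

theorem Gau_sum (s : Finset ℕ) (E : ℕ → ℝ) (a : ℝ) (h : ∀ n ∈ s, E n ≤ a - 3 * Real.log n) :
    ∑ n ∈ s, vonMangoldt n / √n * Real.exp (E n) ≤ 2 * Real.exp a := by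
  have h1 : ∑ n ∈ s, 1 / (n : ℝ) ^ 2 ≤ 2 :=
    (sum_le_hasSum s (fun _ _ => by positivity) hasSum_zeta_two).trans
      (by linarith only [Real.pi_lt_d2, Real.pi_pos, mul_pos_of_neg_of_neg (Mathlib.Tactic.Linarith.sub_neg_of_lt Real.pi_lt_d2) (Mathlib.Tactic.Linarith.sub_neg_of_lt Real.pi_pos)])
  refine le_trans (sum_le_sum fun n hn => ?_) ((sum_mul s _ _).symm.trans_le
    (mul_le_mul_of_nonneg_right h1 (Real.exp_pos a).le))
  rcases n.eq_zero_or_pos with rfl | h0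
  · simp
  have a1 : (1 : ℝ) ≤ n := Nat.one_le_cast.2 h0
  have a2 : vonMangoldt n / √n ≤ (n : ℝ) :=
    (div_le_self vonMangoldt_nonneg (Real.one_le_sqrt.2 a1)).trans
      (vonMangoldt_le_log.trans (Real.log_le_self n.cast_nonneg))
  refine (mul_le_mul a2 (Real.exp_le_exp.2 (h n hn)) (Real.exp_pos _).le n.cast_nonneg).trans
    (le_of_eq ?_)
  rw [Real.exp_sub, show 3 * Real.log n = (3 : ℕ) * Real.log n by norm_num, Real.exp_nat_mul,
    Real.exp_log (by linarith only [a1])]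
  field_simp

theorem tail_le (hl : 0 < lam) {u : ℝ} {M : ℕ} (hu : 2 * u ≤ Real.log M)
    (hM : 48 * lam ≤ Real.log M) (s : Finset ℕ) (hs : ∀ n ∈ s, M < n) :
    ∑ n ∈ s, vonMangoldt n / √n * Real.exp (-(Real.log n - u) ^ 2 / (4 * lam)) ≤ 2 := by
  refine (Gau_sum s _ 0 fun n hn => ?_).trans (by simp)
  have h0 : 0 < M := Nat.pos_of_ne_zero fun e => by
    rw [e, Nat.cast_zero, Real.log_zero] at hM
    linarith only [hl, hM]
  have h1 : Real.log M ≤ Real.log n :=
    Real.log_le_log (Nat.cast_pos.2 h0) (Nat.cast_le.2 (hs n hn).le)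
  generalize Real.log n = y at h1
  have h2 := pow_le_pow_left₀ (by linarith only [hl, hM, h1] : 0 ≤ y / 2) (by linarith only [hu, h1] : y / 2 ≤ y - u) 2
  rw [div_le_iff₀ (by positivity)]
  linarith only [h2, hM, h1, hl, mul_le_mul_of_nonneg_left (hM.trans h1) (by linarith : 0 ≤ y)]

theorem head_le (hl : 0 < lam) (s : Finset ℕ) :
    ∑ n ∈ s, vonMangoldt n / √n * Real.exp (-Real.log n ^ 2 / (4 * lam)) ≤
      2 * Real.exp (9 * lam) := by
  refine Gau_sum s _ _ fun n _ => ?_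
  rw [div_le_iff₀ (by positivity)]
  linarith only [sq_nonneg (Real.log n - 6 * lam), sq_nonneg (Real.log ↑n - (6 : ℝ) * lam)]

end HooRT
end
end

-- merged part: Pool.Agent.Work.MP_5d318d_nt.RT.Lin
section
/-! TASK RT Lin. Integrals on vertical lines.
`res_Gz`: for `re (z - z0) > 0`, `1 / (z - z0) = ∫ y in Ioi 0, exp (-(z - z0) y)` (`integral_cexp_neg_mul_Ioi`-type,
`integral_exp_mul_complex_Ioi`); Fubini (`integral_integral_swap`, the norm of the integrand is a product,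
`Integrable.mul_prod`) and `line_Gz` give `2 π ∫ y in Ioi 0, exp (z0 y) * kx (v - y)`; on the left line
`1 / (z - z0) = -∫ y in Iic 0, exp (-(z - z0) y)` (`integral_exp_mul_complex_Iic`); add up with `int_kx`.
`norm_LS_le`: `Λ n ≤ log n ≤ 2 √n`, or `sum_log_div_mul_pred_le`.
`line_LS`: `LSeries a s = ∑' n, term a s n`, `term a (2 + t I) n = a n / √n * exp (-(3/2 + t I) log n)` for `n ≠ 0`;
`hasSum_integral_of_summable_integral_norm` and `line_Gz`; then the tail `n > N` by `norm_kx`, `tail_le` with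
`u = |v|`, `M = N` (note `(v - y)^2 ≥ (y - |v|)^2` for `y ≥ |v|`), `2 (√(4 π lam))⁻¹ ≤ 1 / √lam`.
`line_LS'` is `line_LS` after `t ↦ -t`: `Gz lam x v (-z) = Gz lam (-x) (-v) z`, `kx lam (-x) (-r) = kx lam x r`.
`rect_le`: `Complex.integral_boundary_rect_eq_zero_of_differentiableOn`. About 220 lines. -/

noncomputable section

open Complex MeasureTheory Finset Filter Topology Metric
open ArithmeticFunction hiding log
open scoped Real

namespace HooRT

variable {lam : ℝ}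

theorem Lin_fub (hl : 0 < lam) (x v c : ℝ) (z0 : ℂ) {S : Set ℝ}
    (h : IntegrableOn (fun y : ℝ => cexp ((z0 - c) * y)) S) :
    ∫ t : ℝ, Gz lam x v (c + t * I) * ∫ y in S, cexp ((z0 - (c + t * I)) * y) =
      2 * π * ∫ y in S, cexp (z0 * y) * kx lam x (v - y) := by
  have hc := (differentiable_Gz lam x v).continuous
  simp only [← integral_const_mul]
  rw [integral_integral_swap (((integrable_Gz hl x v c).mul_prod h).mono
    (Continuous.aestronglyMeasurable (by unfold Function.uncurry; fun_prop))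
    (.of_forall fun q => by simp [Function.uncurry, norm_exp]))]
  refine integral_congr_ae (.of_forall fun y => ?_)
  simp only
  rw [mul_left_comm, ← line_Gz hl x v c y, ← integral_const_mul]
  refine integral_congr_ae (.of_forall fun t => ?_)
  simp only
  rw [mul_left_comm, ← Complex.exp_add]
  congr 2
  ring

theorem res_Gz (hl : 0 < lam) (x v : ℝ) {z0 : ℂ} (hz : |z0.re| ≤ 1 / 2) :
    (∫ t : ℝ, Gz lam x v (3 / 2 + t * I) / (3 / 2 + t * I - z0)) -
      ∫ t : ℝ, Gz lam x v (-(3 / 2) + t * I) / (-(3 / 2) + t * I - z0) =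
        2 * π * Gz lam x v z0 := by
  have hz' := abs_le.1 hz
  have h1 := Lin_fub hl x v (3 / 2) z0
    (integrableOn_exp_mul_complex_Ioi (by simp; linarith only [hz', hz'.2]) 0)
  have h2 := Lin_fub hl x v (-(3 / 2)) z0
    (integrableOn_exp_mul_complex_Iic (by simp; linarith only [hz', hz'.1]) 0)
  have e1 : ∀ t : ℝ, ∫ y in Set.Ioi (0 : ℝ), cexp ((z0 - ((3 / 2 : ℝ) + t * I)) * y) =
      (3 / 2 + t * I - z0)⁻¹ := fun t => by
    rw [integral_exp_mul_complex_Ioi (by simp; linarith only [hz', hz'.2]), ← neg_sub _ z0, neg_div_neg_eq]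
    simp
  have e2 : ∀ t : ℝ, ∫ y in Set.Iic (0 : ℝ), cexp ((z0 - ((-(3 / 2) : ℝ) + t * I)) * y) =
      -(-(3 / 2) + t * I - z0)⁻¹ := fun t => by
    rw [integral_exp_mul_complex_Iic (by simp; linarith only [hz', hz'.1]), ← neg_sub _ z0, div_neg]
    simp
  simp only [e1, e2, mul_neg, integral_neg] at h1 h2
  push_cast at h1 h2
  simp only [div_eq_mul_inv (Gz _ _ _ _)]
  rw [sub_eq_add_neg, h1, h2, ← mul_add, add_comm, ← Set.compl_Iic,
    integral_add_compl measurableSet_Iic (integrable_kx hl x v z0), int_kx hl]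

theorem Lin_sum (N : ℕ) : ∑ n ∈ range N, vonMangoldt n / (n : ℝ) ^ 2 ≤ 8 := by
  refine (sum_le_sum_of_subset_of_nonneg (t := insert 0 (insert 1 (Ioc 1 N))) (fun n hn => ?_)
    fun n _ _ => div_nonneg vonMangoldt_nonneg (sq_nonneg _)).trans ?_
  · simp only [mem_insert, mem_Ioc, mem_range] at hn ⊢
    omega
  rw [sum_insert (by simp), sum_insert (by simp), ArithmeticFunction.map_zero,
    vonMangoldt_apply_one, zero_div, zero_div, zero_add, zero_add]
  refine (sum_le_sum fun n hn => ?_).trans (Pool.Agent.Lib.ANT.sum_log_div_mul_pred_le N)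
  have h : (1 : ℝ) < n := by exact_mod_cast (mem_Ioc.1 hn).1
  exact div_le_div₀ (Real.log_nonneg h.le) vonMangoldt_le_log (by linarith only [h, mul_pos_of_neg_of_neg (Mathlib.Tactic.Linarith.sub_neg_of_lt h) (Mathlib.Tactic.Linarith.sub_neg_of_lt h)]) (by nlinarith)

theorem Lin_summ : Summable fun n : ℕ => vonMangoldt n / (n : ℝ) ^ 2 :=
  summable_of_sum_range_le (fun _ => div_nonneg vonMangoldt_nonneg (sq_nonneg _)) Lin_sum

theorem Lin_norm {a : ℕ → ℂ} (ha : ∀ m, ‖a m‖ ≤ vonMangoldt m) (t : ℝ) (n : ℕ) :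
    ‖LSeries.term a (2 + t * I) n‖ ≤ vonMangoldt n / (n : ℝ) ^ 2 := by
  rw [LSeries.norm_term_eq]
  split_ifs with h
  · simp [h]
  · simpa using div_le_div_of_nonneg_right (ha n) (sq_nonneg (n : ℝ))

theorem Lin_term (a : ℕ → ℂ) (t : ℝ) (n : ℕ) : LSeries.term a (2 + t * I) n =
    a n / ((√n : ℝ) : ℂ) * cexp (-((3 / 2 : ℝ) + t * I) * Real.log n) := by
  rcases eq_or_ne n 0 with rfl | h
  · simp
  have e : √n = Real.exp (Real.log n / 2) := by
    rw [Real.exp_half, Real.exp_log (by positivity)]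
  rw [LSeries.term_of_ne_zero h, cpow_def_of_ne_zero (Nat.cast_ne_zero.2 h), ← natCast_log, e,
    ofReal_exp, div_eq_mul_inv, div_eq_mul_inv (a n), ← Complex.exp_neg, ← Complex.exp_neg,
    mul_assoc, ← Complex.exp_add]
  congr 2
  push_cast
  ring

theorem Lin_cont (a : ℕ → ℂ) (n : ℕ) : Continuous fun t : ℝ => LSeries.term a (2 + t * I) n := by
  simp only [Lin_term]
  fun_prop

theorem norm_LS_le {a : ℕ → ℂ} (ha : ∀ m, ‖a m‖ ≤ vonMangoldt m) (t : ℝ) :
    ‖LSeries a (2 + t * I)‖ ≤ 8 :=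
  (tsum_of_norm_bounded Lin_summ.hasSum (Lin_norm ha t)).trans
    (Lin_summ.tsum_le_of_sum_range_le Lin_sum)

theorem continuous_LS {a : ℕ → ℂ} (ha : ∀ m, ‖a m‖ ≤ vonMangoldt m) :
    Continuous fun t : ℝ => LSeries a (2 + t * I) :=
  continuous_tsum (Lin_cont a) Lin_summ fun n t => Lin_norm ha t n

theorem line_LS (hl : 0 < lam) {a : ℕ → ℂ} (ha : ∀ m, ‖a m‖ ≤ vonMangoldt m) (x v : ℝ) {N : ℕ}
    (hv : 2 * |v| ≤ Real.log N) (hN : 48 * lam ≤ Real.log N) :
    ‖(∫ t : ℝ, Gz lam x v (3 / 2 + t * I) * LSeries a (2 + t * I)) -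
      2 * π * ∑ n ∈ Icc 1 N, a n / ((√n : ℝ) : ℂ) * kx lam x (v - Real.log n)‖ ≤
        2 * π / √lam := by
  have hc := (differentiable_Gz lam x v).continuous
  have H := hasSum_integral_of_dominated_convergence (μ := volume)
    (F := fun n (t : ℝ) => Gz lam x v ((3 / 2 : ℝ) + t * I) * LSeries.term a (2 + t * I) n)
    (f := fun t => Gz lam x v ((3 / 2 : ℝ) + t * I) * LSeries a (2 + t * I))
    (fun n t => ‖Gz lam x v ((3 / 2 : ℝ) + t * I)‖ * (vonMangoldt n / (n : ℝ) ^ 2))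
    (fun n => (Continuous.mul (by fun_prop) (Lin_cont a n)).aestronglyMeasurable)
    (fun n => .of_forall fun t => (norm_mul _ _).trans_le
      (mul_le_mul_of_nonneg_left (Lin_norm ha t n) (norm_nonneg _)))
    (.of_forall fun t => Lin_summ.mul_left _)
    (by simpa only [tsum_mul_left] using (integrable_Gz hl x v (3 / 2)).norm.mul_const _)
    (.of_forall fun t => (Lin_summ.of_norm_bounded (Lin_norm ha t)).hasSum.mul_left _)
  simp only [Lin_term, mul_left_comm (Gz _ _ _ _), integral_const_mul, line_Gz hl,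
    mul_left_comm _ (2 * π : ℂ)] at H
  push_cast at H
  rw [mul_sum, sum_subset (s₂ := range (N + 1)) (fun n hn => by
    simp only [mem_Icc, mem_range] at hn ⊢; omega) fun n h1 h2 => by
      simp only [mem_Icc, mem_range] at h1 h2
      simp [show n = 0 by omega]]
  refine le_of_tendsto (Tendsto.sub_const H _).norm
    ((eventually_ge_atTop (range (N + 1))).mono fun s hs => ?_)
  have s0 : 0 < √lam := Real.sqrt_pos.2 hl
  have s1 : 2 * √lam ≤ √(4 * π * lam) := Real.le_sqrt_of_sq_le (by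
    rw [mul_pow, Real.sq_sqrt hl.le]; linarith only [hl, Real.pi_gt_three, mul_pos_of_neg_of_neg (Mathlib.Tactic.Linarith.sub_neg_of_lt hl) (Mathlib.Tactic.Linarith.sub_neg_of_lt Real.pi_gt_three)])
  have k := tail_le hl hv hN (s \ range (N + 1)) fun n hn => by
    simpa using (mem_sdiff.1 hn).2
  rw [← sum_sdiff_eq_sub hs]
  refine (norm_sum_le_of_le _ (n := fun n => 2 * π * (√(4 * π * lam))⁻¹ * (vonMangoldt n / √n *
    Real.exp (-(Real.log n - |v|) ^ 2 / (4 * lam)))) fun n _ => ?_).trans ?_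
  · have q : (Real.log n - |v|) ^ 2 ≤ (v - Real.log n) ^ 2 := by
      linarith only [sq_abs v, mul_le_mul_of_nonneg_left (le_abs_self v) (Real.log_natCast_nonneg n)]
    rw [norm_mul, norm_mul _ (kx _ _ _), norm_kx hl, norm_div, norm_real,
      Real.norm_of_nonneg (Real.sqrt_nonneg _), mul_left_comm (_ / _), ← mul_assoc]
    refine mul_le_mul (by simp [abs_of_pos Real.pi_pos]) ?_ (by positivity) (by positivity)
    gcongr
    exact ha n
  · rw [← mul_sum]
    refine (mul_le_mul_of_nonneg_left k (by positivity)).trans ?_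
    rw [mul_assoc, div_eq_mul_inv]
    gcongr
    rw [inv_mul_le_iff₀ (by positivity), ← div_eq_mul_inv, le_div_iff₀ s0]
    exact s1

theorem line_LS' (hl : 0 < lam) {b : ℕ → ℂ} (hb : ∀ m, ‖b m‖ ≤ vonMangoldt m) (x v : ℝ) {N : ℕ}
    (hv : 2 * |v| ≤ Real.log N) (hN : 48 * lam ≤ Real.log N) :
    ‖(∫ t : ℝ, Gz lam x v (-(3 / 2) + t * I) * LSeries b (2 + (-t : ℝ) * I)) -
      2 * π * ∑ n ∈ Icc 1 N, b n / ((√n : ℝ) : ℂ) * kx lam x (v + Real.log n)‖ ≤
        2 * π / √lam := by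
  have H := line_LS hl hb (-x) (-v) (by rwa [abs_neg]) hN
  have e1 : ∀ t : ℝ, Gz lam (-x) (-v) (3 / 2 + (-t : ℝ) * I) = Gz lam x v (-(3 / 2) + t * I) :=
    fun t => congrArg cexp (by push_cast; ring)
  have e2 : ∀ r : ℝ, kx lam (-x) (-v - r) = kx lam x (v + r) := fun r =>
    congrArg (_ * cexp ·) (by push_cast; ring)
  rw [← integral_neg_eq_self] at H
  simpa only [e1, e2] using H

theorem rect_le {φ : ℂ → ℂ} {c1 c2 T S : ℝ} (hc : c1 ≤ c2) (hT : 0 ≤ T)
    (hφ : ∀ z : ℂ, c1 ≤ z.re → z.re ≤ c2 → |z.im| ≤ T → DifferentiableAt ℂ φ z)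
    (hS : ∀ z : ℂ, c1 ≤ z.re → z.re ≤ c2 → |z.im| = T → ‖φ z‖ ≤ S) :
    ‖(∫ t in (-T)..T, φ (c2 + t * I)) - ∫ t in (-T)..T, φ (c1 + t * I)‖ ≤ 2 * (c2 - c1) * S := by
  have H := integral_boundary_rect_eq_zero_of_differentiableOn φ ⟨c1, -T⟩ ⟨c2, T⟩ fun z hz => by
    rw [mem_reProdIm, Set.uIcc_of_le hc, Set.uIcc_of_le (by linarith)] at hz
    exact (hφ z hz.1.1 hz.1.2 (abs_le.2 hz.2)).differentiableWithinAt
  have k : ∀ y : ℝ, |y| = T → ‖∫ s in c1..c2, φ (s + y * I)‖ ≤ S * (c2 - c1) := fun y hy => by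
    rw [← abs_of_nonneg (sub_nonneg.2 hc)]
    refine intervalIntegral.norm_integral_le_of_norm_le_const fun s hs => ?_
    rw [Set.uIoc_of_le hc] at hs
    exact hS _ (by simpa using hs.1.le) (by simpa using hs.2) (by simpa using hy)
  rw [add_sub_assoc, ← smul_sub, add_eq_zero_iff_neg_eq, neg_sub] at H
  have e := congrArg norm H
  rw [norm_smul, norm_I, one_mul] at e
  refine e.symm.trans_le ((norm_sub_le _ _).trans ?_)
  linarith only [k, hT, k T (abs_of_nonneg hT), k (-T) ((abs_neg T).trans (abs_of_nonneg hT))]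

end HooRT
end
end

-- merged part: Pool.Agent.Work.MP_5d318d_nt.RT.Dbl
section
/-! TASK RT Dbl. Weights and double integrals.
A function `u` is `LB` if it is measurable and bounded on bounded sets. `Wt.integrable_mul`: `ψ * u` is bounded and
vanishes outside `Icc (-V) V` (`Measure.integrableOn_of_bounded`, `integrableOn_iff_integrable_of_support_subset`, or
`Integrable.mono'` with an indicator). `LB.inner`: `t ↦ ∫ y, φ y * u (t - y)` is measurable
(`StronglyMeasurable.integral_prod_right`) and bounded on bounded sets. `dbl_mono`, `dbl_add`, `dbl_smul`, `dbl_sum`,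
`dbl_const_le` follow. `dbl_neg`: Fubini (`integral_integral_swap`; the integrand is bounded with support in a
square). `dbl_scale`: substitute `y = t - v` (`integral_sub_left_eq_self`), Fubini, then
`∫ t, ψ (t / L) ψ ((t - v) / L) = L * ∫ x, ψ x * ψ (x + v / L)` (`integral_add_right_eq_self`, `integral_comp_div`) and
`v = α L` (`integral_comp_mul_right`). About 230 lines. -/

noncomputable section

open Complex MeasureTheory Finset Filter Topology Metric
open ArithmeticFunction hiding log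
open scoped Real

namespace HooRT

/-- Measurable and bounded on bounded sets. -/
structure LB (u : ℝ → ℝ) : Prop where
  meas : Measurable u
  bdd : ∀ V : ℝ, ∃ B : ℝ, ∀ x, |x| ≤ V → |u x| ≤ B

variable {ψ φ ψ' φ' u u' : ℝ → ℝ} {A V A' V' : ℝ}

theorem LB.of_le (hm : Measurable u) {B : ℝ} (h : ∀ x, |u x| ≤ B) : LB u :=
  ⟨hm, fun _ => ⟨B, fun x _ => h x⟩⟩

theorem LB.of_continuous (h : Continuous u) : LB u := by
  refine ⟨h.measurable, fun V => ?_⟩
  obtain ⟨B, hB⟩ := (isCompact_Icc (a := -V) (b := V)).exists_bound_of_continuousOn h.continuousOn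
  exact ⟨B, fun x hx => by simpa [Real.norm_eq_abs] using hB x (abs_le.mp hx)⟩

theorem LB.add (h : LB u) (h' : LB u') : LB fun x => u x + u' x := by
  refine ⟨h.meas.add h'.meas, fun V => ?_⟩
  obtain ⟨B, hB⟩ := h.bdd V
  obtain ⟨B', hB'⟩ := h'.bdd V
  exact ⟨B + B', fun x hx => (abs_add_le _ _).trans (add_le_add (hB x hx) (hB' x hx))⟩

theorem LB.mul (h : LB u) (h' : LB u') : LB fun x => u x * u' x := by
  refine ⟨h.meas.mul h'.meas, fun V => ?_⟩
  obtain ⟨B, hB⟩ := h.bdd V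
  obtain ⟨B', hB'⟩ := h'.bdd V
  refine ⟨B * B', fun x hx => ?_⟩
  rw [abs_mul]
  exact mul_le_mul (hB x hx) (hB' x hx) (abs_nonneg _) ((abs_nonneg _).trans (hB x hx))

theorem LB.const (c : ℝ) : LB fun _ => c := LB.of_continuous continuous_const

theorem LB.sum {ι : Type} (s : Finset ι) {F : ι → ℝ → ℝ} (h : ∀ i ∈ s, LB (F i)) :
    LB fun x => ∑ i ∈ s, F i x := by
  classical
  induction s using Finset.induction_on with
  | empty => simpa using LB.const 0
  | insert i s hi ih =>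
    simp only [Finset.sum_insert hi]
    exact (h i (Finset.mem_insert_self _ _)).add (ih fun j hj => h j (Finset.mem_insert_of_mem hj))

theorem LB.comp_sub (h : LB u) (t : ℝ) : LB fun y => u (t - y) := by
  refine ⟨h.meas.comp (measurable_const.sub measurable_id), fun V => ?_⟩
  obtain ⟨B, hB⟩ := h.bdd (|t| + V)
  exact ⟨B, fun x hx => hB _ ((abs_sub _ _).trans (by linarith))⟩

theorem LB.comp_mul (h : LB u) (c : ℝ) : LB fun y => u (y * c) := by
  refine ⟨h.meas.comp (measurable_id.mul measurable_const), fun V => ?_⟩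
  obtain ⟨B, hB⟩ := h.bdd (V * |c|)
  refine ⟨B, fun x hx => hB _ ?_⟩
  rw [abs_mul]
  exact mul_le_mul_of_nonneg_right hx (abs_nonneg _)

theorem LB.intervalIntegrable (h : LB u) (a b : ℝ) : IntervalIntegrable u volume a b := by
  obtain ⟨B, hB⟩ := h.bdd (|a| + |b|)
  rw [intervalIntegrable_iff]
  refine Measure.integrableOn_of_bounded (M := B) (by simp [Set.uIoc])
    h.meas.aestronglyMeasurable ?_
  refine (ae_restrict_iff' measurableSet_uIoc).2 (Eventually.of_forall fun x hx => ?_)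
  rw [Real.norm_eq_abs]
  apply hB
  have h1 := le_abs_self a
  have h2 := le_abs_self b
  have h3 := neg_abs_le a
  have h4 := neg_abs_le b
  have h5 := abs_nonneg a
  have h6 := abs_nonneg b
  rw [abs_le]
  rcases Set.mem_uIoc.mp hx with h7 | h7
  · constructor <;> linarith only [h2, h3, h4, h7, h1, h7.1, h7.2]
  · constructor <;> linarith only [h1, h3, h4, h7, h2, h7.1, h7.2]

theorem Wt.lb (hψ : Wt ψ A V) : LB ψ := by
  exact LB.of_le hψ.meas (B := A) fun x => by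
    rw [abs_of_nonneg (hψ.nn x)]
    exact hψ.le x

theorem Dbl_int (h : LB u) (hs : ∀ x, V < |x| → u x = 0) : Integrable u := by
  obtain ⟨B, hB⟩ := h.bdd V
  have h1 : IntegrableOn u (Set.Icc (-V) V) := by
    refine Measure.integrableOn_of_bounded (M := B) (by simp) h.meas.aestronglyMeasurable ?_
    refine (ae_restrict_iff' measurableSet_Icc).2 (Eventually.of_forall fun x hx => ?_)
    rw [Real.norm_eq_abs]
    exact hB x (abs_le.mpr hx)
  refine (integrableOn_iff_integrable_of_support_subset fun x hx => ?_).1 h1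
  by_contra hx'
  exact hx (hs x (not_le.mp fun h => hx' (abs_le.mp h)))

theorem Wt.integrable_mul (hψ : Wt ψ A V) (hu : LB u) : Integrable fun x => ψ x * u x := by
  exact Dbl_int (V := V) (hψ.lb.mul hu) fun x hx => by rw [hψ.supp x hx, zero_mul]

theorem Wt.integrable (hψ : Wt ψ A V) : Integrable ψ := by
  exact Dbl_int hψ.lb hψ.supp

theorem Wt.integral_le (hψ : Wt ψ A V) (hV : 0 ≤ V) : ∫ x, ψ x ≤ 2 * A * V := by
  have h1 : ∫ x, ψ x ≤ ∫ x, (Set.Icc (-V) V).indicator (fun _ => A) x := by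
    refine integral_mono hψ.integrable ((integrable_indicator_iff measurableSet_Icc).2
      (integrableOn_const (by simp))) fun x => ?_
    by_cases hx : x ∈ Set.Icc (-V) V
    · rw [Set.indicator_of_mem hx]
      exact hψ.le x
    · rw [Set.indicator_of_notMem hx]
      exact (hψ.supp x (not_le.mp fun h => hx (abs_le.mp h))).le
  rw [integral_indicator measurableSet_Icc, setIntegral_const, Real.volume_real_Icc_of_le
    (by linarith), smul_eq_mul] at h1
  linarith

theorem Wt.scale (hψ : Wt ψ A V) {L : ℝ} (hL : 0 < L) : Wt (fun t => ψ (t / L)) A (V * L) := by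
  refine ⟨hψ.meas.comp (measurable_id.div_const L), fun x => hψ.nn _, fun x => hψ.le _,
    fun x hx => hψ.supp _ ?_⟩
  rw [abs_div, abs_of_pos hL, lt_div_iff₀ hL]
  exact hx

theorem LB.inner (hφ : Wt φ A V) (hu : LB u) : LB fun t => ∫ y, φ y * u (t - y) := by
  have hm : StronglyMeasurable (Function.uncurry fun t y : ℝ => φ y * u (t - y)) :=
    ((hφ.meas.comp measurable_snd).mul
      (hu.meas.comp (measurable_fst.sub measurable_snd))).stronglyMeasurable
  refine ⟨hm.integral_prod_right.measurable, fun W => ?_⟩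
  obtain ⟨B, hB⟩ := hu.bdd (W + V)
  refine ⟨∫ y, φ y * B, fun t ht => ?_⟩
  refine abs_integral_le_integral_abs.trans (integral_mono_of_nonneg
    (ae_of_all _ fun y => abs_nonneg _) (hφ.integrable.mul_const B) (ae_of_all _ fun y => ?_))
  by_cases hy : V < |y|
  · simp [hφ.supp y hy]
  · show |φ y * u (t - y)| ≤ φ y * B
    rw [abs_mul, abs_of_nonneg (hφ.nn y)]
    exact mul_le_mul_of_nonneg_left
      (hB _ ((abs_sub _ _).trans (by linarith [not_lt.mp hy]))) (hφ.nn y)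

theorem dbl_mono (hψ : Wt ψ A V) (hφ : Wt φ A V) (hψ' : Wt ψ' A' V') (hφ' : Wt φ' A' V')
    (hu : LB u) (hu' : LB u') (h1 : ∀ x, ψ x ≤ ψ' x) (h2 : ∀ x, φ x ≤ φ' x)
    (h0 : ∀ v, 0 ≤ u' v) (h3 : ∀ v, |v| ≤ 2 * V → u v ≤ u' v) : dbl ψ φ u ≤ dbl ψ' φ' u' := by
  unfold dbl
  refine integral_mono (hψ.integrable_mul (LB.inner hφ hu)) (hψ'.integrable_mul (LB.inner hφ' hu'))
    fun t => ?_
  have hI : 0 ≤ ∫ y, φ' y * u' (t - y) :=
    integral_nonneg fun y => mul_nonneg (hφ'.nn y) (h0 _)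
  show ψ t * ∫ y, φ y * u (t - y) ≤ ψ' t * ∫ y, φ' y * u' (t - y)
  by_cases ht : V < |t|
  · rw [hψ.supp t ht, zero_mul]
    exact mul_nonneg (hψ'.nn t) hI
  · have h4 : ∫ y, φ y * u (t - y) ≤ ∫ y, φ' y * u' (t - y) := by
      refine integral_mono (hφ.integrable_mul (hu.comp_sub t)) (hφ'.integrable_mul (hu'.comp_sub t))
        fun y => ?_
      show φ y * u (t - y) ≤ φ' y * u' (t - y)
      by_cases hy : V < |y|
      · rw [hφ.supp y hy, zero_mul]
        exact mul_nonneg (hφ'.nn y) (h0 _)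
      · exact (mul_le_mul_of_nonneg_left (h3 _ ((abs_sub _ _).trans
          (by linarith only [ht, hy, not_lt.mp hy, not_lt.mp ht]))) (hφ.nn y)).trans
          (mul_le_mul_of_nonneg_right (h2 y) (h0 _))
    exact (mul_le_mul_of_nonneg_left h4 (hψ.nn t)).trans (mul_le_mul_of_nonneg_right (h1 t) hI)

theorem dbl_nonneg (hψ : Wt ψ A V) (hφ : Wt φ A V) (h0 : ∀ v, 0 ≤ u v) : 0 ≤ dbl ψ φ u := by
  exact integral_nonneg fun t => mul_nonneg (hψ.nn t)
    (integral_nonneg fun y => mul_nonneg (hφ.nn y) (h0 _))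

theorem dbl_add (hψ : Wt ψ A V) (hφ : Wt φ A V) (hu : LB u) (hu' : LB u') :
    dbl ψ φ (fun v => u v + u' v) = dbl ψ φ u + dbl ψ φ u' := by
  unfold dbl
  rw [← integral_add (hψ.integrable_mul (LB.inner hφ hu)) (hψ.integrable_mul (LB.inner hφ hu'))]
  refine integral_congr_ae (ae_of_all _ fun t => ?_)
  show ψ t * ∫ y, φ y * (u (t - y) + u' (t - y)) =
    (ψ t * ∫ y, φ y * u (t - y)) + ψ t * ∫ y, φ y * u' (t - y)
  rw [← mul_add, ← integral_add (hφ.integrable_mul (hu.comp_sub t))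
    (hφ.integrable_mul (hu'.comp_sub t))]
  simp only [mul_add]

theorem dbl_smul (ψ φ u : ℝ → ℝ) (c : ℝ) : dbl ψ φ (fun v => c * u v) = c * dbl ψ φ u := by
  unfold dbl
  rw [← integral_const_mul]
  refine integral_congr_ae (ae_of_all _ fun t => ?_)
  show ψ t * ∫ y, φ y * (c * u (t - y)) = c * (ψ t * ∫ y, φ y * u (t - y))
  have h1 : ∀ y, φ y * (c * u (t - y)) = c * (φ y * u (t - y)) := fun y => by ring
  simp only [h1, integral_const_mul]
  ring

theorem dbl_sum (hψ : Wt ψ A V) (hφ : Wt φ A V) {ι : Type} (s : Finset ι) {F : ι → ℝ → ℝ}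
    (h : ∀ i ∈ s, LB (F i)) :
    dbl ψ φ (fun v => ∑ i ∈ s, F i v) = ∑ i ∈ s, dbl ψ φ (F i) := by
  classical
  induction s using Finset.induction_on with
  | empty => simp [dbl]
  | insert i s hi ih =>
    simp only [Finset.sum_insert hi]
    have h2 : ∀ j ∈ s, LB (F j) := fun j hj => h j (Finset.mem_insert_of_mem hj)
    rw [dbl_add hψ hφ (h i (Finset.mem_insert_self _ _)) (LB.sum s h2), ih h2]

theorem Dbl_prod (hψ : Wt ψ A V) (hφ : Wt φ A' V') {F : ℝ × ℝ → ℝ} (hF : Measurable F) {B : ℝ}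
    (hB : ∀ x y, |x| ≤ V → |y| ≤ V' → |F (x, y)| ≤ B) :
    Integrable (fun p : ℝ × ℝ => ψ p.1 * φ p.2 * F p) (volume.prod volume) := by
  refine Integrable.mono' ((hψ.integrable.mul_prod hφ.integrable).mul_const B)
    (((hψ.meas.comp measurable_fst).mul (hφ.meas.comp measurable_snd)).mul
      hF).aestronglyMeasurable (ae_of_all _ fun p => ?_)
  obtain ⟨x, y⟩ := p
  show ‖ψ x * φ y * F (x, y)‖ ≤ ψ x * φ y * B
  by_cases hx : V < |x|
  · simp [hψ.supp x hx]
  by_cases hy : V' < |y|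
  · simp [hφ.supp y hy]
  have h1 : 0 ≤ ψ x * φ y := mul_nonneg (hψ.nn x) (hφ.nn y)
  rw [Real.norm_eq_abs, abs_mul, abs_of_nonneg h1]
  exact mul_le_mul_of_nonneg_left (hB x y (not_lt.mp hx) (not_lt.mp hy)) h1

theorem dbl_neg (hψ : Wt ψ A V) (hφ : Wt φ A V) (hu : LB u) :
    dbl ψ φ (fun v => u (-v)) = dbl φ ψ u := by
  unfold dbl
  obtain ⟨B, hB⟩ := hu.bdd (V + V)
  have h1 : Integrable (Function.uncurry fun t y : ℝ => ψ t * φ y * u (y - t))
      (volume.prod volume) :=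
    Dbl_prod hψ hφ (F := fun p => u (p.2 - p.1))
      (hu.meas.comp (measurable_snd.sub measurable_fst)) (B := B)
      fun x y hx hy => hB _ ((abs_sub _ _).trans (add_le_add hy hx))
  have h2 := integral_integral_swap h1
  calc ∫ t, ψ t * ∫ y, φ y * u (-(t - y)) = ∫ t, ∫ y, ψ t * φ y * u (y - t) := by
        refine integral_congr_ae (ae_of_all _ fun t => ?_)
        show ψ t * ∫ y, φ y * u (-(t - y)) = ∫ y, ψ t * φ y * u (y - t)
        rw [← integral_const_mul]
        simp only [neg_sub, mul_assoc]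
    _ = ∫ y, ∫ t, ψ t * φ y * u (y - t) := h2
    _ = ∫ y, φ y * ∫ t, ψ t * u (y - t) := by
        refine integral_congr_ae (ae_of_all _ fun y => ?_)
        show ∫ t, ψ t * φ y * u (y - t) = φ y * ∫ t, ψ t * u (y - t)
        rw [← integral_const_mul]
        refine integral_congr_ae (ae_of_all _ fun t => ?_)
        show ψ t * φ y * u (y - t) = φ y * (ψ t * u (y - t))
        ring

/-- Bound by the integral of `u`. -/
theorem dbl_le (hψ : Wt ψ A V) (hφ : Wt φ A V) (hV : 0 ≤ V) (hu : LB u) (hi : Integrable u)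
    (h0 : ∀ v, 0 ≤ u v) : dbl ψ φ u ≤ 2 * A * V * (A * ∫ v, u v) := by
  have hA := hψ.A0
  have hI : 0 ≤ A * ∫ v, u v := mul_nonneg hA (integral_nonneg h0)
  have h1 : ∀ t, ∫ y, φ y * u (t - y) ≤ A * ∫ v, u v := fun t => by
    rw [← integral_sub_left_eq_self u volume t, ← integral_const_mul]
    exact integral_mono (hφ.integrable_mul (hu.comp_sub t)) ((hi.comp_sub_left t).const_mul A)
      fun y => mul_le_mul_of_nonneg_right (hφ.le y) (h0 _)
  calc dbl ψ φ u ≤ ∫ t, ψ t * (A * ∫ v, u v) :=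
        integral_mono (hψ.integrable_mul (LB.inner hφ hu)) (hψ.integrable.mul_const _)
          fun t => mul_le_mul_of_nonneg_left (h1 t) (hψ.nn t)
    _ = (∫ t, ψ t) * (A * ∫ v, u v) := integral_mul_const _ _
    _ ≤ 2 * A * V * (A * ∫ v, u v) := mul_le_mul_of_nonneg_right (hψ.integral_le hV) hI

/-- The autocorrelation is a weight. -/
theorem Wt.auto (hψ : Wt ψ A V) (hV : 0 ≤ V) :
    Wt (fun α => ∫ x, ψ x * ψ (x + α)) (2 * A ^ 2 * V) (2 * V) := by
  have hm : StronglyMeasurable (Function.uncurry fun α x : ℝ => ψ x * ψ (x + α)) :=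
    ((hψ.meas.comp measurable_snd).mul
      (hψ.meas.comp (measurable_snd.add measurable_fst))).stronglyMeasurable
  refine ⟨hm.integral_prod_right.measurable,
    fun α => integral_nonneg fun x => mul_nonneg (hψ.nn _) (hψ.nn _), fun α => ?_,
    fun α hα => ?_⟩
  · calc ∫ x, ψ x * ψ (x + α) ≤ ∫ x, ψ x * A :=
          integral_mono_of_nonneg (ae_of_all _ fun x => mul_nonneg (hψ.nn _) (hψ.nn _))
            (hψ.integrable.mul_const A)
            (ae_of_all _ fun x => mul_le_mul_of_nonneg_left (hψ.le _) (hψ.nn x))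
      _ = (∫ x, ψ x) * A := integral_mul_const _ _
      _ ≤ 2 * A * V * A := mul_le_mul_of_nonneg_right (hψ.integral_le hV) hψ.A0
      _ = 2 * A ^ 2 * V := by ring
  · have h1 : ∀ x, ψ x * ψ (x + α) = 0 := fun x => by
      by_cases hx : V < |x|
      · rw [hψ.supp x hx, zero_mul]
      · have h2 : |α| ≤ |x + α| + |x| := by
          have h3 := abs_sub (x + α) x
          rwa [add_sub_cancel_left] at h3
        rw [hψ.supp (x + α) (by linarith only [hα, hx, h2, not_lt.mp hx]), mul_zero]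
    simp only [h1, integral_zero]

theorem Dbl_swap (hψ : Wt ψ A V) (hu : LB u) :
    dbl ψ ψ u = ∫ v, (∫ t, ψ t * ψ (t - v)) * u v := by
  unfold dbl
  obtain ⟨B, hB⟩ := hu.bdd (2 * V)
  have hχ : Wt (fun v : ℝ => if |v| ≤ 2 * V then (1 : ℝ) else 0) 1 (2 * V) := by
    refine ⟨Measurable.ite (measurableSet_le continuous_abs.measurable measurable_const)
      measurable_const measurable_const, fun x => ?_, fun x => ?_, fun x hx => ?_⟩
    · split_ifs <;> norm_num
    · split_ifs <;> norm_num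
    · rw [if_neg (not_le.mpr hx)]
  have h0 := Dbl_prod hψ hχ (F := fun p => ψ (p.1 - p.2) * u p.2)
    ((hψ.meas.comp (measurable_fst.sub measurable_snd)).mul (hu.meas.comp measurable_snd))
    (B := A * B) fun x y _ hy => by
      show |ψ (x - y) * u y| ≤ A * B
      rw [abs_mul, abs_of_nonneg (hψ.nn _)]
      exact mul_le_mul (hψ.le _) (hB y hy) (abs_nonneg _) hψ.A0
  have h1 : Integrable (Function.uncurry fun t v : ℝ => ψ t * ψ (t - v) * u v)
      (volume.prod volume) := by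
    refine h0.congr (ae_of_all _ fun p => ?_)
    obtain ⟨t, v⟩ := p
    show ψ t * (if |v| ≤ 2 * V then (1 : ℝ) else 0) * (ψ (t - v) * u v) = ψ t * ψ (t - v) * u v
    split_ifs with hv
    · ring
    · by_cases ht : V < |t|
      · rw [hψ.supp t ht]
        ring
      · have h2 : |v| ≤ |t| + |t - v| := by
          have h3 := abs_sub t (t - v)
          rwa [sub_sub_cancel] at h3
        rw [hψ.supp (t - v) (by linarith [not_lt.mp ht, not_le.mp hv])]
        ring
  have h2 := integral_integral_swap h1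
  calc ∫ t, ψ t * ∫ y, ψ y * u (t - y) = ∫ t, ∫ v, ψ t * ψ (t - v) * u v := by
        refine integral_congr_ae (ae_of_all _ fun t => ?_)
        show ψ t * ∫ y, ψ y * u (t - y) = ∫ v, ψ t * ψ (t - v) * u v
        rw [← integral_sub_left_eq_self (fun y => ψ y * u (t - y)) volume t, ← integral_const_mul]
        simp only [sub_sub_cancel, mul_assoc]
    _ = ∫ v, ∫ t, ψ t * ψ (t - v) * u v := h2
    _ = ∫ v, (∫ t, ψ t * ψ (t - v)) * u v := by
        refine integral_congr_ae (ae_of_all _ fun v => ?_)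
        exact integral_mul_const _ _

theorem dbl_scale (hψ : Wt ψ A V) (hu : LB u) {L : ℝ} (hL : 0 < L) :
    dbl (fun t => ψ (t / L)) (fun t => ψ (t / L)) u =
      L ^ 2 * ∫ α, (∫ x, ψ x * ψ (x + α)) * u (α * L) := by
  rw [Dbl_swap (hψ.scale hL) hu]
  have h1 : ∀ v, ∫ t, ψ (t / L) * ψ ((t - v) / L) = L * ∫ x, ψ x * ψ (x + v / L) := fun v => by
    have h2 := Measure.integral_comp_div (fun x => ψ x * ψ (x + v / L)) L
    rw [abs_of_pos hL, smul_eq_mul] at h2
    rw [← h2, ← integral_add_right_eq_self (fun t => ψ (t / L) * ψ ((t - v) / L)) v]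
    refine integral_congr_ae (ae_of_all _ fun s => ?_)
    show ψ ((s + v) / L) * ψ ((s + v - v) / L) = ψ (s / L) * ψ (s / L + v / L)
    rw [add_sub_cancel_right, add_div, mul_comm]
  have h3 := Measure.integral_comp_div (fun α => (∫ x, ψ x * ψ (x + α)) * u (α * L)) L
  rw [abs_of_pos hL, smul_eq_mul] at h3
  rw [sq, mul_assoc, ← h3, ← integral_const_mul]
  refine integral_congr_ae (ae_of_all _ fun v => ?_)
  show (∫ t, ψ (t / L) * ψ ((t - v) / L)) * u v =
    L * ((∫ x, ψ x * ψ (x + v / L)) * u (v / L * L))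
  rw [h1 v, div_mul_cancel₀ v hL.ne', mul_assoc]

end HooRT
end
end

-- merged part: Pool.Agent.Work.MP_5d318d_nt.RT.AP
section
/-! TASK RT AP. The two prime sums against the truncated exponential.
`θ = exp (-C / 2)`. `P_eq`: termwise, `1 / √n * exp (-(v - log n) / 2) = exp (-v / 2)`; cases on `log n ≤ v - C`,
`log n ≤ v`. `ap_P`: `sq_add_le` with this `θ` (`(1 + 1/θ) θ^2 = θ + θ^2`), `intervalIntegral.integral_comp_sub_right`,
`intervalIntegral.integral_mono_interval`.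
`allpass`: `z v = exp (v / 2) (U (v + C) - U v)`, `U v = ∫ s in 0..v, E s exp (-s / 2)`, is continuous with right
derivative `z / 2 - α`, `α v = E v - θ E (v + C)` (`intervalIntegral.integral_hasDerivWithinAt_right` with the filters
`𝓝[≥] v`, `𝓝[>] v`); `‖z‖^2` has the right derivative `‖z - α‖^2 - ‖α‖^2`;
`intervalIntegral.integral_eq_sub_of_hasDeriv_right_of_le`. So `∫ ‖z - α‖^2 ≤ ∫ ‖α‖^2 + ‖z v1‖^2`, and
`‖z v1‖^2 ≤ ∫_{v1}^{v1 + C} ‖E‖^2` (Cauchy-Schwarz; e.g. from `0 ≤ ∫ (‖E s‖ - m)^2 exp (v1 - s)`-type, or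
`2 ‖E s‖ m e^{(v1 - s)/2} ≤ ‖E s‖^2 + m^2 e^{v1 - s}` with `m = ‖z v1‖`).
`R_eq`: for `v`, `v + C` not of the form `log n`, termwise
`1_{v < log n ≤ v + C} / n = e^{-(v+C)} 1_{log n ≤ v + C} - e^{-v} 1_{log n ≤ v} + ∫_v^{v+C} 1_{log n ≤ s} e^{-s}`.
`ap_R`: the exceptional set is finite, `intervalIntegral.integral_congr_ae`. About 260 lines. -/

noncomputable section

open Complex MeasureTheory Finset Filter Topology Metric
open ArithmeticFunction hiding log
open scoped Real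

namespace HooRT

variable {a : ℕ → ℂ} {N : ℕ} {C : ℝ}

/-- Measurable and bounded on bounded sets, complex values. -/
def AP_B (F : ℝ → ℂ) : Prop := Measurable F ∧ LB fun v => ‖F v‖

theorem AP_B.lb {F : ℝ → ℂ} (h : AP_B F) : LB fun v => ‖F v‖ ^ 2 := by
  simpa only [sq] using h.2.mul h.2

theorem AP_of_le {F : ℝ → ℂ} (hm : Measurable F) {u : ℝ → ℝ} (hu : LB u) (h : ∀ v, ‖F v‖ ≤ u v) :
    AP_B F :=
  ⟨hm, hm.norm, fun V => (hu.bdd V).imp fun _ hB x hx =>
    (abs_norm _).trans_le ((h x).trans ((le_abs_self _).trans (hB x hx)))⟩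

theorem AP_cont {F : ℝ → ℂ} (h : Continuous F) : AP_B F :=
  ⟨h.measurable, LB.of_continuous h.norm⟩

theorem AP_B.sub {F G : ℝ → ℂ} (h : AP_B F) (k : AP_B G) : AP_B fun v => F v - G v :=
  AP_of_le (h.1.sub k.1) (h.2.add k.2) fun _ => norm_sub_le _ _

theorem AP_B.mul {F G : ℝ → ℂ} (h : AP_B F) (k : AP_B G) : AP_B fun v => F v * G v :=
  AP_of_le (h.1.mul k.1) (h.2.mul k.2) fun _ => norm_mul_le _ _

theorem AP_B.shift {F : ℝ → ℂ} (h : AP_B F) (c : ℝ) : AP_B fun v => F (v + c) :=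
  AP_of_le (h.1.comp (measurable_add_const c)) ((h.2.comp_sub c).comp_mul (-1)) fun v => by
    simp [add_comm]

theorem AP_B.ii {F : ℝ → ℂ} (h : AP_B F) (x y : ℝ) : IntervalIntegrable F volume x y :=
  (h.2.intervalIntegrable x y).mono_fun' h.1.aestronglyMeasurable (Eventually.of_forall fun _ => le_rfl)

theorem AP_step (L : ℝ) (c : ℂ) : AP_B fun v => if L ≤ v then c else 0 :=
  AP_of_le (Measurable.ite measurableSet_Ici measurable_const measurable_const) (LB.const ‖c‖)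
    fun v => by split_ifs <;> simp

theorem AP_Ev (a : ℕ → ℂ) (N : ℕ) : AP_B (Ev a N) :=
  (AP_cont (by fun_prop)).mul (AP_of_le (Finset.measurable_sum _ fun n _ => (AP_step _ (a n)).1)
    (LB.sum _ fun n _ => (AP_step _ (a n)).2) fun _ => norm_sum_le _ _)

theorem AP_sqrt {n : ℕ} (hn : n ∈ Icc 1 N) : ((√n : ℝ) : ℂ) = cexp (Real.log n / 2) := by
  have : (0 : ℝ) < n := by exact_mod_cast (mem_Icc.1 hn).1
  nth_rw 1 [← Real.exp_log this]
  rw [← Real.exp_half]
  push_cast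
  rfl

theorem AP_two {E : ℝ → ℂ} (h : AP_B E) {θ : ℝ} (hθ : 0 < θ) (c : ℝ) {v0 v1 : ℝ} (hv : v0 ≤ v1) :
    ∫ v in v0..v1, ‖E v - θ * E (v + c)‖ ^ 2 ≤ (1 + θ) * (∫ v in v0..v1, ‖E v‖ ^ 2) +
      (θ + θ ^ 2) * ∫ v in v0 + c..v1 + c, ‖E v‖ ^ 2 := by
  have i1 := (h.lb.intervalIntegrable v0 v1).const_mul (1 + θ)
  have i2 := ((h.shift c).lb.intervalIntegrable v0 v1).const_mul (θ + θ ^ 2)
  rw [← intervalIntegral.integral_comp_add_right (fun v => ‖E v‖ ^ 2),
    ← intervalIntegral.integral_const_mul, ← intervalIntegral.integral_const_mul,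
    ← intervalIntegral.integral_add i1 i2]
  refine intervalIntegral.integral_mono_on hv ((h.sub ((AP_cont continuous_const).mul
    (h.shift c))).lb.intervalIntegrable _ _) (i1.add i2) fun v _ => ?_
  refine (sq_add_le hθ (norm_nonneg _) (norm_sub_le _ _)).trans (le_of_eq ?_)
  rw [norm_mul, norm_real, Real.norm_of_nonneg hθ.le]
  field_simp
  ring

theorem AP_mono {E : ℝ → ℂ} (h : AP_B E) {x y x' y' : ℝ} (h1 : x' ≤ x) (h2 : x ≤ y) (h3 : y ≤ y') :
    ∫ v in x..y, ‖E v‖ ^ 2 ≤ ∫ v in x'..y', ‖E v‖ ^ 2 :=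
  intervalIntegral.integral_mono_interval h1 h2 h3 (Eventually.of_forall fun _ => sq_nonneg _)
    (h.lb.intervalIntegrable _ _)

theorem measurable_Ev (a : ℕ → ℂ) (N : ℕ) : Measurable (Ev a N) := by
  exact (AP_Ev a N).1

theorem lb_Ev (a : ℕ → ℂ) (N : ℕ) : LB fun v => ‖Ev a N v‖ ^ 2 := by
  exact (AP_Ev a N).lb

theorem Ev_right (a : ℕ → ℂ) (N : ℕ) (v : ℝ) : ContinuousWithinAt (Ev a N) (Set.Ioi v) v := by
  refine ContinuousWithinAt.mul (Continuous.continuousWithinAt (by fun_prop))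
    (tendsto_finsetSum _ fun n _ => tendsto_const_nhds.congr' ?_)
  by_cases h : Real.log n ≤ v
  · filter_upwards [self_mem_nhdsWithin] with y hy
    rw [if_pos h, if_pos (h.trans (le_of_lt hy))]
  · filter_upwards [mem_nhdsWithin_of_mem_nhds (Iio_mem_nhds (not_le.1 h))] with y hy
    rw [if_neg h, if_neg (not_le.2 hy)]

theorem P_eq (hC : 0 ≤ C) (v : ℝ) :
    ∑ n ∈ Icc 1 N, a n / ((√n : ℝ) : ℂ) * eta C (v - Real.log n) =
      Ev a N v - (Real.exp (-C / 2) : ℝ) * Ev a N (v - C) := by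
  have e : ((Real.exp (-C / 2) : ℝ) : ℂ) * cexp (-((v - C : ℝ) : ℂ) / 2) = cexp (-v / 2) := by
    push_cast
    rw [← exp_add]
    congr 1
    ring
  rw [Ev, Ev, ← mul_assoc, e, ← mul_sub, ← sum_sub_distrib, mul_sum]
  refine sum_congr rfl fun n hn => ?_
  rw [eta, AP_sqrt hn]
  by_cases h1 : Real.log n ≤ v - C
  · rw [if_neg (fun h => by linarith only [h1, h, h.2]), if_pos h1, if_pos (by linarith)]
    simp
  by_cases h2 : Real.log n ≤ v
  · rw [if_pos ⟨by linarith only [h2], by linarith⟩, if_pos h2, if_neg h1, sub_zero, div_eq_mul_inv,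
      ← exp_neg, mul_assoc, ← exp_add, mul_comm]
    congr 2
    push_cast
    ring
  · rw [if_neg (fun h => by linarith [h.1]), if_neg h1, if_neg h2]
    simp

theorem ap_P (hC : 0 < C) {v0 v1 : ℝ} (hv : v0 ≤ v1) :
    ∫ v in v0..v1, ‖∑ n ∈ Icc 1 N, a n / ((√n : ℝ) : ℂ) * eta C (v - Real.log n)‖ ^ 2 ≤
      (1 + Real.exp (-C / 2)) ^ 2 * ∫ v in v0 - C..v1, ‖Ev a N v‖ ^ 2 := by
  simp only [P_eq hC.le, sub_eq_add_neg _ C]
  have θ0 := Real.exp_pos (-C / 2)
  have h1 := AP_mono (AP_Ev a N) (x' := v0 + -C) (by linarith only [hC]) hv le_rfl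
  have h2 := AP_mono (AP_Ev a N) (x := v0 + -C) (y := v1 + -C) (y' := v1) le_rfl (by linarith)
    (by linarith)
  refine (AP_two (AP_Ev a N) θ0 (-C) hv).trans ((add_le_add (mul_le_mul_of_nonneg_left h1
    (by positivity)) (mul_le_mul_of_nonneg_left h2 (by positivity))).trans (le_of_eq (by ring)))

theorem AP_cs {E : ℝ → ℂ} (h : AP_B E) (hC : 0 < C) (v : ℝ) :
    ‖∫ s in v..v + C, E s * cexp ((v - s) / 2)‖ ^ 2 ≤ ∫ s in v..v + C, ‖E s‖ ^ 2 := by
  set m := ‖∫ s in v..v + C, E s * cexp ((v - s) / 2)‖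
  have m0 : 0 ≤ m := norm_nonneg _
  have hv : v ≤ v + C := by linarith
  have b := h.mul (AP_cont (F := fun s : ℝ => cexp ((v - s) / 2)) (by fun_prop))
  have h1 : m ≤ ∫ s in v..v + C, ‖E s * cexp ((v - s) / 2)‖ :=
    intervalIntegral.norm_integral_le_integral_norm hv
  have i1 := h.lb.intervalIntegrable v (v + C)
  have i2 : IntervalIntegrable (fun s => m ^ 2 * Real.exp (v - s)) volume v (v + C) :=
    Continuous.intervalIntegrable (by fun_prop) _ _
  have h2 := intervalIntegral.integral_mono_on hv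
    ((b.2.intervalIntegrable v (v + C)).const_mul (2 * m)) (i1.add i2) fun s _ => by
      have e : Real.exp (v - s) = Real.exp ((v - s) / 2) ^ 2 := by
        rw [← Real.exp_nat_mul]
        congr 1
        push_cast
        ring
      have e' : ‖cexp ((v - s) / 2)‖ = Real.exp ((v - s) / 2) := by
        rw [← norm_exp_ofReal]
        push_cast
        rfl
      rw [norm_mul, e, e']
      linarith only [sq_nonneg (‖E s‖ - m * Real.exp ((v - s) / 2)), sq_nonneg ((1 : ℝ) * ‖E s‖ - (1 : ℝ) * m * ((1 : ℝ) * rexp ((v - s) / (2 : ℝ))))]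
  rw [intervalIntegral.integral_const_mul, intervalIntegral.integral_add i1 i2,
    intervalIntegral.integral_const_mul, intervalIntegral.integral_comp_sub_left Real.exp,
    integral_exp, sub_self, Real.exp_zero] at h2
  linarith only [h2, h1, m0, Real.exp_pos (v - (v + C)), mul_le_mul_of_nonneg_left h1 m0, sq_nonneg m, mul_nonneg_of_nonpos_of_nonpos (Mathlib.Tactic.Linarith.sub_nonpos_of_le (sq_nonneg m)) (le_of_lt (Mathlib.Tactic.Linarith.sub_neg_of_lt (Real.exp_pos (v - (v + C)))))]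

theorem allpass {E : ℝ → ℂ} (hm : Measurable E) (hE : LB fun v => ‖E v‖ ^ 2)
    (hr : ∀ v, ContinuousWithinAt E (Set.Ioi v) v) (hC : 0 < C) {v0 v1 : ℝ} (hv : v0 ≤ v1) :
    ∫ v in v0..v1, ‖(∫ s in v..v + C, E s * cexp ((v - s) / 2)) -
        (E v - (Real.exp (-C / 2) : ℝ) * E (v + C))‖ ^ 2 ≤
      (1 + Real.exp (-C / 2)) ^ 2 * ∫ v in v0..v1 + C, ‖E v‖ ^ 2 := by
  have h : AP_B E := AP_of_le hm ((LB.const 1).add hE) fun v => by (refine le_of_not_gt fun h_nl => ?_; linarith only [h_nl, norm_nonneg (E v), sq_nonneg ‖E v‖, mul_nonneg_of_nonpos_of_nonpos (Mathlib.Tactic.Linarith.sub_nonpos_of_le (sq_nonneg ‖E v‖)) (Mathlib.Tactic.Linarith.sub_nonpos_of_le (sq_nonneg ‖E v‖)), mul_nonneg_of_nonpos_of_nonpos (Mathlib.Tactic.Linarith.sub_nonpos_of_le (sq_nonneg ‖E v‖)) (le_of_lt (Mathlib.Tactic.Linarith.sub_neg_of_lt h_nl)), mul_pos_of_neg_of_neg (Mathlib.Tactic.Linarith.sub_neg_of_lt h_nl) (Mathlib.Tactic.Linarith.sub_neg_of_lt h_nl)])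
  have b := h.mul (AP_cont (F := fun s : ℝ => cexp (-s / 2)) (by fun_prop))
  have θ0 := Real.exp_pos (-C / 2)
  set U : ℝ → ℂ := fun v => ∫ s in (0 : ℝ)..v, E s * cexp (-s / 2)
  set z : ℝ → ℂ := fun v => cexp (v / 2) * (U (v + C) - U v) with hz
  have ez (v : ℝ) : ∫ s in v..v + C, E s * cexp ((v - s) / 2) = z v := by
    simp only [hz, U]
    rw [intervalIntegral.integral_interval_sub_left (b.ii _ _) (b.ii _ _),
      ← intervalIntegral.integral_const_mul]
    congr 1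
    ext s
    rw [mul_left_comm, ← exp_add]
    congr 2
    ring
  have cU : Continuous U := intervalIntegral.continuous_primitive b.ii 0
  have cz : Continuous z := by fun_prop
  have dU (v : ℝ) : HasDerivWithinAt U (E v * cexp (-v / 2)) (Set.Ici v) v :=
    intervalIntegral.integral_hasDerivWithinAt_right (t := Set.Ioi v) (b.ii _ _)
      b.1.stronglyMeasurable.stronglyMeasurableAtFilter
      ((hr v).mul (Continuous.continuousWithinAt (by fun_prop)))
  set α : ℝ → ℂ := fun v => E v - (Real.exp (-C / 2) : ℝ) * E (v + C) with hα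
  have bα : AP_B α := h.sub ((AP_cont continuous_const).mul (h.shift C))
  have dz (v : ℝ) : HasDerivWithinAt z (z v / 2 - α v) (Set.Ici v) v := by
    have d1 : HasDerivAt (fun v : ℝ => cexp (v / 2)) (cexp (v / 2) * (1 / 2)) v :=
      (((hasDerivAt_id (v : ℂ)).div_const 2).cexp).comp_ofReal
    have d2 := (dU (v + C)).scomp v ((hasDerivAt_id v).add_const C).hasDerivWithinAt
      (t' := Set.Ici (v + C)) (s := Set.Ici v) fun y hy => add_le_add_left hy C
    refine (d1.hasDerivWithinAt.mul (d2.sub (dU v))).congr_deriv ?_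
    have e1 : cexp (v / 2) * cexp (-((v + C : ℝ) : ℂ) / 2) = (Real.exp (-C / 2) : ℝ) := by
      push_cast
      rw [← exp_add]
      congr 1
      ring
    have e2 : cexp (v / 2) * cexp (-v / 2) = 1 := by
      rw [← exp_add, ← exp_zero]
      congr 1
      ring
    simp only [hz, hα, one_smul, Pi.sub_apply, Function.comp_apply, id, ← e1]
    linear_combination (-E v) * e2
  have i1 := ((AP_cont cz).sub bα).lb.intervalIntegrable v0 v1
  have i2 := bα.lb.intervalIntegrable v0 v1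
  have k := intervalIntegral.integral_eq_sub_of_hasDeriv_right_of_le hv
    (f := fun v => ‖z v‖ ^ 2) (by fun_prop) (fun v _ => (((dz v).mono
      Set.Ioi_subset_Ici_self).norm_sq).congr_deriv (by
        rw [norm_sub_sq_real, inner_sub_right, div_eq_mul_inv, ← ofReal_ofNat, ← ofReal_inv,
          mul_comm (z v), ← real_smul, inner_smul_right, real_inner_self_eq_norm_sq]
        ring)) (i1.sub i2)
  rw [intervalIntegral.integral_sub i1 i2] at k
  have k1 := AP_two h θ0 C hv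
  have k2 := AP_cs h hC v1
  have k3 := AP_mono h (x := v0 + C) (x' := v0) (by linarith only [hC]) (add_le_add_left hv C) le_rfl
  have k4 := intervalIntegral.integral_add_adjacent_intervals (h.lb.intervalIntegrable v0 v1)
    (h.lb.intervalIntegrable v1 (v1 + C))
  have k5 := (sq_nonneg _).trans k2
  simp only [ez] at k2 ⊢
  change ∫ v in v0..v1, ‖z v - α v‖ ^ 2 ≤ _
  change ∫ v in v0..v1, ‖α v‖ ^ 2 ≤ _ at k1
  linarith only [k, k4, k2, k1, k3, θ0, k5, sq_nonneg ‖z v0‖, mul_le_mul_of_nonneg_left k3 (by positivity :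
    0 ≤ Real.exp (-C / 2) + Real.exp (-C / 2) ^ 2), mul_nonneg θ0.le k5, sq_nonneg ‖z v0‖, Mathlib.Tactic.Linarith.mul_zero_eq (Mathlib.Tactic.Linarith.sub_nonpos_of_le (sq_nonneg ((1 : ℝ) * rexp (-C / (2 : ℝ))))) (sub_eq_zero_of_eq k4), Mathlib.Tactic.Linarith.mul_zero_eq (Mathlib.Tactic.Linarith.sub_nonpos_of_le (sq_nonneg ((1 : ℝ) * (1 : ℝ) + (1 : ℝ) * rexp (-C / (2 : ℝ))))) (sub_eq_zero_of_eq k4)]

theorem AP_int (L v : ℝ) (c : ℂ) {x y : ℝ} (h : x ≤ y) :
    ∫ s in x..y, cexp (-s / 2) * (if L ≤ s then c else 0) * cexp ((v - s) / 2) =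
      c * cexp (v / 2 - (max x L : ℝ)) - c * cexp (v / 2 - (max y L : ℝ)) := by
  rw [intervalIntegral.integral_eq_sub_of_hasDeriv_right_of_le h
    (f := fun s : ℝ => -(c * cexp (v / 2 - (max s L : ℝ)))) (by fun_prop) (fun s _ => ?_)
    ((((AP_cont (by fun_prop)).mul (AP_step L c)).mul (AP_cont (by fun_prop))).ii _ _)]
  · ring
  by_cases k : L ≤ s
  · have d : HasDerivAt (fun s : ℝ => -(c * cexp (v / 2 - s))) (-(c * (cexp (v / 2 - s) * -1))) s :=
      ((((hasDerivAt_id (s : ℂ)).const_sub (v / 2 : ℂ)).cexp.const_mul c).neg).comp_ofReal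
    refine (d.hasDerivWithinAt.congr (fun y hy => ?_) ?_).congr_deriv ?_
    · rw [max_eq_left (k.trans (le_of_lt hy))]
    · rw [max_eq_left k]
    · rw [if_pos k, mul_right_comm, ← exp_add, show -(s : ℂ) / 2 + (v - s) / 2 = v / 2 - s by ring]
      ring
  · rw [if_neg k, mul_zero, zero_mul]
    refine ((hasDerivAt_const s (-(c * cexp (v / 2 - L)))).congr_of_eventuallyEq ?_).hasDerivWithinAt
    filter_upwards [Iio_mem_nhds (not_le.1 k)] with y hy
    rw [max_eq_right (le_of_lt hy)]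

theorem R_eq (hC : 0 ≤ C) {v : ℝ} (h : ∀ n ∈ Icc 1 N, Real.log n ≠ v ∧ Real.log n ≠ v + C) :
    ∑ n ∈ Icc 1 N, a n / ((√n : ℝ) : ℂ) * eta C (-v + Real.log n) =
      (∫ s in v..v + C, Ev a N s * cexp ((v - s) / 2)) -
        (Ev a N v - (Real.exp (-C / 2) : ℝ) * Ev a N (v + C)) := by
  simp only [Ev, mul_sum, sum_mul]
  rw [intervalIntegral.integral_finsetSum fun n _ => (((AP_cont (by fun_prop)).mul
    (AP_step _ (a n))).mul (AP_cont (by fun_prop))).ii _ _, ← sum_sub_distrib, ← sum_sub_distrib]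
  refine sum_congr rfl fun n hn => ?_
  have e : ((Real.exp (-C / 2) : ℝ) : ℂ) * cexp (-((v + C : ℝ) : ℂ) / 2) =
      cexp (v / 2 - (v + C : ℝ)) := by
    push_cast
    rw [← exp_add]
    congr 1
    ring
  rw [AP_int _ _ _ (by linarith only [hC]), eta, AP_sqrt hn, ← mul_assoc, e]
  rcases (h n hn).1.lt_or_gt with h1 | h1
  · rw [if_neg (fun k => by linarith only [h1, k, k.1]), if_pos h1.le, if_pos (by linarith only [hC, h1]), max_eq_left h1.le,
      max_eq_left (by linarith only [hC, h1]), show (v : ℂ) / 2 - v = -v / 2 by ring]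
    ring
  rw [if_neg h1.not_ge, max_eq_right h1.le]
  rcases (h n hn).2.lt_or_gt with h2 | h2
  · rw [if_pos ⟨by linarith only [h1], by linarith only [h2]⟩, if_pos h2.le, max_eq_left h2.le, div_eq_mul_inv,
      ← exp_neg, mul_assoc, ← exp_add, show -((Real.log n : ℂ) / 2) + -((-v + Real.log n : ℝ) : ℂ) / 2
        = v / 2 - Real.log n by push_cast; ring]
    ring
  · rw [if_neg (fun k => by linarith only [h2, k, k.2]), if_neg h2.not_ge, max_eq_right h2.le]
    ring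

theorem ap_R (hC : 0 < C) {v0 v1 : ℝ} (hv : v0 ≤ v1) :
    ∫ v in v0..v1, ‖∑ n ∈ Icc 1 N, a n / ((√n : ℝ) : ℂ) * eta C (-v + Real.log n)‖ ^ 2 ≤
      (1 + Real.exp (-C / 2)) ^ 2 * ∫ v in v0..v1 + C, ‖Ev a N v‖ ^ 2 := by
  refine le_trans (le_of_eq (intervalIntegral.integral_congr_ae ?_))
    (allpass (measurable_Ev a N) (lb_Ev a N) (Ev_right a N) hC hv)
  filter_upwards [ae_all_iff.2 fun n : ℕ => (Measure.ae_ne volume (Real.log n)).and
    (Measure.ae_ne volume (Real.log n - C))] with v h _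
  rw [R_eq hC.le fun n _ => ⟨(h n).1.symm, fun e => (h n).2 (by linarith only [e])⟩]

end HooRT
end
end

-- merged part: Pool.Agent.Work.MP_5d318d_nt.RT.St
section
/-! TASK RT St. Step functions.
`st_of_mem`: for `0 < d` the shrunk cells are disjoint (`k h < x < (k + 1) h` determines `k`), `Finset.sum_eq_single`.
`st_cases`: either `st = 0` or `x` is in a cell. `st_integral`: each term is an indicator of an `Icc`
(`integral_indicator`, `integral_Icc_eq_integral_Ioc`, `intervalIntegral.integral_of_le`, `LB.intervalIntegrable`).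
`exists_step`: for `m ≥ 1` put `h = 1 / m`, `s` the integers `k` with the cell in `[-(B+1), B+1]`,
`p k = sInf (ψ '' Icc (k h) ((k + 1) h))` (`0 ≤ p k ≤ B`). Argue in two steps. (1) The functions
`F m x = p m ⌊x m⌋` are measurable, `0 ≤ F m ≤ ψ`, and `F m x → ψ x` by lower semicontinuity, so `∫ F m → ∫ ψ`
(`tendsto_integral_of_dominated_convergence`, bound `ψ`). (2) For fixed `m`, `∫ F m = ∑ k ∈ s, p k * h` (or at least
`≤`; `p k = 0` for `k ∉ s`) and `∫ st (3 d) = ∑ p k (h - 6 d)` (`st_integral` with `u = 1`); take `d` small.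
About 230 lines. -/

noncomputable section

open Complex MeasureTheory Finset Filter Topology Metric
open ArithmeticFunction hiding log
open scoped Real

namespace HooRT

variable {s : Finset ℤ} {p : ℤ → ℝ} {h d d' A β x : ℝ}

theorem St_meas (s : Finset ℤ) (p : ℤ → ℝ) (h d : ℝ) : Measurable (st s p h d) :=
  Finset.measurable_sum _ fun _ _ => Measurable.ite measurableSet_Icc measurable_const
    measurable_const

theorem St_nn (hp : ∀ k, 0 ≤ p k) (x : ℝ) : 0 ≤ st s p h d x :=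
  Finset.sum_nonneg fun k _ => by split_ifs; exacts [hp k, le_rfl]

theorem St_mul (u : ℝ → ℝ) (x : ℝ) : st s p h d x * u x =
    ∑ k ∈ s, (Set.Icc (k * h + d) ((k + 1) * h - d)).indicator (fun y => p k * u y) x := by
  rw [st, Finset.sum_mul]
  refine Finset.sum_congr rfl fun k _ => ?_
  by_cases e : k * h + d ≤ x ∧ x ≤ (k + 1) * h - d
  · rw [if_pos e, Set.indicator_of_mem (show x ∈ Set.Icc _ _ from e)]
  · rw [if_neg e, Set.indicator_of_notMem (show x ∉ Set.Icc _ _ from e), zero_mul]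

theorem St_int {a b : ℝ} (hab : a ≤ b) (c : ℝ) {u : ℝ → ℝ} (hu : LB u) :
    Integrable ((Set.Icc a b).indicator fun y => c * u y) :=
  (integrable_indicator_iff measurableSet_Icc).2
    (((intervalIntegrable_iff_integrableOn_Icc_of_le hab).1 (hu.intervalIntegrable a b)).const_mul c)

theorem st_of_mem (hd : 0 < d) {k : ℤ} (hk : k ∈ s) (h1 : k * h + d ≤ x)
    (h2 : x ≤ (k + 1) * h - d) : st s p h d x = p k := by
  have h0 : 0 < h := by linarith only [hd, h1, h2]
  rw [st, Finset.sum_eq_single k, if_pos ⟨h1, h2⟩]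
  · intro j _ hj
    refine if_neg fun ⟨a, b⟩ => hj ?_
    have c1 : (j : ℝ) < k + 1 := lt_of_mul_lt_mul_right (by linarith) h0.le
    have c2 : (k : ℝ) < j + 1 := lt_of_mul_lt_mul_right (by linarith) h0.le
    have c3 : j < k + 1 := by exact_mod_cast c1
    have c4 : k < j + 1 := by exact_mod_cast c2
    omega
  · exact fun a => (a hk).elim

theorem st_cases (hd : 0 < d) (x : ℝ) : st s p h d x = 0 ∨
    ∃ k ∈ s, k * h + d ≤ x ∧ x ≤ (k + 1) * h - d ∧ st s p h d x = p k := by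
  by_cases e : ∃ k ∈ s, k * h + d ≤ x ∧ x ≤ (k + 1) * h - d
  · obtain ⟨k, a, b, c⟩ := e
    exact Or.inr ⟨k, a, b, c, st_of_mem hd a b c⟩
  · exact Or.inl (Finset.sum_eq_zero fun k hk => if_neg fun a => e ⟨k, hk, a⟩)

theorem StD.wt (hs : StD s p h d A β) (hd' : 0 < d') : Wt (st s p h d') A β := by
  refine ⟨St_meas s p h d', St_nn hs.nn, fun x => ?_, fun x hx => ?_⟩
  · rcases st_cases (s := s) (p := p) (h := h) hd' x with e | ⟨k, -, -, -, e⟩
    · rw [e]; exact (hs.nn 0).trans (hs.le 0)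
    · rw [e]; exact hs.le k
  · rcases st_cases (s := s) (p := p) (h := h) hd' x with e | ⟨k, a, b, c, -⟩
    · exact e
    · obtain ⟨e1, e2⟩ := hs.supp k a
      exact absurd (abs_le.2 ⟨by linarith only [hd', b, e1], by linarith⟩) (not_le.2 hx)

theorem st_anti (hp : ∀ k, 0 ≤ p k) (hd : d ≤ d') (x : ℝ) : st s p h d' x ≤ st s p h d x := by
  refine Finset.sum_le_sum fun k _ => ?_
  by_cases e : k * h + d' ≤ x ∧ x ≤ (k + 1) * h - d'
  · rw [if_pos e, if_pos ⟨by linarith only [hd, e, e.1], by linarith [e.2]⟩]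
  · rw [if_neg e]
    split_ifs
    exacts [hp k, le_rfl]

theorem st_loc (hd : 0 < d) {Δ y : ℝ} (hx : st s p h (d + Δ) x ≠ 0) (hy : |y - x| ≤ Δ) :
    st s p h d y = st s p h (d + Δ) x := by
  obtain ⟨y1, y2⟩ := abs_le.1 hy
  rcases st_cases (s := s) (p := p) (h := h) (d := d + Δ) (by linarith only [hd, y1, y2]) x with e | ⟨k, a, b, c, e⟩
  · exact (hx e).elim
  · rw [e, st_of_mem hd a (by linarith) (by linarith only [y2, c])]

theorem st_scale {L : ℝ} (hL : 0 < L) (t : ℝ) :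
    st s p (h * L) (d * L) t = st s p h d (t / L) := by
  refine Finset.sum_congr rfl fun k _ => if_congr ?_ rfl rfl
  rw [le_div_iff₀ hL, div_le_iff₀ hL]
  constructor <;> rintro ⟨a, b⟩ <;> constructor <;> linarith only [a, b]

theorem StD.scale (hs : StD s p h d A β) {L : ℝ} (hL : 0 < L) :
    StD s p (h * L) (d * L) A (β * L) := by
  refine ⟨mul_pos hs.d0 hL, by linarith only [hL, hs, hs.dh, mul_pos_of_neg_of_neg (Mathlib.Tactic.Linarith.sub_neg_of_lt hL) (Mathlib.Tactic.Linarith.sub_neg_of_lt hs.dh)], hs.nn, hs.le, fun k hk => ?_⟩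
  obtain ⟨a, b⟩ := hs.supp k hk
  constructor <;> linarith only [hL, a, b, mul_nonneg_of_nonpos_of_nonpos (le_of_lt (Mathlib.Tactic.Linarith.sub_neg_of_lt hL)) (Mathlib.Tactic.Linarith.sub_nonpos_of_le a), mul_nonneg_of_nonpos_of_nonpos (le_of_lt (Mathlib.Tactic.Linarith.sub_neg_of_lt hL)) (Mathlib.Tactic.Linarith.sub_nonpos_of_le b)]

theorem st_integral (hd : 2 * d ≤ h) {u : ℝ → ℝ} (hu : LB u) :
    ∫ x, st s p h d x * u x = ∑ k ∈ s, p k * ∫ x in k * h + d..(k + 1) * h - d, u x := by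
  have hle : ∀ k : ℤ, k * h + d ≤ (k + 1) * h - d := fun k => by linarith
  simp only [St_mul]
  rw [integral_finsetSum _ fun k _ => St_int (hle k) _ hu]
  refine Finset.sum_congr rfl fun k _ => ?_
  rw [integral_indicator measurableSet_Icc, integral_const_mul, integral_Icc_eq_integral_Ioc,
    intervalIntegral.integral_of_le (hle k)]

theorem exists_step {ψ : ℝ → ℝ} {B : ℝ} (hl : LowerSemicontinuous ψ) (hψ : Wt ψ B B) (hB : 0 ≤ B)
    {ε : ℝ} (hε : 0 < ε) : ∃ (s : Finset ℤ) (p : ℤ → ℝ) (h d : ℝ), StD s p h d B (B + 1) ∧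
      (∀ x, st s p h d x ≤ ψ x) ∧ (∫ x, ψ x) - ε ≤ ∫ x, st s p h (3 * d) x := by
  obtain ⟨H, hH⟩ : ∃ H : ℕ → ℝ, H = fun m : ℕ => 1 / ((m : ℝ) + 1) := ⟨_, rfl⟩
  have H0 : ∀ m, 0 < H m := fun m => by rw [hH]; positivity
  have H1 : ∀ m, H m ≤ 1 := fun m => by
    rw [hH]; exact (div_le_one (by positivity)).2 (by linarith only [Nat.cast_nonneg (α := ℝ) m])
  have Ht : Tendsto H atTop (𝓝 0) := hH ▸ tendsto_one_div_add_atTop_nhds_zero_nat
  obtain ⟨S, hS⟩ : ∃ S : ℕ → Finset ℤ, ∀ m k, k ∈ S m ↔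
      -(B + 1) ≤ k * H m ∧ (k + 1) * H m ≤ B + 1 := by
    refine ⟨fun m => Icc ⌈-(B + 1) / H m⌉ (⌊(B + 1) / H m⌋ - 1), fun m k => ?_⟩
    rw [Finset.mem_Icc, Int.ceil_le, le_sub_iff_add_le, Int.le_floor, div_le_iff₀ (H0 m),
      le_div_iff₀ (H0 m)]
    push_cast
    rfl
  obtain ⟨P, P1, P2⟩ : ∃ P : ℕ → ℤ → ℝ,
      (∀ (m : ℕ) (k : ℤ) (y : ℝ), k * H m ≤ y → y ≤ (k + 1) * H m → P m k ≤ ψ y) ∧
      ∀ (m : ℕ) (k : ℤ) (c : ℝ), (∀ y : ℝ, k * H m ≤ y → y ≤ (k + 1) * H m → c ≤ ψ y) →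
        c ≤ P m k := by
    refine ⟨fun m k => sInf (ψ '' Set.Icc (k * H m) ((k + 1) * H m)), fun m k y a b => ?_,
      fun m k c hc => ?_⟩
    · exact csInf_le ⟨0, by rintro _ ⟨z, -, rfl⟩; exact hψ.nn z⟩ ⟨y, ⟨a, b⟩, rfl⟩
    · refine le_csInf ⟨_, k * H m, ⟨le_rfl, by linarith only [H0, H0 m]⟩, rfl⟩ ?_
      rintro _ ⟨z, hz, rfl⟩
      exact hc z hz.1 hz.2
  have P0 : ∀ m k, 0 ≤ P m k := fun m k => P2 m k 0 fun y _ _ => hψ.nn y
  have PB : ∀ m k, P m k ≤ B := fun m k =>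
    (P1 m k _ le_rfl (by linarith [H0 m])).trans (hψ.le _)
  have hlim : Tendsto (fun m => ∫ x, min (st (S m) (P m) (H m) 0 x) (ψ x)) atTop
      (𝓝 (∫ x, ψ x)) := by
    refine tendsto_integral_of_dominated_convergence ψ
      (fun m => ((St_meas _ _ _ _).min hψ.meas).aestronglyMeasurable) hψ.integrable
      (fun m => Eventually.of_forall fun x => ?_) (Eventually.of_forall fun x => ?_)
    · rw [Real.norm_of_nonneg (le_min (St_nn (P0 m) x) (hψ.nn x))]
      exact min_le_right _ _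
    refine tendsto_order.2 ⟨fun c hc => ?_,
      fun c hc => Eventually.of_forall fun m => (min_le_right _ _).trans_lt hc⟩
    rcases lt_or_ge B |x| with hx | hx
    · refine Eventually.of_forall fun m => lt_min ?_ hc
      rw [hψ.supp x hx] at hc
      exact hc.trans_le (St_nn (P0 m) x)
    obtain ⟨c', c1, c2⟩ := exists_between hc
    obtain ⟨r, r0, hr⟩ := Metric.eventually_nhds_iff.1 (hl x c' c2)
    obtain ⟨x1, x2⟩ := abs_le.1 hx
    filter_upwards [Ht.eventually (gt_mem_nhds r0)] with m hm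
    refine lt_min ?_ hc
    have a : (⌊x / H m⌋ : ℝ) * H m ≤ x := (le_div_iff₀ (H0 m)).1 (Int.floor_le _)
    have b : x < (⌊x / H m⌋ + 1) * H m := (div_lt_iff₀ (H0 m)).1 (Int.lt_floor_add_one _)
    have e : c' ≤ P m ⌊x / H m⌋ := P2 _ _ _ fun y y1 y2 =>
      (hr (by rw [Real.dist_eq, abs_lt]; constructor <;> linarith only [hm, b, y1, a, y2])).le
    refine (c1.trans_le e).trans_le ?_
    have k1 : ⌊x / H m⌋ ∈ S m := (hS _ _).2 ⟨by linarith only [x1, b, H1, H1 m], by linarith only [x2, a, H1, H1 m]⟩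
    refine le_trans (le_of_eq ?_) (Finset.single_le_sum (f := fun k : ℤ =>
      if k * H m + 0 ≤ x ∧ x ≤ (k + 1) * H m - 0 then P m k else 0)
      (fun k _ => by split_ifs; exacts [P0 m k, le_rfl]) k1)
    rw [if_pos ⟨by linarith only [a], by linarith only [b]⟩]
  obtain ⟨m, hm⟩ := (hlim.eventually (lt_mem_nhds (sub_lt_self _ (half_pos hε)))).exists
  have hI : ∀ d : ℝ, 2 * d ≤ H m →
      ∫ x, st (S m) (P m) (H m) d x = (∑ k ∈ S m, P m k) * (H m - 2 * d) := fun d hd => by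
    have := st_integral (s := S m) (p := P m) hd (LB.const 1)
    simp only [mul_one, intervalIntegral.integral_const, smul_eq_mul] at this
    rw [this, Finset.sum_mul]
    exact Finset.sum_congr rfl fun k _ => by ring
  have hi : Integrable (st (S m) (P m) (H m) 0) := by
    rw [show st (S m) (P m) (H m) 0 = _ from funext fun x =>
      (mul_one _).symm.trans (St_mul (fun _ => 1) x)]
    exact integrable_finsetSum _ fun k _ => St_int (by linarith only [H0, H0 m]) _ (LB.const 1)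
  have h2 : ∫ x, min (st (S m) (P m) (H m) 0 x) (ψ x) ≤ ∫ x, st (S m) (P m) (H m) 0 x :=
    integral_mono_of_nonneg (Eventually.of_forall fun x => le_min (St_nn (P0 m) x) (hψ.nn x)) hi
      (Eventually.of_forall fun x => min_le_left _ _)
  obtain ⟨T, hT⟩ : ∃ T, T = ∑ k ∈ S m, P m k := ⟨_, rfl⟩
  have T0 : 0 ≤ T := hT ▸ Finset.sum_nonneg fun k _ => P0 m k
  rw [← hT] at hI
  obtain ⟨d, d0, d1, d2⟩ : ∃ d : ℝ, 0 < d ∧ d ≤ H m / 7 ∧ d ≤ ε / (12 * (T + 1)) :=
    ⟨min _ _, lt_min (by linarith only [H0, H0 m]) (by positivity), min_le_left _ _, min_le_right _ _⟩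
  rw [le_div_iff₀ (by positivity)] at d2
  refine ⟨S m, P m, H m, d, ⟨d0, by linarith only [d0, d1], P0 m, PB m, fun k hk => (hS m k).1 hk⟩,
    fun x => ?_, ?_⟩
  · rcases st_cases (s := S m) (p := P m) (h := H m) d0 x with e | ⟨k, -, b, c, e⟩
    · rw [e]; exact hψ.nn x
    · rw [e]; exact P1 m k x (by linarith only [d0, b]) (by linarith only [d0, c])
  · rw [hI 0 (by linarith only [d0, d1, H0 m])] at h2
    rw [hI (3 * d) (by linarith only [d0, d1])]
    linarith only [hm, h2, d0, d2]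

end HooRT
end
end

-- merged part: Pool.Agent.Work.MP_5d318d_nt.RT.Band
section
/-! TASK RT Band. The filtered prime side is an exponential sum over the kept points.
`conv_eta`: `∫ u, k (v - u) * eta C (u - y) = ∫ s in 0..C, exp (-s/2) * k (v - y - s)` (translate by `y`; `eta C` is
the indicator of `Ico 0 C`, `integral_indicator`, `integral_Ico_eq_integral_Ioo`, `intervalIntegral.integral_of_le`).
`conv_mu`, `mu_bet`, `mu_kap`: linearity (finite sums, all integrands continuous on compact intervals).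
`band_approx`: `Gz lam x r z = Gz lam x 0 z * exp (z r)`. With `Kz z = ∫ x in x0..x0 + w, √(lam / π) * Gz lam x 0 z`,
`EFD.ef` (at `r = v - s`, `|r| ≤ V + C`, `|x| ≤ |x0| + 1`) and `mu_kap` give
`‖mu .. kap r - ∑ i, Kz (Z i) exp (Z i r)‖ ≤ √(lam / π) (K / √lam + ..) ≤ K + 1`. Integrate against `exp (-s / 2)` over
`[0, C]` (total mass at most `2`): `c i = Kz (Z i) * ∫ s in 0..C, exp (-s/2) exp (-Z i s)`, the last integral has
norm at most `C` as `re ≥ -1/2`. For `i` not kept `|re| ≤ σ` and `|im - x| ≥ d` on the band, so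
`‖c i exp (Z i v)‖ ≤ C √lam exp (lam σ^2 - lam d^2 + σ V)` (`norm_Gz`). About 230 lines. -/

noncomputable section

open Complex MeasureTheory Finset Filter Topology Metric
open ArithmeticFunction hiding log
open scoped Real

namespace HooRT

variable {l lam x0 w C : ℝ} {a b : ℕ → ℂ} {N : ℕ}

/-- The prime side as a linear functional. -/
def Band_M (l : ℝ) (a b : ℕ → ℂ) (N : ℕ) (g : ℝ → ℂ) : ℂ :=
  l * g 0 - ∑ n ∈ Icc 1 N, a n / ((√n : ℝ) : ℂ) * g (Real.log n) -
    ∑ n ∈ Icc 1 N, b n / ((√n : ℝ) : ℂ) * g (-Real.log n)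

theorem Band_mu (k : ℝ → ℂ) (v : ℝ) : mu l a b N k v = Band_M l a b N fun y => k (v - y) := by
  simp only [mu, Band_M, sub_zero, sub_neg_eq_add]

theorem Band_mul (c : ℂ) (g : ℝ → ℂ) :
    c * Band_M l a b N g = Band_M l a b N fun y => c * g y := by
  simp only [Band_M, mul_sub, mul_sum, mul_left_comm c]

theorem Band_int {μ : Measure ℝ} {F : ℝ → ℝ → ℂ} (h : ∀ y, Integrable (F y) μ) :
    ∫ t, Band_M l a b N (fun y => F y t) ∂μ = Band_M l a b N fun y => ∫ t, F y t ∂μ := by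
  have i1 : ∀ (c : ℕ → ℂ) (g : ℕ → ℝ), Integrable (fun t => ∑ n ∈ Icc 1 N, c n * F (g n) t) μ :=
    fun c g => integrable_finsetSum _ fun n _ => (h _).const_mul _
  simp only [Band_M]
  rw [integral_sub _ (i1 _ _), integral_sub ((h 0).const_mul _) (i1 _ _),
    integral_finsetSum _ fun n _ => (h _).const_mul _,
    integral_finsetSum _ fun n _ => (h _).const_mul _]
  · simp only [integral_const_mul]
  · exact ((h 0).const_mul _).sub (i1 _ _)

theorem Band_iint {F : ℝ → ℝ → ℂ} (h : ∀ y, Continuous (F y)) (p q : ℝ) :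
    ∫ t in p..q, Band_M l a b N (fun y => F y t) = Band_M l a b N fun y => ∫ t in p..q, F y t := by
  simp only [intervalIntegral]
  rw [Band_int fun y => ((h y).intervalIntegrable p q).1,
    Band_int fun y => ((h y).intervalIntegrable p q).2]
  simp only [Band_M, mul_sub, sum_sub_distrib]
  ring

theorem measurable_eta (C : ℝ) : Measurable (eta C) := by
  refine Measurable.ite (measurableSet_Ico (a := 0) (b := C)) ?_ measurable_const
  fun_prop

theorem norm_eta_le (C s : ℝ) : ‖eta C s‖ ≤ 1 := by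
  unfold eta
  split_ifs with h
  · rw [norm_exp, Real.exp_le_one_iff]
    simp only [neg_div, neg_re, div_ofNat_re, ofReal_re]
    linarith only [h, h.1]
  · simp

theorem measurable_mu_eta (l C : ℝ) (a b : ℕ → ℂ) (N : ℕ) : Measurable (mu l a b N (eta C)) := by
  have := measurable_eta C
  unfold mu
  fun_prop

theorem Band_sum {a : ℕ → ℂ} (ha : ∀ m, ‖a m‖ ≤ vonMangoldt m) (N : ℕ) {g : ℕ → ℂ}
    (hg : ∀ n, ‖g n‖ ≤ 1) : ‖∑ n ∈ Icc 1 N, a n / ((√n : ℝ) : ℂ) * g n‖ ≤ 2 * N := by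
  refine (norm_sum_le_of_le _ (n := fun _ => (2 : ℝ)) fun n hn => ?_).trans ?_
  · have n1 : (0 : ℝ) < n := by exact_mod_cast (mem_Icc.1 hn).1
    have p : 0 < √(n : ℝ) := Real.sqrt_pos.2 n1
    rw [norm_mul, norm_div, norm_real, Real.norm_of_nonneg p.le]
    refine (mul_le_of_le_one_right (by positivity) (hg n)).trans ((div_le_iff₀ p).2 ?_)
    have k := Real.log_le_sub_one_of_pos p
    rw [Real.log_sqrt n1.le] at k
    linarith only [k, ha, ha n, vonMangoldt_le_log (n := n)]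
  · simp [mul_comm]

theorem norm_mu_eta_le (hl : 0 ≤ l) (ha : ∀ m, ‖a m‖ ≤ vonMangoldt m)
    (hb : ∀ m, ‖b m‖ ≤ vonMangoldt m) (C : ℝ) (N : ℕ) (v : ℝ) :
    ‖mu l a b N (eta C) v‖ ≤ l + 12 * N := by
  have h1 := Band_sum ha N fun n => norm_eta_le C (v - Real.log n)
  have h2 := Band_sum hb N fun n => norm_eta_le C (v + Real.log n)
  have h3 : ‖(l : ℂ) * eta C v‖ ≤ l := by
    rw [norm_mul, norm_real, Real.norm_of_nonneg hl]
    exact mul_le_of_le_one_right hl (norm_eta_le C v)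
  refine (norm_sub_le_of_le (norm_sub_le_of_le h3 h1) h2).trans ?_
  linarith only [Nat.cast_nonneg (α := ℝ) N]

theorem conv_eta {k : ℝ → ℂ} (hk : Continuous k) (hC : 0 ≤ C) (v y : ℝ) :
    Integrable (fun u => k (v - u) * eta C (u - y)) ∧
      ∫ u, k (v - u) * eta C (u - y) = ∫ s in (0 : ℝ)..C, cexp (-s / 2) * k (v - y - s) := by
  let g : ℝ → ℂ := (Set.Ico 0 C).indicator fun s : ℝ => cexp (-s / 2) * k (v - y - s)
  have e : (fun u => k (v - u) * eta C (u - y)) = fun u => g (u - y) := by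
    funext u
    simp only [g, eta, Set.indicator, Set.mem_Ico, sub_sub_sub_cancel_right]
    split_ifs
    · rw [mul_comm]
    · rw [mul_zero]
  have c : Continuous fun s : ℝ => cexp (-s / 2) * k (v - y - s) := by fun_prop
  rw [e]
  refine ⟨Integrable.comp_sub_right ((integrable_indicator_iff measurableSet_Ico).2
    (c.integrableOn_Icc.mono_set Set.Ico_subset_Icc_self)) y, ?_⟩
  rw [integral_sub_right_eq_self g y, integral_indicator measurableSet_Ico,
    intervalIntegral.integral_of_le hC, integral_Ico_eq_integral_Ioo, integral_Ioc_eq_integral_Ioo]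

theorem Band_conv {k : ℝ → ℂ} (hk : Continuous k) (hC : 0 ≤ C) (v : ℝ) :
    ∫ u, k (v - u) * mu l a b N (eta C) u =
      Band_M l a b N fun y => ∫ s in (0 : ℝ)..C, cexp (-s / 2) * k (v - y - s) := by
  simp only [Band_mu, Band_mul]
  rw [Band_int (F := fun y u => k (v - u) * eta C (u - y)) fun y => (conv_eta hk hC v y).1]
  simp only [(conv_eta hk hC v _).2]

theorem conv_mu {k : ℝ → ℂ} (hk : Continuous k) (hC : 0 ≤ C) (v : ℝ) :
    ∫ u, k (v - u) * mu l a b N (eta C) u =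
      ∫ s in (0 : ℝ)..C, cexp (-s / 2) * mu l a b N k (v - s) := by
  rw [Band_conv hk hC, ← Band_iint (F := fun y (s : ℝ) => cexp (-s / 2) * k (v - y - s))
    fun y => by fun_prop]
  simp only [Band_mu, Band_mul, sub_right_comm v]

theorem mu_bet (hC : 0 ≤ C) (v : ℝ) :
    ∫ u, kap lam x0 w (v - u) * mu l a b N (eta C) u = mu l a b N (bet lam x0 w C) v := by
  rw [Band_conv (continuous_kap lam x0 w) hC, Band_mu]
  rfl

theorem mu_kap (r : ℝ) : mu l a b N (kap lam x0 w) r =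
    ∫ x in x0..x0 + w, ((√(lam / π) : ℝ) : ℂ) * mu l a b N (kx lam x) r := by
  simp only [Band_mu, Band_mul]
  rw [Band_iint (F := fun y x => ((√(lam / π) : ℝ) : ℂ) * kx lam x (r - y)) fun y => by
    unfold kx
    fun_prop]
  rfl

/-- Band coefficient of the point `z`. -/
def Band_K (lam x0 w : ℝ) (z : ℂ) : ℂ := ∫ x in x0..x0 + w, ((√(lam / π) : ℝ) : ℂ) * Gz lam x 0 z

theorem Band_sqrt (hl : 1 ≤ lam) : √(lam / π) ≤ √lam :=
  Real.sqrt_le_sqrt (div_le_self (by linarith) (by linarith [Real.pi_gt_three]))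

theorem Band_Gz (lam x r : ℝ) (z : ℂ) : Gz lam x 0 z * cexp (z * r) = Gz lam x r z := by
  simp only [Gz, ← Complex.exp_add, ofReal_zero, mul_zero, add_zero]

theorem Band_cM {F : ℝ → ℝ → ℂ} (h : ∀ y, Continuous (F y)) :
    Continuous fun t => Band_M l a b N fun y => F y t :=
  ((continuous_const.mul (h _)).sub (continuous_finsetSum _ fun _ _ =>
    continuous_const.mul (h _))).sub (continuous_finsetSum _ fun _ _ => continuous_const.mul (h _))

theorem Band_ef {K T D V : ℝ} {n : ℕ} {Z : Fin n → ℂ} (h : EFD l K T a b Z)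
    (hl : 1 ≤ lam) (hw : 0 ≤ w) (hw1 : w ≤ 1) (hD : 0 ≤ D) (hT : |x0| + 1 + D ≤ T)
    (hN1 : 2 * V ≤ Real.log N) (hN2 : 48 * lam ≤ Real.log N)
    (h1 : √lam * (K * (1 + l) * Real.exp (9 * lam / 4 + 3 * V / 2 - lam * D ^ 2 / 2)) ≤ 1)
    {r : ℝ} (hr : |r| ≤ V) :
    ‖∑ i, Band_K lam x0 w (Z i) * cexp (Z i * r) - mu l a b N (kap lam x0 w) r‖ ≤ K + 1 := by
  have cG : ∀ i, Continuous fun x : ℝ => ((√(lam / π) : ℝ) : ℂ) * Gz lam x r (Z i) := fun i => by
    unfold Gz
    fun_prop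
  have cm : Continuous fun x : ℝ => ((√(lam / π) : ℝ) : ℂ) * mu l a b N (kx lam x) r := by
    simp only [Band_mu]
    refine continuous_const.mul (Band_cM (F := fun y x => kx lam x (r - y)) fun y => ?_)
    unfold kx
    fun_prop
  have e : ∑ i, Band_K lam x0 w (Z i) * cexp (Z i * r) =
      ∫ x in x0..x0 + w, ∑ i, ((√(lam / π) : ℝ) : ℂ) * Gz lam x r (Z i) := by
    rw [intervalIntegral.integral_finsetSum fun i _ => (cG i).intervalIntegrable _ _]
    refine sum_congr rfl fun i _ => ?_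
    simp only [Band_K, ← intervalIntegral.integral_mul_const, mul_assoc, Band_Gz]
  rw [e, mu_kap, ← intervalIntegral.integral_sub
    ((continuous_finsetSum _ fun i _ => cG i).intervalIntegrable _ _) (cm.intervalIntegrable _ _)]
  have K0 : 0 ≤ K := zero_le_one.trans h.K1
  have l0 := h.l0
  have p : 0 < √lam := Real.sqrt_pos.2 (by linarith only [hl])
  refine (intervalIntegral.norm_integral_le_of_norm_le_const (C := K + 1) fun x hx => ?_).trans ?_
  · rw [Set.uIoc_of_le (by linarith only [hw])] at hx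
    have hx' : |x| ≤ |x0| + 1 :=
      abs_le.2 ⟨by linarith only [hx, hx.1, neg_abs_le x0], by linarith only [hw1, hx, hx.2, le_abs_self x0]⟩
    rw [← mul_sum, ← mul_sub, norm_mul, norm_real, Real.norm_of_nonneg (Real.sqrt_nonneg _)]
    refine (mul_le_mul (Band_sqrt hl) (h.ef lam x r D N hl hD (by linarith only [hT, hx']) (by linarith only [hN1, hr]) hN2)
      (norm_nonneg _) p.le).trans ?_
    rw [mul_add, mul_div_cancel₀ _ p.ne']
    refine add_le_add le_rfl (le_trans ?_ h1)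
    gcongr
  · rw [add_sub_cancel_left, abs_of_nonneg hw]
    exact mul_le_of_le_one_right (by linarith only [K0]) hw1

theorem Band_mass (C : ℝ) : ∫ s in (0 : ℝ)..C, Real.exp (-s / 2) ≤ 2 := by
  have d : ∀ s : ℝ, HasDerivAt (fun s : ℝ => -2 * Real.exp (-s / 2)) (Real.exp (-s / 2)) s := fun s => by
    have := (((hasDerivAt_id s).neg.div_const 2).exp).const_mul (-2)
    refine this.congr_deriv ?_
    simp only [id, Pi.neg_apply]
    ring
  rw [intervalIntegral.integral_eq_sub_of_hasDerivAt (fun s _ => d s)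
    (Continuous.intervalIntegrable (by fun_prop) _ _)]
  simp only [neg_zero, zero_div, Real.exp_zero]
  linarith only [Real.exp_pos (-C / 2)]

theorem Band_far {z : ℂ} {σ d : ℝ} (hl : 1 ≤ lam) (hw : 0 ≤ w) (hw1 : w ≤ 1) (hd : 0 ≤ d)
    (h1 : |z.re| ≤ σ) (h2 : z.im < x0 - d ∨ x0 + w + d < z.im) :
    ‖Band_K lam x0 w z‖ ≤ √lam * Real.exp (lam * σ ^ 2 - lam * d ^ 2) := by
  refine (intervalIntegral.norm_integral_le_of_norm_le_const
    (C := √lam * Real.exp (lam * σ ^ 2 - lam * d ^ 2)) fun x hx => ?_).trans ?_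
  · rw [Set.uIoc_of_le (by linarith)] at hx
    rw [norm_mul, norm_real, Real.norm_of_nonneg (Real.sqrt_nonneg _), norm_Gz, mul_zero, add_zero]
    have k1 : z.re ^ 2 ≤ σ ^ 2 := sq_le_sq.2 (h1.trans (le_abs_self σ))
    have k2 : d ^ 2 ≤ (z.im - x) ^ 2 := by
      refine sq_le_sq.2 ((abs_of_nonneg hd).trans_le (le_abs.2 ?_))
      exact h2.symm.imp (fun k => by linarith [hx.2]) fun k => by linarith [hx.1]
    have l0 : 0 ≤ lam := by linarith
    exact mul_le_mul (Band_sqrt hl) (Real.exp_le_exp.2 (sub_le_sub (mul_le_mul_of_nonneg_left k1 l0)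
      (mul_le_mul_of_nonneg_left k2 l0))) (Real.exp_pos _).le (Real.sqrt_nonneg _)
  · rw [add_sub_cancel_left, abs_of_nonneg hw]
    exact mul_le_of_le_one_right (by positivity) hw1

theorem band_approx {K T D V σ d : ℝ} {n : ℕ} {Z : Fin n → ℂ} (h : EFD l K T a b Z)
    (hl : 1 ≤ lam) (hw : 0 ≤ w) (hw1 : w ≤ 1) (hC : 0 ≤ C) (hD : 0 ≤ D) (hd : 0 ≤ d)
    (hσ : 0 ≤ σ) (hT : |x0| + 1 + D ≤ T) (hN1 : 2 * (V + C) ≤ Real.log N)
    (hN2 : 48 * lam ≤ Real.log N)
    (h1 : √lam * (K * (1 + l) * Real.exp (9 * lam / 4 + 3 * (V + C) / 2 - lam * D ^ 2 / 2)) ≤ 1)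
    (h2 : K * (1 + l) * (C * √lam * Real.exp (lam * σ ^ 2 - lam * d ^ 2 + σ * V)) ≤ 1) :
    ∃ c : Fin n → ℂ, ∀ v : ℝ, |v| ≤ V → ‖∑ i ∈ kept Z σ x0 w d, c i * cexp (Z i * v) -
      ∫ u, kap lam x0 w (v - u) * mu l a b N (eta C) u‖ ≤ 2 * K + 3 := by
  let J : Fin n → ℂ := fun i => ∫ s in (0 : ℝ)..C, cexp (-s / 2) * cexp (-(Z i * s))
  refine ⟨fun i => Band_K lam x0 w (Z i) * J i, fun v hv => ?_⟩
  have K0 : 0 ≤ K := zero_le_one.trans h.K1
  have cT : ∀ i, Continuous fun s : ℝ =>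
      cexp (-s / 2) * (Band_K lam x0 w (Z i) * cexp (Z i * (v - s : ℝ))) := fun i => by fun_prop
  have cm : Continuous fun s : ℝ => cexp (-s / 2) * mu l a b N (kap lam x0 w) (v - s) := by
    have := continuous_kap lam x0 w
    simp only [Band_mu]
    exact Continuous.mul (by fun_prop)
      (Band_cM (F := fun y s => kap lam x0 w (v - s - y)) fun y => by fun_prop)
  have e : ∑ i, Band_K lam x0 w (Z i) * J i * cexp (Z i * v) = ∫ s in (0 : ℝ)..C,
      ∑ i, cexp (-s / 2) * (Band_K lam x0 w (Z i) * cexp (Z i * (v - s : ℝ))) := by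
    rw [intervalIntegral.integral_finsetSum fun i _ => (cT i).intervalIntegrable _ _]
    refine sum_congr rfl fun i _ => ?_
    simp only [J, ← intervalIntegral.integral_mul_const, ← intervalIntegral.integral_const_mul]
    refine intervalIntegral.integral_congr fun s _ => ?_
    simp only [ofReal_sub, mul_sub, sub_eq_add_neg (Z i * v), Complex.exp_add]
    ring
  have all : ‖∑ i, Band_K lam x0 w (Z i) * J i * cexp (Z i * v) -
      ∫ u, kap lam x0 w (v - u) * mu l a b N (eta C) u‖ ≤ 2 * (K + 1) := by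
    rw [e, conv_mu (continuous_kap lam x0 w) hC, ← intervalIntegral.integral_sub
      ((continuous_finsetSum _ fun i _ => cT i).intervalIntegrable _ _) (cm.intervalIntegrable _ _)]
    refine (intervalIntegral.norm_integral_le_of_norm_le hC
      (g := fun s => Real.exp (-s / 2) * (K + 1)) (Eventually.of_forall fun s hs => ?_)
      (Continuous.intervalIntegrable (by fun_prop) _ _)).trans ?_
    · rw [← mul_sum, ← mul_sub, norm_mul, norm_exp]
      refine mul_le_mul (le_of_eq ?_) (Band_ef h hl hw hw1 hD hT hN1 hN2 h1 ?_) (norm_nonneg _)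
        (Real.exp_pos _).le
      · simp only [neg_div, neg_re, div_ofNat_re, ofReal_re]
      · exact (abs_sub _ _).trans (add_le_add hv ((abs_of_pos hs.1).trans_le hs.2))
    · rw [intervalIntegral.integral_mul_const]
      exact mul_le_mul_of_nonneg_right (Band_mass C) (by linarith only [K0])
  have hJ : ∀ i, ‖J i‖ ≤ C := fun i => by
    refine (intervalIntegral.norm_integral_le_of_norm_le_const (C := 1) fun s hs => ?_).trans ?_
    · rw [Set.uIoc_of_le hC] at hs
      rw [← Complex.exp_add, norm_exp, Real.exp_le_one_iff]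
      simp only [neg_div, add_re, neg_re, div_ofNat_re, ofReal_re, mul_re, ofReal_im, mul_zero,
        sub_zero]
      linarith only [h, hs, (abs_le.1 (h.re i)).1, hs.1, mul_nonneg_of_nonpos_of_nonpos (Mathlib.Tactic.Linarith.sub_nonpos_of_le (abs_le.mp (h.re i)).left) (le_of_lt (Mathlib.Tactic.Linarith.sub_neg_of_lt hs.left))]
    · rw [sub_zero, one_mul, abs_of_nonneg hC]
  have rest : ‖∑ i ∈ (kept Z σ x0 w d)ᶜ, Band_K lam x0 w (Z i) * J i * cexp (Z i * v)‖ ≤ 1 := by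
    refine (norm_sum_le_of_le _ (n := fun _ =>
      C * √lam * Real.exp (lam * σ ^ 2 - lam * d ^ 2 + σ * V)) fun i hi => ?_).trans ?_
    · simp only [kept, mem_compl, mem_filter, mem_univ, true_and, not_or, not_lt, not_and_or,
        not_le] at hi
      have k1 := Band_far hl hw hw1 hd hi.1 hi.2
      have k2 : ‖cexp (Z i * v)‖ ≤ Real.exp (σ * V) := by
        rw [norm_exp, Real.exp_le_exp]
        simp only [mul_re, ofReal_re, ofReal_im, mul_zero, sub_zero]
        refine (le_abs_self _).trans ?_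
        rw [abs_mul]
        exact mul_le_mul hi.1 hv (abs_nonneg _) hσ
      refine (norm_mul_le_of_le (norm_mul_le_of_le k1 (hJ i)) k2).trans_eq ?_
      rw [Real.exp_add]
      ring
    · rw [sum_const, nsmul_eq_mul]
      refine le_trans (mul_le_mul_of_nonneg_right (le_trans ?_ h.card) (by positivity)) h2
      exact_mod_cast (card_le_univ _).trans_eq (Fintype.card_fin n)
  rw [← sum_add_sum_compl (kept Z σ x0 w d), add_sub_right_comm] at all
  have := norm_sub_le_of_le all rest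
  rw [add_sub_cancel_right] at this
  linarith only [this]

end HooRT
end
end

-- merged part: Pool.Agent.Work.MP_5d318d_nt.RT.Two
section
/-! TASK RT Two. Upper bound for the energy of the prime side.
Write `mu l a b N (eta C) v = l eta v - P v - R v`. `Two_pt`: for `v < 0` it is `-R v` (`log n ≥ 0`), for `C ≤ v` it is
`-P v`, and for `0 ≤ v < C` both sums have norm at most `6 exp C` (only `n ≤ exp C` occur, `sum_vonMangoldt_le`,
`norm_eta_le`), `sq_add_le`. So the square of the norm is at most `u1 + u2 + ‖P‖^2 + ‖R‖^2`, `u1 = (1 + θ) l^2 ‖eta‖^2`,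
`u2 = (1 + 1/θ) (12 exp C)^2` times the indicator of `[0, C]`; `dbl_mono`, `dbl_add`, `dbl_smul`.
`u1`: if `ψ3 t ≠ 0` then `ψ2 y = ψ3 t` for `|y - t| ≤ C ≤ d` (`st_loc`), and `∫ ‖eta‖^2 ≤ 1`, so the inner integral is
at most `ψ3 t ≤ ψ1 t` (`st_anti`). `u2`: `dbl_le`. `P`: for fixed `t`, `st_integral` on both sides,
`intervalIntegral.integral_comp_sub_left`, `ap_P` on each cell and `integral_mono_interval` give
`∫ ψ2 y ‖P (t - y)‖^2 ≤ (1 + e)^2 ∫ ψ1 y ‖Ev a (t - y)‖^2`. `R`: the same with `ap_R` (`v = y - t`) gives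
`∫ ψ1 y ‖Ev b (-(t - y))‖^2`; `dbl_neg` and `hab`. About 220 lines. -/

noncomputable section

open Complex MeasureTheory Finset Filter Topology Metric
open ArithmeticFunction hiding log
open scoped Real

namespace HooRT

theorem Two_eta {C v : ℝ} (h : eta C v ≠ 0) : 0 ≤ v ∧ v < C := by
  by_contra c
  exact h (if_neg c)

theorem Two_log (n : ℕ) : 0 ≤ Real.log n := Real.log_natCast_nonneg n

theorem Two_sum {a : ℕ → ℂ} (ha : ∀ m, ‖a m‖ ≤ vonMangoldt m) (N : ℕ) {C : ℝ} (g : ℕ → ℝ)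
    (hg : ∀ n : ℕ, eta C (g n) ≠ 0 → Real.log n ≤ C) :
    ‖∑ n ∈ Icc 1 N, a n / ((√n : ℝ) : ℂ) * eta C (g n)‖ ≤ 6 * Real.exp C := by
  have h1 : ∀ n ∈ Icc 1 N, ‖a n / ((√n : ℝ) : ℂ) * eta C (g n)‖ ≤
      if n ∈ Ioc 0 ⌊Real.exp C⌋₊ then vonMangoldt n else 0 := by
    intro n hn
    have hn1 : 1 ≤ n := (mem_Icc.1 hn).1
    have hn2 : (1 : ℝ) ≤ n := by exact_mod_cast hn1
    by_cases c : eta C (g n) = 0
    · rw [c, mul_zero, norm_zero]
      split_ifs
      exacts [vonMangoldt_nonneg, le_rfl]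
    · rw [if_pos (mem_Ioc.2 ⟨hn1, Nat.le_floor
        ((Real.log_le_iff_le_exp (by linarith only [hn2])).1 (hg n c))⟩), norm_mul, norm_div, norm_real,
        Real.norm_of_nonneg (Real.sqrt_nonneg _)]
      exact (mul_le_of_le_one_right (by positivity) (norm_eta_le _ _)).trans
        ((div_le_self (norm_nonneg _) (Real.one_le_sqrt.2 hn2)).trans (ha n))
  refine (norm_sum_le _ _).trans ((sum_le_sum h1).trans ?_)
  rw [sum_ite_mem]
  refine (sum_le_sum_of_subset_of_nonneg inter_subset_right fun _ _ _ => vonMangoldt_nonneg).trans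
    ((Pool.Agent.Lib.ANT.sum_vonMangoldt_le _).trans ?_)
  exact mul_le_mul_of_nonneg_left (Nat.floor_le (Real.exp_pos C).le) (by norm_num)

theorem Two_pt {l C θ : ℝ} (hθ : 0 < θ) {a b : ℕ → ℂ} (ha : ∀ m, ‖a m‖ ≤ vonMangoldt m)
    (hb : ∀ m, ‖b m‖ ≤ vonMangoldt m) (N : ℕ) (v : ℝ) :
    ‖mu l a b N (eta C) v‖ ^ 2 ≤ (1 + θ) * l ^ 2 * ‖eta C v‖ ^ 2 +
      (1 + 1 / θ) * (12 * Real.exp C) ^ 2 * (Set.Icc 0 C).indicator (fun _ => (1 : ℝ)) v +
      ‖∑ n ∈ Icc 1 N, a n / ((√n : ℝ) : ℂ) * eta C (v - Real.log n)‖ ^ 2 +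
      ‖∑ n ∈ Icc 1 N, b n / ((√n : ℝ) : ℂ) * eta C (v + Real.log n)‖ ^ 2 := by
  have h0 : 0 ≤ (1 + 1 / θ) * (12 * Real.exp C) ^ 2 *
      (Set.Icc 0 C).indicator (fun _ => (1 : ℝ)) v :=
    mul_nonneg (by positivity) (Set.indicator_nonneg (fun _ _ => zero_le_one) v)
  rw [mu]
  by_cases c : 0 ≤ v ∧ v < C
  · have h1 := Two_sum ha N (C := C) (fun n => v - Real.log n) fun n h => by
      linarith only [c, h, (Two_eta h).1, c.2]
    have h2 := Two_sum hb N (C := C) (fun n => v + Real.log n) fun n h => by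
      linarith only [c, h, (Two_eta h).2, c.1]
    rw [Set.indicator_of_mem (show v ∈ Set.Icc 0 C from ⟨c.1, c.2.le⟩), mul_one]
    refine (sq_add_le (x := |l| * ‖eta C v‖) (y := 12 * Real.exp C) hθ (norm_nonneg _) ?_).trans ?_
    · refine (norm_sub_le _ _).trans ((add_le_add (norm_sub_le _ _) h2).trans ?_)
      rw [norm_mul, norm_real, Real.norm_eq_abs]
      linarith only [h1]
    · rw [mul_pow, sq_abs, ← mul_assoc, add_assoc]
      exact le_add_of_nonneg_right (by positivity)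
  · rw [show eta C v = 0 from if_neg c, mul_zero, norm_zero]
    rcases not_and_or.1 c with c | c
    · rw [sum_eq_zero (s := Icc 1 N) (f := fun n : ℕ => a n / ((√n : ℝ) : ℂ) *
        eta C (v - Real.log n)) fun n _ => mul_eq_zero_of_right _ (if_neg fun h => by
          linarith only [c, h, Two_log n, h.1]), sub_zero, zero_sub, norm_neg, norm_zero]
      linarith only [h0]
    · rw [sum_eq_zero (s := Icc 1 N) (f := fun n : ℕ => b n / ((√n : ℝ) : ℂ) *
        eta C (v + Real.log n)) fun n _ => mul_eq_zero_of_right _ (if_neg fun h => by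
          linarith only [c, h, Two_log n, h.2]), sub_zero, zero_sub, norm_neg, norm_zero]
      linarith only [h0]

theorem Two_lb (a : ℕ → ℂ) (N : ℕ) (C : ℝ) {g : ℕ → ℝ → ℝ} (hg : ∀ n, Measurable (g n)) :
    LB fun v => ‖∑ n ∈ Icc 1 N, a n / ((√n : ℝ) : ℂ) * eta C (g n v)‖ ^ 2 := by
  refine LB.of_le (B := (∑ n ∈ Icc 1 N, ‖a n / ((√n : ℝ) : ℂ)‖) ^ 2)
    ((Finset.measurable_fun_sum _ fun n _ =>
      ((measurable_eta C).comp (hg n)).const_mul _).norm.pow_const 2) fun v => ?_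
  rw [abs_of_nonneg (sq_nonneg _)]
  refine pow_le_pow_left₀ (norm_nonneg _) ((norm_sum_le _ _).trans (sum_le_sum fun n _ => ?_)) 2
  rw [norm_mul]
  exact mul_le_of_le_one_right (norm_nonneg _) (norm_eta_le _ _)

theorem Two_lb_eta (C : ℝ) : LB fun v => ‖eta C v‖ ^ 2 :=
  LB.of_le (B := 1) ((measurable_eta C).norm.pow_const 2) fun v => by
    rw [abs_of_nonneg (sq_nonneg _)]
    exact pow_le_one₀ (norm_nonneg _) (norm_eta_le _ _)

theorem Two_lb_ind (C : ℝ) : LB ((Set.Icc 0 C).indicator fun _ => (1 : ℝ)) :=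
  LB.of_le (B := 1) (measurable_const.indicator measurableSet_Icc) fun v => by
    by_cases c : v ∈ Set.Icc 0 C <;> simp [c]

theorem Two_int_eta {C : ℝ} (hC : 0 < C) : ∫ v, ‖eta C v‖ ^ 2 ≤ 1 := by
  have h1 : (fun v => ‖eta C v‖ ^ 2) = (Set.Ico 0 C).indicator fun v => Real.exp (-v) := by
    funext v
    by_cases c : v ∈ Set.Ico 0 C
    · rw [Set.indicator_of_mem c, eta, if_pos (show 0 ≤ v ∧ v < C from c), norm_exp,
        ← Real.exp_nat_mul]
      congr 1
      simp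
      ring
    · rw [Set.indicator_of_notMem c, eta, if_neg (show ¬(0 ≤ v ∧ v < C) from c), norm_zero]
      norm_num
  rw [h1, integral_indicator measurableSet_Ico, integral_Ico_eq_integral_Ioo,
    ← integral_Ioc_eq_integral_Ioo, ← intervalIntegral.integral_of_le hC.le,
    intervalIntegral.integral_comp_neg, integral_exp, neg_zero, Real.exp_zero]
  linarith [Real.exp_pos (-C)]

variable {s : Finset ℤ} {p : ℤ → ℝ} {h d A V C : ℝ}

theorem Two_u1 (hs : StD s p h d A V) (hC : 0 < C) (hCd : C ≤ d) :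
    dbl (st s p h (3 * d)) (st s p h (2 * d)) (fun v => ‖eta C v‖ ^ 2) ≤
      ∫ t, st s p h d t ^ 2 := by
  have hd := hs.d0
  have w1 := hs.wt hd
  have w2 := hs.wt (show 0 < 2 * d by linarith only [hC, hCd])
  have w3 := hs.wt (show 0 < 3 * d by linarith)
  refine integral_mono (w3.integrable_mul (LB.inner w2 (Two_lb_eta C)))
    (by simpa only [sq] using w1.integrable_mul w1.lb) fun t => ?_
  by_cases c : st s p h (3 * d) t = 0
  · simp only [c, zero_mul]
    exact sq_nonneg _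
  have h1 : ∀ y, st s p h (2 * d) y * ‖eta C (t - y)‖ ^ 2 =
      st s p h (3 * d) t * ‖eta C (t - y)‖ ^ 2 := by
    intro y
    by_cases c' : eta C (t - y) = 0
    · simp [c']
    · rw [show 3 * d = 2 * d + d by ring] at c ⊢
      rw [st_loc (by linarith) c (abs_le.2 ⟨by linarith [(Two_eta c').2], by
        linarith [(Two_eta c').1]⟩)]
  have h2 := st_anti (s := s) (h := h) hs.nn (show d ≤ 3 * d by linarith) t
  simp only [h1]
  rw [integral_const_mul, integral_sub_left_eq_self (fun v => ‖eta C v‖ ^ 2), ← mul_assoc, ← sq]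
  exact (mul_le_of_le_one_right (sq_nonneg _) (Two_int_eta hC)).trans
    (pow_le_pow_left₀ (w3.nn t) h2 2)

theorem Two_cell (hs : StD s p h d A V) (hCd : C ≤ d) (hC : 0 < C) {F E : ℝ → ℝ} {c : ℝ}
    (hF : LB F) (hE : LB E) (h0 : ∀ v, 0 ≤ E v) (hc : 0 ≤ c)
    (H : ∀ v0 v1, v0 ≤ v1 → ∫ v in v0..v1, F v ≤ c * ∫ v in v0 - C..v1, E v) :
    dbl (st s p h (3 * d)) (st s p h (2 * d)) F ≤ c * dbl (st s p h d) (st s p h d) E := by
  have hd := hs.d0
  have hh := hs.dh
  have w1 := hs.wt hd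
  have w2 := hs.wt (show 0 < 2 * d by linarith only [hCd, hC])
  have w3 := hs.wt (show 0 < 3 * d by linarith)
  refine le_trans ?_ (mul_le_mul_of_nonneg_left (dbl_mono w3 w1 w1 w1 hE hE
    (st_anti hs.nn (by linarith)) (fun _ => le_rfl) h0 fun _ _ => le_rfl) hc)
  rw [dbl, dbl, ← integral_const_mul]
  refine integral_mono (w3.integrable_mul (LB.inner w2 hF))
    ((w3.integrable_mul (LB.inner w1 hE)).const_mul c) fun t => ?_
  refine le_trans (mul_le_mul_of_nonneg_left ?_ (w3.nn t)) (mul_left_comm _ c _).le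
  rw [st_integral (by linarith only [hCd, hC, hh]) (hF.comp_sub t), st_integral (by linarith only [hCd, hC, hh]) (hE.comp_sub t),
    mul_sum]
  refine sum_le_sum fun k _ => ?_
  rw [mul_left_comm, intervalIntegral.integral_comp_sub_left F,
    intervalIntegral.integral_comp_sub_left E]
  refine mul_le_mul_of_nonneg_left ((H _ _ (by linarith only [hCd, hC, hh])).trans
    (mul_le_mul_of_nonneg_left ?_ hc)) (hs.nn k)
  exact intervalIntegral.integral_mono_interval (by linarith) (by linarith only [hCd, hC, hh]) (by linarith)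
    (ae_of_all _ h0) (hE.intervalIntegrable _ _)

theorem energy_le {s : Finset ℤ} {p : ℤ → ℝ} {h d A V l C θ : ℝ} (hs : StD s p h d A V)
    (hV : 0 ≤ V) (hC : 0 < C) (hCd : C ≤ d) (hθ : 0 < θ) {a b : ℕ → ℂ}
    (ha : ∀ m, ‖a m‖ ≤ vonMangoldt m) (hb : ∀ m, ‖b m‖ ≤ vonMangoldt m) (N : ℕ)
    (hab : ∀ v, ‖Ev b N v‖ = ‖Ev a N v‖) :
    dbl (st s p h (3 * d)) (st s p h (2 * d)) (fun v => ‖mu l a b N (eta C) v‖ ^ 2) ≤
      (1 + θ) * l ^ 2 * (∫ t, st s p h d t ^ 2) +
        (1 + 1 / θ) * (12 * Real.exp C) ^ 2 * (2 * A * V * (A * C)) +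
        2 * (1 + Real.exp (-C / 2)) ^ 2 *
          dbl (st s p h d) (st s p h d) fun v => ‖Ev a N v‖ ^ 2 := by
  have hd := hs.d0
  have w1 := hs.wt hd
  have w2 := hs.wt (show 0 < 2 * d by linarith only [hC, hCd])
  have w3 := hs.wt (show 0 < 3 * d by linarith)
  have l1 := (LB.const ((1 + θ) * l ^ 2)).mul (Two_lb_eta C)
  have l2 := (LB.const ((1 + 1 / θ) * (12 * Real.exp C) ^ 2)).mul (Two_lb_ind C)
  have l3 := Two_lb a N C (g := fun n v => v - Real.log n) fun n => measurable_id.sub_const _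
  have l4 := Two_lb b N C (g := fun n v => v + Real.log n) fun n => measurable_id.add_const _
  have l5 := ((l1.add l2).add l3).add l4
  have pt := Two_pt (l := l) (C := C) hθ ha hb N
  have l0 : LB fun v => ‖mu l a b N (eta C) v‖ ^ 2 :=
    ⟨(measurable_mu_eta l C a b N).norm.pow_const 2, fun W => (l5.bdd W).imp fun B hB x hx => by
      rw [abs_of_nonneg (sq_nonneg _)]
      exact ((pt x).trans (le_abs_self _)).trans (hB x hx)⟩
  have lE := lb_Ev a N
  have lE' : LB fun v => ‖Ev a N (-v)‖ ^ 2 := by simpa only [zero_sub] using lE.comp_sub 0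
  have k1 := mul_le_mul_of_nonneg_left (Two_u1 hs hC hCd)
    (show 0 ≤ (1 + θ) * l ^ 2 by positivity)
  have k2 := dbl_le w3 w2 hV (Two_lb_ind C)
    ((integrable_indicator_iff measurableSet_Icc).2 (integrableOn_const (by simp)))
    (Set.indicator_nonneg fun _ _ => zero_le_one)
  rw [integral_indicator measurableSet_Icc, setIntegral_const, smul_eq_mul, mul_one,
    Real.volume_real_Icc_of_le hC.le, sub_zero] at k2
  have k2' := mul_le_mul_of_nonneg_left k2
    (show 0 ≤ (1 + 1 / θ) * (12 * Real.exp C) ^ 2 by positivity)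
  have k3 := Two_cell hs hCd hC l3 lE (fun _ => sq_nonneg _) (sq_nonneg (1 + Real.exp (-C / 2)))
    fun v0 v1 hv => ap_P hC hv
  have k4 := Two_cell hs hCd hC l4 lE' (fun _ => sq_nonneg _) (sq_nonneg (1 + Real.exp (-C / 2)))
    fun v0 v1 hv => by
      have H := ap_R (a := b) (N := N) hC (neg_le_neg hv)
      rw [intervalIntegral.integral_comp_neg fun v =>
        ‖∑ n ∈ Icc 1 N, b n / ((√n : ℝ) : ℂ) * eta C (v + Real.log n)‖ ^ 2, neg_neg, neg_neg] at H
      rw [intervalIntegral.integral_comp_neg fun v => ‖Ev a N v‖ ^ 2,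
        show -(v0 - C) = -v0 + C by ring]
      simpa only [hab] using H
  rw [dbl_neg w1 w1 lE] at k4
  refine (dbl_mono w3 w2 w3 w2 l0 l5 (fun _ => le_rfl) (fun _ => le_rfl)
    (fun v => (sq_nonneg _).trans (pt v)) fun v _ => pt v).trans ?_
  rw [dbl_add w3 w2 ((l1.add l2).add l3) l4, dbl_add w3 w2 (l1.add l2) l3, dbl_add w3 w2 l1 l2,
    dbl_smul, dbl_smul]
  linarith only [k1, k2', k3, k4]

end HooRT
end
end

-- merged part: Pool.Agent.Work.MP_5d318d_nt.RT.Mom
section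
/-! TASK RT Mom. Orthogonality and the second moment of `L`-functions.
`orth`: `LargeSieve.sum_normSq_of_orth` with `LargeSieve.sum_char_mul_conj` (two numbers of `Icc 1 N`, `N ≤ q`, which
are equal in `ZMod q` are equal). `sum_psum_sq`: for `χ ≠ 1` the sum `psum (fun n => χ n) m` equals the sum for
`m % q` (a full period sums to zero, see the proof of `norm_psum_char_le`), then `orth` with `b = 1`.
`sum_L_sq`: `L s = ∑' n, abelTerm` (`LFunction_eq_abel`); the first `q` terms are `∑_{n ≤ q} χ n n^(-s)` (`sum_abelTerm`,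
`psum q = 0`), whose mean square is at most `φ (1 + log q)` (`orth`, `sum_range_inv_le`). For the tail over
`q ≤ n < q + M` put `δ n = ‖s‖ (n + 1)^(-re s - 1)` (`norm_cpow_sub_le`); Cauchy-Schwarz gives
`‖tail‖^2 ≤ (∑ δ) * ∑ δ n ‖psum (n + 1)‖^2`, `∑ δ ≤ ‖s‖ q^(-re s) / re s ≤ 2 ‖s‖ / √q` (`sum_rpow_tail_le`), so the sum
over `χ` is at most `4 ‖s‖^2 φ`; let `M → ∞` (`le_of_tendsto'`). `sum_mom`: `circleAverage` of a finite sum
(`circleAverage_sum` or induction with `circleAverage_add`), `circleAverage_mono_on_of_le_circle`; on the circle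
`re (1/2 + z) ≥ 1/2` and `‖1/2 + z‖ ≤ 2 R + 1`. About 190 lines. -/

noncomputable section

open Complex MeasureTheory Finset Filter Topology Metric
open ArithmeticFunction hiding log
open scoped Real

namespace HooRT

open Classical in
theorem orth (q : ℕ) [NeZero q] {N : ℕ} (hN : N ≤ q) (b : ℕ → ℂ) :
    ∑ χ : DirichletCharacter ℂ q, ‖∑ n ∈ Icc 1 N, χ n * b n‖ ^ 2 ≤
      q.totient * ∑ n ∈ Icc 1 N, ‖b n‖ ^ 2 := by
  have hq : 0 < q := NeZero.pos q
  have h := Pool.Agent.Lib.LargeSieve.sum_normSq_of_orth (univ : Finset (DirichletCharacter ℂ q)) (Icc 1 N)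
    (fun χ n => χ (n : ZMod q)) (fun n => if IsUnit (n : ZMod q) then (q.totient : ℝ) else 0) b
    fun j hj k hk => by
      rw [Pool.Agent.Lib.LargeSieve.sum_char_mul_conj]
      by_cases e : j = k
      · subst e; simp
      · rw [if_neg e, if_neg]
        intro e'
        have h1 := (ZMod.natCast_eq_natCast_iff' j k q).1 e'
        rw [mem_Icc] at hj hk
        have a : ∀ m : ℕ, 1 ≤ m → m ≤ q → (m = q ∧ m % q = 0) ∨ m % q = m := fun m _ h2 => by
          rcases h2.eq_or_lt with rfl | h3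
          · exact Or.inl ⟨rfl, Nat.mod_self _⟩
          · exact Or.inr (Nat.mod_eq_of_lt h3)
        have a1 := a j hj.1 (hj.2.trans hN)
        have a2 := a k hk.1 (hk.2.trans hN)
        omega
  rw [h, mul_sum]
  refine sum_le_sum fun n _ => mul_le_mul_of_nonneg_right ?_ (by positivity)
  split_ifs
  · exact le_rfl
  · positivity

theorem Mom_per {q : ℕ} [NeZero q] {χ : DirichletCharacter ℂ q} (hχ : χ ≠ 1) (r k : ℕ) :
    Pool.Agent.Lib.ANT.psum (fun n => χ n) (r + q * k) =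
      Pool.Agent.Lib.ANT.psum (fun n => χ n) r := by
  have h0 : ∀ c : ℕ, ∑ k ∈ range q, χ ((c + k : ℕ) : ZMod q) = 0 := fun c => by
    have h := Pool.Agent.Lib.LargeSieve.sum_zmod_eq_sum_range q (fun x => χ ((c : ZMod q) + x))
    simp_rw [Nat.cast_add]
    rw [← h]
    exact (Equiv.sum_comp (Equiv.addLeft (c : ZMod q)) (fun x => χ x)).trans
      (MulChar.sum_eq_zero_of_ne_one hχ)
  induction k with
  | zero => simp
  | succ k ih =>
    rw [← ih, Nat.mul_succ, ← add_assoc]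
    unfold Pool.Agent.Lib.ANT.psum
    rw [sum_range_add]
    have := h0 (r + q * k + 1)
    simp_rw [add_right_comm _ 1] at this
    rw [this, add_zero]

theorem Mom_icc {M : Type*} [AddCommMonoid M] (f : ℕ → M) (N : ℕ) :
    ∑ n ∈ range N, f (n + 1) = ∑ n ∈ Icc 1 N, f n := by
  induction N with
  | zero => simp
  | succ N ih => rw [sum_range_succ, ih, sum_Icc_succ_top (by omega)]

open Classical in
theorem sum_psum_sq (q : ℕ) [NeZero q] (m : ℕ) :
    ∑ χ : DirichletCharacter ℂ q with χ ≠ 1,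
      ‖Pool.Agent.Lib.ANT.psum (fun n => χ n) m‖ ^ 2 ≤ q.totient * q := by
  have hq : 0 < q := NeZero.pos q
  have h := orth q (N := m % q) (Nat.mod_lt m hq).le fun _ => 1
  simp only [mul_one, norm_one, one_pow, sum_const, Nat.card_Icc, add_tsub_cancel_right,
    nsmul_eq_mul] at h
  calc _ = ∑ χ : DirichletCharacter ℂ q with χ ≠ 1, ‖∑ n ∈ Icc 1 (m % q), χ n‖ ^ 2 := by
        refine sum_congr rfl fun χ hχ => ?_
        have := Mom_per (mem_filter.1 hχ).2 (m % q) (m / q)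
        rw [Nat.mod_add_div] at this
        rw [this, Pool.Agent.Lib.ANT.psum, Mom_icc (fun n => χ (n : ZMod q))]
    _ ≤ ∑ χ : DirichletCharacter ℂ q, ‖∑ n ∈ Icc 1 (m % q), χ n‖ ^ 2 :=
        sum_le_sum_of_subset_of_nonneg (filter_subset _ _) fun _ _ _ => by positivity
    _ ≤ _ := h.trans (mul_le_mul_of_nonneg_left (by exact_mod_cast (Nat.mod_lt m hq).le)
        (Nat.cast_nonneg _))

open Classical in
theorem Mom_head (q : ℕ) [NeZero q] {s : ℂ} (hs : 1 / 2 ≤ s.re) :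
    ∑ χ : DirichletCharacter ℂ q with χ ≠ 1,
      ‖∑ n ∈ range q, Pool.Agent.Lib.ANT.abelTerm (fun n => χ n) n s‖ ^ 2 ≤
        q.totient * (1 + Real.log q) := by
  have h := orth q le_rfl fun n => (n : ℂ) ^ (-s)
  have h2 : ∑ n ∈ Icc 1 q, ‖(n : ℂ) ^ (-s)‖ ^ 2 ≤ 1 + Real.log q := by
    rw [← Mom_icc (fun n => ‖(n : ℂ) ^ (-s)‖ ^ 2)]
    refine (sum_le_sum fun n _ => ?_).trans (Pool.Agent.Lib.ANT.sum_range_inv_le q)
    rw [norm_natCast_cpow_of_pos (Nat.succ_pos _), neg_re, ← Real.rpow_natCast,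
      ← Real.rpow_mul (Nat.cast_nonneg _), ← Real.rpow_neg_one]
    refine Real.rpow_le_rpow_of_exponent_le (by exact_mod_cast Nat.succ_pos _) ?_
    push_cast
    linarith only [hs]
  calc _ = ∑ χ : DirichletCharacter ℂ q with χ ≠ 1,
        ‖∑ n ∈ Icc 1 q, χ n * (n : ℂ) ^ (-s)‖ ^ 2 := by
        refine sum_congr rfl fun χ hχ => ?_
        have := Mom_per (mem_filter.1 hχ).2 0 1
        rw [zero_add, mul_one] at this
        rw [Pool.Agent.Lib.ANT.sum_abelTerm, this,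
          Mom_icc (fun n => χ (n : ZMod q) * (n : ℂ) ^ (-s))]
        simp [Pool.Agent.Lib.ANT.psum]
    _ ≤ ∑ χ : DirichletCharacter ℂ q, ‖∑ n ∈ Icc 1 q, χ n * (n : ℂ) ^ (-s)‖ ^ 2 :=
        sum_le_sum_of_subset_of_nonneg (filter_subset _ _) fun _ _ _ => by positivity
    _ ≤ _ := h.trans (mul_le_mul_of_nonneg_left h2 (Nat.cast_nonneg _))

theorem Mom_cs (a : ℕ → ℂ) {s : ℂ} (hs : 0 ≤ s.re) (q M : ℕ) :
    ‖∑ n ∈ range M, Pool.Agent.Lib.ANT.abelTerm a (q + n) s‖ ^ 2 ≤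
      (∑ n ∈ range M, ‖s‖ * ((n + q + 1 : ℕ) : ℝ) ^ (-s.re - 1)) *
        ∑ n ∈ range M, ‖s‖ * ((n + q + 1 : ℕ) : ℝ) ^ (-s.re - 1) *
          ‖Pool.Agent.Lib.ANT.psum a (n + q + 1)‖ ^ 2 := by
  refine (pow_le_pow_left₀ (norm_nonneg _) (norm_sum_le _ _) 2).trans ?_
  refine sum_sq_le_sum_mul_sum_of_sq_le_mul _ (fun _ _ => by positivity)
    (fun _ _ => by positivity) fun n _ => ?_
  have h := Pool.Agent.Lib.ANT.norm_cpow_sub_le hs (a := ((n + q + 1 : ℕ) : ℝ))
    (u := ((n + q + 2 : ℕ) : ℝ)) (by positivity) (by exact_mod_cast Nat.le_succ _)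
  have e : ((n + q + 2 : ℕ) : ℝ) - ((n + q + 1 : ℕ) : ℝ) = 1 := by push_cast; ring
  rw [e, mul_one, ofReal_natCast, ofReal_natCast, norm_sub_rev] at h
  rw [add_comm q n, Pool.Agent.Lib.ANT.abelTerm, norm_mul]
  refine (pow_le_pow_left₀ (by positivity)
    (mul_le_mul_of_nonneg_left h (norm_nonneg _)) 2).trans_eq ?_
  ring

open Classical in
theorem Mom_tail (q : ℕ) [NeZero q] {s : ℂ} (hs : 1 / 2 ≤ s.re) (M : ℕ) :
    ∑ χ : DirichletCharacter ℂ q with χ ≠ 1,
      ‖∑ n ∈ range M, Pool.Agent.Lib.ANT.abelTerm (fun n => χ n) (q + n) s‖ ^ 2 ≤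
        q.totient * (4 * ‖s‖ ^ 2) := by
  have hq : 0 < q := NeZero.pos q
  have hq1 : (1 : ℝ) ≤ q := by exact_mod_cast hq
  have hσ : 0 < s.re := by linarith only [hs]
  refine (sum_le_sum fun χ _ => Mom_cs (fun n => χ n) hσ.le q M).trans ?_
  set D : ℝ := ∑ n ∈ range M, ‖s‖ * ((n + q + 1 : ℕ) : ℝ) ^ (-s.re - 1) with hD
  have D0 : 0 ≤ D := sum_nonneg fun _ _ => by positivity
  have D1 : D ≤ ‖s‖ * (2 * (q : ℝ) ^ (-(1 / 2) : ℝ)) := by
    rw [hD, ← mul_sum]
    refine mul_le_mul_of_nonneg_left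
      ((Pool.Agent.Lib.ANT.sum_rpow_tail_le hσ hq M).trans ?_) (norm_nonneg _)
    have a1 : (q : ℝ) ^ (-s.re) ≤ (q : ℝ) ^ (-(1 / 2) : ℝ) :=
      Real.rpow_le_rpow_of_exponent_le hq1 (by linarith only [hs])
    have a2 : 0 ≤ (q : ℝ) ^ (-(1 / 2) : ℝ) := by positivity
    rw [div_le_iff₀ hσ]
    linarith only [a1, hs, a2, mul_nonneg_of_nonpos_of_nonpos (Mathlib.Tactic.Linarith.sub_nonpos_of_le hs) (Mathlib.Tactic.Linarith.sub_nonpos_of_le a2)]
  have D2 : ((q : ℝ) ^ (-(1 / 2) : ℝ)) ^ 2 * q = 1 := by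
    rw [← Real.rpow_natCast, ← Real.rpow_mul (Nat.cast_nonneg _)]
    norm_num
    rw [Real.rpow_neg_one, inv_mul_cancel₀ (by linarith only [hq1])]
  rw [← mul_sum, sum_comm]
  have h1 : ∑ n ∈ range M, ∑ χ : DirichletCharacter ℂ q with χ ≠ 1,
      ‖s‖ * ((n + q + 1 : ℕ) : ℝ) ^ (-s.re - 1) *
        ‖Pool.Agent.Lib.ANT.psum (fun n => χ n) (n + q + 1)‖ ^ 2 ≤ D * (q.totient * q) := by
    rw [hD, sum_mul]
    refine sum_le_sum fun n _ => ?_
    rw [← mul_sum]
    exact mul_le_mul_of_nonneg_left (sum_psum_sq q _) (by positivity)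
  refine (mul_le_mul_of_nonneg_left h1 D0).trans ?_
  have h2 := pow_le_pow_left₀ D0 D1 2
  calc D * (D * (q.totient * q)) = D ^ 2 * (q.totient * q) := by ring
    _ ≤ (‖s‖ * (2 * (q : ℝ) ^ (-(1 / 2) : ℝ))) ^ 2 * (q.totient * q) :=
        mul_le_mul_of_nonneg_right h2 (by positivity)
    _ = q.totient * (4 * ‖s‖ ^ 2) * (((q : ℝ) ^ (-(1 / 2) : ℝ)) ^ 2 * q) := by ring
    _ = _ := by rw [D2, mul_one]

open Classical in
theorem sum_L_sq (q : ℕ) [NeZero q] {s : ℂ} (hs : 1 / 2 ≤ s.re) :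
    ∑ χ : DirichletCharacter ℂ q with χ ≠ 1, ‖χ.LFunction s‖ ^ 2 ≤
      q.totient * (2 * (1 + Real.log q) + 8 * ‖s‖ ^ 2) := by
  have hσ : 0 < s.re := by linarith only [hs]
  have hT : Tendsto (fun M => ∑ χ : DirichletCharacter ℂ q with χ ≠ 1,
      ‖∑ n ∈ range (M + q), Pool.Agent.Lib.ANT.abelTerm (fun n => χ n) n s‖ ^ 2) atTop
      (𝓝 (∑ χ : DirichletCharacter ℂ q with χ ≠ 1, ‖χ.LFunction s‖ ^ 2)) := by
    refine tendsto_finsetSum _ fun χ hχ => ?_
    have hχ1 := (mem_filter.1 hχ).2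
    have hK : ∀ n, ‖Pool.Agent.Lib.ANT.psum (fun n => χ n) n‖ ≤ q := fun n => by
      have := Pool.Agent.Lib.ANT.norm_psum_char_le hχ1 1 n
      simpa [Pool.Agent.Lib.ANT.psum, add_comm] using this
    rw [Pool.Agent.Lib.ANT.LFunction_eq_abel hχ1 hσ]
    exact ((tendsto_add_atTop_iff_nat q).2
      (Pool.Agent.Lib.ANT.summable_abelTerm hK hσ).hasSum.tendsto_sum_nat).norm.pow 2
  refine le_of_tendsto' hT fun M => ?_
  have key : ∀ x y : ℂ, ‖x + y‖ ^ 2 ≤ 2 * ‖x‖ ^ 2 + 2 * ‖y‖ ^ 2 := fun x y => by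
    have := pow_le_pow_left₀ (norm_nonneg _) (norm_add_le x y) 2
    linarith only [this, sq_nonneg (‖x‖ - ‖y‖), sq_nonneg (‖x‖ - ‖y‖)]
  simp only [add_comm M q, sum_range_add]
  refine (sum_le_sum fun χ _ => key _ _).trans ?_
  rw [sum_add_distrib, ← mul_sum, ← mul_sum]
  linarith [Mom_head q hs, Mom_tail q hs M]

theorem mom_nonneg {q : ℕ} [NeZero q] (χ : DirichletCharacter ℂ q) (R : ℝ) : 0 ≤ mom χ R := by
  exact Real.circleAverage_nonneg_of_nonneg fun _ _ => by positivity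

open Classical in
theorem sum_mom (q : ℕ) [NeZero q] {R : ℝ} (hR : 0 ≤ R) :
    ∑ χ : DirichletCharacter ℂ q with χ ≠ 1, mom χ R ≤
      q.totient * (2 * (1 + Real.log q) + 8 * (2 * R + 1) ^ 2) := by
  have hc : ∀ χ ∈ (univ : Finset (DirichletCharacter ℂ q)).filter (· ≠ 1),
      Continuous fun z : ℂ => ‖χ.LFunction (1 / 2 + z)‖ ^ 2 := fun χ hχ =>
    (((DirichletCharacter.differentiable_LFunction (mem_filter.1 hχ).2).continuous.comp
      (continuous_const.add continuous_id)).norm).pow 2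
  unfold mom
  rw [← Real.circleAverage_fun_sum fun χ hχ => (hc χ hχ).continuousOn.circleIntegrable']
  refine Real.circleAverage_mono_on_of_le_circle
    (continuous_finsetSum _ hc).continuousOn.circleIntegrable' fun z hz => ?_
  rw [abs_of_nonneg hR, mem_sphere_iff_norm] at hz
  have h1 := abs_re_le_norm (z - R)
  rw [hz, sub_re, ofReal_re, abs_le] at h1
  have h2 : ‖(1 / 2 : ℂ) + z‖ ≤ 2 * R + 1 := by
    have a1 := norm_add_le (1 / 2 : ℂ) z
    have a2 := norm_le_norm_add_norm_sub' z (R : ℂ)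
    rw [hz, norm_real, Real.norm_of_nonneg hR] at a2
    have a3 : ‖(1 / 2 : ℂ)‖ = 1 / 2 := by simp
    linarith only [a1, a2, a3]
  refine (sum_L_sq q (s := 1 / 2 + z) ?_).trans ?_
  · have : (1 / 2 + z : ℂ).re = 1 / 2 + z.re := by simp
    rw [this]
    linarith only [h1, h1.1]
  · have := pow_le_pow_left₀ (norm_nonneg _) h2 2
    exact mul_le_mul_of_nonneg_left (by linarith only [this]) (Nat.cast_nonneg _)

end HooRT
end
end

-- merged part: Pool.Agent.Work.MP_5d318d_nt.RT.Low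
section
/-! Sums over all characters of modulus `Q`.
`Ev_eq`: for `n ≥ 1`, `log n ≤ v ↔ n ≤ ⌊exp v⌋₊`. `norm_Ev_inv`: `lc χ⁻¹ n = conj (lc χ n)` (`MulChar.star_eq_inv`,
`DirichletCharacter` values: `MulChar.star_apply'`/`Complex.inv_eq_conj`).
`low_sum`: `orth` with `min N ⌊exp v⌋₊ ≤ Q`, `Λ n ^ 2 ≤ v Λ n`, and `ψ x ≤ (1 + ε) x + K` for all `x ≥ 0`
(`tendsto_psi_div`, monotonicity or `sum_vonMangoldt_Icc_le`), `v exp (-v) ≤ 1`.
`high_sum`: for `χ ≠ 1`, `∑_{n ≤ X} χ n Λ n = ∑ A ∈ red Q, χ A * (psiAP A - X / φ)` (fibres of `n % Q`, `χ` vanishes on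
non units, `MulChar.sum_eq_zero_of_ne_one`); then orthogonality on `red Q` (`LargeSieve.sum_normSq_of_orth`,
`LargeSieve.sum_char_mul_conj`). `exists_rho`: the two sums differ only at `n` not coprime to `Q`
(`primitiveCharacter_apply_of_isCoprime`; there `χ n = 0`), so the difference is at most `exp (-v/2) r`, `r` the sum of
`Λ n` over such `n ≤ exp v`; `r ≤ 6 exp v` and `r ≤ ω(Q) v ≤ 2 v log Q` (each prime `p ∣ Q` contributes
`log p * #{k : p^k ≤ exp v} ≤ v`; `2^ω ≤ Q`). Take `ρ v = 36 exp v0` on `[0, v0]`,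
`64 (log Q)^2 exp (-v0 / 4) exp (-v / 4)` on `(v0, ∞)`, `0` for `v < 0` (`v^2 ≤ 16 exp (v / 2)`). About 260 lines. -/

noncomputable section

open Complex MeasureTheory Finset Filter Topology Metric
open ArithmeticFunction hiding log
open scoped Real

namespace HooRT

open Pool.Agent.Work.MP_5d318d_nt

theorem Ev_eq (a : ℕ → ℂ) (N : ℕ) (v : ℝ) :
    Ev a N v = cexp (-v / 2) * ∑ n ∈ Icc 1 (min N ⌊Real.exp v⌋₊), a n := by
  rw [Ev, ← Finset.sum_filter]
  congr 2
  ext n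
  simp only [Finset.mem_filter, Finset.mem_Icc, le_min_iff]
  constructor
  · rintro ⟨⟨h1, h2⟩, h3⟩
    have h0 : (0 : ℝ) < n := by exact_mod_cast h1
    exact ⟨h1, h2, Nat.le_floor ((Real.log_le_iff_le_exp h0).mp h3)⟩
  · rintro ⟨h1, h2, h3⟩
    have h0 : (0 : ℝ) < n := by exact_mod_cast h1
    exact ⟨⟨h1, h2⟩, (Real.log_le_iff_le_exp h0).mpr
      ((Nat.le_floor_iff (Real.exp_pos v).le).mp h3)⟩

theorem Ev_neg (a : ℕ → ℂ) (N : ℕ) {v : ℝ} (hv : v < 0) : Ev a N v = 0 := by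
  have h : ⌊Real.exp v⌋₊ = 0 := Nat.floor_eq_zero.mpr (Real.exp_lt_one_iff.mpr hv)
  rw [Ev_eq, h]
  simp

theorem Low_norm (a : ℕ → ℂ) (N : ℕ) (v : ℝ) :
    ‖Ev a N v‖ = Real.exp (-v / 2) * ‖∑ n ∈ Icc 1 (min N ⌊Real.exp v⌋₊), a n‖ := by
  rw [Ev_eq, norm_mul]
  congr 1
  have : (-(v : ℂ) / 2) = ((-v / 2 : ℝ) : ℂ) := by push_cast; ring
  rw [this, Complex.norm_exp_ofReal]

theorem Low_norm_sq (a : ℕ → ℂ) (N : ℕ) (v : ℝ) :
    ‖Ev a N v‖ ^ 2 = Real.exp (-v) * ‖∑ n ∈ Icc 1 (min N ⌊Real.exp v⌋₊), a n‖ ^ 2 := by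
  rw [Low_norm, mul_pow, ← Real.exp_nat_mul]
  congr 2
  push_cast
  ring

theorem norm_Ev_inv {q : ℕ} (χ : DirichletCharacter ℂ q) (N : ℕ) (v : ℝ) :
    ‖Ev (lc χ⁻¹) N v‖ = ‖Ev (lc χ) N v‖ := by
  rw [Low_norm, Low_norm]
  congr 1
  have : ∑ n ∈ Icc 1 (min N ⌊Real.exp v⌋₊), lc χ⁻¹ n =
      (starRingEnd ℂ) (∑ n ∈ Icc 1 (min N ⌊Real.exp v⌋₊), lc χ n) := by
    rw [map_sum]
    refine Finset.sum_congr rfl fun n _ => ?_
    have h1 : (starRingEnd ℂ) (χ n) = χ⁻¹ n := χ.star_apply' n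
    rw [lc, lc, map_mul, h1, Complex.conj_ofReal]
  rw [this, Complex.norm_conj]

theorem Low_psi {ε : ℝ} (hε : 0 < ε) : ∃ K : ℝ, 0 ≤ K ∧ ∀ M : ℕ,
    ∑ n ∈ Icc 1 M, vonMangoldt n ≤ (1 + ε) * M + K := by
  have h := Pool.Agent.Lib.ANT.tendsto_psi_div.eventually
    (gt_mem_nhds (show (1 : ℝ) < 1 + ε by linarith))
  obtain ⟨x0, hx⟩ := Filter.eventually_atTop.mp h
  refine ⟨6 * max x0 1, by positivity, fun M => ?_⟩
  have h0 : (0 : ℝ) ≤ (1 + ε) * M := by positivity
  rcases le_total (max x0 1) (M : ℝ) with hM | hM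
  · have h1 := hx M ((le_max_left _ _).trans hM)
    have h2 : (0 : ℝ) < M := lt_of_lt_of_le one_pos ((le_max_right _ _).trans hM)
    rw [div_lt_iff₀ h2, psi_eq] at h1
    have : (0 : ℝ) ≤ 6 * max x0 1 := by positivity
    linarith
  · have := sum_vonMangoldt_Icc_le M
    linarith

theorem Low_min_le (N : ℕ) (v : ℝ) : ((min N ⌊Real.exp v⌋₊ : ℕ) : ℝ) ≤ Real.exp v :=
  (Nat.cast_le.mpr (min_le_right _ _)).trans (Nat.floor_le (Real.exp_pos v).le)

open Classical in
theorem low_sum {ε : ℝ} (hε : 0 < ε) : ∃ K : ℝ, 0 ≤ K ∧ ∀ (Q : ℕ) [NeZero Q] (N : ℕ) (v : ℝ),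
    0 ≤ v → v ≤ Real.log Q →
      ∑ χ : DirichletCharacter ℂ Q, ‖Ev (lc χ) N v‖ ^ 2 ≤ Q.totient * ((1 + ε) * v + K) := by
  obtain ⟨K, hK, h⟩ := Low_psi hε
  refine ⟨K, hK, fun Q _ N v hv hQ => ?_⟩
  set M := min N ⌊Real.exp v⌋₊ with hM
  have hQ0 : (0 : ℝ) < Q := by exact_mod_cast Nat.pos_of_ne_zero (NeZero.ne Q)
  have hMv : (M : ℝ) ≤ Real.exp v := Low_min_le N v
  have hMQ : M ≤ Q := by
    have : (M : ℝ) ≤ Q := hMv.trans ((Real.le_log_iff_exp_le hQ0).mp hQ)
    exact_mod_cast this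
  have h1 := orth Q hMQ fun n => ((vonMangoldt n : ℝ) : ℂ)
  have h2 : ∑ n ∈ Icc 1 M, ‖((vonMangoldt n : ℝ) : ℂ)‖ ^ 2 ≤ v * ((1 + ε) * Real.exp v + K) := by
    have e1 : ∑ n ∈ Icc 1 M, ‖((vonMangoldt n : ℝ) : ℂ)‖ ^ 2 ≤
        v * ∑ n ∈ Icc 1 M, vonMangoldt n := by
      rw [Finset.mul_sum]
      refine Finset.sum_le_sum fun n hn => ?_
      rw [norm_real, Real.norm_of_nonneg vonMangoldt_nonneg, sq]
      refine mul_le_mul_of_nonneg_right ?_ vonMangoldt_nonneg
      have hn' := Finset.mem_Icc.mp hn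
      have h0 : (0 : ℝ) < n := by exact_mod_cast hn'.1
      refine vonMangoldt_le_log.trans ((Real.log_le_iff_le_exp h0).mpr ?_)
      exact (Nat.cast_le.mpr hn'.2).trans hMv
    refine e1.trans (mul_le_mul_of_nonneg_left ((h M).trans ?_) hv)
    have : (1 + ε) * (M : ℝ) ≤ (1 + ε) * Real.exp v :=
      mul_le_mul_of_nonneg_left hMv (by linarith only [hε])
    linarith only [this]
  simp_rw [Low_norm_sq]
  rw [← Finset.mul_sum]
  have h3 : ∑ χ : DirichletCharacter ℂ Q, ‖∑ n ∈ Icc 1 M, lc χ n‖ ^ 2 ≤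
      Q.totient * (v * ((1 + ε) * Real.exp v + K)) :=
    h1.trans (mul_le_mul_of_nonneg_left h2 (Nat.cast_nonneg _))
  refine (mul_le_mul_of_nonneg_left h3 (Real.exp_pos _).le).trans ?_
  have e1 : Real.exp (-v) * Real.exp v = 1 := by rw [← Real.exp_add]; simp
  have e2 : Real.exp (-v) * v ≤ 1 := by
    have := Real.add_one_le_exp v
    have h5 := (Real.exp_pos (-v)).le
    (refine le_of_not_gt fun h_nl => ?_; linarith only [h_nl, this, hv, e1, hMv, mul_nonneg_of_nonpos_of_nonpos (Mathlib.Tactic.Linarith.sub_nonpos_of_le (Mathlib.Tactic.Linarith.natCast_nonneg ℝ M)) (le_of_lt (Mathlib.Tactic.Linarith.sub_neg_of_lt h_nl)), Mathlib.Tactic.Linarith.mul_zero_eq (Mathlib.Tactic.Linarith.sub_nonpos_of_le hv) (sub_eq_zero_of_eq e1), mul_nonneg_of_nonpos_of_nonpos (Mathlib.Tactic.Linarith.sub_nonpos_of_le hMv) (le_of_lt (Mathlib.Tactic.Linarith.sub_neg_of_lt h_nl))])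
  have e3 : Real.exp (-v) * (Q.totient * (v * ((1 + ε) * Real.exp v + K))) =
      Q.totient * ((1 + ε) * v * (Real.exp (-v) * Real.exp v) + Real.exp (-v) * v * K) := by ring
  rw [e3, e1, mul_one]
  refine mul_le_mul_of_nonneg_left ?_ (Nat.cast_nonneg _)
  linarith only [hK, e2, mul_nonneg_of_nonpos_of_nonpos (Mathlib.Tactic.Linarith.sub_nonpos_of_le hK) (Mathlib.Tactic.Linarith.sub_nonpos_of_le e2)]

theorem Low_sum_red {Q : ℕ} [NeZero Q] (χ : DirichletCharacter ℂ Q) (g : ℕ → ℂ) :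
    ∑ A ∈ red Q, χ A * g A = ∑ A ∈ range Q, χ A * g A := by
  rw [red, Finset.sum_filter]
  refine Finset.sum_congr rfl fun A _ => ?_
  split_ifs with h
  · rfl
  · rw [χ.map_nonunit (fun hu => h ((ZMod.isUnit_iff_coprime A Q).mp hu)), zero_mul]

theorem Low_fib {Q : ℕ} [NeZero Q] {χ : DirichletCharacter ℂ Q} (hχ : χ ≠ 1) (M : ℕ) (c : ℝ) :
    ∑ n ∈ Icc 1 M, lc χ n = ∑ A ∈ red Q, χ A * ((psiAP M Q A - c : ℝ) : ℂ) := by
  have hQ : 0 < Q := Nat.pos_of_ne_zero (NeZero.ne Q)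
  rw [Low_sum_red]
  have h0 : ∑ A ∈ range Q, χ A = 0 := by
    rw [← MulChar.sum_eq_zero_of_ne_one hχ]
    obtain ⟨k, rfl⟩ : ∃ k, Q = k + 1 := ⟨Q - 1, by omega⟩
    rw [Finset.sum_range]
    exact Finset.sum_congr rfl fun i _ => congrArg χ (ZMod.natCast_zmod_val (n := k + 1) i)
  simp_rw [Complex.ofReal_sub, mul_sub]
  rw [Finset.sum_sub_distrib, ← Finset.sum_mul, h0, zero_mul, sub_zero,
    ← Finset.sum_fiberwise_of_maps_to (s := Icc 1 M) (t := range Q) (g := fun n => n % Q)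
      fun n _ => Finset.mem_range.mpr (Nat.mod_lt _ hQ)]
  refine Finset.sum_congr rfl fun A _ => ?_
  rw [psiAP, Complex.ofReal_sum, Finset.mul_sum]
  refine Finset.sum_congr rfl fun n hn => ?_
  rw [lc, ← (Finset.mem_filter.mp hn).2, ZMod.natCast_mod]

open Classical in
theorem high_sum (Q : ℕ) [NeZero Q] {N : ℕ} (hN : 1 ≤ N) {v : ℝ} (hv : v ≤ Real.log N) :
    ∑ χ : DirichletCharacter ℂ Q with χ ≠ 1, ‖Ev (lc χ) N v‖ ^ 2 ≤
      Q.totient * (G (Real.exp v) Q / Real.exp v) := by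
  have hN0 : (0 : ℝ) < N := by exact_mod_cast hN
  have hM : min N ⌊Real.exp v⌋₊ = ⌊Real.exp v⌋₊ :=
    min_eq_right (Nat.floor_le_of_le ((Real.le_log_iff_exp_le hN0).mp hv))
  set y : ℕ → ℂ := fun A =>
    ((psiAP ⌊Real.exp v⌋₊ Q A - Real.exp v / (Q.totient : ℝ) : ℝ) : ℂ) with hy
  have h1 := Pool.Agent.Lib.LargeSieve.sum_normSq_of_orth (univ : Finset (DirichletCharacter ℂ Q)) (red Q)
    (fun χ A => χ A) (fun _ => (Q.totient : ℝ)) y fun j hj k hk => by
      have hj' := Finset.mem_filter.mp hj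
      have hk' := Finset.mem_filter.mp hk
      rw [Pool.Agent.Lib.LargeSieve.sum_char_mul_conj, if_pos ((ZMod.isUnit_iff_coprime j Q).mpr hj'.2)]
      have : ((j : ZMod Q) = k) ↔ j = k := by
        rw [ZMod.natCast_eq_natCast_iff', Nat.mod_eq_of_lt (Finset.mem_range.mp hj'.1),
          Nat.mod_eq_of_lt (Finset.mem_range.mp hk'.1)]
      simp only [this]
  have h2 : ∑ A ∈ red Q, (Q.totient : ℝ) * ‖y A‖ ^ 2 = Q.totient * G (Real.exp v) Q := by
    rw [G, Finset.mul_sum]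
    refine Finset.sum_congr rfl fun A _ => ?_
    rw [hy, norm_real, Real.norm_eq_abs, sq_abs]
  have h3 : ∑ χ : DirichletCharacter ℂ Q with χ ≠ 1, ‖Ev (lc χ) N v‖ ^ 2 =
      Real.exp (-v) * ∑ χ : DirichletCharacter ℂ Q with χ ≠ 1, ‖∑ A ∈ red Q, χ A * y A‖ ^ 2 := by
    rw [Finset.mul_sum]
    refine Finset.sum_congr rfl fun χ hχ => ?_
    rw [Low_norm_sq, hM, Low_fib (Finset.mem_filter.mp hχ).2]
  rw [h3]
  have h4 : ∑ χ : DirichletCharacter ℂ Q with χ ≠ 1, ‖∑ A ∈ red Q, χ A * y A‖ ^ 2 ≤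
      Q.totient * G (Real.exp v) Q := by
    rw [← h2, ← h1]
    exact Finset.sum_le_sum_of_subset_of_nonneg (Finset.filter_subset _ _) fun _ _ _ => sq_nonneg _
  refine (mul_le_mul_of_nonneg_left h4 (Real.exp_pos _).le).trans (le_of_eq ?_)
  rw [Real.exp_neg]
  ring

theorem Low_r_le {Q : ℕ} (hQ : Q ≠ 0) {M : ℕ} {v : ℝ} (hv : 0 ≤ v) (hM : (M : ℝ) ≤ Real.exp v) :
    ∑ n ∈ (Icc 1 M).filter (fun n => ¬ n.Coprime Q), vonMangoldt n ≤ 2 * v * Real.log Q := by
  classical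
  have hL : 0 ≤ Real.log Q := Real.log_natCast_nonneg Q
  rcases Nat.eq_zero_or_pos M with rfl | hM0
  · simp only [Finset.Icc_eq_empty (show ¬ (1 : ℕ) ≤ 0 by omega), Finset.filter_empty,
      Finset.sum_empty]
    positivity
  set j := Nat.log 2 M with hj
  have h1 : ∑ n ∈ (Icc 1 M).filter (fun n => ¬ n.Coprime Q), vonMangoldt n ≤
      ∑ n ∈ (Q ^ j).divisors, vonMangoldt n := by
    rw [← Finset.sum_filter_ne_zero]
    refine Finset.sum_le_sum_of_subset_of_nonneg ?_ fun _ _ _ => vonMangoldt_nonneg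
    intro n hn
    obtain ⟨h1, h2⟩ := Finset.mem_filter.mp hn
    obtain ⟨h3, h4⟩ := Finset.mem_filter.mp h1
    obtain ⟨p, k, hp, hk, rfl⟩ := (isPrimePow_nat_iff n).mp (vonMangoldt_ne_zero_iff.mp h2)
    have h5 : p ∣ Q := by
      by_contra h
      exact h4 (Nat.Coprime.pow_left k ((Nat.Prime.coprime_iff_not_dvd hp).mpr h))
    have h6 : k ≤ j := Nat.le_log_of_pow_le (by norm_num)
      ((Nat.pow_le_pow_left hp.two_le k).trans (Finset.mem_Icc.mp h3).2)
    exact Nat.mem_divisors.mpr ⟨(pow_dvd_pow_of_dvd h5 k).trans (pow_dvd_pow Q h6),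
      pow_ne_zero _ hQ⟩
  rw [vonMangoldt_sum, Nat.cast_pow, Real.log_pow] at h1
  refine h1.trans (mul_le_mul_of_nonneg_right ?_ hL)
  have h2 : ((2 ^ j : ℕ) : ℝ) ≤ Real.exp v :=
    (Nat.cast_le.mpr (Nat.pow_log_le_self 2 hM0.ne')).trans hM
  have h3 : (j : ℝ) * Real.log 2 ≤ v := by
    rw [← Real.log_pow]
    refine (Real.log_le_iff_le_exp (by positivity)).mpr ?_
    exact_mod_cast h2
  have h4 := Real.log_two_gt_d9
  have h5 : (0 : ℝ) ≤ j := Nat.cast_nonneg _
  linarith only [hv, h3, h4, mul_nonneg_of_nonpos_of_nonpos (Mathlib.Tactic.Linarith.sub_nonpos_of_le (Mathlib.Tactic.Linarith.natCast_nonneg ℝ j)) (le_of_lt (Mathlib.Tactic.Linarith.sub_neg_of_lt h4))]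

theorem Low_diff {Q : ℕ} [NeZero Q] (χ : DirichletCharacter ℂ Q) (N : ℕ) (v : ℝ) :
    ‖Ev (lc χ.primitiveCharacter) N v - Ev (lc χ) N v‖ ^ 2 ≤ Real.exp (-v) *
      (∑ n ∈ (Icc 1 (min N ⌊Real.exp v⌋₊)).filter (fun n => ¬ n.Coprime Q), vonMangoldt n) ^ 2 := by
  have h1 : Ev (lc χ.primitiveCharacter) N v - Ev (lc χ) N v =
      Ev (fun n => lc χ.primitiveCharacter n - lc χ n) N v := by
    rw [Ev_eq, Ev_eq, Ev_eq, Finset.sum_sub_distrib, mul_sub]
  rw [h1, Low_norm_sq]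
  refine mul_le_mul_of_nonneg_left (pow_le_pow_left₀ (norm_nonneg _) ?_ 2) (Real.exp_pos _).le
  rw [Finset.sum_filter]
  refine (norm_sum_le _ _).trans (Finset.sum_le_sum fun n _ => ?_)
  by_cases h : n.Coprime Q
  · have h2 := χ.primitiveCharacter_apply_of_isCoprime (a := (n : ℤ))
      (Nat.isCoprime_iff_coprime.mpr h)
    rw [Int.cast_natCast, Int.cast_natCast] at h2
    rw [if_neg (not_not.mpr h), lc, lc, h2, sub_self, norm_zero]
  · have h2 : lc χ n = 0 := by
      rw [lc, χ.map_nonunit (fun hu => h ((ZMod.isUnit_iff_coprime n Q).mp hu)), zero_mul]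
    rw [if_pos h, h2, sub_zero]
    exact norm_lc_le _ n

theorem Low_bound {Q : ℕ} [NeZero Q] (χ : DirichletCharacter ℂ Q) (N : ℕ) (v0 v : ℝ) :
    ‖Ev (lc χ.primitiveCharacter) N v - Ev (lc χ) N v‖ ^ 2 ≤
      (36 * Real.exp (5 / 4 * v0) + 64 * Real.log Q ^ 2 * Real.exp (-1 / 4 * v0)) *
        (Set.Ioi (0 : ℝ)).indicator (fun x => Real.exp (-1 / 4 * x)) v := by
  rcases lt_or_ge v 0 with hv | hv
  · rw [Ev_neg _ _ hv, Ev_neg _ _ hv, Set.indicator_of_notMem (by simpa using hv.le)]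
    simp
  refine (Low_diff χ N v).trans ?_
  set r := ∑ n ∈ (Icc 1 (min N ⌊Real.exp v⌋₊)).filter (fun n => ¬ n.Coprime Q), vonMangoldt n
    with hr
  have r0 : 0 ≤ r := Finset.sum_nonneg fun _ _ => vonMangoldt_nonneg
  have r1 : r ≤ 2 * v * Real.log Q := Low_r_le (NeZero.ne Q) hv (Low_min_le N v)
  have r2 : r ≤ 6 * Real.exp v := by
    refine (Finset.sum_le_sum_of_subset_of_nonneg (Finset.filter_subset _ _)
      fun _ _ _ => vonMangoldt_nonneg).trans ((sum_vonMangoldt_Icc_le _).trans ?_)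
    have := Low_min_le N v
    linarith only [this]
  rcases eq_or_lt_of_le hv with rfl | hv0
  · have : r = 0 := le_antisymm (by simpa using r1) r0
    rw [this, Set.indicator_of_notMem (by simp)]
    simp
  rw [Set.indicator_of_mem (show v ∈ Set.Ioi (0 : ℝ) from hv0), add_mul]
  rcases le_total v v0 with h | h
  · refine le_add_of_le_of_nonneg ?_ (by positivity)
    have e1 : Real.exp (-v) * r ^ 2 ≤ Real.exp (-v) * (6 * Real.exp v) ^ 2 :=
      mul_le_mul_of_nonneg_left (pow_le_pow_left₀ r0 r2 2) (Real.exp_pos _).le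
    have e2 : Real.exp (-v) * (6 * Real.exp v) ^ 2 = 36 * Real.exp v := by
      rw [Real.exp_neg]
      field_simp
      norm_num
    rw [mul_assoc, ← Real.exp_add]
    refine e1.trans (e2.le.trans (mul_le_mul_of_nonneg_left (Real.exp_le_exp.mpr ?_) (by norm_num)))
    linarith only [h]
  · refine le_add_of_nonneg_of_le (by positivity) ?_
    have e1 : Real.exp (-v) * r ^ 2 ≤ Real.exp (-v) * (2 * v * Real.log Q) ^ 2 :=
      mul_le_mul_of_nonneg_left (pow_le_pow_left₀ r0 r1 2) (Real.exp_pos _).le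
    have e2 : v ^ 2 ≤ 16 * Real.exp (v / 2) := by
      have a1 := Real.add_one_le_exp (v / 4)
      have a2 : Real.exp (v / 2) = Real.exp (v / 4) ^ 2 := by
        rw [← Real.exp_nat_mul]; congr 1; push_cast; ring
      rw [a2]
      linarith only [hv0, a1, hv, mul_nonneg_of_nonpos_of_nonpos (Mathlib.Tactic.Linarith.sub_nonpos_of_le hv) (Mathlib.Tactic.Linarith.sub_nonpos_of_le a1), mul_nonneg_of_nonpos_of_nonpos (Mathlib.Tactic.Linarith.sub_nonpos_of_le a1) (Mathlib.Tactic.Linarith.sub_nonpos_of_le a1)]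
    have e3 : Real.exp (-v) * Real.exp (v / 2) ≤ Real.exp (-1 / 4 * v0) * Real.exp (-1 / 4 * v) := by
      rw [← Real.exp_add, ← Real.exp_add]
      exact Real.exp_le_exp.mpr (by linarith only [h])
    have e4 : Real.exp (-v) * v ^ 2 ≤ 16 * (Real.exp (-1 / 4 * v0) * Real.exp (-1 / 4 * v)) := by
      have := mul_le_mul_of_nonneg_left e2 (Real.exp_pos (-v)).le
      linarith only [e3, this]
    have e5 := mul_le_mul_of_nonneg_left e4 (show 0 ≤ 4 * Real.log Q ^ 2 by positivity)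
    refine e1.trans (le_of_eq_of_le (by ring) (e5.trans (le_of_eq (by ring))))

theorem exists_rho {ε : ℝ} (hε : 0 < ε) : ∃ Q0 : ℕ, ∀ (Q : ℕ) [NeZero Q], Q0 ≤ Q →
    ∃ ρ : ℝ → ℝ, LB ρ ∧ Integrable ρ ∧ (∀ v, 0 ≤ ρ v) ∧ ∫ v, ρ v ≤ ε * Real.log Q ^ 2 ∧
      ∀ (χ : DirichletCharacter ℂ Q) (N : ℕ) (v : ℝ),
        ‖Ev (lc χ.primitiveCharacter) N v - Ev (lc χ) N v‖ ^ 2 ≤ ρ v := by
  set v0 : ℝ := -4 * Real.log (ε / 512) with hv0
  have e0 : Real.exp (-1 / 4 * v0) = ε / 512 := by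
    rw [show -1 / 4 * v0 = Real.log (ε / 512) by rw [hv0]; ring, Real.exp_log (by positivity)]
  have hT : Tendsto (fun Q : ℕ => ε / 2 * Real.log Q ^ 2) atTop atTop :=
    Tendsto.const_mul_atTop (by positivity) ((tendsto_pow_atTop two_ne_zero).comp
      (Real.tendsto_log_atTop.comp tendsto_natCast_atTop_atTop))
  obtain ⟨Q0, hQ0⟩ := Filter.eventually_atTop.mp
    (hT.eventually_ge_atTop (144 * Real.exp (5 / 4 * v0)))
  refine ⟨Q0, fun Q _ hQ => ?_⟩
  set c : ℝ := 36 * Real.exp (5 / 4 * v0) + 64 * Real.log Q ^ 2 * Real.exp (-1 / 4 * v0) with hc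
  have c0 : 0 ≤ c := by positivity
  set w : ℝ → ℝ := (Set.Ioi (0 : ℝ)).indicator fun x => Real.exp (-1 / 4 * x) with hw
  have w0 : ∀ x, 0 ≤ w x := fun x => Set.indicator_nonneg (fun _ _ => (Real.exp_pos _).le) x
  have w1 : ∀ x, w x ≤ 1 := fun x => by
    by_cases hx : x ∈ Set.Ioi (0 : ℝ)
    · rw [hw, Set.indicator_of_mem hx]
      have : (0 : ℝ) < x := hx
      exact Real.exp_le_one_iff.mpr (by linarith only [this])
    · rw [hw, Set.indicator_of_notMem hx]
      exact zero_le_one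
  have wm : Measurable w := Measurable.indicator (by fun_prop) measurableSet_Ioi
  have wi : Integrable w := (integrable_indicator_iff measurableSet_Ioi).mpr
    (integrableOn_exp_mul_Ioi (by norm_num) 0)
  have wv : ∫ x, w x = 4 := by
    rw [hw, integral_indicator measurableSet_Ioi, integral_exp_mul_Ioi (by norm_num)]
    norm_num
  refine ⟨fun v => c * w v, LB.of_le (wm.const_mul c) (B := c) fun x => ?_, wi.const_mul c,
    fun v => mul_nonneg c0 (w0 v), ?_, fun χ N v => Low_bound χ N v0 v⟩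
  · rw [abs_of_nonneg (mul_nonneg c0 (w0 x))]
    exact mul_le_of_le_one_right c0 (w1 x)
  · rw [integral_const_mul, wv, hc, e0]
    have := hQ0 Q hQ
    linarith only [this]

end HooRT
end
end

-- merged part: Pool.Agent.Work.MP_5d318d_nt.RT.Cnt
section
/-! TASK RT Cnt. From primitive characters to the characters of modulus `Q`.
`card_cond_le`: a character `χ` mod `Q` of conductor `q` is `changeLevel` of a primitive character mod `q`
(`changeLevel_primitiveCharacter`; `subst` the equation `χ.conductor = q`), so the set is contained in the image of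
the primitive `ψ` with `P q ψ` under `changeLevel` (`Finset.card_image_le`). `cnt`: sort by the conductor, a divisor of
`Q` (`Finset.card_eq_sum_card_fiberwise` or `card_biUnion_le`); for `log q < (1 - c) log Q` there are at most
`φ q ≤ q ≤ Q^(1 - c)` characters mod `q` (`DirichletCharacter.card_eq_totient_of_hasEnoughRootsOfUnity`), and
`τ(Q) Q^(1 - c) ≤ η φ(Q) / 2` for large `Q` (`exists_card_divisors_le`, `le_totient_mul_card_divisors`); for the other
divisors the total is at most `∑ φ q * K / √L = Q K / √L` (`Nat.sum_totient`), and `Q / φ Q ≤ exp 76 * log L`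
(`div_totient_le_loglog`), `log L / √L → 0`. About 170 lines. -/

noncomputable section

open Complex MeasureTheory Finset Filter Topology Metric
open ArithmeticFunction hiding log
open scoped Real

namespace HooRT

open Classical in
theorem card_cond_le {Q q : ℕ} [NeZero Q] [NeZero q] (hq : q ∣ Q)
    (P : ∀ q : ℕ, DirichletCharacter ℂ q → Prop) :
    (univ.filter fun χ : DirichletCharacter ℂ Q =>
      χ.conductor = q ∧ P χ.conductor χ.primitiveCharacter).card ≤
    (univ.filter fun ψ : DirichletCharacter ℂ q => ψ.IsPrimitive ∧ P q ψ).card := by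
  refine le_trans (card_le_card fun χ h => ?_)
    (card_image_le (f := DirichletCharacter.changeLevel hq))
  obtain ⟨rfl, k⟩ := (mem_filter.1 h).2
  exact mem_image.2 ⟨χ.primitiveCharacter,
    mem_filter.2 ⟨mem_univ _, χ.primitiveCharacter_isPrimitive, k⟩,
    χ.changeLevel_primitiveCharacter⟩

open Pool.Agent.Lib.ANT in
theorem Cnt_ev {c η K : ℝ} (hc : 0 < c) (hη : 0 < η) (hK : 0 ≤ K) : ∀ᶠ Q : ℕ in atTop,
    (Q.divisors.card : ℝ) * (Q : ℝ) ^ (1 - c) + Q * (K / √(Real.log Q)) ≤ η * Q.totient := by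
  obtain ⟨C, C1, hC⟩ := exists_card_divisors_le (c / 4) (by positivity)
  have t1 : Tendsto (fun Q : ℕ => C ^ 2 * (Q : ℝ) ^ (-(c / 2)) + Real.exp 76 * K *
      (Real.log (Real.log Q) / Real.log Q ^ (1 / 2 : ℝ))) atTop
      (𝓝 (C ^ 2 * 0 + Real.exp 76 * K * 0)) :=
    (((tendsto_rpow_neg_atTop (half_pos hc)).comp tendsto_natCast_atTop_atTop).const_mul _).add
      ((((isLittleO_log_rpow_atTop one_half_pos).tendsto_div_nhds_zero.comp
        Real.tendsto_log_atTop).comp tendsto_natCast_atTop_atTop).const_mul _)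
  rw [mul_zero, mul_zero, add_zero] at t1
  filter_upwards [t1.eventually (ge_mem_nhds hη), eventually_ge_atTop 16] with Q h1 h2
  have Q0 : (0 : ℝ) < Q := by exact_mod_cast (by omega : 0 < Q)
  have φ0 : (0 : ℝ) < Q.totient := by exact_mod_cast Nat.totient_pos.2 (by omega)
  have h3 := (div_le_iff₀ φ0).1 (div_totient_le_loglog Q h2)
  have h4 : (Q : ℝ) ≤ Q.totient * Q.divisors.card := by
    exact_mod_cast le_totient_mul_card_divisors Q
  have h5 := hC Q
  have e : (Q : ℝ) ^ (-(c / 2)) = (Q : ℝ) ^ (c / 4) * (Q : ℝ) ^ (c / 4) * (Q : ℝ) ^ (-c) := by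
    rw [← Real.rpow_add Q0, ← Real.rpow_add Q0]
    congr 1
    ring
  refine le_trans ?_ (mul_le_mul_of_nonneg_right h1 φ0.le)
  rw [add_mul]
  refine add_le_add ?_ ?_
  · calc (Q.divisors.card : ℝ) * (Q : ℝ) ^ (1 - c) = Q.divisors.card * Q * (Q : ℝ) ^ (-c) := by
          rw [sub_eq_add_neg, Real.rpow_add Q0, Real.rpow_one, mul_assoc]
      _ ≤ C * (Q : ℝ) ^ (c / 4) * (Q.totient * (C * (Q : ℝ) ^ (c / 4))) * (Q : ℝ) ^ (-c) := by
          gcongr
          exact h4.trans (by gcongr)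
      _ = _ := by rw [e]; ring
  · rw [← Real.sqrt_eq_rpow]
    exact (mul_le_mul_of_nonneg_right h3 (by positivity)).trans_eq (by ring)

open Classical in
theorem cnt {c η K : ℝ} (hc : 0 < c) (hη : 0 < η) (hK : 0 ≤ K) : ∃ Q0 : ℕ, ∀ (Q : ℕ) [NeZero Q],
    Q0 ≤ Q → ∀ P : ∀ q : ℕ, DirichletCharacter ℂ q → Prop,
      (∀ (q : ℕ) [NeZero q], q ∣ Q → (1 - c) * Real.log Q ≤ Real.log q →
        ((univ.filter fun ψ : DirichletCharacter ℂ q => ψ.IsPrimitive ∧ ¬ P q ψ).card : ℝ) ≤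
          q.totient * (K / √(Real.log Q))) →
      ((univ.filter fun χ : DirichletCharacter ℂ Q =>
        ¬ ((1 - c) * Real.log Q ≤ Real.log χ.conductor ∧
          P χ.conductor χ.primitiveCharacter)).card : ℝ) ≤ η * Q.totient := by
  obtain ⟨Q0, h0⟩ := eventually_atTop.1 (Cnt_ev hc hη hK)
  refine ⟨Q0, fun Q _ hQ P H => le_trans ?_ (h0 Q hQ)⟩
  have Qp : (0 : ℝ) < Q := Nat.cast_pos.2 (NeZero.pos Q)
  have e : (Q.divisors.card : ℝ) * (Q : ℝ) ^ (1 - c) + Q * (K / √(Real.log Q)) =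
      ∑ q ∈ Q.divisors, ((Q : ℝ) ^ (1 - c) + q.totient * (K / √(Real.log Q))) := by
    rw [sum_add_distrib, sum_const, nsmul_eq_mul, ← sum_mul, ← Nat.cast_sum, Nat.sum_totient]
  rw [e, card_eq_sum_card_fiberwise (f := fun χ : DirichletCharacter ℂ Q => χ.conductor)
    (t := Q.divisors) fun χ _ => Nat.mem_divisors.2 ⟨χ.conductor_dvd_level, NeZero.ne Q⟩,
    Nat.cast_sum]
  refine sum_le_sum fun q hq => ?_
  have hq := Nat.dvd_of_mem_divisors hq
  have : NeZero q := ⟨ne_zero_of_dvd_ne_zero (NeZero.ne Q) hq⟩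
  have h1 := card_cond_le hq fun q ψ => ¬ ((1 - c) * Real.log Q ≤ Real.log q ∧ P q ψ)
  refine le_trans (Nat.cast_le.2 (le_trans (card_le_card fun χ h => ?_) h1)) ?_
  · simp only [mem_filter] at h ⊢
    exact ⟨h.1.1, h.2, h.1.2⟩
  by_cases a : (1 - c) * Real.log Q ≤ Real.log q
  · refine le_add_of_nonneg_of_le (by positivity)
      (le_trans (Nat.cast_le.2 (card_le_card fun ψ h => ?_)) (H q hq a))
    simp only [mem_filter] at h ⊢
    exact ⟨h.1, h.2.1, fun k => h.2.2 ⟨a, k⟩⟩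
  · refine le_add_of_le_of_nonneg (le_trans (b := (q : ℝ)) (Nat.cast_le.2 ?_) ?_) (by positivity)
    · refine (card_le_univ _).trans ?_
      rw [← Nat.card_eq_fintype_card,
        DirichletCharacter.card_eq_totient_of_hasEnoughRootsOfUnity]
      exact Nat.totient_le q
    · rw [Real.rpow_def_of_pos Qp, mul_comm,
        ← Real.log_le_iff_le_exp (Nat.cast_pos.2 (NeZero.pos q))]
      exact (not_le.1 a).le

end HooRT
end
end
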