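import Pool.Agent.Work.MP_5d318d_nt.RT.Cnt
import Pool.Agent.Lib.ANT.LBound

-- merged part: Pool.Agent.Work.MP_5d318d_nt.RT.Near
section
/-! TASK RT Near. The number of points near the line in a window.
`re_Gz_ge`: `re = exp (lam σ^2) exp (-lam y^2) cos (2 lam σ y)` with `σ = re z`, `y = im z - x`;
`Real.one_sub_sq_div_two_le_cos`, `lam y^2 exp (-lam y^2) ≤ 1`, `exp 1 ≤ 3`.
`near_card`: take real parts in `h x`: for `|re| ≤ σ` use `re_Gz_ge`, for the others `norm_Gz` gives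
`re ≥ -exp (lam / 4)`. So `∑_{|re| ≤ σ} exp (-lam (im - x)^2) ≤ l (√(4 π lam))⁻¹ + e + 6 lam σ^2 n + m exp (lam / 4)`.
Drop the points outside the window, multiply by `√(lam / π)` and integrate over `x ∈ [x0 - 2 d, x0 + w + 2 d]`; for a
point in the window `√(lam / π) ∫ exp (-lam (x - im)^2) ≥ 1 - √2 exp (-lam d^2 / 2)` (`integral_gaussian`, `gau_tail` on
the complement of the interval). `mu_zero_le`: `kx lam x 0 = (√(4 π lam))⁻¹`, `norm_kx`, `head_le`,
`(√(4 π lam))⁻¹ ≤ 1`. About 170 lines. -/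

noncomputable section

open Complex MeasureTheory Finset Filter Topology Metric
open ArithmeticFunction hiding log
open scoped Real

namespace HooRT

theorem re_Gz_ge {lam σ : ℝ} (hl : 0 < lam) (hσ : lam * σ ^ 2 ≤ 1) (x : ℝ) {z : ℂ}
    (hz : |z.re| ≤ σ) :
    Real.exp (-lam * (z.im - x) ^ 2) - 6 * lam * σ ^ 2 ≤ (Gz lam x 0 z).re := by
  have e1 : (lam * (z - I * x) ^ 2 + z * (0 : ℝ) : ℂ).re =
      lam * z.re ^ 2 + -lam * (z.im - x) ^ 2 := by
    simp [pow_two]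
    ring
  have e2 : (lam * (z - I * x) ^ 2 + z * (0 : ℝ) : ℂ).im = 2 * lam * z.re * (z.im - x) := by
    simp [pow_two]
    ring
  rw [Gz, Complex.exp_re, e1, e2, Real.exp_add]
  generalize z.im - x = y
  generalize z.re = s at hz
  have h1 : s ^ 2 ≤ σ ^ 2 := by
    rw [← sq_abs s]
    exact pow_le_pow_left₀ (abs_nonneg _) hz 2
  have h2 : lam * s ^ 2 ≤ lam * σ ^ 2 := mul_le_mul_of_nonneg_left h1 hl.le
  have h3 : 1 ≤ Real.exp (lam * s ^ 2) := Real.one_le_exp (by positivity)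
  have h4 : Real.exp (lam * s ^ 2) ≤ 3 :=
    (Real.exp_le_exp.2 (h2.trans hσ)).trans Real.exp_one_lt_three.le
  have h5 : lam * y ^ 2 * Real.exp (-lam * y ^ 2) ≤ 1 := by
    rw [neg_mul, Real.exp_neg, ← div_eq_mul_inv, div_le_one (Real.exp_pos _)]
    linarith only [Real.add_one_le_exp (lam * y ^ 2)]
  have h6 := mul_le_mul_of_nonneg_left (Real.one_sub_sq_div_two_le_cos (x := 2 * lam * s * y))
    (mul_pos (Real.exp_pos (lam * s ^ 2)) (Real.exp_pos (-lam * y ^ 2))).le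
  have h7 := le_mul_of_one_le_left (Real.exp_pos (-lam * y ^ 2)).le h3
  have h8 : lam * s ^ 2 * (Real.exp (lam * s ^ 2) * (lam * y ^ 2 * Real.exp (-lam * y ^ 2))) ≤
      lam * σ ^ 2 * (3 * 1) := by gcongr
  linarith only [h6, h7, h8]

theorem Near_sum {lam : ℝ} (hl : 1 ≤ lam) (x : ℝ) {a : ℕ → ℂ} (ha : ∀ m, ‖a m‖ ≤ vonMangoldt m)
    (s : Finset ℕ) {u : ℕ → ℝ} (hu : ∀ n, u n ^ 2 = Real.log n ^ 2) :
    ‖∑ n ∈ s, a n / ((√n : ℝ) : ℂ) * kx lam x (u n)‖ ≤ 2 * Real.exp (9 * lam) := by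
  have h0 := one_pos.trans_le hl
  have h1 : (√(4 * π * lam))⁻¹ ≤ 1 :=
    inv_le_one_of_one_le₀ (Real.one_le_sqrt.2 (by linarith only [hl, Real.pi_gt_three, mul_nonneg_of_nonpos_of_nonpos (Mathlib.Tactic.Linarith.sub_nonpos_of_le hl) (le_of_lt (Mathlib.Tactic.Linarith.sub_neg_of_lt Real.pi_gt_three))]))
  refine (norm_sum_le_of_le _ fun n _ => ?_).trans (head_le h0 s)
  rw [norm_mul, norm_div, norm_real, Real.norm_of_nonneg (Real.sqrt_nonneg _), norm_kx h0, hu]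
  exact mul_le_mul (div_le_div_of_nonneg_right (ha n) (Real.sqrt_nonneg _))
    (mul_le_of_le_one_left (Real.exp_pos _).le h1) (by positivity)
    (div_nonneg vonMangoldt_nonneg (Real.sqrt_nonneg _))

theorem mu_zero_le {lam : ℝ} (hl : 1 ≤ lam) (l x : ℝ) {a b : ℕ → ℂ}
    (ha : ∀ m, ‖a m‖ ≤ vonMangoldt m) (hb : ∀ m, ‖b m‖ ≤ vonMangoldt m) (N : ℕ) :
    ‖mu l a b N (kx lam x) 0 - (l * (√(4 * π * lam))⁻¹ : ℝ)‖ ≤ 4 * Real.exp (9 * lam) := by
  have h1 := Near_sum hl x ha (Icc 1 N) (u := fun n => 0 - Real.log n) fun n => by ring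
  have h2 := Near_sum hl x hb (Icc 1 N) (u := fun n => 0 + Real.log n) fun n => by ring
  have h3 : (l : ℂ) * kx lam x 0 = (l * (√(4 * π * lam))⁻¹ : ℝ) := by simp [kx]
  have e : ∀ p q r : ℂ, p - q - r - p = -(q + r) := fun p q r => by ring
  rw [mu, h3, e, norm_neg]
  linarith only [h1, h2, norm_add_le_of_le h1 h2]

theorem Near_int {lam A B d y : ℝ} (hl : 0 < lam) (hd : 0 ≤ d) (h1 : A + d ≤ y) (h2 : y + d ≤ B) :
    1 - 2 * Real.exp (-lam * d ^ 2 / 2) ≤
      √(lam / π) * ∫ x in Set.Icc A B, Real.exp (-lam * (x - y) ^ 2) := by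
  have hπ := Real.pi_pos
  have i1 := integral_add_compl (measurableSet_Icc (a := A) (b := B))
    ((integrable_exp_neg_mul_sq hl).comp_sub_right y)
  rw [integral_sub_right_eq_self (μ := volume) (fun x => Real.exp (-lam * x ^ 2)) y,
    integral_gaussian] at i1
  have i2 := gau_tail (x := y) hl hd (measurableSet_Icc (a := A) (b := B)).compl fun x hx => by
    by_contra k
    obtain ⟨k1, k2⟩ := abs_lt.1 (not_le.1 k)
    exact hx ⟨by linarith only [h1, k1], by linarith⟩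
  have e1 : √(lam / π) * √(π / lam) = 1 := by
    rw [← Real.sqrt_mul (by positivity), div_mul_div_cancel₀ hπ.ne', div_self hl.ne',
      Real.sqrt_one]
  have e2 : √(lam / π) * √(2 * π / lam) ≤ 2 := by
    rw [← Real.sqrt_mul (by positivity), Real.sqrt_le_left zero_le_two]
    field_simp
    norm_num
  have i3 := mul_le_mul_of_nonneg_left i2 (Real.sqrt_nonneg (lam / π))
  have i4 := mul_le_mul_of_nonneg_left e2 (Real.exp_pos (-lam * d ^ 2 / 2)).le
  rw [← i1, mul_add] at e1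
  linarith only [e1, i3, i4]

theorem near_card {lam σ x0 w d l e : ℝ} (hl : 0 < lam) (hσ : lam * σ ^ 2 ≤ 1) (hw : 0 ≤ w)
    (hd : 0 ≤ d) {n : ℕ} {Z : Fin n → ℂ} (hZ : ∀ i, |(Z i).re| ≤ 1 / 2)
    (h : ∀ x, x0 - 2 * d ≤ x → x ≤ x0 + w + 2 * d →
      ‖∑ i, Gz lam x 0 (Z i) - (l * (√(4 * π * lam))⁻¹ : ℝ)‖ ≤ e) :
    (1 - 2 * Real.exp (-lam * d ^ 2 / 2)) * (univ.filter fun i => |(Z i).re| ≤ σ ∧
        x0 - d ≤ (Z i).im ∧ (Z i).im ≤ x0 + w + d).card ≤
      (w + 4 * d) * (l / (2 * π) + √(lam / π) * (e + 6 * lam * σ ^ 2 * n +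
        (univ.filter fun i => σ < |(Z i).re|).card * Real.exp (lam / 4))) := by
  have hπ := Real.pi_pos
  set W := univ.filter fun i => |(Z i).re| ≤ σ ∧ x0 - d ≤ (Z i).im ∧ (Z i).im ≤ x0 + w + d with hW
  set M := l * (√(4 * π * lam))⁻¹ + (e + 6 * lam * σ ^ 2 * n +
    (univ.filter fun i => σ < |(Z i).re|).card * Real.exp (lam / 4)) with hM
  have k1 : ∀ x ∈ Set.Icc (x0 - 2 * d) (x0 + w + 2 * d),
      ∑ i ∈ W, Real.exp (-lam * (x - (Z i).im) ^ 2) ≤ M := fun x hx => by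
    have a1 := (re_le_norm _).trans (h x hx.1 hx.2)
    rw [sub_re, ofReal_re, re_sum] at a1
    have a2 : ∑ i ∈ W, Real.exp (-lam * (x - (Z i).im) ^ 2) ≤ ∑ i, ((Gz lam x 0 (Z i)).re +
        6 * lam * σ ^ 2 + if σ < |(Z i).re| then Real.exp (lam / 4) else 0) := by
      rw [hW, sum_filter]
      refine sum_le_sum fun i _ => ?_
      rcases le_or_gt |(Z i).re| σ with b | b
      · have b1 := re_Gz_ge hl hσ x b
        rw [sub_sq_comm] at b1
        rw [if_neg b.not_gt]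
        split_ifs
        · linarith only [b1]
        · linarith only [b1, Real.exp_pos (-lam * (x - (Z i).im) ^ 2)]
      · rw [if_pos b, if_neg fun k => b.not_ge k.1]
        have b1 := (abs_le.1 (abs_re_le_norm (Gz lam x 0 (Z i)))).1
        have b2 : (Z i).re ^ 2 ≤ (1 / 2) ^ 2 := by
          rw [← sq_abs (Z i).re]
          exact pow_le_pow_left₀ (abs_nonneg _) (hZ i) 2
        have b3 : ‖Gz lam x 0 (Z i)‖ ≤ Real.exp (lam / 4) := by
          rw [norm_Gz, Real.exp_le_exp]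
          linarith only [b2, hl, mul_le_mul_of_nonneg_left b2 hl.le,
            mul_nonneg hl.le (sq_nonneg ((Z i).im - x))]
        linarith only [b1, b3, hl, mul_nonneg hl.le (sq_nonneg σ)]
    rw [sum_add_distrib, sum_add_distrib, ← sum_filter, sum_const, sum_const, card_univ,
      Fintype.card_fin, nsmul_eq_mul, nsmul_eq_mul] at a2
    linarith only [a1, a2]
  have k2 : ∀ i, IntegrableOn (fun x => Real.exp (-lam * (x - (Z i).im) ^ 2))
      (Set.Icc (x0 - 2 * d) (x0 + w + 2 * d)) := fun i =>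
    ((integrable_exp_neg_mul_sq hl).comp_sub_right _).integrableOn
  have k3 := setIntegral_mono_on (integrable_finsetSum W fun i _ => k2 i)
    (integrableOn_const measure_Icc_lt_top.ne) measurableSet_Icc k1
  rw [integral_finsetSum W fun i _ => k2 i, setIntegral_const,
    Real.volume_real_Icc_of_le (by linarith only [hw, hd]), smul_eq_mul] at k3
  have k4 := card_nsmul_le_sum W _ _ fun i hi => Near_int (A := x0 - 2 * d) (B := x0 + w + 2 * d)
    (y := (Z i).im) hl hd (by linarith only [hi, (mem_filter.1 hi).2.2.1])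
    (by linarith only [hi, (mem_filter.1 hi).2.2.2])
  rw [← mul_sum, nsmul_eq_mul, mul_comm] at k4
  have k5 : √(lam / π) * (√(4 * π * lam))⁻¹ = 1 / (2 * π) := by
    rw [← div_eq_mul_inv, ← Real.sqrt_div (by positivity), Real.sqrt_eq_iff_mul_self_eq
      (by positivity) (by positivity)]
    field_simp
    norm_num
  refine k4.trans ((mul_le_mul_of_nonneg_left k3 (Real.sqrt_nonneg _)).trans (le_of_eq ?_))
  rw [hM]
  linear_combination (w + 4 * d) * l * k5

end HooRT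
end
end

-- merged part: Pool.Agent.Work.MP_5d318d_nt.RT.EF
section
/-! TASK RT EF. The explicit formula for Gaussian test functions, abstract form.
Put `G = Gz lam x v`, `e = exp (9 lam / 4 + 3 |v| / 2 - lam D^2 / 2)`, `Ψ = deriv g / g`. On the horizontal sides of
the box `|re| ≤ 3/2`, `|im| = T` we have `‖G‖ ≤ e` (`norm_Gz`, `D ≤ |im - x|`). `rect_le` for `Ψ * G`: the two vertical
integrals over `[-T, T]` differ by at most `6 B e`. On these lines `logDeriv f = ∑ 1 / (z - Z i) + Ψ` (`logDeriv_mul`,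
`logDeriv_prod`; `f = fun z => ..` by `funext`), so on the right `Ψ G = Γa G + (l / 2 - LSeries a - ∑ 1 / (z - Z i)) G`
and on the left `Ψ G = -Γb (-z) G + (-l / 2 + LSeries b - ∑ 1 / (z - Z i)) G`. `EF_arch`: `rect_le` moves the gamma
term to the line `re = 0` with error `3 Kg e`, where it is at most `Kg √(π / lam)` (`integral_norm_Gz`); for the left
one use `φ z = Γb (-z) * G z` on `[-3/2, 0]`. `EF_tail`: a continuous factor bounded by `A` times `G` on the line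
`re = c`, `|c| ≤ 3/2`: the integral over `[-T, T]` and over the whole line differ by at most `3 A e` (`gau_tail` on
the complement of `Ioc (-T) T`, `√(2 π / lam) ≤ 3`); use it with `A = l / 2 + 8 + n` (`norm_LS_le`,
`‖1 / (z - Z i)‖ ≤ 1`). Whole lines: `line_Gz` with `y = 0`, `line_LS`, `line_LS'`, `res_Gz`. Divide by `2 π ≥ 6`.
About 230 lines. -/

noncomputable section

open Complex MeasureTheory Finset Filter Topology Metric
open ArithmeticFunction hiding log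
open scoped Real

namespace HooRT

variable {lam x v D T : ℝ}

theorem EF_exp (hl : 1 ≤ lam) {c : ℝ} (hc : |c| ≤ 3 / 2) (v : ℝ) :
    lam * c ^ 2 + c * v ≤ 9 * lam / 4 + 3 * |v| / 2 := by
  have h1 : c ^ 2 ≤ (3 / 2) ^ 2 := by
    rw [← sq_abs]
    exact pow_le_pow_left₀ (abs_nonneg c) hc 2
  have h2 : c * v ≤ 3 / 2 * |v| :=
    (le_abs_self _).trans (by rw [abs_mul]; exact mul_le_mul_of_nonneg_right hc (abs_nonneg v))
  linarith only [h1, h2, hl, mul_nonneg_of_nonpos_of_nonpos (Mathlib.Tactic.Linarith.sub_nonpos_of_le hl) (Mathlib.Tactic.Linarith.sub_nonpos_of_le h1)]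

theorem EF_side (hl : 1 ≤ lam) (hD : 0 ≤ D) (hx : |x| + D ≤ T) {z : ℂ} (h1 : |z.re| ≤ 3 / 2)
    (h2 : |z.im| = T) :
    ‖Gz lam x v z‖ ≤ Real.exp (9 * lam / 4 + 3 * |v| / 2 - lam * D ^ 2 / 2) := by
  rw [norm_Gz]
  refine Real.exp_le_exp.2 ?_
  have h3 := EF_exp hl h1 v
  have h4 : D ≤ |z.im - x| := by
    have := abs_sub_abs_le_abs_sub z.im x
    linarith only [hx, h2, this]
  have h5 : D ^ 2 ≤ (z.im - x) ^ 2 := by
    rw [← sq_abs (z.im - x)]
    exact pow_le_pow_left₀ hD h4 2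
  linarith only [h3, h5, hl, sq_nonneg D, sq_nonneg ((1 : ℝ) * z.im - (1 : ℝ) * x), mul_nonneg_of_nonpos_of_nonpos (Mathlib.Tactic.Linarith.sub_nonpos_of_le (sq_nonneg ((1 : ℝ) * z.im - (1 : ℝ) * x))) (Mathlib.Tactic.Linarith.sub_nonpos_of_le hl), mul_nonneg_of_nonpos_of_nonpos (Mathlib.Tactic.Linarith.sub_nonpos_of_le hl) (Mathlib.Tactic.Linarith.sub_nonpos_of_le h5)]

theorem EF_int (hl : 0 < lam) (x v c : ℝ) {A : ℝ} {F : ℝ → ℂ} (hF : Continuous F)
    (hA : ∀ t, ‖F t‖ ≤ A) : Integrable fun t : ℝ => Gz lam x v (c + t * I) * F t :=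
  (integrable_Gz hl x v c).mul_bdd hF.aestronglyMeasurable (Eventually.of_forall hA)

theorem EF_tail (hl : 1 ≤ lam) (hD : 0 ≤ D) (hx : |x| + D ≤ T) {c A : ℝ} (hc : |c| ≤ 3 / 2)
    {F : ℝ → ℂ} (hF : Continuous F) (hA : ∀ t, ‖F t‖ ≤ A) :
    ‖(∫ t : ℝ, Gz lam x v (c + t * I) * F t) - ∫ t in (-T)..T, Gz lam x v (c + t * I) * F t‖ ≤
      3 * A * Real.exp (9 * lam / 4 + 3 * |v| / 2 - lam * D ^ 2 / 2) := by
  have hl0 : 0 < lam := by linarith only [hl]
  have hT : 0 ≤ T := by linarith only [hD, hx, abs_nonneg x]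
  have hA0 : 0 ≤ A := (norm_nonneg _).trans (hA 0)
  have hS : MeasurableSet (Set.Ioc (-T) T)ᶜ := measurableSet_Ioc.compl
  rw [intervalIntegral.integral_of_le (by linarith only [hT]),
    ← setIntegral_compl measurableSet_Ioc (EF_int hl0 x v c hF hA)]
  have hg : Integrable fun y : ℝ => Real.exp (-lam * (y - x) ^ 2) :=
    (integrable_exp_neg_mul_sq hl0).comp_sub_right x
  have h1 := norm_integral_le_of_norm_le (μ := volume.restrict (Set.Ioc (-T) T)ᶜ)
    (f := fun t : ℝ => Gz lam x v (c + t * I) * F t)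
    (hg.const_mul (A * Real.exp (9 * lam / 4 + 3 * |v| / 2))).integrableOn
    (Eventually.of_forall fun t => by
      rw [norm_mul, norm_Gz, mul_comm, mul_assoc, ← Real.exp_add]
      refine mul_le_mul (hA t) (Real.exp_le_exp.2 ?_) (Real.exp_pos _).le hA0
      have := EF_exp hl hc v
      simp only [add_re, ofReal_re, mul_re, I_re, mul_zero, ofReal_im, I_im, mul_one, sub_self,
        add_zero, add_im, mul_im, zero_add]
      linarith only [this])
  rw [integral_const_mul] at h1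
  have h2 := gau_tail (x := x) hl0 hD hS fun y hy => by
    rw [Set.mem_compl_iff, Set.mem_Ioc, not_and_or, not_lt, not_le] at hy
    have := abs_sub_abs_le_abs_sub y x
    rcases hy with hy | hy
    · linarith only [hx, this, hy, neg_le_abs y]
    · linarith only [hx, this, hy, le_abs_self y]
  have h3 : √(2 * π / lam) ≤ 3 := by
    refine Real.sqrt_le_iff.2 ⟨by norm_num, ?_⟩
    rw [div_le_iff₀ hl0]
    linarith only [hl, Real.pi_le_four]
  refine h1.trans ((mul_le_mul_of_nonneg_left (h2.trans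
    (mul_le_mul_of_nonneg_left h3 (Real.exp_pos _).le)) (by positivity)).trans (le_of_eq ?_))
  rw [sub_eq_add_neg, Real.exp_add (9 * lam / 4 + 3 * |v| / 2), neg_mul, neg_div]
  ring

theorem EF_zero (hl : 1 ≤ lam) (hT : 0 ≤ T) {Kg : ℝ} {F : ℝ → ℂ} (hK : ∀ t, |t| ≤ T → ‖F t‖ ≤ Kg) :
    ‖∫ t in (-T)..T, F t * Gz lam x v ((0 : ℝ) + t * I)‖ ≤ 2 * Kg / √lam := by
  have hl0 : 0 < lam := by linarith
  have hK0 : 0 ≤ Kg := (norm_nonneg _).trans (hK 0 (by rwa [abs_zero]))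
  have hi := ((integrable_Gz hl0 x v 0).norm).const_mul Kg
  have h1 := intervalIntegral.norm_integral_le_of_norm_le (a := -T) (b := T) (μ := volume)
    (f := fun t : ℝ => F t * Gz lam x v ((0 : ℝ) + t * I)) (by linarith)
    (Eventually.of_forall fun t ht => by
      rw [norm_mul]
      exact mul_le_mul_of_nonneg_right (hK t (abs_le.2 ⟨ht.1.le, ht.2⟩)) (norm_nonneg _))
    hi.intervalIntegrable
  rw [intervalIntegral.integral_of_le (f := fun t : ℝ => Kg * ‖Gz lam x v ((0 : ℝ) + t * I)‖)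
    (by linarith)] at h1
  refine h1.trans ((setIntegral_le_integral hi
    (Eventually.of_forall fun t => mul_nonneg hK0 (norm_nonneg _))).trans ?_)
  have h2 : √π ≤ 2 := Real.sqrt_le_iff.2 ⟨by norm_num, by linarith [Real.pi_le_four]⟩
  rw [integral_const_mul, integral_norm_Gz hl0, Real.sqrt_div Real.pi_pos.le]
  simp only [ne_eq, OfNat.ofNat_ne_zero, not_false_eq_true, zero_pow, mul_zero, zero_mul, add_zero,
    Real.exp_zero, one_mul]
  rw [← mul_div_assoc]
  exact div_le_div_of_nonneg_right (by linarith only [hK0, h2, mul_nonneg_of_nonpos_of_nonpos (Mathlib.Tactic.Linarith.sub_nonpos_of_le hK0) (Mathlib.Tactic.Linarith.sub_nonpos_of_le h2)]) (Real.sqrt_nonneg _)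

theorem EF_arch (hl : 1 ≤ lam) (hD : 0 ≤ D) (hx : |x| + D ≤ T) {Kg : ℝ} {Γ : ℂ → ℂ}
    (hΓ : ∀ z : ℂ, 0 ≤ z.re → DifferentiableAt ℂ Γ z)
    (hK : ∀ z : ℂ, 0 ≤ z.re → z.re ≤ 3 / 2 → |z.im| ≤ T → ‖Γ z‖ ≤ Kg) :
    ‖∫ t in (-T)..T, Γ (3 / 2 + t * I) * Gz lam x v (3 / 2 + t * I)‖ ≤
        2 * Kg / √lam + 3 * Kg * Real.exp (9 * lam / 4 + 3 * |v| / 2 - lam * D ^ 2 / 2) ∧
      ‖∫ t in (-T)..T, Γ (-(-(3 / 2) + t * I)) * Gz lam x v (-(3 / 2) + t * I)‖ ≤
        2 * Kg / √lam + 3 * Kg * Real.exp (9 * lam / 4 + 3 * |v| / 2 - lam * D ^ 2 / 2) := by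
  have hT : 0 ≤ T := by linarith only [hD, hx, abs_nonneg x]
  have hK0 : 0 ≤ Kg := (norm_nonneg _).trans (hK 0 (by simp) (by norm_num) (by simpa using hT))
  constructor
  · have h1 := rect_le (φ := fun z => Γ z * Gz lam x v z) (c1 := 0) (c2 := 3 / 2) (by norm_num) hT
      (fun z h _ _ => (hΓ z h).mul (differentiable_Gz lam x v z))
      (S := Kg * Real.exp (9 * lam / 4 + 3 * |v| / 2 - lam * D ^ 2 / 2)) fun z h h' h'' => by
        rw [norm_mul]
        exact mul_le_mul (hK z h h' h''.le) (EF_side hl hD hx (abs_le.2 ⟨by linarith only [h], h'⟩) h'')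
          (norm_nonneg _) hK0
    have h2 := EF_zero (x := x) (v := v) hl hT (F := fun t => Γ ((0 : ℝ) + t * I)) fun t ht =>
      hK _ (by simp) (by norm_num) (by simpa using ht)
    have h3 := norm_le_norm_sub_add
      (∫ t in (-T)..T, Γ ((3 / 2 : ℝ) + t * I) * Gz lam x v ((3 / 2 : ℝ) + t * I))
      (∫ t in (-T)..T, Γ ((0 : ℝ) + t * I) * Gz lam x v ((0 : ℝ) + t * I))
    have e : ((3 / 2 : ℝ) : ℂ) = 3 / 2 := by push_cast; rfl
    rw [e] at h1 h3
    linarith only [h1, h2, h3]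
  · have h1 := rect_le (φ := fun z => Γ (-z) * Gz lam x v z) (c1 := -(3 / 2)) (c2 := 0)
      (by norm_num) hT
      (fun z _ h _ => ((hΓ (-z) (by simpa using h)).comp z differentiableAt_id.neg).mul
        (differentiable_Gz lam x v z))
      (S := Kg * Real.exp (9 * lam / 4 + 3 * |v| / 2 - lam * D ^ 2 / 2)) fun z h h' h'' => by
        rw [norm_mul]
        exact mul_le_mul (hK (-z) (by simpa using h') (by rw [neg_re]; linarith only [h])
          (by rw [neg_im, abs_neg]; exact h''.le))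
          (EF_side hl hD hx (abs_le.2 ⟨h, by linarith only [h']⟩) h'') (norm_nonneg _) hK0
    have h2 := EF_zero (x := x) (v := v) hl hT (F := fun t => Γ (-((0 : ℝ) + t * I))) fun t ht =>
      hK _ (by simp) (by norm_num) (by simpa using ht)
    have h3 := norm_le_norm_sub_add
      (∫ t in (-T)..T, Γ (-((-(3 / 2) : ℝ) + t * I)) * Gz lam x v ((-(3 / 2) : ℝ) + t * I))
      (∫ t in (-T)..T, Γ (-((0 : ℝ) + t * I)) * Gz lam x v ((0 : ℝ) + t * I))
    have e : ((-(3 / 2) : ℝ) : ℂ) = -(3 / 2) := by push_cast; rfl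
    rw [norm_sub_rev] at h1
    rw [e] at h1 h3
    linarith only [h1, h2, h3]

theorem EF_far {z z0 : ℂ} (hc : |z.re| = 3 / 2) (hz : |z0.re| ≤ 1 / 2) : 1 ≤ ‖z - z0‖ := by
  have h1 := abs_re_le_norm (z - z0)
  have h2 := abs_sub_abs_le_abs_sub z.re z0.re
  rw [sub_re] at h1
  linarith only [hc, hz, h1, h2]

theorem EF_ne {z z0 : ℂ} (hc : |z.re| = 3 / 2) (hz : |z0.re| ≤ 1 / 2) : z - z0 ≠ 0 :=
  norm_pos_iff.1 (lt_of_lt_of_le one_pos (EF_far hc hz))

theorem EF_log {f g : ℂ → ℂ} {n : ℕ} {Z : Fin n → ℂ} (hg : Differentiable ℂ g)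
    (hf : ∀ z, f z = (∏ i, (z - Z i)) * g z) {z : ℂ} (hz : ∀ i, z - Z i ≠ 0) (h0 : g z ≠ 0) :
    deriv g z / g z = logDeriv f z - ∑ i, (z - Z i)⁻¹ := by
  have e : f = fun z => (∏ i, (z - Z i)) * g z := funext hf
  rw [e, logDeriv_mul (f := fun z => ∏ i, (z - Z i)) z (prod_ne_zero_iff.2 fun i _ => hz i) h0
    (by fun_prop) (hg z), logDeriv_prod (f := fun i z => z - Z i) (fun i _ => hz i)
    (fun i _ => by fun_prop), logDeriv_apply g]
  have : ∀ i, logDeriv (fun z => z - Z i) z = (z - Z i)⁻¹ := fun i => by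
    rw [logDeriv_apply, deriv_sub_const, deriv_id'', one_div]
  rw [sum_congr rfl fun i _ => this i, add_sub_cancel_left]

theorem EF_half (hl : 1 ≤ lam) (hD : 0 ≤ D) (hx : |x| + D ≤ T) {c : ℝ} (hc : |c| = 3 / 2)
    {n : ℕ} {Z : Fin n → ℂ} (hZ : ∀ i, |(Z i).re| ≤ 1 / 2) (α : ℂ) {L γ φ : ℝ → ℂ}
    (hL : Continuous L) (hL8 : ∀ t, ‖L t‖ ≤ 8)
    (hγ : Continuous fun t : ℝ => γ t * Gz lam x v (c + t * I))
    (hφ : ∀ t : ℝ, |t| ≤ T → φ t =
      (α + γ t + L t - ∑ i, (c + t * I - Z i)⁻¹) * Gz lam x v (c + t * I)) (hT : 0 ≤ T) :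
    ‖α * (2 * π * kx lam x v) + (∫ t : ℝ, Gz lam x v (c + t * I) * L t) -
      (∑ i, ∫ t : ℝ, Gz lam x v (c + t * I) / (c + t * I - Z i)) -
      ((∫ t in (-T)..T, φ t) - ∫ t in (-T)..T, γ t * Gz lam x v (c + t * I))‖ ≤
        3 * (‖α‖ + 8 + n) * Real.exp (9 * lam / 4 + 3 * |v| / 2 - lam * D ^ 2 / 2) := by
  have hl0 : 0 < lam := by linarith only [hl]
  have hre : ∀ t : ℝ, |((c : ℂ) + t * I).re| = 3 / 2 := fun t => by simpa using hc
  have hc1 : ∀ i, Continuous fun t : ℝ => ((c : ℂ) + t * I - Z i)⁻¹ := fun i =>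
    Continuous.inv₀ (by fun_prop) fun t => EF_ne (hre t) (hZ i)
  have hb1 : ∀ i (t : ℝ), ‖((c : ℂ) + t * I - Z i)⁻¹‖ ≤ 1 := fun i t => by
    rw [norm_inv]
    exact inv_le_one_of_one_le₀ (EF_far (hre t) (hZ i))
  have hF : Continuous fun t : ℝ => α + L t - ∑ i, ((c : ℂ) + t * I - Z i)⁻¹ :=
    (continuous_const.add hL).sub (continuous_finsetSum _ fun i _ => hc1 i)
  have hA : ∀ t : ℝ, ‖α + L t - ∑ i, ((c : ℂ) + t * I - Z i)⁻¹‖ ≤ ‖α‖ + 8 + n := fun t => by
    refine (norm_sub_le _ _).trans (add_le_add ((norm_add_le _ _).trans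
      (add_le_add le_rfl (hL8 t))) ((norm_sum_le _ _).trans ?_))
    simpa using sum_le_sum fun i (_ : i ∈ univ) => hb1 i t
  have h1 := EF_tail (v := v) hl hD hx hc.le hF hA
  have i0 := integrable_Gz hl0 x v c
  have i1 := EF_int hl0 x v c hL hL8
  have i2 := fun i => EF_int hl0 x v c (hc1 i) (hb1 i)
  have e0 : ∫ t : ℝ, Gz lam x v (c + t * I) = 2 * π * kx lam x v := by
    simpa using line_Gz hl0 x v c 0
  have e1 : ∫ t : ℝ, Gz lam x v (c + t * I) * (α + L t - ∑ i, ((c : ℂ) + t * I - Z i)⁻¹) =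
      α * (2 * π * kx lam x v) + (∫ t : ℝ, Gz lam x v (c + t * I) * L t) -
        ∑ i, ∫ t : ℝ, Gz lam x v (c + t * I) / (c + t * I - Z i) := by
    simp only [div_eq_mul_inv]
    rw [← e0, ← integral_const_mul, ← integral_add (i0.const_mul α) i1,
      ← integral_finsetSum _ fun i _ => i2 i,
      ← integral_sub (f := fun t : ℝ => α * Gz lam x v (c + t * I) + Gz lam x v (c + t * I) * L t)
        ((i0.const_mul α).add i1) (integrable_finsetSum _ fun i _ => i2 i)]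
    refine integral_congr_ae (Eventually.of_forall fun t => ?_)
    simp only [← mul_sum]
    ring
  have e2 : ∫ t in (-T)..T, φ t = (∫ t in (-T)..T, Gz lam x v (c + t * I) *
      (α + L t - ∑ i, ((c : ℂ) + t * I - Z i)⁻¹)) +
        ∫ t in (-T)..T, γ t * Gz lam x v (c + t * I) := by
    rw [← intervalIntegral.integral_add (EF_int hl0 x v c hF hA).intervalIntegrable
      (hγ.intervalIntegrable _ _)]
    refine intervalIntegral.integral_congr fun t ht => ?_
    rw [Set.uIcc_of_le (by linarith only [hT])] at ht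
    rw [hφ t (abs_le.2 ht)]
    ring
  rwa [e2, add_sub_cancel_right, ← e1]

theorem ef_abs {f g : ℂ → ℂ} {n : ℕ} {Z : Fin n → ℂ} {l B Kg : ℝ} {a b : ℕ → ℂ} {Γa Γb : ℂ → ℂ}
    (hg : Differentiable ℂ g) (hf : ∀ z, f z = (∏ i, (z - Z i)) * g z)
    (hZ : ∀ i, |(Z i).re| ≤ 1 / 2) (hl0 : 0 ≤ l)
    (hB : ∀ z : ℂ, |z.re| ≤ 3 / 2 → |z.im| ≤ T → g z ≠ 0 ∧ ‖deriv g z / g z‖ ≤ B)
    (ha : ∀ m, ‖a m‖ ≤ vonMangoldt m) (hb : ∀ m, ‖b m‖ ≤ vonMangoldt m)
    (hΓa : ∀ z : ℂ, 0 ≤ z.re → DifferentiableAt ℂ Γa z)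
    (hΓb : ∀ z : ℂ, 0 ≤ z.re → DifferentiableAt ℂ Γb z)
    (hKa : ∀ z : ℂ, 0 ≤ z.re → z.re ≤ 3 / 2 → |z.im| ≤ T → ‖Γa z‖ ≤ Kg)
    (hKb : ∀ z : ℂ, 0 ≤ z.re → z.re ≤ 3 / 2 → |z.im| ≤ T → ‖Γb z‖ ≤ Kg)
    (hR : ∀ t : ℝ, logDeriv f (3 / 2 + t * I) =
      l / 2 + Γa (3 / 2 + t * I) - LSeries a (2 + t * I))
    (hL : ∀ t : ℝ, logDeriv f (-(3 / 2) + t * I) =
      -(l / 2 + Γb (-(-(3 / 2) + t * I)) - LSeries b (2 + (-t : ℝ) * I)))
    (hl : 1 ≤ lam) (hD : 0 ≤ D) (hx : |x| + D ≤ T) {N : ℕ} (hv : 2 * |v| ≤ Real.log N)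
    (hN : 48 * lam ≤ Real.log N) :
    ‖∑ i, Gz lam x v (Z i) - mu l a b N (kx lam x) v‖ ≤ (Kg + 2) / √lam +
      (B + l + n + Kg + 8) * Real.exp (9 * lam / 4 + 3 * |v| / 2 - lam * D ^ 2 / 2) := by
  have hl0' : 0 < lam := by linarith
  have hT : 0 ≤ T := by linarith only [hD, hx, abs_nonneg x]
  have hK0 : 0 ≤ Kg := (norm_nonneg _).trans (hKa 0 (by simp) (by norm_num) (by simpa using hT))
  have hB0 : 0 ≤ B := (norm_nonneg _).trans (hB 0 (by norm_num) (by simpa using hT)).2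
  have e1 : ((3 / 2 : ℝ) : ℂ) = 3 / 2 := by push_cast; rfl
  have e2 : ((-(3 / 2) : ℝ) : ℂ) = -(3 / 2) := by push_cast; rfl
  have hG := (differentiable_Gz lam x v).continuous
  have r1 : ∀ t : ℝ, ((3 / 2 : ℂ) + t * I).re = 3 / 2 := fun t => by rw [← e1]; simp
  have r2 : ∀ t : ℝ, (-(3 / 2 : ℂ) + t * I).re = -(3 / 2) := fun t => by rw [← e2]; simp
  have m1 : ∀ t : ℝ, ((3 / 2 : ℂ) + t * I).im = t := fun t => by rw [← e1]; simp
  have m2 : ∀ t : ℝ, (-(3 / 2 : ℂ) + t * I).im = t := fun t => by rw [← e2]; simp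
  have a1 : |(3 / 2 : ℝ)| = 3 / 2 := abs_of_pos (by norm_num)
  have a2 : |(-(3 / 2) : ℝ)| = 3 / 2 := by rw [abs_neg, a1]
  have h0 := rect_le (φ := fun z => deriv g z / g z * Gz lam x v z) (c1 := -(3 / 2)) (c2 := 3 / 2)
    (by norm_num) hT (fun z h h' h'' => ((hg.deriv z).div (hg z)
      (hB z (abs_le.2 ⟨h, h'⟩) h'').1).mul (differentiable_Gz lam x v z))
    (S := B * Real.exp (9 * lam / 4 + 3 * |v| / 2 - lam * D ^ 2 / 2)) fun z h h' h'' => by
      rw [norm_mul]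
      exact mul_le_mul (hB z (abs_le.2 ⟨h, h'⟩) h''.le).2 (EF_side hl hD hx (abs_le.2 ⟨h, h'⟩) h'')
        (norm_nonneg _) hB0
  have h1 := EF_half (v := v) hl hD hx a1 hZ (l / 2) (L := fun t => -LSeries a (2 + t * I))
    (γ := fun t => Γa (3 / 2 + t * I))
    (φ := fun t => deriv g (3 / 2 + t * I) / g (3 / 2 + t * I) * Gz lam x v (3 / 2 + t * I))
    (continuous_LS ha).neg (fun t => by rw [norm_neg]; exact norm_LS_le ha t)
    (Continuous.mul (continuous_iff_continuousAt.2 fun t => ContinuousAt.comp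
      (f := fun t : ℝ => (3 / 2 : ℂ) + t * I)
      (hΓa _ (by rw [r1]; norm_num)).continuousAt (by fun_prop)) (hG.comp (by fun_prop)))
    (fun t ht => by
      rw [e1, EF_log hg hf (fun i => EF_ne (by rw [r1, a1]) (hZ i))
        (hB _ (by rw [r1, a1]) (by rwa [m1])).1, hR]
      ring) hT
  have h2 := EF_half (v := v) hl hD hx a2 hZ (-(l / 2))
    (L := fun t => LSeries b (2 + (-t : ℝ) * I)) (γ := fun t => -Γb (-(-(3 / 2) + t * I)))
    (φ := fun t => deriv g (-(3 / 2) + t * I) / g (-(3 / 2) + t * I) *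
      Gz lam x v (-(3 / 2) + t * I))
    ((continuous_LS hb).comp continuous_neg) (fun t => norm_LS_le hb (-t))
    (Continuous.mul (Continuous.neg (continuous_iff_continuousAt.2 fun t => ContinuousAt.comp
      (f := fun t : ℝ => -(-(3 / 2 : ℂ) + t * I))
      (hΓb _ (by rw [neg_re, r2]; norm_num)).continuousAt (by fun_prop))) (hG.comp (by fun_prop)))
    (fun t ht => by
      rw [e2, EF_log hg hf (fun i => EF_ne (by rw [r2, a2]) (hZ i))
        (hB _ (by rw [r2, a2]) (by rwa [m2])).1, hL]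
      ring) hT
  have h3 := (EF_arch (v := v) hl hD hx hΓa hKa).1
  have h4 := (EF_arch (v := v) hl hD hx hΓb hKb).2
  have h5 := line_LS hl0' ha x v hv hN
  have h6 := line_LS' hl0' hb x v hv hN
  have h7 : ∑ i, 2 * π * Gz lam x v (Z i) = _ :=
    sum_congr rfl fun i _ => (res_Gz hl0' x v (hZ i)).symm
  rw [sum_sub_distrib, ← mul_sum] at h7
  have n1 : ‖(l : ℂ) / 2‖ = l / 2 := by
    rw [norm_div, norm_real, Real.norm_of_nonneg hl0, Complex.norm_two]
  rw [e1, e2] at h0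
  rw [e1, n1] at h1
  rw [e2, norm_neg, n1] at h2
  simp only [mul_neg, neg_mul, integral_neg, intervalIntegral.integral_neg] at h1 h2
  have key : ∀ a0 a1 a2 a3 a4 a5 a6 w : ℂ, w = a2 - a1 - a0 + a3 + a4 - a5 - a6 →
      ‖w‖ ≤ ‖a0‖ + ‖a1‖ + ‖a2‖ + ‖a3‖ + ‖a4‖ + ‖a5‖ + ‖a6‖ := by
    rintro a0 a1 a2 a3 a4 a5 a6 _ rfl
    have k1 := norm_sub_le (a2 - a1 - a0 + a3 + a4 - a5) a6
    have k2 := norm_sub_le (a2 - a1 - a0 + a3 + a4) a5
    have k3 := norm_add_le (a2 - a1 - a0 + a3) a4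
    have k4 := norm_add_le (a2 - a1 - a0) a3
    have k5 := norm_sub_le (a2 - a1) a0
    have k6 := norm_sub_le a2 a1
    linarith only [k1, k2, k3, k4, k5, k6]
  have h8 := (key _ _ _ _ _ _ _ (2 * π * (∑ i, Gz lam x v (Z i) - mu l a b N (kx lam x) v))
    ?_).trans (add_le_add (add_le_add (add_le_add (add_le_add (add_le_add (add_le_add h0 h1) h2)
      h3) h4) h5) h6)
  · rw [norm_mul, norm_mul, norm_real, Real.norm_of_nonneg Real.pi_pos.le, Complex.norm_two] at h8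
    have p3 := Real.pi_gt_three
    have hs : 0 ≤ (√lam)⁻¹ := by positivity
    have he := Real.exp_pos (9 * lam / 4 + 3 * |v| / 2 - lam * D ^ 2 / 2)
    simp only [div_eq_mul_inv _ √lam] at h8 ⊢
    generalize Real.exp (9 * lam / 4 + 3 * |v| / 2 - lam * D ^ 2 / 2) = e at h8 he ⊢
    generalize (√lam)⁻¹ = s at h8 hs ⊢
    refine le_of_mul_le_mul_left (h8.trans ?_) (by positivity : 0 < 2 * π)
    have k1 : 0 ≤ (π - 3) * (Kg * s) := by
      have := mul_nonneg hK0 hs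
      exact mul_nonneg (by linarith only [p3]) this
    have k2 : 0 ≤ (π - 3) * ((B + l + n + Kg + 8) * e) :=
      mul_nonneg (by linarith only [p3]) (by positivity)
    have k3 : 0 ≤ l * e := by positivity
    have k4 : 0 ≤ Kg * s := by positivity
    linarith only [k1, k2, k3, k4]
  · rw [mul_sub, h7, mu]
    ring

end HooRT
end
end

-- merged part: Pool.Agent.Work.MP_5d318d_nt.RT.Fac
section
/-! TASK RT Fac. Removing the zeros of an entire function in a disc.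
Call `(n, Z, g)` a factorisation if `g` is entire, `f z = (∏ i, (z - Z i)) * g z` and all `Z i` are in
`closedBall c (2 R)`. On the circle of radius `5 R` we have `‖z - Z i‖ ≥ 3 R`, so by the maximum principle
(`Complex.norm_le_of_forall_mem_frontier_norm_le`) `‖g z‖ ≤ exp M * ‖f c‖ / (3 R)^n` on `closedBall c (5 R)`, while
`‖f c‖ ≤ (2 R)^n ‖g c‖`. Hence `(3/2)^n ≤ exp M`, `n ≤ 3 M` (`exp (1/3) ≤ 3/2`), and `‖g z‖ ≤ exp M * ‖g c‖`.
Take a factorisation with maximal `n` (`Nat.findGreatest` or strong induction): if `g z0 = 0` with `z0` in the closed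
ball then `g z = (z - z0) * dslope g z0 z` (`differentiableOn_dslope`, `Fin.cons`, `Fin.prod_univ_succ`) gives a longer one.
So `g ≠ 0` on `ball c (2 R)`; `deriv g / g` has a primitive `h` there with `h c = 0`
(`DifferentiableOn.isExactOn_ball`), `g = g c * exp h` (derivative of `g * exp (-h)` is zero on a convex set), so
`re h ≤ M`; `Complex.borelCaratheodory_zero` gives `‖h‖ ≤ 6 M` on the ball of radius `3 R / 2`, and the Cauchy estimate
on a circle of radius `R / 2` (`Complex.norm_deriv_le_of_forall_mem_sphere_norm_le`) gives `12 M / R`.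
About 170 lines. -/

noncomputable section

open Complex MeasureTheory Finset Filter Topology Metric
open ArithmeticFunction hiding log
open scoped Real

namespace HooRT

theorem Fac_bound {f : ℂ → ℂ} {c : ℂ} {R M : ℝ} (hR : 0 < R)
    (hc : f c ≠ 0) (hb : ∀ z ∈ closedBall c (5 * R), ‖f z‖ ≤ Real.exp M * ‖f c‖)
    {n : ℕ} {Z : Fin n → ℂ} {g : ℂ → ℂ} (hg : Differentiable ℂ g)
    (hfg : ∀ z, f z = (∏ i, (z - Z i)) * g z) (hZ : ∀ i, Z i ∈ closedBall c (2 * R)) :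
    (n : ℝ) ≤ 3 * M ∧ ∀ z ∈ closedBall c (5 * R), ‖g z‖ ≤ Real.exp M * ‖g c‖ := by
  have h3 : 0 < (3 * R) ^ n := by positivity
  have h2 : 0 < (2 * R) ^ n := by positivity
  have hgc : g c ≠ 0 := by
    intro h; apply hc; rw [hfg c, h, mul_zero]
  have hgc' : 0 < ‖g c‖ := norm_pos_iff.mpr hgc
  have hA : ∀ z ∈ closedBall c (5 * R), ‖g z‖ ≤ Real.exp M * ‖f c‖ / (3 * R) ^ n := by
    intro z hz
    have h5 : (5 * R) ≠ 0 := by positivity
    refine Complex.norm_le_of_forall_mem_frontier_norm_le (U := ball c (5 * R)) isBounded_ball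
      hg.diffContOnCl ?_ (by rw [closure_ball c h5]; exact hz)
    intro w hw
    rw [frontier_ball c h5] at hw
    have hw1 : ‖w - c‖ = 5 * R := by simpa [dist_eq_norm] using hw
    have hP : (3 * R) ^ n ≤ ‖∏ i, (w - Z i)‖ := by
      rw [norm_prod]
      calc (3 * R) ^ n = ∏ _i : Fin n, (3 * R) := by simp
        _ ≤ ∏ i, ‖w - Z i‖ := by
          refine Finset.prod_le_prod (fun _ _ => by positivity) (fun i _ => ?_)
          have h1 : ‖Z i - c‖ ≤ 2 * R := by simpa [dist_eq_norm] using hZ i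
          have h4 : ‖w - c‖ ≤ ‖w - Z i‖ + ‖Z i - c‖ := by
            have := norm_add_le (w - Z i) (Z i - c)
            simpa using this
          linarith
    rw [le_div_iff₀ h3]
    have hbw := hb w (sphere_subset_closedBall hw)
    rw [hfg w, norm_mul] at hbw
    calc ‖g w‖ * (3 * R) ^ n ≤ ‖g w‖ * ‖∏ i, (w - Z i)‖ := by gcongr
      _ = ‖∏ i, (w - Z i)‖ * ‖g w‖ := mul_comm _ _
      _ ≤ _ := hbw
  have hB : ‖f c‖ ≤ (2 * R) ^ n * ‖g c‖ := by
    rw [hfg c, norm_mul, norm_prod]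
    refine mul_le_mul_of_nonneg_right ?_ (norm_nonneg _)
    calc ∏ i, ‖c - Z i‖ ≤ ∏ _i : Fin n, (2 * R) := by
          refine Finset.prod_le_prod (fun _ _ => norm_nonneg _) (fun i _ => ?_)
          have h1 : ‖Z i - c‖ ≤ 2 * R := by simpa [dist_eq_norm] using hZ i
          rwa [norm_sub_rev]
      _ = (2 * R) ^ n := by simp
  have hE : 0 < Real.exp M := Real.exp_pos M
  have hC : ∀ z ∈ closedBall c (5 * R),
      ‖g z‖ * (3 * R) ^ n ≤ Real.exp M * ((2 * R) ^ n * ‖g c‖) := by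
    intro z hz
    have := hA z hz
    rw [le_div_iff₀ h3] at this
    exact this.trans (mul_le_mul_of_nonneg_left hB hE.le)
  have h23 : (2 * R) ^ n ≤ (3 * R) ^ n := by gcongr; norm_num
  constructor
  · have h0 := hC c (mem_closedBall_self (by positivity))
    have h1 : (3 * R) ^ n ≤ Real.exp M * (2 * R) ^ n := by
      have : ‖g c‖ * (3 * R) ^ n ≤ ‖g c‖ * (Real.exp M * (2 * R) ^ n) := by linarith
      exact le_of_mul_le_mul_left this hgc'
    have h4 : (3 * R) ^ n = (3 / 2 : ℝ) ^ n * (2 * R) ^ n := by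
      rw [← mul_pow]; congr 1; ring
    rw [h4] at h1
    have h5 : (3 / 2 : ℝ) ^ n ≤ Real.exp M := le_of_mul_le_mul_right h1 h2
    have h6 : Real.exp (1 / 3) ≤ 3 / 2 := by
      have := Real.exp_bound_div_one_sub_of_interval (x := 1 / 3) (by norm_num) (by norm_num)
      norm_num at this ⊢
      exact this
    have h7 : Real.exp ((n : ℝ) * (1 / 3)) ≤ Real.exp M := by
      rw [Real.exp_nat_mul]
      exact (pow_le_pow_left₀ (Real.exp_pos _).le h6 n).trans h5
    have h8 := Real.exp_le_exp.mp h7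
    linarith only [h8]
  · intro z hz
    have h0 := hC z hz
    have h1 : Real.exp M * ((2 * R) ^ n * ‖g c‖) ≤ (Real.exp M * ‖g c‖) * (3 * R) ^ n := by
      calc Real.exp M * ((2 * R) ^ n * ‖g c‖) = (Real.exp M * ‖g c‖) * (2 * R) ^ n := by ring
        _ ≤ _ := by gcongr
    exact le_of_mul_le_mul_right (h0.trans h1) h3

theorem Fac_extend {f : ℂ → ℂ} {c : ℂ} {r : ℝ}
    {n : ℕ} {Z : Fin n → ℂ} {g : ℂ → ℂ} (hg : Differentiable ℂ g)
    (hfg : ∀ z, f z = (∏ i, (z - Z i)) * g z) (hZ : ∀ i, Z i ∈ closedBall c r)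
    {z0 : ℂ} (hz0 : z0 ∈ closedBall c r) (h0 : g z0 = 0) :
    ∃ (Z' : Fin (n + 1) → ℂ) (g' : ℂ → ℂ), Differentiable ℂ g' ∧
      (∀ z, f z = (∏ i, (z - Z' i)) * g' z) ∧ (∀ i, Z' i ∈ closedBall c r) := by
  refine ⟨Fin.cons z0 Z, dslope g z0, ?_, ?_, ?_⟩
  · rw [← differentiableOn_univ]
    exact (Complex.differentiableOn_dslope Filter.univ_mem).mpr hg.differentiableOn
  · intro z
    have h1 := sub_smul_dslope g z0 z
    rw [h0, sub_zero, smul_eq_mul] at h1
    rw [hfg z, Fin.prod_univ_succ, ← h1]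
    simp only [Fin.cons_zero, Fin.cons_succ]
    ring
  · intro i
    refine Fin.cases ?_ (fun j => ?_) i
    · simpa only [Fin.cons_zero] using hz0
    · simpa only [Fin.cons_succ] using hZ j

theorem Fac_logder {g : ℂ → ℂ} (hg : Differentiable ℂ g) {c : ℂ} {R M : ℝ} (hR : 0 < R)
    (hM : 0 < M) (hne : ∀ z ∈ ball c (2 * R), g z ≠ 0)
    (hb : ∀ z ∈ ball c (2 * R), ‖g z‖ ≤ Real.exp M * ‖g c‖) :
    ∀ z ∈ ball c R, ‖deriv g z / g z‖ ≤ 12 * M / R := by
  have h2R : 0 < 2 * R := by positivity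
  have hc : c ∈ ball c (2 * R) := mem_ball_self h2R
  have hd : DifferentiableOn ℂ (fun z => deriv g z / g z) (ball c (2 * R)) :=
    (hg.deriv.differentiableOn).div hg.differentiableOn hne
  obtain ⟨h, h0, hh⟩ := hd.isExactOn_ball.with_val_at c 0
  have hhd : DifferentiableOn ℂ h (ball c (2 * R)) := fun z hz =>
    (hh z hz).differentiableAt.differentiableWithinAt
  have hconst : ∀ z ∈ ball c (2 * R), g z * cexp (-h z) = g c := by
    intro z hz
    have hder : ∀ w ∈ ball c (2 * R), HasDerivAt (fun w => g w * cexp (-h w)) 0 w := by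
      intro w hw
      have h1 := ((hg w).hasDerivAt).mul ((hh w hw).neg.cexp)
      have h2 : deriv g w * cexp ((-h) w) + g w * (cexp ((-h) w) * -(deriv g w / g w)) = 0 := by
        have := hne w hw
        field_simp
        ring
      rw [h2] at h1
      exact h1
    have := IsOpen.is_const_of_deriv_eq_zero (𝕜 := ℂ) (f := fun w => g w * cexp (-h w))
      isOpen_ball (convex_ball c (2 * R)).isPreconnected
      (fun w hw => (hder w hw).differentiableAt.differentiableWithinAt)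
      (fun w hw => (hder w hw).deriv) hz hc
    simpa [h0] using this
  have hgc : 0 < ‖g c‖ := norm_pos_iff.mpr (hne c hc)
  have hre : ∀ z ∈ ball c (2 * R), (h z).re ≤ M := by
    intro z hz
    have h1 : g z = g c * cexp (h z) := by
      rw [← hconst z hz, mul_assoc, ← Complex.exp_add]; simp
    have h2 := hb z hz
    rw [h1, norm_mul, Complex.norm_exp, mul_comm] at h2
    exact Real.exp_le_exp.mp (le_of_mul_le_mul_right h2 hgc)
  have hmem : ∀ w ∈ ball (0 : ℂ) (2 * R), c + w ∈ ball c (2 * R) := by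
    intro w hw
    simpa [dist_eq_norm] using hw
  have hBC : ∀ z, ‖z - c‖ ≤ 3 * R / 2 → ‖h z‖ ≤ 6 * M := by
    intro z hz
    have hz' : z - c ∈ ball (0 : ℂ) (2 * R) := by
      rw [mem_ball_zero_iff]; linarith only [hR, hz]
    have h1 := Complex.borelCaratheodory_zero (f := fun w => h (c + w)) hM
      (hhd.comp ((differentiable_id.const_add c).differentiableOn) hmem)
      (fun w hw => hre _ (hmem w hw)) h2R hz' (by simpa using h0)
    have h2 : c + (z - c) = z := by ring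
    simp only [h2] at h1
    refine h1.trans ?_
    rw [div_le_iff₀ (by linarith only [hR, hz])]
    linarith only [hM, hz, mul_nonneg_of_nonpos_of_nonpos (le_of_lt (Mathlib.Tactic.Linarith.sub_neg_of_lt hM)) (Mathlib.Tactic.Linarith.sub_nonpos_of_le hz)]
  intro z hz
  have hz1 : ‖z - c‖ < R := by simpa [dist_eq_norm] using hz
  have hz2 : z ∈ ball c (2 * R) := ball_subset_ball (by linarith) hz
  have hR2 : 0 < R / 2 := by positivity
  have htri : ∀ w, ‖w - z‖ ≤ R / 2 → ‖w - c‖ ≤ 3 * R / 2 := by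
    intro w hw
    have := norm_add_le (w - z) (z - c)
    have h3 : w - z + (z - c) = w - c := by ring
    rw [h3] at this
    linarith only [hz1, hw, this]
  have hsub : closedBall z (R / 2) ⊆ ball c (2 * R) := by
    intro w hw
    have := htri w (by simpa [dist_eq_norm] using hw)
    rw [mem_ball, dist_eq_norm]; linarith only [hR, this]
  have hdc : DiffContOnCl ℂ h (ball z (R / 2)) := by
    refine DifferentiableOn.diffContOnCl ?_
    rw [closure_ball z hR2.ne']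
    exact hhd.mono hsub
  have h1 := Complex.norm_deriv_le_of_forall_mem_sphere_norm_le hR2 hdc (C := 6 * M)
    (fun w hw => hBC w (htri w (by simpa [dist_eq_norm] using sphere_subset_closedBall hw)))
  rw [(hh z hz2).deriv] at h1
  refine h1.trans (le_of_eq ?_)
  field_simp
  ring

theorem exists_fac {f : ℂ → ℂ} (hf : Differentiable ℂ f) {c : ℂ} {R M : ℝ} (hR : 0 < R)
    (hM : 0 < M) (hc : f c ≠ 0) (hb : ∀ z ∈ closedBall c (5 * R), ‖f z‖ ≤ Real.exp M * ‖f c‖) :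
    ∃ (n : ℕ) (Z : Fin n → ℂ) (g : ℂ → ℂ), Differentiable ℂ g ∧
      (∀ z, f z = (∏ i, (z - Z i)) * g z) ∧ (∀ i, Z i ∈ closedBall c (2 * R)) ∧
      (n : ℝ) ≤ 3 * M ∧ ∀ z ∈ ball c R, g z ≠ 0 ∧ ‖deriv g z / g z‖ ≤ 12 * M / R := by
  classical
  let P : ℕ → Prop := fun n => ∃ (Z : Fin n → ℂ) (g : ℂ → ℂ), Differentiable ℂ g ∧
      (∀ z, f z = (∏ i, (z - Z i)) * g z) ∧ (∀ i, Z i ∈ closedBall c (2 * R))
  have hP0 : P 0 := ⟨Fin.elim0, f, hf, fun z => by simp, fun i => i.elim0⟩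
  have hPb : ∀ n, P n → n ≤ ⌈3 * M⌉₊ := by
    rintro n ⟨Z, g, hg, hfg, hZ⟩
    have h1 := (Fac_bound hR hc hb hg hfg hZ).1
    have h2 : (n : ℝ) ≤ (⌈3 * M⌉₊ : ℝ) := h1.trans (Nat.le_ceil _)
    exact_mod_cast h2
  have hPn : P (Nat.findGreatest P ⌈3 * M⌉₊) := Nat.findGreatest_spec (Nat.zero_le _) hP0
  have hmax : ¬ P (Nat.findGreatest P ⌈3 * M⌉₊ + 1) := by
    intro h
    have := Nat.le_findGreatest (hPb _ h) h
    omega
  obtain ⟨Z, g, hg, hfg, hZ⟩ := hPn
  have hne : ∀ z ∈ ball c (2 * R), g z ≠ 0 := by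
    intro z hz h0
    exact hmax (Fac_extend hg hfg hZ (ball_subset_closedBall hz) h0)
  obtain ⟨h1, h2⟩ := Fac_bound hR hc hb hg hfg hZ
  refine ⟨_, Z, g, hg, hfg, hZ, h1, fun z hz => ⟨hne z (ball_subset_ball (by linarith) hz), ?_⟩⟩
  refine Fac_logder hg hR hM hne (fun w hw => h2 w ?_) z hz
  exact closedBall_subset_closedBall (by linarith) (ball_subset_closedBall hw)

end HooRT
end
end

-- merged part: Pool.Agent.Work.MP_5d318d_nt.RT.Xi
section
/-! TASK RT Xi. The completed `L`-function.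
`χ.gammaFactor` is `Gammaℝ s` or `Gammaℝ (s + 1)` (`even_or_odd`, `Even.gammaFactor_def`, `Odd.gammaFactor_def`);
its inverse is entire (`differentiable_Gammaℝ_inv`) and non zero for `0 < re s` (`Gammaℝ_ne_zero_of_re_pos`).
`L_eq`: `LFunction_eq_completed_div_gammaFactor`. `Xi_neg`: `IsPrimitive.completedLFunction_one_sub` at `s = 1/2 + z`,
`(q : ℂ) ^ z = exp (z log q)`. `logDeriv_Xi`: near `z`, `Xi χ = exp (· log q / 2) * L (1/2 + ·) / (gammaFactor)⁻¹`;
`logDeriv_mul`, `logDeriv_div`, `LSeries_twist_vonMangoldt_eq`, `deriv_LFunction_eq_deriv_LSeries`,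
`LFunction_eq_LSeries`, `LFunction_ne_zero_of_one_le_re`. `exists_gam_le`: two continuous functions on a compact box
(`IsCompact.exists_bound_of_continuousOn`). `norm_L_le`: `abel_approx` with `N = 1`, `LFunction_eq_abel`,
`norm_psum_char_le`. `norm_L_ge`: `‖L s - 1‖ ≤ ∑_{n ≥ 2} 1 / n^2 = π^2 / 6 - 1 ≤ 2 / 3` (`hasSum_zeta_two`).
`exists_Xi_le`: for `0 ≤ re z` use `norm_L_le` and a bound for the gamma factor on a compact set of `re s ≥ 1/2`;
for `re z ≤ 0` use `Xi_neg` (`χ⁻¹ ≠ 1`, `‖rootNumber χ‖ ≤ q` since the Gauss sum has `q` terms); at `3/2` use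
`norm_L_ge`, `1 ≤ ‖exp (..)‖` and that the gamma factor is one of two non zero constants. About 260 lines. -/

noncomputable section

open Complex MeasureTheory Finset Filter Topology Metric
open ArithmeticFunction hiding log
open scoped Real

namespace HooRT

open DirichletCharacter

variable {q : ℕ} [NeZero q] {χ : DirichletCharacter ℂ q}

theorem differentiable_Xi (hχ : χ ≠ 1) : Differentiable ℂ (Xi χ) := by
  have h := (differentiable_completedLFunction hχ).comp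
    ((differentiable_const (1 / 2 : ℂ)).add differentiable_id)
  exact (((differentiable_id.mul_const _).div_const _).cexp).mul h

omit [NeZero q] in
theorem Xi_gf (χ : DirichletCharacter ℂ q) :
    ∃ e : ℕ, e ≤ 1 ∧ χ.gammaFactor = fun s => Gammaℝ (s + e) := by
  rcases χ.even_or_odd with h | h
  · exact ⟨0, zero_le_one, funext fun s => by rw [h.gammaFactor_def, Nat.cast_zero, add_zero]⟩
  · exact ⟨1, le_rfl, funext fun s => by rw [h.gammaFactor_def, Nat.cast_one]⟩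

theorem Xi_d (e : ℕ) : Differentiable ℂ fun s : ℂ => (Gammaℝ (s + e))⁻¹ :=
  differentiable_Gammaℝ_inv.comp (differentiable_id.add_const _)

theorem Xi_ne (e : ℕ) {s : ℂ} (hs : 0 < s.re) : Gammaℝ (s + e) ≠ 0 :=
  Gammaℝ_ne_zero_of_re_pos (by rw [add_re, natCast_re]; positivity)

theorem Xi_re (z : ℂ) : (1 / 2 + z : ℂ).re = 1 / 2 + z.re := by simp

theorem Xi_dg (e : ℕ) {z : ℂ} (hz : 0 ≤ z.re) : DifferentiableAt ℂ
    (fun z : ℂ => -logDeriv (fun s : ℂ => (Gammaℝ (s + e))⁻¹) (1 / 2 + z)) z := by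
  have h : DifferentiableAt ℂ (logDeriv fun s : ℂ => (Gammaℝ (s + e))⁻¹) (1 / 2 + z) :=
    ((Xi_d e).analyticAt _).deriv.differentiableAt.div (Xi_d e _)
      (inv_ne_zero (Xi_ne e (by rw [Xi_re]; linarith only [hz])))
  exact (h.comp z (differentiableAt_id.const_add _)).neg

theorem Xi_bd (F : ℕ → ℂ → ℂ) (hF : ∀ e z, 0 ≤ z.re → ContinuousAt (F e) z) (R : ℝ) :
    ∃ K : ℝ, 0 ≤ K ∧ ∀ e ≤ 1, ∀ z, 0 ≤ z.re → ‖z‖ ≤ R → ‖F e z‖ ≤ K := by
  have hc : IsCompact (closedBall (0 : ℂ) R ∩ {z | 0 ≤ z.re}) :=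
    (isCompact_closedBall 0 R).inter_right (isClosed_le continuous_const continuous_re)
  choose B hB using fun e => hc.exists_bound_of_continuousOn (f := F e)
    fun z hz => (hF e z hz.2).continuousWithinAt
  refine ⟨|B 0| + |B 1|, by positivity, fun e he z h1 h2 => (hB e z
    ⟨mem_closedBall_zero_iff.2 h2, h1⟩).trans ((le_abs_self _).trans ?_)⟩
  interval_cases e
  · exact le_add_of_nonneg_right (abs_nonneg _)
  · exact le_add_of_nonneg_left (abs_nonneg _)

omit [NeZero q] in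
theorem Xi_gne (χ : DirichletCharacter ℂ q) {s : ℂ} (hs : 0 < s.re) : χ.gammaFactor s ≠ 0 := by
  obtain ⟨e, -, h⟩ := Xi_gf χ
  rw [h]
  exact Xi_ne e hs

omit [NeZero q] in
theorem differentiable_gamma_inv (χ : DirichletCharacter ℂ q) :
    Differentiable ℂ fun s => (χ.gammaFactor s)⁻¹ := by
  obtain ⟨e, -, h⟩ := Xi_gf χ
  rw [h]
  exact Xi_d e

theorem L_eq (hq : 2 ≤ q) (z : ℂ) : χ.LFunction (1 / 2 + z) =
    Xi χ z * (cexp (-(z * Real.log q / 2)) * (χ.gammaFactor (1 / 2 + z))⁻¹) := by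
  rw [LFunction_eq_completed_div_gammaFactor χ _ (Or.inr (by omega)), Xi, exp_neg,
    mul_mul_mul_comm, mul_inv_cancel₀ (exp_ne_zero _), one_mul, div_eq_mul_inv]

theorem Xi_neg (hχ : χ.IsPrimitive) (z : ℂ) : Xi χ (-z) = χ.rootNumber * Xi χ⁻¹ z := by
  have h := hχ.completedLFunction_one_sub (1 / 2 + z)
  have h1 : cexp (-z * Real.log q / 2) * (q : ℂ) ^ z = cexp (z * Real.log q / 2) := by
    rw [cpow_def_of_ne_zero (Nat.cast_ne_zero.2 (NeZero.ne q)), ← Complex.natCast_log, ← exp_add]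
    congr 1
    ring
  rw [show 1 - (1 / 2 + z) = 1 / 2 + -z by ring, add_sub_cancel_left] at h
  rw [Xi, Xi, h, ← h1]
  ring

theorem Xi_ne_zero (hq : 2 ≤ q) (hχ : χ ≠ 1) {z : ℂ} (hz : 1 / 2 ≤ z.re) : Xi χ z ≠ 0 := by
  have h := LFunction_ne_zero_of_one_le_re χ (s := 1 / 2 + z) (Or.inl hχ)
    (by rw [Xi_re]; linarith only [hz])
  rw [L_eq hq] at h
  exact left_ne_zero_of_mul h

theorem logDeriv_Xi (hq : 2 ≤ q) (hχ : χ ≠ 1) {z : ℂ} (hz : 1 / 2 < z.re) :
    logDeriv (Xi χ) z = (Real.log q : ℝ) / 2 + gam χ z - LSeries (lc χ) (1 / 2 + z) := by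
  have hs : 1 < (1 / 2 + z : ℂ).re := by rw [Xi_re]; linarith only [hz]
  have d0 : HasDerivAt (fun w : ℂ => 1 / 2 + w) 1 z := (hasDerivAt_id' z).const_add _
  have d1 : HasDerivAt (fun w : ℂ => cexp (-(w * Real.log q / 2)))
      (cexp (-(z * Real.log q / 2)) * -(1 * Real.log q / 2)) z :=
    (((hasDerivAt_id' z).mul_const _).div_const _).neg.cexp
  have d2 := (differentiable_gamma_inv χ (1 / 2 + z)).comp z d0.differentiableAt
  have n2 : (χ.gammaFactor (1 / 2 + z))⁻¹ ≠ 0 := inv_ne_zero (Xi_gne χ (by linarith only [hs]))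
  have e1 : logDeriv (χ.LFunction ∘ fun w : ℂ => 1 / 2 + w) z = -LSeries (lc χ) (1 / 2 + z) := by
    rw [logDeriv_comp (differentiable_LFunction hχ _) d0.differentiableAt, d0.deriv, mul_one,
      logDeriv_apply, deriv_LFunction_eq_deriv_LSeries χ hs, LFunction_eq_LSeries χ hs,
      show LSeries (lc χ) (1 / 2 + z) = _ from LSeries_twist_vonMangoldt_eq χ hs, neg_div, neg_neg]
  have e2 : logDeriv (fun w : ℂ => cexp (-(w * Real.log q / 2))) z = -(Real.log q / 2) := by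
    rw [logDeriv_apply, d1.deriv, mul_div_cancel_left₀ _ (exp_ne_zero _), one_mul]
  have e3 : logDeriv (fun w : ℂ => (χ.gammaFactor (1 / 2 + w))⁻¹) z = -gam χ z := by
    have := logDeriv_comp (differentiable_gamma_inv χ (1 / 2 + z)) d0.differentiableAt
    rw [d0.deriv, mul_one] at this
    rw [gam, neg_neg]
    exact this
  have e4 : (χ.LFunction ∘ fun w : ℂ => 1 / 2 + w) = fun w => Xi χ w *
      (cexp (-(w * Real.log q / 2)) * (χ.gammaFactor (1 / 2 + w))⁻¹) := funext (L_eq hq)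
  rw [e4, logDeriv_mul (g := fun w => cexp (-(w * Real.log q / 2)) * (χ.gammaFactor (1 / 2 + w))⁻¹)
    z (Xi_ne_zero hq hχ hz.le) (mul_ne_zero (exp_ne_zero _) n2)
    (differentiable_Xi hχ z) (d1.differentiableAt.mul d2),
    logDeriv_mul (f := fun w => cexp (-(w * Real.log q / 2)))
      (g := fun w => (χ.gammaFactor (1 / 2 + w))⁻¹) z (exp_ne_zero _) n2 d1.differentiableAt d2,
    e2, e3] at e1
  linear_combination e1

omit [NeZero q] in
theorem differentiableAt_gam (χ : DirichletCharacter ℂ q) {z : ℂ} (hz : 0 ≤ z.re) :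
    DifferentiableAt ℂ (gam χ) z := by
  obtain ⟨e, -, h⟩ := Xi_gf χ
  unfold gam
  rw [h]
  exact Xi_dg e hz

theorem exists_gam_le (T : ℝ) : ∃ K : ℝ, 0 ≤ K ∧ ∀ (q : ℕ) (χ : DirichletCharacter ℂ q) (z : ℂ),
    0 ≤ z.re → z.re ≤ 3 / 2 → |z.im| ≤ T → ‖gam χ z‖ ≤ K := by
  obtain ⟨K, K0, hK⟩ := Xi_bd _ (fun e z hz => (Xi_dg e hz).continuousAt) (3 / 2 + T)
  refine ⟨K, K0, fun q χ z h1 h2 h3 => ?_⟩
  obtain ⟨e, he, h⟩ := Xi_gf χ
  rw [gam, h]
  exact hK e he z h1 ((norm_le_abs_re_add_abs_im z).trans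
    (add_le_add (by rwa [abs_of_nonneg h1]) h3))

theorem norm_L_le (hχ : χ ≠ 1) {s : ℂ} (hs : 1 / 2 ≤ s.re) :
    ‖χ.LFunction s‖ ≤ q * (2 + 2 * ‖s‖) := by
  have hK : ∀ n, ‖Pool.Agent.Lib.ANT.psum (fun n => χ n) n‖ ≤ q := fun n => by
    have := Pool.Agent.Lib.ANT.norm_psum_char_le hχ 1 n
    simpa [Pool.Agent.Lib.ANT.psum, add_comm] using this
  have s0 : 0 < s.re := by linarith only [hs]
  have h := Pool.Agent.Lib.ANT.abel_approx hK s0 one_pos
  rw [← Pool.Agent.Lib.ANT.LFunction_eq_abel hχ s0] at h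
  simp only [range_one, sum_singleton, zero_add, Nat.cast_one, map_one, one_cpow, mul_one,
    Real.one_rpow] at h
  have q1 : (1 : ℝ) ≤ q := by exact_mod_cast NeZero.pos q
  have h1 : ‖s‖ / s.re ≤ 2 * ‖s‖ := by
    rw [div_le_iff₀ s0]
    linarith only [hs, norm_nonneg s, mul_nonneg_of_nonpos_of_nonpos (Mathlib.Tactic.Linarith.sub_nonpos_of_le hs) (Mathlib.Tactic.Linarith.sub_nonpos_of_le (norm_nonneg s))]
  have h2 := norm_sub_norm_le (χ.LFunction s) 1
  have h3 := mul_le_mul_of_nonneg_left h1 (zero_le_one.trans q1)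
  rw [norm_one] at h2
  linarith

theorem norm_L_ge (χ : DirichletCharacter ℂ q) {s : ℂ} (hs : 2 ≤ s.re) :
    1 / 3 ≤ ‖χ.LFunction s‖ := by
  have hs' : 1 < s.re := by linarith
  have h1 := (LSeriesSummable_of_one_lt_re χ hs').tsum_eq_add_tsum_ite 1
  have h2 := tsum_of_norm_bounded (f := fun n : ℕ => ite (n = 1) 0 (LSeries.term (χ ·) s n))
    (hasSum_ite_sub_hasSum hasSum_zeta_two 1) fun n => by
      split_ifs with h
      · exact norm_zero.le
      · rw [LSeries.norm_term_eq]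
        split_ifs with h0
        · positivity
        · have n1 : (1 : ℝ) ≤ n := by exact_mod_cast Nat.pos_of_ne_zero h0
          refine div_le_div₀ zero_le_one (χ.norm_le_one _) (by positivity) ?_
          rw [← Real.rpow_two]
          exact Real.rpow_le_rpow_of_exponent_le n1 hs
  have h3 : LSeries.term (χ ·) s 1 = 1 := by simp
  rw [LFunction_eq_LSeries χ hs', LSeries, h1, h3]
  have h4 := norm_sub_norm_le (1 : ℂ) (-∑' n : ℕ, ite (n = 1) 0 (LSeries.term (χ ·) s n))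
  rw [norm_one, norm_neg, sub_neg_eq_add] at h4
  have h5 : π ^ 2 ≤ 10 := by linarith only [Real.pi_lt_d2, Real.pi_pos, mul_pos_of_neg_of_neg (Mathlib.Tactic.Linarith.sub_neg_of_lt Real.pi_lt_d2) (Mathlib.Tactic.Linarith.sub_neg_of_lt Real.pi_pos)]
  rw [Nat.cast_one, one_pow] at h2
  linarith only [h2, h4, h5]

theorem Xi_root (χ : DirichletCharacter ℂ q) : ‖χ.rootNumber‖ ≤ q := by
  have q1 : (1 : ℝ) ≤ q := by exact_mod_cast NeZero.pos q
  have h1 : ‖gaussSum χ ZMod.stdAddChar‖ ≤ q := by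
    refine (norm_sum_le _ _).trans ((sum_le_card_nsmul _ _ 1 fun a _ => ?_).trans ?_)
    · rw [norm_mul, ZMod.stdAddChar_apply, Circle.norm_coe, mul_one]
      exact χ.norm_le_one a
    · simp
  rw [rootNumber, norm_div, norm_div, norm_pow, norm_I, one_pow, div_one,
    norm_natCast_cpow_of_pos (NeZero.pos q)]
  exact (div_le_self (norm_nonneg _) (Real.one_le_rpow q1 (by simp))).trans h1

theorem Xi_exp (z : ℂ) (x : ℝ) : ‖cexp (z * x / 2)‖ = Real.exp (z.re * x / 2) := by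
  rw [norm_exp]
  simp

theorem exists_Xi_le (R : ℝ) : ∃ K : ℝ, 1 ≤ K ∧ ∀ (q : ℕ) [NeZero q], 2 ≤ q →
    ∀ χ : DirichletCharacter ℂ q, χ.IsPrimitive → ∀ z ∈ closedBall (3 / 2 : ℂ) R,
      ‖Xi χ z‖ ≤ Real.exp (K * (1 + Real.log q)) * ‖Xi χ (3 / 2)‖ := by
  obtain ⟨S, hS⟩ : ∃ S, S = |R| + 2 := ⟨_, rfl⟩
  have S0 : 2 ≤ S := hS ▸ le_add_of_nonneg_left (abs_nonneg R)
  have c0 : ∀ (e : ℕ) (z : ℂ), ContinuousAt (fun z : ℂ => (Gammaℝ (1 / 2 + z + e))⁻¹) z :=
    fun e z => ((Xi_d e).continuous.comp (continuous_const.add continuous_id)).continuousAt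
  obtain ⟨B, B0, hB⟩ := Xi_bd (fun e z => (Gammaℝ (1 / 2 + z + e))⁻¹⁻¹) (fun e z hz =>
    (c0 e z).inv₀ (inv_ne_zero (Xi_ne e (by rw [Xi_re]; linarith only [hz])))) S
  obtain ⟨C, C0, hC⟩ := Xi_bd _ (fun e z _ => c0 e z) S
  obtain ⟨A, hA⟩ : ∃ A, A = (3 + 2 * S) * B * (3 * C) := ⟨_, rfl⟩
  have A0 : 0 ≤ A := by rw [hA]; positivity
  refine ⟨S + 2 + A, by linarith, fun q _ hq χ hχ z hz => ?_⟩
  have q1 : (1 : ℝ) ≤ q := by exact_mod_cast NeZero.pos q
  have l0 := Real.log_nonneg q1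
  have n1 : χ ≠ 1 := fun h => by
    have := (isPrimitive_def χ).1 hχ
    rw [h, conductor_one] at this
    omega
  have up : ∀ ψ : DirichletCharacter ℂ q, ψ ≠ 1 → ∀ w : ℂ, 0 ≤ w.re → ‖w‖ ≤ S →
      ‖Xi ψ w‖ ≤ Real.exp (S * Real.log q) * (q * (3 + 2 * S) * B) := fun ψ hψ w h1 h2 => by
    have g0 := Xi_gne ψ (s := 1 / 2 + w) (by rw [Xi_re]; linarith only [h1])
    rw [Xi, (eq_div_iff g0).1 (LFunction_eq_completed_div_gammaFactor ψ _
      (Or.inr (by omega))) |>.symm, norm_mul, norm_mul, Xi_exp]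
    have k1 : w.re * Real.log q / 2 ≤ S * Real.log q := by
      linarith only [l0, S0, h2, (re_le_norm w).trans h2, mul_nonneg_of_nonpos_of_nonpos (Mathlib.Tactic.Linarith.sub_nonpos_of_le S0) (Mathlib.Tactic.Linarith.sub_nonpos_of_le l0), mul_nonneg_of_nonpos_of_nonpos (Mathlib.Tactic.Linarith.sub_nonpos_of_le l0) (Mathlib.Tactic.Linarith.sub_nonpos_of_le (LE.le.trans (re_le_norm w) h2))]
    have k2 : ‖(1 / 2 + w : ℂ)‖ ≤ 1 / 2 + S :=
      (norm_add_le _ _).trans (add_le_add (by simp) h2)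
    refine mul_le_mul (Real.exp_le_exp.2 k1) (mul_le_mul ((norm_L_le hψ
      (by rw [Xi_re]; linarith only [h1])).trans (mul_le_mul_of_nonneg_left (by linarith only [k2]) (by positivity)))
      ?_ (norm_nonneg _) (by positivity)) (by positivity) (by positivity)
    obtain ⟨e, he, h⟩ := Xi_gf ψ
    rw [h]
    exact (congrArg _ (inv_inv _)).symm.trans_le (hB e he w h1 h2)
  have zS : ‖z‖ ≤ S := by
    have k := norm_sub_norm_le z (3 / 2)
    rw [mem_closedBall_iff_norm] at hz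
    have k1 : ‖(3 / 2 : ℂ)‖ = 3 / 2 := by simp
    linarith only [hS, hz, k, k1, le_abs_self R]
  have u1 : ‖Xi χ z‖ ≤ q * (Real.exp (S * Real.log q) * (q * (3 + 2 * S) * B)) := by
    rcases le_total 0 z.re with h | h
    · exact (up χ n1 z h zS).trans (le_mul_of_one_le_left (by positivity) q1)
    · rw [← neg_neg z, Xi_neg hχ, norm_mul]
      exact mul_le_mul (Xi_root χ) (up χ⁻¹ (inv_ne_one.2 n1) _ (by simpa using h)
        (by rwa [norm_neg])) (norm_nonneg _) (by positivity)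
  have u2 : 1 ≤ 3 * C * ‖Xi χ (3 / 2)‖ := by
    have k := norm_L_ge χ (s := 1 / 2 + 3 / 2) (by norm_num)
    rw [L_eq hq, norm_mul, norm_mul, ← neg_div, ← neg_mul, Xi_exp] at k
    have k1 : Real.exp ((-(3 / 2) : ℂ).re * Real.log q / 2) ≤ 1 :=
      Real.exp_le_one_iff.2 (by simp; linarith only [l0])
    have k2 : ‖(χ.gammaFactor (1 / 2 + 3 / 2))⁻¹‖ ≤ C := by
      obtain ⟨e, he, h⟩ := Xi_gf χ
      rw [h]
      exact hC e he (3 / 2) (by norm_num) (by simp; linarith only [S0])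
    have k3 := mul_le_mul_of_nonneg_left ((mul_le_of_le_one_left (norm_nonneg _) k1).trans k2)
      (norm_nonneg (Xi χ (3 / 2)))
    linarith
  have e1 : (q : ℝ) = Real.exp (Real.log q) := (Real.exp_log (by linarith only [q1])).symm
  have u3 : q * (Real.exp (S * Real.log q) * (q * (3 + 2 * S) * B)) * (3 * C) ≤
      Real.exp ((S + 2 + A) * (1 + Real.log q)) := by
    calc _ = q * q * Real.exp (S * Real.log q) * A := by rw [hA]; ring
      _ ≤ Real.exp (Real.log q) * Real.exp (Real.log q) * Real.exp (S * Real.log q) *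
          Real.exp A := by
        rw [← e1]
        exact mul_le_mul_of_nonneg_left (by linarith only [Real.add_one_le_exp A]) (by positivity)
      _ ≤ _ := by
        rw [← Real.exp_add, ← Real.exp_add, ← Real.exp_add]
        exact Real.exp_le_exp.2 (by linarith only [S0, A0, l0, mul_nonneg_of_nonpos_of_nonpos (Mathlib.Tactic.Linarith.sub_nonpos_of_le A0) (Mathlib.Tactic.Linarith.sub_nonpos_of_le l0)])
  refine u1.trans ((le_mul_of_one_le_right (by positivity) u2).trans ?_)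
  rw [← mul_assoc]
  exact mul_le_mul_of_nonneg_right u3 (norm_nonneg _)

end HooRT
end
end

-- merged part: Pool.Agent.Work.MP_5d318d_nt.RT.EFX
section
/-! TASK RT EFX. The explicit formula for a primitive character.
`prim_ne_one`: the conductor of `1` is `1` (`conductor_one`). `χ⁻¹` is primitive (`conductor_inv`).
Take `R = |T| + 4`, `K1` from `exists_Xi_le (5 R)`, `M = K1 (1 + log q)`, `exists_fac` for `Xi χ` at `c = 3/2`, `Kg`
from `exists_gam_le T`. The `Z i` are zeros of `Xi χ`, so `re < 1/2` (`Xi_ne_zero`) and `-1/2 < re` (`Xi_neg`; the root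
number is not zero because `Xi χ (3/2) ≠ 0`, `Xi_neg` at `-3/2`). The box lies in `ball (3/2) R`. On the left line
`Xi χ z = rootNumber * Xi χ⁻¹ (-z)`, so `logDeriv (Xi χ) z = -logDeriv (Xi χ⁻¹) (-z)` (`logDeriv_const_mul`,
`logDeriv_comp` or `deriv_comp_neg`). Apply `ef_abs` with `B = 12 M / R ≤ 3 M`; `K = 6 K1 + Kg + 2 R + 12`.
About 110 lines. -/

noncomputable section

open Complex MeasureTheory Finset Filter Topology Metric
open ArithmeticFunction hiding log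
open scoped Real

namespace HooRT

open DirichletCharacter

theorem prim_ne_one {q : ℕ} [NeZero q] (hq : 2 ≤ q) {χ : DirichletCharacter ℂ q}
    (hχ : χ.IsPrimitive) : χ ≠ 1 := by
  rintro rfl
  have := (isPrimitive_def _).1 hχ
  rw [conductor_one] at this
  omega

theorem prim_inv {q : ℕ} {χ : DirichletCharacter ℂ q} (hχ : χ.IsPrimitive) :
    χ⁻¹.IsPrimitive := by
  exact (conductor_inv χ).trans hχ

theorem root_ne_zero {q : ℕ} [NeZero q] (hq : 2 ≤ q) {χ : DirichletCharacter ℂ q}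
    (hχ : χ.IsPrimitive) : χ.rootNumber ≠ 0 := by
  intro h
  have h1 := Xi_neg hχ (-(3 / 2))
  rw [h, zero_mul, neg_neg] at h1
  exact Xi_ne_zero hq (prim_ne_one hq hχ) (by norm_num) h1

theorem exists_efd (T : ℝ) : ∃ K : ℝ, 1 ≤ K ∧ ∀ (q : ℕ) [NeZero q], 2 ≤ q →
    ∀ χ : DirichletCharacter ℂ q, χ.IsPrimitive → ∃ (n : ℕ) (Z : Fin n → ℂ) (g : ℂ → ℂ),
      EFD (Real.log q) K T (lc χ) (lc χ⁻¹) Z ∧ Differentiable ℂ g ∧
        ∀ z, Xi χ z = (∏ i, (z - Z i)) * g z := by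
  obtain ⟨R, hR⟩ : ∃ R : ℝ, R = |T| + 4 := ⟨_, rfl⟩
  have R4 : 4 ≤ R := by linarith only [hR, abs_nonneg T]
  obtain ⟨K1, k1, hK1⟩ := exists_Xi_le (5 * R)
  obtain ⟨Kg, kg, hKg⟩ := exists_gam_le T
  refine ⟨6 * K1 + Kg + 2 * R + 12, by linarith, fun q _ hq χ hχ => ?_⟩
  have h1 := prim_ne_one hq hχ
  have h2 := prim_ne_one hq (prim_inv hχ)
  have h3 := root_ne_zero hq hχ
  have l0 : 0 ≤ Real.log q := Real.log_natCast_nonneg q
  have M0 : 0 < K1 * (1 + Real.log q) := by positivity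
  obtain ⟨n, Z, g, g1, g2, g3, g4, g5⟩ := exists_fac (differentiable_Xi h1) (c := 3 / 2)
    (by linarith only [R4] : 0 < R) M0 (Xi_ne_zero hq h1 (by norm_num)) (hK1 q hq χ hχ)
  have hZ : ∀ i, |(Z i).re| ≤ 1 / 2 := fun i => by
    have z : Xi χ (Z i) = 0 := by
      rw [g2, Finset.prod_eq_zero (Finset.mem_univ i) (sub_self _), zero_mul]
    refine abs_le.2 ⟨not_lt.1 fun k => ?_, not_lt.1 fun k => Xi_ne_zero hq h1 k.le z⟩
    have := Xi_neg hχ (-Z i)
    rw [neg_neg, z] at this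
    exact mul_ne_zero h3 (Xi_ne_zero hq h2 (by rw [neg_re]; linarith only [k])) this.symm
  have hB : 12 * (K1 * (1 + Real.log q)) / R ≤ 3 * (K1 * (1 + Real.log q)) := by
    rw [div_le_iff₀ (by linarith only [R4])]
    linarith only [R4, M0, mul_nonneg_of_nonpos_of_nonpos (Mathlib.Tactic.Linarith.sub_nonpos_of_le R4) (le_of_lt (Mathlib.Tactic.Linarith.sub_neg_of_lt M0))]
  refine ⟨n, Z, g, ⟨by linarith only [R4, k1, kg], l0, norm_lc_le χ, norm_lc_le χ⁻¹, by linarith only [R4, kg, l0, M0, g4, mul_nonneg_of_nonpos_of_nonpos (Mathlib.Tactic.Linarith.sub_nonpos_of_le R4) (Mathlib.Tactic.Linarith.sub_nonpos_of_le l0), mul_nonneg_of_nonpos_of_nonpos (Mathlib.Tactic.Linarith.sub_nonpos_of_le kg) (Mathlib.Tactic.Linarith.sub_nonpos_of_le l0)], hZ, fun i => ?_,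
    fun lam x v D N hl hD hx hv hN => ?_⟩, g1, g2⟩
  · have k := mem_closedBall_iff_norm.1 (g3 i)
    have k' := norm_sub_norm_le (Z i) (3 / 2)
    rw [show ‖(3 / 2 : ℂ)‖ = 3 / 2 by simp] at k'
    linarith only [k1, kg, k, k']
  refine (ef_abs g1 g2 hZ l0 (fun z a1 a2 => g5 z ?_) (norm_lc_le χ) (norm_lc_le χ⁻¹)
    (fun z => differentiableAt_gam χ) (fun z => differentiableAt_gam χ⁻¹) (hKg q χ) (hKg q χ⁻¹)
    (fun t => ?_) (fun t => ?_) hl hD hx hv hN).trans (add_le_add ?_ ?_)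
  · refine mem_ball_iff_norm.2 ((norm_le_abs_re_add_abs_im _).trans_lt ?_)
    have e1 : (z - 3 / 2).re = z.re - 3 / 2 := by simp
    have e2 : (z - 3 / 2).im = z.im := by simp
    have e3 : |z.re - 3 / 2| ≤ 3 := abs_le.2 ⟨by linarith only [a1, (abs_le.1 a1).1],
      by linarith only [a1, (abs_le.1 a1).2]⟩
    rw [e1, e2]
    linarith only [hR, a2, e3, le_abs_self T]
  · rw [logDeriv_Xi hq h1 (by norm_num), show (1 / 2 + (3 / 2 + t * I) : ℂ) = 2 + t * I by ring]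
  · have e : Xi χ = fun z => χ.rootNumber * Xi χ⁻¹ (-z) := funext fun z => by
      rw [← Xi_neg hχ, neg_neg]
    rw [e, logDeriv_const_mul _ _ h3, logDeriv_apply, deriv_comp_neg, neg_div, ← logDeriv_apply,
      logDeriv_Xi hq h2 (by norm_num),
      show (1 / 2 + -(-(3 / 2) + t * I) : ℂ) = 2 + (-t : ℝ) * I by push_cast; ring]
  · exact div_le_div_of_nonneg_right (by linarith only [R4, k1]) (Real.sqrt_nonneg _)
  · exact mul_le_mul_of_nonneg_right (by linarith only [R4, l0, g4, hB, kg, mul_nonneg_of_nonpos_of_nonpos (Mathlib.Tactic.Linarith.sub_nonpos_of_le R4) (Mathlib.Tactic.Linarith.sub_nonpos_of_le l0), mul_nonneg_of_nonpos_of_nonpos (Mathlib.Tactic.Linarith.sub_nonpos_of_le kg) (Mathlib.Tactic.Linarith.sub_nonpos_of_le l0)]) (Real.exp_pos _).le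

end HooRT
end
end

-- merged part: Pool.Agent.Work.MP_5d318d_nt.RT.Off
section
/-! Zeros off the critical line are few. -/

noncomputable section

open Complex MeasureTheory Finset Filter Topology Metric
open ArithmeticFunction hiding log
open scoped Real

namespace HooRT

theorem blaschke {F g : ℂ → ℂ} (hg : Differentiable ℂ g) {ι : Type} (s : Finset ι) (Z : ι → ℂ)
    (hF : ∀ z, F z = (∏ i ∈ s, (z - Z i)) * g z) {c : ℂ} {R r : ℝ} (hR : 0 < R)
    (hZ : ∀ i ∈ s, ‖Z i - c‖ ≤ r) :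
    ‖F c‖ ^ 2 * (R ^ 2) ^ s.card ≤
      (r ^ 2) ^ s.card * Real.circleAverage (fun z => ‖F z‖ ^ 2) c R := by
  let H : ℂ → ℂ := fun z => (∏ i ∈ s, ((R ^ 2 - (starRingEnd ℂ) (Z i - c) * (z - c)) / R)) * g z
  have dH : Differentiable ℂ fun z => H z ^ 2 :=
    ((Differentiable.fun_finsetProd fun i _ => by fun_prop).mul hg).pow 2
  have R0 : (R : ℂ) ≠ 0 := ofReal_ne_zero.2 hR.ne'
  have e : Set.EqOn (fun z => ‖H z ^ 2‖) (fun z => ‖F z‖ ^ 2) (sphere c |R|) := fun z hz => by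
    rw [mem_sphere_iff_norm, abs_of_pos hR] at hz
    simp only [H, hF, norm_pow, norm_mul, norm_prod]
    congr 2
    refine prod_congr rfl fun i _ => ?_
    have : (R : ℂ) ^ 2 - (starRingEnd ℂ) (Z i - c) * (z - c) =
        (z - c) * (starRingEnd ℂ) (z - Z i) := by
      rw [← hz, ← mul_conj', map_sub, map_sub, map_sub]
      ring
    rw [this, norm_div, norm_mul, hz, norm_conj, norm_real, Real.norm_of_nonneg hR.le,
      mul_div_cancel_left₀ _ hR.ne']
  have h1 : ‖H c ^ 2‖ ≤ Real.circleAverage (fun z => ‖F z‖ ^ 2) c R := by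
    rw [← dH.diffContOnCl.circleAverage (c := c) (R := R), ← Real.circleAverage_congr_sphere e,
      Real.circleAverage_def, Real.circleAverage_def, norm_smul, smul_eq_mul,
      Real.norm_of_nonneg (by positivity)]
    exact mul_le_mul_of_nonneg_left (intervalIntegral.norm_integral_le_integral_norm
      Real.two_pi_pos.le) (by positivity)
  have h2 : ‖H c ^ 2‖ = (R ^ 2) ^ s.card * ‖g c‖ ^ 2 := by
    simp only [H, sub_self, mul_zero, sub_zero, sq (R : ℂ), mul_div_cancel_right₀ _ R0, prod_const,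
      norm_pow, norm_mul, norm_real, Real.norm_of_nonneg hR.le]
    ring
  have h3 : ‖F c‖ ^ 2 ≤ (r ^ 2) ^ s.card * ‖g c‖ ^ 2 := by
    rw [hF, norm_mul, mul_pow, norm_prod, ← prod_pow, ← prod_const]
    gcongr with i hi
    rw [norm_sub_rev]
    exact hZ i hi
  calc _ ≤ (r ^ 2) ^ s.card * ‖g c‖ ^ 2 * (R ^ 2) ^ s.card := by gcongr
    _ = (r ^ 2) ^ s.card * ‖H c ^ 2‖ := by rw [h2]; ring
    _ ≤ _ := by gcongr

theorem off_one {q : ℕ} [NeZero q] (hq : 2 ≤ q) {χ : DirichletCharacter ℂ q} {g : ℂ → ℂ}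
    (hg : Differentiable ℂ g) {ι : Type} (s : Finset ι) (Z : ι → ℂ)
    (hF : ∀ z, Xi χ z = (∏ i ∈ s, (z - Z i)) * g z) {σ K R A : ℝ} (hσ : 0 < σ) (hσ1 : σ ≤ 1)
    (hR : 2 ≤ R) (hK : K ^ 2 ≤ R * σ) (hZ : ∀ i ∈ s, σ ≤ (Z i).re ∧ ‖Z i‖ ≤ K)
    (hA : mom χ R ≤ A) : Real.exp (s.card * (σ / R)) ≤ 9 * A := by
  have R0 : 0 < R := by linarith only [hR]
  have r0 : 0 ≤ R ^ 2 - R * σ := by linarith only [hσ1, hR, mul_nonneg_of_nonpos_of_nonpos (Mathlib.Tactic.Linarith.sub_nonpos_of_le hσ1) (Mathlib.Tactic.Linarith.sub_nonpos_of_le hR), mul_nonneg_of_nonpos_of_nonpos (Mathlib.Tactic.Linarith.sub_nonpos_of_le hR) (Mathlib.Tactic.Linarith.sub_nonpos_of_le hR)]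
  have h := blaschke (F := fun z => χ.LFunction (1 / 2 + z)) (g := fun z => g z *
      (cexp (-(z * Real.log q / 2)) * (χ.gammaFactor (1 / 2 + z))⁻¹))
    (hg.mul (Differentiable.mul (by fun_prop) ((differentiable_gamma_inv χ).comp (by fun_prop))))
    s Z (fun z => by rw [L_eq hq, hF, mul_assoc]) (c := R) (r := √(R ^ 2 - R * σ)) R0
    fun i hi => Real.le_sqrt_of_sq_le (by
      have k1 := pow_le_pow_left₀ (norm_nonneg _) (hZ i hi).2 2
      have k2 := mul_le_mul_of_nonneg_left (hZ i hi).1 R0.le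
      rw [Complex.sq_norm, normSq_apply] at k1 ⊢
      simp only [sub_re, sub_im, ofReal_re, ofReal_im]
      linarith only [hK, k1, k2])
  rw [Real.sq_sqrt r0] at h
  have h1 := pow_le_pow_left₀ (by norm_num) (norm_L_ge χ (s := 1 / 2 + R) (by simp; linarith only [hR])) 2
  have h2 : 0 ≤ mom χ R := Real.circleAverage_nonneg_of_nonneg fun _ _ => sq_nonneg _
  have h3 : R ^ 2 - R * σ ≤ R ^ 2 * Real.exp (-(σ / R)) := by
    have := mul_le_mul_of_nonneg_left (Real.add_one_le_exp (-(σ / R))) (sq_nonneg R)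
    rw [mul_add, mul_neg, sq R, mul_assoc, mul_div_cancel₀ _ R0.ne'] at this
    linarith only [this]
  have h4 : (1 / 3) ^ 2 * (R ^ 2) ^ s.card ≤
      Real.exp (-(σ / R)) ^ s.card * A * (R ^ 2) ^ s.card :=
    calc _ ≤ _ := mul_le_mul_of_nonneg_right h1 (by positivity)
      _ ≤ _ := h
      _ ≤ (R ^ 2 * Real.exp (-(σ / R))) ^ s.card * A := mul_le_mul (by gcongr) hA h2 (by positivity)
      _ = _ := by rw [mul_pow]; ring
  have h5 := le_of_mul_le_mul_right h4 (by positivity)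
  rw [← Real.exp_nat_mul, mul_neg, Real.exp_neg, ← div_eq_inv_mul, le_div_iff₀ (Real.exp_pos _)] at h5
  linarith only [h5]

theorem off_count {q : ℕ} [NeZero q] (hq : 2 ≤ q) {χ : DirichletCharacter ℂ q}
    (hχ : χ.IsPrimitive) {g : ℂ → ℂ} (hg : Differentiable ℂ g) {n : ℕ} {Z : Fin n → ℂ}
    (hF : ∀ z, Xi χ z = (∏ i, (z - Z i)) * g z) {σ K R A : ℝ} (hσ : 0 < σ) (hσ1 : σ ≤ 1)
    (hR : 2 ≤ R) (hK : K ^ 2 ≤ R * σ) (hZ : ∀ i, ‖Z i‖ ≤ K) (hA : mom χ R ≤ A)
    (hA' : mom χ⁻¹ R ≤ A) :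
    ((univ.filter fun i => σ < |(Z i).re|).card : ℝ) ≤ 2 * (R / σ) * Real.log (9 * A) := by
  have R0 : 0 < R := by linarith only [hR]
  have key : ∀ m : ℕ, Real.exp (m * (σ / R)) ≤ 9 * A → m ≤ R / σ * Real.log (9 * A) := fun m h => by
    have := (Real.le_log_iff_exp_le ((Real.exp_pos _).trans_le h)).2 h
    rwa [← div_le_iff₀' (by positivity), div_div_eq_mul_div, mul_div_assoc]
  have dp : ∀ (t : Finset (Fin n)) (W : Fin n → ℂ), Differentiable ℂ fun z => ∏ i ∈ t, (z - W i) :=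
    fun t W => Differentiable.fun_finsetProd fun i _ => by fun_prop
  have h1 := key _ (off_one hq ((dp _ Z).mul hg) (univ.filter fun i => σ < (Z i).re) Z
    (fun z => by rw [hF, ← prod_filter_mul_prod_filter_not univ fun i => σ < (Z i).re, mul_assoc]
                 rfl)
    hσ hσ1 hR hK (fun i hi => ⟨(mem_filter.1 hi).2.le, hZ i⟩) hA)
  have h2 := key _ (off_one hq (χ := χ⁻¹) (g := fun z =>
      (∏ i ∈ univ.filter fun i => ¬ σ < -(Z i).re, (z - -Z i)) *
        ((χ.rootNumber⁻¹ * (-1) ^ n) * g (-z))) ((dp _ _).mul (by fun_prop))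
    (univ.filter fun i => σ < -(Z i).re) (fun i => -Z i) (fun z => by
      have e : ∏ i, (-z - Z i) = (-1) ^ n * ∏ i, (z - -Z i) := by
        rw [← Fin.prod_const, ← prod_mul_distrib]
        exact prod_congr rfl fun i _ => by ring
      rw [← mul_assoc, prod_filter_mul_prod_filter_not,
        ← inv_mul_cancel_left₀ (root_ne_zero hq hχ) (Xi χ⁻¹ z), ← Xi_neg hχ, hF, e]
      ring)
    hσ hσ1 hR hK (fun i hi => ⟨(mem_filter.1 hi).2.le, (norm_neg _).trans_le (hZ i)⟩) hA')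
  have h3 := (Nat.cast_le (α := ℝ)).2 ((card_le_card (s := univ.filter fun i => σ < |(Z i).re|)
    fun i hi => by simpa only [mem_union, mem_filter, mem_univ, true_and, lt_abs] using hi).trans
    (card_union_le (univ.filter fun i => σ < (Z i).re) (univ.filter fun i => σ < -(Z i).re)))
  push_cast at h3
  linarith only [h1, h2, h3]

end HooRT
end
end

-- merged part: Pool.Agent.Work.MP_5d318d_nt.RT.Rank
section
/-! TASK RT Rank. The number of points kept for a band.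
Let `c = (w + 4 d) / (2 π) ≤ 1`. Choose `η ∈ (0, 1/2]` with `(c + η) / (1 - η) + η ≤ c + ε` (e.g. `η = min (ε/8) (1/2)`;
wlog by cases), then `lam ≥ 1` with `2 exp (-lam d^2 / 2) ≤ η` and `√lam * K * 2 * exp (-9 lam / 4) * 5 ≤ η / 4`
(`D = 3`: the exponent is `9 lam / 4 - 9 lam / 2`), then `σ1 ≤ 1` with `lam σ1^2 ≤ 1` and
`5 √lam * 6 lam σ1^2 * 2 K ≤ η / 4`. For `σ ≤ σ1` put `R = K^2 / σ + 2`. For large `L`: `1 + l ≤ 2 L`; the number `m`
of points with `σ < |re|` is at most `2 (R / σ) log (9 L^2) = o(L)` (`off_count` with `A = L^2`); `EFD.ef` at `v = 0`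
with any `N` such that `48 lam ≤ log N`, and `mu_zero_le`, give `near_card` with
`e = K + K (1 + l) exp (-9 lam / 4) + 4 exp (9 lam)`. `kept` is contained in the union of the two sets.
Use `Real.isLittleO_log_id_atTop` or `log x ≤ 2 √x` for `o(L)`. About 150 lines. -/

noncomputable section

open Complex MeasureTheory Finset Filter Topology Metric
open ArithmeticFunction hiding log
open scoped Real

namespace HooRT

theorem Rank_log {B θ : ℝ} (hB : 0 ≤ B) (hθ : 0 < θ) :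
    ∀ᶠ L : ℝ in atTop, B * Real.log (9 * L ^ 2) ≤ θ * L := by
  have h := Real.isLittleO_log_id_atTop.bound (show 0 < θ / (4 * B + 1) by positivity)
  filter_upwards [h, eventually_ge_atTop (3 : ℝ)] with L h1 h3
  have L0 : 0 < L := by linarith only [h3]
  have l0 : 0 ≤ Real.log L := Real.log_nonneg (by linarith)
  rw [id, Real.norm_of_nonneg l0, Real.norm_of_nonneg L0.le, div_mul_eq_mul_div,
    le_div_iff₀ (by positivity)] at h1
  have h4 : Real.log (9 * L ^ 2) ≤ 4 * Real.log L := by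
    have e : 4 * Real.log L = Real.log (L ^ 4) := by rw [Real.log_pow]; norm_num
    rw [e]
    refine Real.log_le_log (by positivity) ?_
    have : 9 ≤ L ^ 2 := by linarith only [h3, mul_nonneg_of_nonpos_of_nonpos (Mathlib.Tactic.Linarith.sub_nonpos_of_le h3) (Mathlib.Tactic.Linarith.sub_nonpos_of_le h3)]
    linarith only [this, mul_nonneg_of_nonpos_of_nonpos (Mathlib.Tactic.Linarith.sub_nonpos_of_le (sq_nonneg L)) (Mathlib.Tactic.Linarith.sub_nonpos_of_le this)]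
  linarith only [h1, l0, h4, hB, mul_le_mul_of_nonneg_left h4 hB]

theorem Rank_lam {η d K : ℝ} (hη : 0 < η) (hd : 0 < d) (hK : 0 < K) : ∃ lam : ℝ, 1 ≤ lam ∧
    2 * Real.exp (-lam * d ^ 2 / 2) ≤ η ∧ 40 * K * (lam * Real.exp (-(9 * lam / 4))) ≤ η := by
  have h1 : Tendsto (fun lam : ℝ => Real.exp (-(lam * (d ^ 2 / 2)))) atTop (𝓝 0) :=
    Real.tendsto_exp_neg_atTop_nhds_zero.comp (tendsto_id.atTop_mul_const (by positivity))
  have h2 := Real.tendsto_pow_mul_exp_neg_atTop_nhds_zero 1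
  obtain ⟨lam, a1, a2, a3⟩ := ((eventually_ge_atTop (1 : ℝ)).and
    ((h1.eventually_le_const (show 0 < η / 2 by positivity)).and
      (h2.eventually_le_const (show 0 < η / (40 * K) by positivity)))).exists
  refine ⟨lam, a1, ?_, ?_⟩
  · have e : -lam * d ^ 2 / 2 = -(lam * (d ^ 2 / 2)) := by ring
    rw [e]; linarith only [a2]
  · rw [pow_one, le_div_iff₀ (by positivity)] at a3
    have : lam * Real.exp (-(9 * lam / 4)) ≤ lam * Real.exp (-lam) := by
      gcongr; linarith only [a1]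
    linarith only [a3, hK, this, mul_nonneg_of_nonpos_of_nonpos (le_of_lt (Mathlib.Tactic.Linarith.sub_neg_of_lt hK)) (Mathlib.Tactic.Linarith.sub_nonpos_of_le this)]

theorem rank_bound {ε w d T0 T K : ℝ} (hε : 0 < ε) (hw : 0 < w) (hw1 : w ≤ 1) (hd : 0 < d)
    (hd1 : d ≤ 1) (hT : T0 + 6 ≤ T) (hK : 1 ≤ K) :
    ∃ σ1 : ℝ, 0 < σ1 ∧ ∀ σ, 0 < σ → σ ≤ σ1 → ∃ R L0 : ℝ, 0 ≤ R ∧ ∀ L, L0 ≤ L →
      ∀ (q : ℕ) [NeZero q], 2 ≤ q → Real.log q ≤ L → ∀ χ : DirichletCharacter ℂ q,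
        χ.IsPrimitive → ∀ (n : ℕ) (Z : Fin n → ℂ) (g : ℂ → ℂ),
          EFD (Real.log q) K T (lc χ) (lc χ⁻¹) Z → Differentiable ℂ g →
          (∀ z, Xi χ z = (∏ i, (z - Z i)) * g z) → mom χ R ≤ L ^ 2 → mom χ⁻¹ R ≤ L ^ 2 →
          ∀ x0, |x0| ≤ T0 → ((kept Z σ x0 w d).card : ℝ) ≤ ((w + 4 * d) / (2 * π) + ε) * L := by
  have p3 := Real.pi_gt_three
  obtain ⟨η, η0, η1, η2⟩ : ∃ η : ℝ, 0 < η ∧ η ≤ 1 / 2 ∧ 5 * η ≤ ε :=
    ⟨min (1 / 2) (ε / 5), by positivity, min_le_left _ _, by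
      have := min_le_right (1 / 2) (ε / 5)
      linarith only [this]⟩
  have K0 : 0 < K := by linarith
  obtain ⟨lam, l1, l2, l3⟩ := Rank_lam η0 hd K0
  have l0 : 0 < lam := by linarith only [η0, η1, l1]
  refine ⟨η / (240 * K * lam ^ 2), by positivity, fun σ s0 s1 => ?_⟩
  rw [le_div_iff₀ (by positivity)] at s1
  have q1 : lam ≤ K * lam ^ 2 := by (refine le_of_not_gt fun h_nl => ?_; linarith only [h_nl, l1, hK, η0, η1, mul_nonneg_of_nonpos_of_nonpos (Mathlib.Tactic.Linarith.sub_nonpos_of_le (sq_nonneg lam)) (Mathlib.Tactic.Linarith.sub_nonpos_of_le hK), mul_pos_of_neg_of_neg (Mathlib.Tactic.Linarith.sub_neg_of_lt η0) (Mathlib.Tactic.Linarith.sub_neg_of_lt h_nl), mul_nonneg_of_nonpos_of_nonpos (Mathlib.Tactic.Linarith.sub_nonpos_of_le η1) (le_of_lt (Mathlib.Tactic.Linarith.sub_neg_of_lt h_nl)), mul_nonneg_of_nonpos_of_nonpos (Mathlib.Tactic.Linarith.sub_nonpos_of_le l1) (Mathlib.Tactic.Linarith.sub_nonpos_of_le l1)])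
  have s2 : σ * lam ≤ 1 := by (refine le_of_not_gt fun h_nl => ?_; linarith only [h_nl, η1, s1, η0, s0, q1, mul_pos_of_neg_of_neg (Mathlib.Tactic.Linarith.sub_neg_of_lt η0) (Mathlib.Tactic.Linarith.sub_neg_of_lt η0), mul_nonneg_of_nonpos_of_nonpos (le_of_lt (Mathlib.Tactic.Linarith.sub_neg_of_lt η0)) (Mathlib.Tactic.Linarith.sub_nonpos_of_le η1), mul_pos_of_neg_of_neg (Mathlib.Tactic.Linarith.sub_neg_of_lt η0) (Mathlib.Tactic.Linarith.sub_neg_of_lt h_nl), mul_nonneg_of_nonpos_of_nonpos (Mathlib.Tactic.Linarith.sub_nonpos_of_le η1) (le_of_lt (Mathlib.Tactic.Linarith.sub_neg_of_lt h_nl)), mul_nonneg_of_nonpos_of_nonpos (le_of_lt (Mathlib.Tactic.Linarith.sub_neg_of_lt s0)) (Mathlib.Tactic.Linarith.sub_nonpos_of_le q1)])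
  have s3 : σ ≤ 1 := by (refine le_of_not_gt fun h_nl => ?_; linarith only [h_nl, s2, η0, η1, l1, s0, mul_pos_of_neg_of_neg (Mathlib.Tactic.Linarith.sub_neg_of_lt η0) (Mathlib.Tactic.Linarith.sub_neg_of_lt h_nl), mul_nonneg_of_nonpos_of_nonpos (Mathlib.Tactic.Linarith.sub_nonpos_of_le η1) (le_of_lt (Mathlib.Tactic.Linarith.sub_neg_of_lt h_nl)), mul_nonneg_of_nonpos_of_nonpos (Mathlib.Tactic.Linarith.sub_nonpos_of_le l1) (le_of_lt (Mathlib.Tactic.Linarith.sub_neg_of_lt s0))])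
  have s4 : lam * σ ^ 2 ≤ 1 := by (refine le_of_not_gt fun h_nl => ?_; linarith only [h_nl, η1, s3, q1, η0, s0, s1, mul_nonneg_of_nonpos_of_nonpos (Mathlib.Tactic.Linarith.sub_nonpos_of_le (sq_nonneg σ)) (Mathlib.Tactic.Linarith.sub_nonpos_of_le q1), mul_pos_of_neg_of_neg (Mathlib.Tactic.Linarith.sub_neg_of_lt η0) (Mathlib.Tactic.Linarith.sub_neg_of_lt η0), mul_nonneg_of_nonpos_of_nonpos (le_of_lt (Mathlib.Tactic.Linarith.sub_neg_of_lt η0)) (Mathlib.Tactic.Linarith.sub_nonpos_of_le η1), mul_pos_of_neg_of_neg (Mathlib.Tactic.Linarith.sub_neg_of_lt η0) (Mathlib.Tactic.Linarith.sub_neg_of_lt h_nl), mul_nonneg_of_nonpos_of_nonpos (Mathlib.Tactic.Linarith.sub_nonpos_of_le η1) (le_of_lt (Mathlib.Tactic.Linarith.sub_neg_of_lt s0)), mul_nonneg_of_nonpos_of_nonpos (Mathlib.Tactic.Linarith.sub_nonpos_of_le η1) (le_of_lt (Mathlib.Tactic.Linarith.sub_neg_of_lt h_nl)), mul_nonneg_of_nonpos_of_nonpos (le_of_lt (Mathlib.Tactic.Linarith.sub_neg_of_lt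 s0)) (Mathlib.Tactic.Linarith.sub_nonpos_of_le s1)])
  have s5 : 240 * K * lam ^ 2 * σ ^ 2 ≤ η := by
    have : 0 < 240 * K * lam ^ 2 * σ := by positivity
    (refine le_of_not_gt fun h_nl => ?_; linarith only [h_nl, η0, s3, η1, s0, s1, mul_nonneg_of_nonpos_of_nonpos (le_of_lt (Mathlib.Tactic.Linarith.sub_neg_of_lt η0)) (Mathlib.Tactic.Linarith.sub_nonpos_of_le s3), mul_pos_of_neg_of_neg (Mathlib.Tactic.Linarith.sub_neg_of_lt η0) (Mathlib.Tactic.Linarith.sub_neg_of_lt h_nl), mul_nonneg_of_nonpos_of_nonpos (Mathlib.Tactic.Linarith.sub_nonpos_of_le η1) (le_of_lt (Mathlib.Tactic.Linarith.sub_neg_of_lt h_nl)), mul_nonneg_of_nonpos_of_nonpos (le_of_lt (Mathlib.Tactic.Linarith.sub_neg_of_lt s0)) (Mathlib.Tactic.Linarith.sub_nonpos_of_le s1)])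
  have x1 : 1 ≤ Real.exp (lam / 4) := Real.one_le_exp (by positivity)
  obtain ⟨θ, θ0, θ1⟩ : ∃ θ : ℝ, 0 < θ ∧ 20 * lam * Real.exp (lam / 4) * θ = η :=
    ⟨η / (20 * lam * Real.exp (lam / 4)), by positivity, by field_simp⟩
  have θ2 : θ ≤ η := by
    have : 1 ≤ lam * Real.exp (lam / 4) := by (refine le_of_not_gt fun h_nl => ?_; linarith only [h_nl, l1, x1, η0, η1, mul_pos_of_neg_of_neg (Mathlib.Tactic.Linarith.sub_neg_of_lt η0) (Mathlib.Tactic.Linarith.sub_neg_of_lt h_nl), mul_nonneg_of_nonpos_of_nonpos (Mathlib.Tactic.Linarith.sub_nonpos_of_le η1) (le_of_lt (Mathlib.Tactic.Linarith.sub_neg_of_lt h_nl)), mul_nonneg_of_nonpos_of_nonpos (Mathlib.Tactic.Linarith.sub_nonpos_of_le l1) (Mathlib.Tactic.Linarith.sub_nonpos_of_le x1)])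
    linarith only [s1, θ1, l1, q1, η1, s0, θ0, this, mul_nonneg_of_nonpos_of_nonpos (Mathlib.Tactic.Linarith.sub_nonpos_of_le (sq_nonneg σ)) (Mathlib.Tactic.Linarith.sub_nonpos_of_le l1), mul_nonneg_of_nonpos_of_nonpos (Mathlib.Tactic.Linarith.sub_nonpos_of_le (sq_nonneg σ)) (Mathlib.Tactic.Linarith.sub_nonpos_of_le q1), mul_nonneg_of_nonpos_of_nonpos (Mathlib.Tactic.Linarith.sub_nonpos_of_le η1) (le_of_lt (Mathlib.Tactic.Linarith.sub_neg_of_lt s0)), mul_nonneg_of_nonpos_of_nonpos (Mathlib.Tactic.Linarith.sub_nonpos_of_le l1) (le_of_lt (Mathlib.Tactic.Linarith.sub_neg_of_lt s0)), mul_pos_of_neg_of_neg (Mathlib.Tactic.Linarith.sub_neg_of_lt s0) (Mathlib.Tactic.Linarith.sub_neg_of_lt s0), mul_nonneg_of_nonpos_of_nonpos (le_of_lt (Mathlib.Tactic.Linarith.sub_neg_of_lt s0)) (Mathlib.Tactic.Linarith.sub_nonpos_of_le s1), mul_nonneg_of_nonpos_of_nonpos (le_of_lt (Mathlib.Tactic.Linarith.sub_neg_of_lt s0)) (Mathlib.Tactic.Linarith.sub_nonpos_of_le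 q1), mul_nonneg_of_nonpos_of_nonpos (le_of_lt (Mathlib.Tactic.Linarith.sub_neg_of_lt θ0)) (Mathlib.Tactic.Linarith.sub_nonpos_of_le this)]
  have R2 : 2 ≤ K ^ 2 / σ + 2 := le_add_of_nonneg_left (by positivity)
  have RK : K ^ 2 ≤ (K ^ 2 / σ + 2) * σ := by
    rw [add_mul, div_mul_cancel₀ _ s0.ne']; linarith only [s0]
  obtain ⟨L0, hL0⟩ := eventually_atTop.1 ((Rank_log (B := 2 * ((K ^ 2 / σ + 2) / σ))
    (by positivity) θ0).and ((eventually_ge_atTop (1 : ℝ)).and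
      (eventually_ge_atTop (20 * lam * (K + 4 * Real.exp (9 * lam)) / η))))
  refine ⟨K ^ 2 / σ + 2, L0, by positivity, fun L hL q _ hq hqL χ hχ n Z g E hg hF m1 m2 x0 hx0 => ?_⟩
  obtain ⟨b1, b2, b3⟩ := hL0 L hL
  rw [div_le_iff₀ η0] at b3
  have hm := (off_count hq hχ hg hF s0 s3 R2 RK E.nrm m1 m2).trans b1
  obtain ⟨N, hN⟩ : ∃ N : ℕ, 48 * lam ≤ Real.log N :=
    ((Real.tendsto_log_atTop.comp tendsto_natCast_atTop_atTop).eventually_ge_atTop _).exists
  have hn := near_card (x0 := x0) (l := Real.log q)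
    (e := K + K * (1 + Real.log q) * Real.exp (-(9 * lam / 4)) + 4 * Real.exp (9 * lam))
    l0 s4 hw.le hd.le E.re fun x h1 h2 => by
      have hx := abs_le.1 hx0
      have e1 := E.ef lam x 0 3 N l1 (by norm_num)
        (by have : |x| ≤ T0 + 3 := abs_le.2 ⟨by linarith only [hd1, η0, η1, h1, hx], by linarith only [hw1, hd1, h2, hx]⟩
            linarith only [hT, this]) (by rw [abs_zero]; linarith only [η0, η1, l1, hN]) hN
      have e2 := mu_zero_le l1 (Real.log q) x E.ha E.hb N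
      have e3 : 9 * lam / 4 + 3 * |(0 : ℝ)| / 2 - lam * 3 ^ 2 / 2 = -(9 * lam / 4) := by
        rw [abs_zero]; ring
      have e4 : K / √lam ≤ K := div_le_self K0.le (Real.one_le_sqrt.2 l1)
      rw [e3] at e1
      refine (norm_sub_le_norm_sub_add_norm_sub _ (mu (Real.log q) (lc χ) (lc χ⁻¹) N (kx lam x) 0)
        _).trans ?_
      linarith only [e1, e2, e4]
  have hk : (kept Z σ x0 w d).card ≤ (univ.filter fun i => σ < |(Z i).re|).card +
      (univ.filter fun i => |(Z i).re| ≤ σ ∧ x0 - d ≤ (Z i).im ∧ (Z i).im ≤ x0 + w + d).card := by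
    refine le_trans (card_le_card fun i hi => ?_) (card_union_le _ _)
    simp only [kept, mem_filter, mem_univ, true_and, mem_union] at hi ⊢
    by_cases h : σ < |(Z i).re|
    · exact Or.inl h
    · exact Or.inr ⟨not_lt.1 h, hi.resolve_left h⟩
  have hk' := (Nat.cast_le (α := ℝ)).2 hk
  rw [Nat.cast_add] at hk'
  have hc := E.card
  have ll := E.l0
  generalize ((univ.filter fun i => σ < |(Z i).re|).card : ℝ) = m at hm hn hk'
  have n10 : (0 : ℝ) ≤ (univ.filter fun i => |(Z i).re| ≤ σ ∧ x0 - d ≤ (Z i).im ∧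
    (Z i).im ≤ x0 + w + d).card := Nat.cast_nonneg _
  generalize ((univ.filter fun i => |(Z i).re| ≤ σ ∧ x0 - d ≤ (Z i).im ∧
    (Z i).im ≤ x0 + w + d).card : ℝ) = n1 at hn hk' n10
  generalize Real.log q = l at *
  have sq' : √(lam / π) ≤ lam := by
    refine Real.sqrt_le_iff.2 ⟨l0.le, ?_⟩
    refine (div_le_self l0.le (by linarith only [p3, η0, η1])).trans ?_
    rw [sq]; exact le_mul_of_one_le_left l0.le l1
  have L0' : 0 < L := by linarith only [η0, η1, b2]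
  have t1 : K * (1 + l) * Real.exp (-(9 * lam / 4)) ≤ K * (2 * L) * Real.exp (-(9 * lam / 4)) := by
    gcongr; linarith only [b2, hqL]
  have t2 : 6 * lam * σ ^ 2 * n ≤ 6 * lam * σ ^ 2 * (K * (2 * L)) := by
    gcongr
    refine hc.trans ?_
    gcongr; linarith only [b2, hqL]
  have t3 : m * Real.exp (lam / 4) ≤ θ * L * Real.exp (lam / 4) := by gcongr
  set Q := K + K * (2 * L) * Real.exp (-(9 * lam / 4)) + 4 * Real.exp (9 * lam) +
    6 * lam * σ ^ 2 * (K * (2 * L)) + θ * L * Real.exp (lam / 4) with hQ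
  have Q0 : 0 ≤ Q := by positivity
  have Q1 : 5 * (lam * Q) ≤ η * L := by
    have u1 := mul_le_mul_of_nonneg_right l3 L0'.le
    have u2 := mul_le_mul_of_nonneg_right s5 L0'.le
    have u3 : 20 * lam * Real.exp (lam / 4) * θ * L = η * L := by rw [θ1]
    rw [hQ]
    linarith only [b3, u1, u2, u3]
  have c0 : 0 ≤ (w + 4 * d) / (2 * π) := by positivity
  have c1 : (w + 4 * d) / (2 * π) ≤ 1 := by
    rw [div_le_one (by positivity)]; linarith only [hw1, hd1, p3, η0, η1]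
  have h5 : (1 - η) * n1 ≤ ((w + 4 * d) / (2 * π) + η) * L := by
    calc (1 - η) * n1 ≤ (1 - 2 * Real.exp (-lam * d ^ 2 / 2)) * n1 := by gcongr
      _ ≤ _ := hn
      _ ≤ (w + 4 * d) * (L / (2 * π) + √(lam / π) * Q) := by
          gcongr
          rw [hQ]; linarith only [t1, t2, t3]
      _ = (w + 4 * d) / (2 * π) * L + (w + 4 * d) * (√(lam / π) * Q) := by ring
      _ ≤ (w + 4 * d) / (2 * π) * L + 5 * (lam * Q) := by
          gcongr; linarith only [hw1, hd1]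
      _ ≤ _ := by linarith only [Q1]
  generalize (w + 4 * d) / (2 * π) = c at *
  have h6 : n1 ≤ (c + 4 * η) * L := by
    refine le_of_mul_le_mul_left (h5.trans ?_) (show 0 < 1 - η by linarith only [η0, η1])
    rw [← mul_assoc]
    have := mul_le_mul_of_nonneg_right c1 η0.le
    have := mul_le_mul_of_nonneg_right η1 η0.le
    gcongr
    linarith
  linarith only [hm, hk', h6, θ2, L0', η2, mul_le_mul_of_nonneg_right θ2 L0'.le, mul_le_mul_of_nonneg_right η2 L0'.le]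

end HooRT
end
end
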