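import Pool.Agent.Work.MP_5d318d_nt.RT.Cnt
import Pool.Agent.Work.MP_707689_an.Plancherel
import Pool.Agent.Work.MP_5d318d_nt.RT.Rank

-- merged part: Pool.Agent.Work.MP_5d318d_nt.RT.Tra
section
/-! TASK RT Tra. The rank and trace inequality.
`trace_abs`: let `V` be the span of the `y i`, `e = stdOrthonormalBasis ℂ V` (at most `card` vectors,
`finrank_span_finset_le_card`/`finrank_range_le_card`). With `c k = ∑ i, ⟪y i, e k⟫ • u i` one has
`∑ i, ⟪u i, y i⟫ = ∑ k, ⟪c k, e k⟫` and `∑ k, ‖c k‖^2 = ∑ i j, ⟪u i, u j⟫ * ⟪y j, y i⟫`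
(`OrthonormalBasis.sum_inner_mul_inner` in `V`); Cauchy-Schwarz (`sq_sum_le_card_mul_sum_sq`).
`rank_trace`: apply it in `Lp ℂ 2 volume` to `u i = conj (c i * exp (Z i t)) * √(ψ t)`, `y i = exp (-Z i t) * √(ψ t)`
(bounded, measurable, zero outside `[-V, V]`: `Tra_memLp`; `MemLp.toLp`, `L2.inner_def`, `MemLp.coeFn_toLp`), expand
`‖∑‖^2 = ∑ i j, conj (..) * (..)` and pull the finite sums and the factors depending on `t` out of the integrals
(`integral_finset_sum`, `integral_const_mul`, `integral_mul_const`, `integral_re`/`integral_ofReal`).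
About 190 lines. -/

noncomputable section

open Complex MeasureTheory Finset Filter Topology Metric
open ArithmeticFunction hiding log
open scoped Real

namespace HooRT

open scoped InnerProductSpace

theorem trace_abs {H : Type*} [NormedAddCommGroup H] [InnerProductSpace ℂ H] {ι : Type}
    (s : Finset ι) (u y : ι → H) :
    ‖∑ i ∈ s, ⟪u i, y i⟫_ℂ‖ ^ 2 ≤
      s.card * (∑ i ∈ s, ∑ j ∈ s, ⟪u i, u j⟫_ℂ * ⟪y j, y i⟫_ℂ).re := by
  let W := Submodule.span ℂ (Set.range fun i : s => y i)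
  have : FiniteDimensional ℂ W := FiniteDimensional.span_of_finite ℂ (Set.finite_range _)
  have hr : Module.finrank ℂ W ≤ s.card :=
    (finrank_range_le_card _).trans_eq (Fintype.card_coe s)
  let e := stdOrthonormalBasis ℂ W
  have h1 : ∀ x : H, ∀ i ∈ s, ∑ k, ⟪(e k : H), y i⟫_ℂ * ⟪x, (e k : H)⟫_ℂ = ⟪x, y i⟫_ℂ := by
    intro x i hi
    have := congrArg (fun w : W => ⟪x, (w : H)⟫_ℂ)
      (e.sum_repr' ⟨y i, Submodule.subset_span ⟨⟨i, hi⟩, rfl⟩⟩)
    simpa only [Submodule.coe_sum, Submodule.coe_smul, inner_sum, inner_smul_right,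
      Submodule.coe_inner] using this
  let c := fun k => ∑ i ∈ s, ⟪y i, (e k : H)⟫_ℂ • u i
  have h2 : ∑ i ∈ s, ⟪u i, y i⟫_ℂ = ∑ k, ⟪c k, (e k : H)⟫_ℂ := by
    simp only [c, sum_inner, inner_smul_left, inner_conj_symm]
    rw [sum_comm]
    exact sum_congr rfl fun i hi => (h1 _ i hi).symm
  have h3 : ∑ i ∈ s, ∑ j ∈ s, ⟪u i, u j⟫_ℂ * ⟪y j, y i⟫_ℂ = ∑ k, ⟪c k, c k⟫_ℂ := by
    simp only [c, sum_inner]
    simp only [inner_sum, inner_smul_left, inner_smul_right, inner_conj_symm]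
    rw [sum_comm (s := univ)]
    refine sum_congr rfl fun i hi => ?_
    rw [sum_comm]
    refine sum_congr rfl fun j _ => ?_
    rw [← h1 (y j) i hi, mul_sum]
    exact sum_congr rfl fun k _ => by ring
  have h4 : ‖∑ k, ⟪c k, (e k : H)⟫_ℂ‖ ≤ ∑ k, ‖c k‖ :=
    norm_sum_le_of_le _ fun k _ => (norm_inner_le_norm _ _).trans_eq
      (by rw [← Submodule.coe_norm, e.norm_eq_one, mul_one])
  rw [h2, h3, re_sum]
  refine (pow_le_pow_left₀ (norm_nonneg _) h4 2).trans (sq_sum_le_card_mul_sum_sq.trans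
    (mul_le_mul (by simpa using hr) (le_of_eq (sum_congr rfl fun k _ => ?_))
      (by positivity) (by positivity)))
  exact (inner_self_eq_norm_sq (𝕜 := ℂ) _).symm

theorem Tra_int {ψ : ℝ → ℝ} {A V : ℝ} (hψ : Wt ψ A V) {F : ℝ → ℂ} (hF : Continuous F) :
    Integrable fun t => (ψ t : ℂ) * F t := by
  have h : IntegrableOn (fun t => (ψ t : ℂ)) (Set.Icc (-V) V) :=
    Measure.integrableOn_of_bounded (M := A) (by simp)
      (measurable_ofReal.comp hψ.meas).aestronglyMeasurable (.of_forall fun t => by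
        rw [norm_real, Real.norm_of_nonneg (hψ.nn t)]
        exact hψ.le t)
  refine (h.mul_continuousOn hF.continuousOn isCompact_Icc).integrable_of_forall_notMem_eq_zero
    fun t ht => ?_
  rw [hψ.supp t (not_le.1 fun k => ht (abs_le.1 k)), ofReal_zero, zero_mul]

theorem Tra_memLp {ψ : ℝ → ℝ} {A V : ℝ} (hψ : Wt ψ A V) {F : ℝ → ℂ} (hF : Continuous F) :
    MemLp (fun t => F t * (√(ψ t) : ℝ)) 2 := by
  refine (memLp_two_iff_integrable_sq_norm (hF.measurable.mul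
    (measurable_ofReal.comp hψ.meas.sqrt)).aestronglyMeasurable).2
    ((Tra_int hψ (hF.pow 2)).norm.congr (.of_forall fun t => ?_))
  simp [mul_pow, Real.sq_sqrt (hψ.nn t), abs_of_nonneg (hψ.nn t), mul_comm]

theorem Tra_inner {ψ : ℝ → ℝ} {A V : ℝ} (hψ : Wt ψ A V) {F G : ℝ → ℂ} (hF : Continuous F)
    (hG : Continuous G) : ⟪(Tra_memLp hψ hF).toLp _, (Tra_memLp hψ hG).toLp _⟫_ℂ =
      ∫ t, (ψ t : ℂ) * ((starRingEnd ℂ) (F t) * G t) := by
  refine integral_congr_ae ?_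
  filter_upwards [(Tra_memLp hψ hF).coeFn_toLp, (Tra_memLp hψ hG).coeFn_toLp] with t h1 h2
  have : (ψ t : ℂ) = (√(ψ t) : ℝ) * (√(ψ t) : ℝ) := by
    rw [← ofReal_mul, Real.mul_self_sqrt (hψ.nn t)]
  rw [h1, h2, RCLike.inner_apply, map_mul, conj_ofReal, this]
  ring

theorem rank_trace {ι : Type} (s : Finset ι) (c Z : ι → ℂ) {ψ : ℝ → ℝ} {A V : ℝ}
    (hψ : Wt ψ A V) :
    ‖∑ i ∈ s, c i‖ ^ 2 * (∫ t, ψ t) ^ 2 ≤
      s.card * dbl ψ ψ fun v => ‖∑ i ∈ s, c i * cexp (Z i * v)‖ ^ 2 := by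
  have cf : ∀ i, Continuous fun t : ℝ => (starRingEnd ℂ) (c i * cexp (Z i * t)) := fun i => by
    fun_prop
  have cg : ∀ i, Continuous fun t : ℝ => cexp (-(Z i * t)) := fun i => by fun_prop
  have h := trace_abs s (fun i => (Tra_memLp hψ (cf i)).toLp _)
    fun i => (Tra_memLp hψ (cg i)).toLp _
  simp only [Tra_inner hψ (cf _) (cg _), Tra_inner hψ (cf _) (cf _), Tra_inner hψ (cg _) (cg _),
    conj_conj, mul_assoc, ← exp_add, add_neg_cancel, exp_zero, mul_one, integral_mul_const,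
    ← mul_sum, integral_complex_ofReal] at h
  rw [norm_mul, mul_pow, norm_real, Real.norm_eq_abs, sq_abs, mul_comm] at h
  refine h.trans_eq (congrArg _ (Eq.trans (congrArg re (Eq.symm ?_)) (ofReal_re _)))
  have e1 : ∀ t : ℝ, ((ψ t * ∫ y, ψ y * ‖∑ i ∈ s, c i * cexp (Z i * (t - y : ℝ))‖ ^ 2 : ℝ) : ℂ) =
      ∑ i ∈ s, ∑ j ∈ s, ψ t * (c i * (cexp (Z i * t) * (starRingEnd ℂ) (c j * cexp (Z j * t)))) *
        ∫ y : ℝ, ψ y * ((starRingEnd ℂ) (cexp (-(Z j * y))) * cexp (-(Z i * y))) := fun t => by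
    have k : ∀ i j, Integrable fun y : ℝ =>
        ψ t * (c i * (cexp (Z i * t) * (starRingEnd ℂ) (c j * cexp (Z j * t)))) *
          (ψ y * ((starRingEnd ℂ) (cexp (-(Z j * y))) * cexp (-(Z i * y)))) := fun i j =>
      (Tra_int hψ (by fun_prop)).const_mul _
    simp only [← integral_const_mul]
    rw [← integral_complex_ofReal, sum_congr rfl fun i _ =>
      (integral_finsetSum _ fun j _ => k i j).symm,
      ← integral_finsetSum _ fun i _ => integrable_finsetSum _ fun j _ => k i j]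
    refine integral_congr_ae (.of_forall fun y => ?_)
    simp only [ofReal_mul, ofReal_pow, ← mul_conj', map_sum, sum_mul_sum]
    simp only [mul_sum, sub_eq_add_neg, exp_add, map_mul, mul_add, mul_neg, ofReal_add, ofReal_neg]
    exact sum_congr rfl fun i _ => sum_congr rfl fun j _ => by ring
  have k : ∀ i j (K : ℂ), Integrable fun t : ℝ =>
      ψ t * (c i * (cexp (Z i * t) * (starRingEnd ℂ) (c j * cexp (Z j * t)))) * K := fun i j K =>
    (Tra_int hψ (by fun_prop)).mul_const _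
  rw [dbl, ← integral_complex_ofReal, funext e1,
    integral_finsetSum _ fun i _ => integrable_finsetSum _ fun j _ => k i j _]
  refine sum_congr rfl fun i _ => ?_
  rw [integral_finsetSum _ fun j _ => k i j _]
  exact sum_congr rfl fun j _ => integral_mul_const _ _

end HooRT
end
end

-- merged part: Pool.Agent.Work.MP_5d318d_nt.RT.Filt
section
/-! TASK RT Filt. The band filters do not increase the energy.
`Kb lam x0 w ξ = ∫ x in x0..x0 + w, √(lam / π) exp (-lam (ξ - x)^2)` is continuous, non negative, integrable, and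
`∑ j < J, Kb (x0 + j w) = Kb` for the interval of length `J w` (`intervalIntegral.sum_integral_adjacent_intervals`) is at
most `1` (`integral_gaussian`), so `∑ Kb^2 ≤ 1`. `kap_eq`: Fubini and `line_Gz` with `c = 0`, `y = 0`
(`Gz lam x r (t I) = exp (-lam (t - x)^2 + t I r)`). So with `m ν = Kb (2 π ν)`, `kap r = ∫ ν, m ν exp (2 π I ν r)`
and by Fubini `∫ y, kap (y - t) * f y = 𝓕 (m * 𝓕⁻ f) t`. `eLpNorm_fourier` (twice; `𝓕⁻ f ν = 𝓕 f (-ν)`, or apply it
to `fun y => f (-y)`; `m * 𝓕⁻ f` is integrable and square integrable since `𝓕⁻ f` is bounded and continuous).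
First derive the real form `Filt_planch : Integrable ‖𝓕 f‖^2 ∧ ∫ ‖𝓕 f‖^2 = ∫ ‖f‖^2`
(`memLp_two_iff_integrable_sq_norm`, `MemLp.eLpNorm_eq_integral_rpow_norm` or `lint_sq`). About 200 lines. -/

noncomputable section

open Complex MeasureTheory Finset Filter Topology Metric
open ArithmeticFunction hiding log
open scoped Real

namespace HooRT

/-- The multiplier of the band filter. -/
def Kb (lam x0 w ξ : ℝ) : ℝ := ∫ x in x0..x0 + w, √(lam / π) * Real.exp (-lam * (ξ - x) ^ 2)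

theorem Filt_one {lam : ℝ} (hl : 0 < lam) :
    ∫ x : ℝ, √(lam / π) * Real.exp (-lam * x ^ 2) = 1 := by
  have := Real.pi_pos
  rw [integral_const_mul, integral_gaussian, ← Real.sqrt_mul (by positivity),
    show lam / π * (π / lam) = 1 by field_simp, Real.sqrt_one]

theorem Filt_int {lam : ℝ} (hl : 0 < lam) :
    Integrable fun x : ℝ => √(lam / π) * Real.exp (-lam * x ^ 2) :=
  (integrable_exp_neg_mul_sq hl).const_mul _

theorem Filt_prod {lam : ℝ} (hl : 0 < lam) (a b : ℝ) :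
    Integrable (fun q : ℝ × ℝ => √(lam / π) * Real.exp (-lam * (q.2 - q.1) ^ 2))
      ((volume.restrict (Set.uIoc a b)).prod volume) := by
  refine (integrable_prod_iff (Continuous.aestronglyMeasurable (by fun_prop))).2
    ⟨Eventually.of_forall fun x => (Filt_int hl).comp_sub_right x, ?_⟩
  have : ∀ x : ℝ, ∫ ξ : ℝ, ‖√(lam / π) * Real.exp (-lam * (ξ - x) ^ 2)‖ = 1 := fun x => by
    rw [← Filt_one hl,
      ← integral_sub_right_eq_self (fun x : ℝ => √(lam / π) * Real.exp (-lam * x ^ 2)) x]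
    exact integral_congr_ae (Eventually.of_forall fun ξ =>
      Real.norm_of_nonneg (mul_nonneg (Real.sqrt_nonneg _) (Real.exp_pos _).le))
  simp only [this]
  exact intervalIntegrable_iff.1 intervalIntegrable_const

theorem Filt_Kb_int {lam w : ℝ} (hl : 0 < lam) (hw : 0 ≤ w) (x0 : ℝ) :
    Integrable (Kb lam x0 w) := by
  have := (Filt_prod hl x0 (x0 + w)).integral_prod_right
  rw [Set.uIoc_of_le (by linarith)] at this
  exact this.congr (Eventually.of_forall fun ξ =>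
    (intervalIntegral.integral_of_le (by linarith)).symm)

theorem Filt_Kb_nn (lam x0 : ℝ) {w : ℝ} (hw : 0 ≤ w) (ξ : ℝ) : 0 ≤ Kb lam x0 w ξ :=
  intervalIntegral.integral_nonneg (by linarith) fun _ _ => by positivity

theorem Filt_Kb_le {lam w : ℝ} (hl : 0 < lam) (hw : 0 ≤ w) (x0 ξ : ℝ) : Kb lam x0 w ξ ≤ 1 := by
  rw [Kb, intervalIntegral.integral_of_le (by linarith), ← Filt_one hl,
    ← integral_sub_left_eq_self _ volume ξ]
  exact setIntegral_le_integral ((Filt_int hl).comp_sub_left ξ)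
    (Eventually.of_forall fun x => by positivity)

theorem Filt_Kb_sum (lam x0 w ξ : ℝ) (J : ℕ) :
    ∑ j ∈ range J, Kb lam (x0 + j * w) w ξ = Kb lam x0 (J * w) ξ := by
  induction J with
  | zero => simp [Kb]
  | succ J ih =>
    rw [sum_range_succ, ih, Kb, Kb, Kb, intervalIntegral.integral_add_adjacent_intervals
      (Continuous.intervalIntegrable (by fun_prop) _ _)
      (Continuous.intervalIntegrable (by fun_prop) _ _)]
    congr 1
    push_cast
    ring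



theorem kap_eq {lam : ℝ} (hl : 0 < lam) (x0 : ℝ) {w : ℝ} (hw : 0 ≤ w) (r : ℝ) :
    2 * π * kap lam x0 w r = ∫ ξ : ℝ, (Kb lam x0 w ξ : ℂ) * cexp (I * ξ * r) := by
  have h1 : ∀ x : ℝ, 2 * π * (((√(lam / π) : ℝ) : ℂ) * kx lam x r) = ∫ ξ : ℝ,
      ((√(lam / π) * Real.exp (-lam * (ξ - x) ^ 2) : ℝ) : ℂ) * cexp (I * ξ * r) := by
    intro x
    have := line_Gz hl x r 0 0
    rw [sub_zero] at this
    rw [mul_left_comm, ← this, ← integral_const_mul]
    refine integral_congr_ae (Eventually.of_forall fun ξ => ?_)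
    simp only [Gz]
    push_cast
    rw [mul_zero, Complex.exp_zero, mul_one, mul_assoc, ← Complex.exp_add]
    congr 2
    linear_combination lam * (ξ - x) ^ 2 * I_sq
  rw [kap, ← intervalIntegral.integral_const_mul]
  simp only [h1]
  rw [intervalIntegral_integral_swap]
  · refine integral_congr_ae (Eventually.of_forall fun ξ => ?_)
    simp only [Kb]
    rw [intervalIntegral.integral_mul_const, intervalIntegral.integral_ofReal]
  · refine (Filt_prod hl x0 (x0 + w)).ofReal.mul_bdd (c := 1)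
      (Continuous.aestronglyMeasurable (by fun_prop)) (Eventually.of_forall fun q => ?_)
    simp [Complex.norm_exp]

open FourierTransform

theorem Filt_sq {f : ℝ → ℂ} (h : AEStronglyMeasurable f) :
    ∫ y, ‖f y‖ ^ 2 = (eLpNorm f 2 volume ^ 2).toReal := by
  rw [← Pool.Agent.Work.MP_707689_an.lint_sq, integral_eq_lintegral_of_nonneg_ae
    (f := fun y => ‖f y‖ ^ 2) (Eventually.of_forall fun y => by positivity) (h.norm.pow 2)]
  simp only [ENNReal.ofReal_pow (norm_nonneg _), ofReal_norm]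

theorem Filt_cont {f : ℝ → ℂ} (h1 : Integrable f) : Continuous (𝓕 f) :=
  VectorFourier.fourierIntegral_continuous Real.continuous_fourierChar continuous_inner h1

theorem Filt_planch {f : ℝ → ℂ} (h1 : Integrable f) (h2 : MemLp f 2) :
    MemLp (𝓕 f) 2 ∧ ∫ t, ‖𝓕 f t‖ ^ 2 = ∫ y, ‖f y‖ ^ 2 := by
  have h := Pool.Agent.Work.MP_707689_an.eLpNorm_fourier h1 h2
  have m := (Filt_cont h1).aestronglyMeasurable (μ := volume)
  exact ⟨⟨m, h ▸ h2.2⟩, by rw [Filt_sq m, Filt_sq h1.1, h]⟩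

theorem Filt_conv {lam w : ℝ} (hl : 0 < lam) (hw : 0 ≤ w) (x0 : ℝ) {f : ℝ → ℂ}
    (h1 : Integrable f) (t : ℝ) : ∫ y, kap lam x0 w (y - t) * f y =
      𝓕 (fun ν : ℝ => (Kb lam x0 w (2 * π * ν) : ℂ) * 𝓕⁻ f ν) t := by
  have hp := Real.pi_pos
  have k1 : ∀ r : ℝ, kap lam x0 w r =
      ∫ ν : ℝ, (Kb lam x0 w (2 * π * ν) : ℂ) * cexp (I * (2 * π * ν : ℝ) * r) := by
    intro r
    have : (π : ℂ) ≠ 0 := by exact_mod_cast hp.ne'
    rw [Measure.integral_comp_mul_left (fun ξ : ℝ => (Kb lam x0 w ξ : ℂ) * cexp (I * ξ * r)),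
      ← kap_eq hl x0 hw, abs_of_pos (by positivity), real_smul]
    push_cast
    field_simp
  have k2 : Integrable fun ν : ℝ => (Kb lam x0 w (2 * π * ν) : ℂ) :=
    ((Filt_Kb_int hl hw x0).comp_mul_left' (by positivity)).ofReal
  simp only [k1, ← integral_mul_const, Real.fourier_real_eq_integral_exp_smul,
    Real.fourierInv_eq', smul_eq_mul, ← integral_const_mul]
  rw [integral_integral_swap]
  · refine integral_congr_ae (Eventually.of_forall fun ν => integral_congr_ae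
      (Eventually.of_forall fun y => ?_))
    simp only [Real.inner_apply]
    have : cexp (I * (2 * π * ν : ℝ) * (y - t : ℝ)) =
        cexp ((-2 * π * ν * t : ℝ) * I) * cexp ((2 * π * (y * ν) : ℝ) * I) := by
      rw [← Complex.exp_add]
      congr 1
      push_cast
      ring
    rw [this]
    ring
  · refine ((h1.mul_prod k2).mul_bdd (c := 1)
      (g := fun q : ℝ × ℝ => cexp (I * (2 * π * q.2 : ℝ) * (q.1 - t : ℝ)))
      (Continuous.aestronglyMeasurable (by fun_prop)) (Eventually.of_forall fun q => ?_)).congr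
      (Eventually.of_forall fun q => ?_)
    · simp [Complex.norm_exp]
    · simp only [Function.uncurry]
      ring



theorem filt {lam w : ℝ} (hl : 0 < lam) (hw : 0 ≤ w) (x0 : ℝ) (J : ℕ) {f : ℝ → ℂ}
    (h1 : Integrable f) (h2 : MemLp f 2) :
    (∀ j : ℕ, Integrable fun t => ‖∫ y, kap lam (x0 + j * w) w (y - t) * f y‖ ^ 2) ∧
      ∑ j ∈ range J, ∫ t, ‖∫ y, kap lam (x0 + j * w) w (y - t) * f y‖ ^ 2 ≤ ∫ y, ‖f y‖ ^ 2 := by
  have hp := Real.pi_pos
  have g1 : Integrable fun y => f (-y) := h1.comp_neg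
  have g2 : MemLp (fun y => f (-y)) 2 :=
    h2.comp_measurePreserving (Measure.measurePreserving_neg volume)
  obtain ⟨a1, a2⟩ := Filt_planch g1 g2
  have a3 := Filt_cont g1
  rw [integral_neg_eq_self (fun y => ‖f y‖ ^ 2)] at a2
  rw [← Real.fourierInv_eq_fourier_comp_neg] at a1 a2 a3
  have a4 : ∀ ν, ‖𝓕⁻ f ν‖ ≤ ∫ y, ‖f y‖ := fun ν =>
    VectorFourier.norm_fourierIntegral_le_integral_norm _ _ _ _ _
  have b1 : ∀ x : ℝ, Integrable fun ν : ℝ => (Kb lam x w (2 * π * ν) : ℂ) * 𝓕⁻ f ν := fun x =>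
    ((Filt_Kb_int hl hw x).comp_mul_left' (by positivity)).ofReal.mul_bdd
      a3.aestronglyMeasurable (Eventually.of_forall a4)
  have b2 : ∀ x ν : ℝ, ‖(Kb lam x w (2 * π * ν) : ℂ) * 𝓕⁻ f ν‖ =
      Kb lam x w (2 * π * ν) * ‖𝓕⁻ f ν‖ := fun x ν => by
    rw [norm_mul, norm_real, Real.norm_of_nonneg (Filt_Kb_nn _ _ hw _)]
  have b3 : ∀ x : ℝ, MemLp (fun ν : ℝ => (Kb lam x w (2 * π * ν) : ℂ) * 𝓕⁻ f ν) 2 := fun x =>
    a1.of_le (b1 x).1 (Eventually.of_forall fun ν => by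
      rw [b2]
      exact mul_le_of_le_one_left (norm_nonneg _) (Filt_Kb_le hl hw _ _))
  simp only [Filt_conv hl hw _ h1]
  refine ⟨fun j => (memLp_two_iff_integrable_sq_norm (Filt_planch (b1 _) (b3 _)).1.1).1
    (Filt_planch (b1 _) (b3 _)).1, ?_⟩
  have c1 := fun x => (memLp_two_iff_integrable_sq_norm (b1 x).1).1 (b3 x)
  simp only [(Filt_planch (b1 _) (b3 _)).2]
  rw [← integral_finsetSum _ fun j _ => c1 _, ← a2]
  refine integral_mono (integrable_finsetSum _ fun j _ => c1 _)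
    ((memLp_two_iff_integrable_sq_norm a1.1).1 a1) fun ν => ?_
  simp only [b2, mul_pow, ← sum_mul]
  refine mul_le_of_le_one_left (by positivity) (le_trans (sum_le_sum fun j _ => ?_)
    ((Filt_Kb_sum lam x0 w (2 * π * ν) J).trans_le (Filt_Kb_le hl (by positivity) _ _)))
  exact pow_le_of_le_one (Filt_Kb_nn _ _ hw _) (Filt_Kb_le hl hw _ _) two_ne_zero

end HooRT
end
end

-- merged part: Pool.Agent.Work.MP_5d318d_nt.RT.Core
section
/-! TASK RT Core. Rank, trace and filters put together.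
Fix `t`, `|t| ≤ V`, and put `f y = √(φ y) * E (t - y)` (bounded, measurable, zero outside `[-V, V]`, so integrable and
in `L²`; `‖f y‖^2 = φ y * ‖E (t - y)‖^2`), `g j t' = ∫ y, kap (y - t') * f y`. `Core_pt`: if `ψ t' ≠ 0` then
`∫ u, kap (t - t' - u) * E u = ∫ y, kap (y - t') * E (t - y)` (`integral_sub_left_eq_self`), and
`√(ψ t') * this - g j t' = ∫ y, kap (y - t') * (√(ψ t') - √(φ y)) * E (t - y)`, where the integrand vanishes for
`|y - t'| ≤ Δ` and is otherwise at most `exp (-(y - t')^2 / (4 lam)) / (2 π) * √A * B` (`norm_kap_le`); `gau_tail` with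
`1 / (4 lam)` bounds the integral by `√A * B * exp (-Δ^2 / (8 lam)) √(8 π lam) / (2 π) ≤ √A`. So
`ψ t' * ‖F j (t - t')‖^2 ≤ (1 + θ) ‖g j t'‖^2 + (1 + 1/θ) A (K + 1)^2` on `|t'| ≤ V` (`sq_add_le`) and `0` outside.
Integrate in `t'`, sum over `j` (`filt`), multiply by `ψ t`, integrate in `t` (`Wt.integrable_mul`, `LB.inner`,
`Wt.integral_le`), and use `rank_trace` for each `j`. About 200 lines. -/

noncomputable section

open Complex MeasureTheory Finset Filter Topology Metric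
open ArithmeticFunction hiding log
open scoped Real

namespace HooRT

theorem Core_gau {lam : ℝ} (hl : 0 < lam) (t : ℝ) :
    Integrable fun y : ℝ => Real.exp (-(1 / (4 * lam)) * (y - t) ^ 2) :=
  (integrable_exp_neg_mul_sq (by positivity)).comp_sub_right t

theorem Core_kap {lam w : ℝ} (hl : 0 < lam) (hw : 0 ≤ w) (hw1 : w ≤ 1) (x r : ℝ) :
    ‖kap lam x w r‖ ≤ 1 / (2 * π) * Real.exp (-(1 / (4 * lam)) * r ^ 2) := by
  refine (norm_kap_le hl x hw r).trans ?_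
  rw [show -r ^ 2 / (4 * lam) = -(1 / (4 * lam)) * r ^ 2 by ring]
  gcongr

theorem Core_int {lam w : ℝ} (hl : 0 < lam) (hw : 0 ≤ w) (hw1 : w ≤ 1) (x t : ℝ) {h : ℝ → ℂ}
    (hm : Measurable h) {M : ℝ} (hM : ∀ y, ‖h y‖ ≤ M) :
    Integrable fun y => kap lam x w (y - t) * h y :=
  (((Core_gau hl t).const_mul _).mono' ((continuous_kap lam x w).comp
    (continuous_sub_right t)).aestronglyMeasurable
      (.of_forall fun y => Core_kap hl hw hw1 x (y - t))).mul_bdd hm.aestronglyMeasurable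
    (.of_forall hM)

theorem Core_f {E : ℝ → ℂ} {B : ℝ} (hm : Measurable E) (hB : ∀ v, ‖E v‖ ≤ B) {φ : ℝ → ℝ}
    {A V : ℝ} (hφ : Wt φ A V) (t : ℝ) :
    Integrable (fun y => (√(φ y) : ℂ) * E (t - y)) ∧ MemLp (fun y => (√(φ y) : ℂ) * E (t - y)) 2 ∧
      ∀ y, ‖(√(φ y) : ℂ) * E (t - y)‖ ^ 2 = φ y * ‖E (t - y)‖ ^ 2 := by
  have h1 : AEStronglyMeasurable fun y => (√(φ y) : ℂ) * E (t - y) :=
    ((measurable_ofReal.comp hφ.meas.sqrt).mul (hm.comp (by fun_prop))).aestronglyMeasurable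
  have h2 : ∀ y, ‖(√(φ y) : ℂ) * E (t - y)‖ = √(φ y) * ‖E (t - y)‖ := fun y => by
    rw [norm_mul, norm_real, Real.norm_of_nonneg (Real.sqrt_nonneg _)]
  have h3 : ∀ y, ‖(√(φ y) : ℂ) * E (t - y)‖ ^ 2 = φ y * ‖E (t - y)‖ ^ 2 := fun y => by
    rw [h2, mul_pow, Real.sq_sqrt (hφ.nn y)]
  have h4 : LB fun y => ‖E (t - y)‖ :=
    (LB.of_le hm.norm fun v => (abs_norm _).trans_le (hB v)).comp_sub t
  have h5 : Wt (fun y => √(φ y)) √A V := ⟨hφ.meas.sqrt, fun _ => Real.sqrt_nonneg _,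
    fun y => Real.sqrt_le_sqrt (hφ.le y), fun y hy => by rw [hφ.supp y hy, Real.sqrt_zero]⟩
  refine ⟨(integrable_norm_iff h1).1 ?_, (memLp_two_iff_integrable_sq_norm h1).2 ?_, h3⟩
  · simpa only [h2] using h5.integrable_mul h4
  · simpa only [h3, sq ‖E _‖] using hφ.integrable_mul (h4.mul h4)

theorem Core_pt {E : ℝ → ℂ} {B : ℝ} (hm : Measurable E) (hB : ∀ v, ‖E v‖ ≤ B) {ψ φ : ℝ → ℝ}
    {A V Δ lam w : ℝ} (hψ : Wt ψ A V) (hφ : Wt φ A V) (hΔ : 0 ≤ Δ)
    (hloc : ∀ x y, ψ x ≠ 0 → |y - x| ≤ Δ → φ y = ψ x) (hl : 0 < lam) (hw : 0 ≤ w) (hw1 : w ≤ 1)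
    (hsm : B * Real.exp (-Δ ^ 2 / (8 * lam)) * √lam ≤ 1) (x t : ℝ) {y : ℝ} (hy : ψ y ≠ 0) :
    ‖√(ψ y) * (∫ u, kap lam x w (t - y - u) * E u) -
      ∫ z, kap lam x w (z - y) * (√(φ z) * E (t - z))‖ ≤ √A := by
  have hB0 := (norm_nonneg _).trans (hB 0)
  have mE : Measurable fun z => E (t - z) := hm.comp (by fun_prop)
  have e : ∫ u, kap lam x w (t - y - u) * E u = ∫ z, kap lam x w (z - y) * E (t - z) := by
    rw [← integral_sub_left_eq_self _ _ t]
    simp only [sub_sub_sub_cancel_left]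
  have hS : MeasurableSet {z : ℝ | Δ ≤ |z - y|} := measurableSet_le (by fun_prop) (by fun_prop)
  rw [e, ← integral_const_mul, ← integral_sub
    ((Core_int hl hw hw1 x y mE fun z => hB _).const_mul _)
    (Core_int hl hw hw1 x y (h := fun z => √(φ z) * E (t - z))
      ((measurable_ofReal.comp hφ.meas.sqrt).mul mE) (M := √A * B) fun z => by
        rw [norm_mul, norm_real, Real.norm_of_nonneg (Real.sqrt_nonneg _)]
        exact mul_le_mul (Real.sqrt_le_sqrt (hφ.le z)) (hB _) (norm_nonneg _) (Real.sqrt_nonneg _))]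
  refine (norm_integral_le_of_norm_le (((Core_gau hl y).indicator hS).const_mul
    (1 / (2 * π) * (√A * B))) (.of_forall fun z => ?_)).trans ?_
  · by_cases k : Δ ≤ |z - y|
    · rw [Set.indicator_of_mem (show z ∈ {z : ℝ | Δ ≤ |z - y|} from k), mul_left_comm, ← mul_sub,
        ← sub_mul, norm_mul, norm_mul, mul_right_comm, ← ofReal_sub, norm_real, Real.norm_eq_abs]
      refine mul_le_mul (Core_kap hl hw hw1 x _) (mul_le_mul (abs_sub_le_of_nonneg_of_le
        (Real.sqrt_nonneg _) (Real.sqrt_le_sqrt (hψ.le y)) (Real.sqrt_nonneg _)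
        (Real.sqrt_le_sqrt (hφ.le z))) (hB _) (norm_nonneg _) (Real.sqrt_nonneg _))
        (by positivity) (by positivity)
    · rw [Set.indicator_of_notMem (show z ∉ {z : ℝ | Δ ≤ |z - y|} from k), mul_left_comm,
        hloc y z hy (le_of_not_ge k), sub_self, norm_zero, mul_zero]
  · rw [integral_const_mul, integral_indicator hS]
    have a1 := gau_tail (x := y) (show 0 < 1 / (4 * lam) by positivity) hΔ hS fun _ h => h
    have a2 : √(2 * π / (1 / (4 * lam))) ≤ 2 * π * √lam := by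
      refine Real.sqrt_le_iff.2 ⟨by positivity, ?_⟩
      rw [mul_pow, Real.sq_sqrt hl.le, one_div, div_inv_eq_mul]
      linarith only [hl, mul_pos (mul_pos Real.pi_pos hl) (sub_pos.2 (Real.pi_gt_three))
        , mul_pos Real.pi_pos hl]
    rw [show -(1 / (4 * lam)) * Δ ^ 2 / 2 = -Δ ^ 2 / (8 * lam) by ring] at a1
    refine (mul_le_mul_of_nonneg_left (a1.trans (mul_le_mul_of_nonneg_left a2 (by positivity)))
      (by positivity)).trans (le_trans (le_of_eq ?_)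
        (mul_le_of_le_one_right (Real.sqrt_nonneg A) hsm))
    field_simp

theorem core {E : ℝ → ℂ} {B : ℝ} (hm : Measurable E) (hB : ∀ v, ‖E v‖ ≤ B) {ψ φ : ℝ → ℝ}
    {A V Δ lam w x0 K ν θ : ℝ} (hψ : Wt ψ A V) (hφ : Wt φ A V) (hV : 0 ≤ V) (hΔ : 0 ≤ Δ)
    (hloc : ∀ x y, ψ x ≠ 0 → |y - x| ≤ Δ → φ y = ψ x) (hl : 0 < lam) (hw : 0 ≤ w) (hw1 : w ≤ 1)
    (hsm : B * Real.exp (-Δ ^ 2 / (8 * lam)) * √lam ≤ 1) {J : ℕ} {ι : Type} (s : ℕ → Finset ι)
    (c : ℕ → ι → ℂ) (Z : ι → ℂ) (hK : 0 ≤ K)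
    (hF : ∀ j < J, ∀ v : ℝ, |v| ≤ 2 * V → ‖∑ i ∈ s j, c j i * cexp (Z i * v) -
      ∫ u, kap lam (x0 + j * w) w (v - u) * E u‖ ≤ K)
    (hν : ∀ j < J, ((s j).card : ℝ) ≤ ν) (hν0 : 0 ≤ ν) (hθ : 0 < θ) :
    (∑ j ∈ range J, ‖∑ i ∈ s j, c j i‖ ^ 2) * (∫ t, ψ t) ^ 2 ≤
      ν * ((1 + θ) * dbl ψ φ (fun v => ‖E v‖ ^ 2) +
        (1 + 1 / θ) * J * (K + 1) ^ 2 * (2 * A * V) ^ 2) := by
  have hA := hψ.A0
  have hE : LB fun v => ‖E v‖ ^ 2 := .of_le (hm.norm.pow_const 2) (B := B ^ 2) fun v => by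
    rw [abs_of_nonneg (sq_nonneg _)]
    exact pow_le_pow_left₀ (norm_nonneg _) (hB v) 2
  obtain ⟨u, hu⟩ : ∃ u : ℕ → ℝ → ℝ, u = fun j (v : ℝ) => ‖∑ i ∈ s j, c j i * cexp (Z i * v)‖ ^ 2 :=
    ⟨_, rfl⟩
  have u0 : ∀ j v, 0 ≤ u j v := fun j v => hu ▸ sq_nonneg _
  have uL : ∀ j, LB (u j) := fun j => .of_continuous (by rw [hu]; fun_prop)
  have hχ : Wt (Set.indicator (Set.Icc (-V) V) fun _ => A) A V :=
    ⟨measurable_const.indicator measurableSet_Icc, Set.indicator_nonneg fun _ _ => hA,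
      fun x => Set.indicator_le' (fun _ _ => le_rfl) (fun _ _ => hA) x,
      fun x hx => Set.indicator_of_notMem (fun k => hx.not_ge (abs_le.2 (Set.mem_Icc.1 k))) _⟩
  have hc : 0 ≤ (1 + 1 / θ) * J * (K + 1) ^ 2 := by positivity
  have key : ∀ t, ψ t * ∫ y, ψ y * ∑ j ∈ range J, u j (t - y) ≤
      (1 + θ) * (ψ t * ∫ y, φ y * ‖E (t - y)‖ ^ 2) +
        (1 + 1 / θ) * J * (K + 1) ^ 2 * (2 * A * V) * ψ t := fun t => by
    rcases eq_or_ne (ψ t) 0 with h0 | h0
    · simp [h0]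
    have ht : |t| ≤ V := le_of_not_gt fun k => h0 (hψ.supp t k)
    obtain ⟨f1, f2, f3⟩ := Core_f hm hB hφ t
    obtain ⟨g1, g2⟩ := filt hl hw x0 J f1 f2
    simp only [f3] at g2
    rw [mul_left_comm, mul_comm _ (ψ t), ← mul_add]
    refine mul_le_mul_of_nonneg_left ((integral_mono_of_nonneg
      (.of_forall fun y => mul_nonneg (hψ.nn y) (sum_nonneg fun j _ => u0 j _))
      (((integrable_finsetSum (range J) fun j _ => g1 j).const_mul (1 + θ)).add
        (hχ.integrable.const_mul ((1 + 1 / θ) * J * (K + 1) ^ 2))) (.of_forall fun y => ?_)).trans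
      ?_) (hψ.nn t)
    · dsimp only [Pi.add_apply]
      rcases eq_or_ne (ψ y) 0 with h1 | h1
      · rw [h1, zero_mul]
        exact add_nonneg (by positivity) (mul_nonneg hc (hχ.nn y))
      have hy : |y| ≤ V := le_of_not_gt fun k => h1 (hψ.supp y k)
      rw [Set.indicator_of_mem (Set.mem_Icc.2 (abs_le.1 hy)), mul_sum, mul_sum,
        show (1 + 1 / θ) * J * (K + 1) ^ 2 * A = ∑ j ∈ range J, (1 + 1 / θ) * (√A * (K + 1)) ^ 2 by
          rw [sum_const, card_range, nsmul_eq_mul, mul_pow, Real.sq_sqrt hA]; ring, ← sum_add_distrib]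
      refine sum_le_sum fun j hj => ?_
      have a1 := hF j (mem_range.1 hj) (t - y) ((abs_sub _ _).trans (by linarith only [ht, hy]))
      have a2 := Core_pt hm hB hψ hφ hΔ hloc hl hw hw1 hsm (x0 + j * w) t h1
      have a3 := Real.sqrt_le_sqrt (hψ.le y)
      have a4 := Real.sqrt_nonneg (ψ y)
      rw [hu, ← Real.sq_sqrt (hψ.nn y), ← mul_pow]
      refine sq_add_le hθ (by positivity) ?_
      generalize ∑ i ∈ s j, c j i * cexp (Z i * (t - y : ℝ)) = p at a1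
      generalize ∫ u, kap lam (x0 + j * w) w (t - y - u) * E u = q at a1 a2
      generalize ∫ z, kap lam (x0 + j * w) w (z - y) * (√(φ z) * E (t - z)) = r at a2
      have a5 : ‖(√(ψ y) : ℂ) * p‖ ≤ ‖r‖ + (‖(√(ψ y) : ℂ) * (p - q)‖ + ‖√(ψ y) * q - r‖) := by
        refine le_trans (le_of_eq ?_) ((norm_add_le _ _).trans (add_le_add_right (norm_add_le _ _) _))
        congr 1
        ring
      rw [norm_mul, norm_mul, norm_real, Real.norm_of_nonneg a4] at a5
      have a6 := mul_le_mul a3 a1 (norm_nonneg _) (a4.trans a3)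
      linarith only [a2, a5, a6]
    · simp only [Pi.add_apply]
      rw [integral_add ((integrable_finsetSum _ fun j _ => g1 j).const_mul _)
        (hχ.integrable.const_mul _), integral_const_mul, integral_const_mul,
        integral_finsetSum _ fun j _ => g1 j]
      exact add_le_add (mul_le_mul_of_nonneg_left g2 (by positivity))
        (mul_le_mul_of_nonneg_left (hχ.integral_le hV) hc)
  have i1 := hψ.integrable_mul (hE.inner hφ)
  rw [sum_mul]
  refine (sum_le_sum (g := fun j => ν * dbl ψ ψ (u j)) fun j hj => ?_).trans ?_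
  · subst hu
    exact (rank_trace (s j) (c j) Z hψ).trans (mul_le_mul_of_nonneg_right
      (hν j (mem_range.1 hj)) (dbl_nonneg hψ hψ (u0 j)))
  rw [← mul_sum, ← dbl_sum hψ hψ _ fun j _ => uL j]
  refine mul_le_mul_of_nonneg_left ((integral_mono
    (hψ.integrable_mul ((LB.sum _ fun j _ => uL j).inner hψ))
    ((i1.const_mul (1 + θ)).add (hψ.integrable.const_mul _)) key).trans ?_) hν0
  simp only [Pi.add_apply]
  rw [integral_add (i1.const_mul _) (hψ.integrable.const_mul _), integral_const_mul,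
    integral_const_mul, sq (2 * A * V), ← mul_assoc _ _ (2 * A * V)]
  exact add_le_add le_rfl (mul_le_mul_of_nonneg_left (hψ.integral_le hV) (by positivity))

end HooRT
end
end

-- merged part: Pool.Agent.Work.MP_5d318d_nt.RT.Tau
section
/-! TASK RT Tau. The main term of the trace.
`norm_bet_le`: `norm_kap_le`, `|y - s| ≥ |y| - C` for `s ∈ [0, C]`, `∫ exp (-s/2) ≤ 2`, `w / π ≤ 1`.
Put `hh C x = ∫ s in 0..C, exp (-s/2) exp (-I x s) = (1 - exp (-C (1/2 + I x))) / (1/2 + I x)`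
(`integral_exp_mul_complex`), so `‖hh‖ ≤ 2`, `‖hh‖^2 ≥ (1 - θ)^2 / (1/4 + x^2)`, `θ = exp (-C/2)`, and
`‖hh x - hh x'‖ ≤ C^2 |x - x'|` (`‖exp (I a) - exp (I b)‖ ≤ |a - b|`). `Tau_near`: by Fubini on `[0,C] × [x0, x0+w]`
(`intervalIntegral_integral_swap`-type, or bound pointwise: `2 π kap (-s) = exp (-s^2/(4 lam)) ∫ x, exp (-I x s)`),
`‖2 π bet lam x0 w C 0 - w * hh C x‖ ≤ w (C^3 / (4 lam) + C^2 w)` for every `x` in the band: compare the integrands
directly, `‖exp (-s^2/(4 lam)) exp (-I x' s) - exp (-I x s)‖ ≤ C^2 / (4 lam) + C w`, and integrate over `x'` and `s`.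
With `γ` this bracket, `(2 π)^2 ‖bet‖^2 ≥ w^2 (‖hh x‖^2 - 4 γ)`; average over the band and sum:
`(2 π)^2 ∑ ‖bet‖^2 ≥ w ((1 - θ)^2 ∫_{-T0}^{T0} dx / (1/4 + x^2) - 8 T0 γ)`, the integral being `4 arctan (2 T0) → 2 π`
(`integral_one_div_one_add_sq`/derivative of `2 arctan (2 x)`, `Real.tendsto_arctan_atTop`). Choose `C`, `T0`, then `J`
large, `w = 2 T0 / J`, then `lam1`. About 220 lines. -/

noncomputable section

open Complex MeasureTheory Finset Filter Topology Metric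
open ArithmeticFunction hiding log
open scoped Real

namespace HooRT

theorem norm_bet_le {lam w C : ℝ} (hl : 0 < lam) (hw : 0 ≤ w) (hw1 : w ≤ 1) (hC : 0 ≤ C)
    (x0 y : ℝ) :
    ‖bet lam x0 w C y‖ ≤ Real.exp (-max (|y| - C) 0 ^ 2 / (4 * lam)) := by
  obtain ⟨E, hE⟩ : ∃ E, E = Real.exp (-max (|y| - C) 0 ^ 2 / (4 * lam)) := ⟨_, rfl⟩
  have E0 : 0 < E := hE ▸ Real.exp_pos _
  have h1 : ‖bet lam x0 w C y‖ ≤ ∫ s in (0 : ℝ)..C, Real.exp (-s / 2) * (w / (2 * π) * E) := by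
    refine intervalIntegral.norm_integral_le_of_norm_le hC (.of_forall fun s hs => ?_)
      (Continuous.intervalIntegrable (by fun_prop) _ _)
    rw [norm_mul, Complex.norm_exp]
    refine mul_le_mul (le_of_eq (congrArg _ (by simp))) ((norm_kap_le hl x0 hw _).trans ?_)
      (norm_nonneg _) (Real.exp_pos _).le
    have h2 : max (|y| - C) 0 ≤ |y - s| := max_le (by
      have := abs_sub_abs_le_abs_sub y s
      rw [abs_of_pos hs.1] at this
      linarith only [this, hs, hs.2]) (abs_nonneg _)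
    have h3 := pow_le_pow_left₀ (le_max_right _ _) h2 2
    rw [sq_abs] at h3
    rw [hE]
    gcongr
  have h2 : ∫ s in (0 : ℝ)..C, Real.exp (-s / 2) = 2 - 2 * Real.exp (-C / 2) := by
    have := intervalIntegral.integral_eq_sub_of_hasDerivAt (f := fun s => -2 * Real.exp (-s / 2))
      (f' := fun s => Real.exp (-s / 2)) (a := 0) (b := C) (fun s _ =>
        ((((hasDerivAt_id' s).fun_neg.div_const 2).exp).const_mul (-2)).congr_deriv (by ring))
      (Continuous.intervalIntegrable (by fun_prop) _ _)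
    rw [this]
    simp
    ring
  rw [intervalIntegral.integral_mul_const, h2] at h1
  rw [← hE]
  refine h1.trans ?_
  have h3 : w / (2 * π) ≤ 1 / 2 := by
    rw [div_le_div_iff₀ (by positivity) two_pos]
    linarith only [hw1, Real.pi_gt_three]
  have h4 : 0 ≤ w / (2 * π) * E := by positivity
  linarith only [h3, E0, h4, Real.exp_pos (-C / 2), mul_le_mul_of_nonneg_right h3 E0.le, mul_nonneg_of_nonpos_of_nonpos (Mathlib.Tactic.Linarith.sub_nonpos_of_le h4) (le_of_lt (Mathlib.Tactic.Linarith.sub_neg_of_lt (Real.exp_pos (-C / (2 : ℝ)))))]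

theorem Tau_exp {a b : ℂ} (ha : a.re ≤ 0) (hb : b.re ≤ 0) : ‖cexp a - cexp b‖ ≤ ‖a - b‖ := by
  have := (convex_halfSpace_re_le 0).norm_image_sub_le_of_norm_deriv_le (𝕜 := ℂ) (f := cexp)
    (C := 1) (fun _ _ => differentiableAt_exp) (fun z hz => by
      rw [Complex.deriv_exp, Complex.norm_exp]
      exact Real.exp_le_one_iff.2 hz) hb ha
  rwa [one_mul] at this

theorem Tau_kap {lam w C x0 x s : ℝ} (hl : 0 < lam) (h0 : x0 ≤ x) (h1 : x ≤ x0 + w) (s0 : 0 ≤ s)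
    (s1 : s ≤ C) : ‖kap lam x0 w (0 - s) - ((w / (2 * π) : ℝ) : ℂ) * cexp (-(I * x * s))‖ ≤
      w / (2 * π) * (C ^ 2 / (4 * lam) + C * w) := by
  have hw : 0 ≤ w := by linarith
  have e1 : ((w / (2 * π) : ℝ) : ℂ) * cexp (-(I * x * s)) =
      ∫ _ in x0..x0 + w, ((1 / (2 * π) : ℝ) : ℂ) * cexp (-(I * x * s)) := by
    rw [intervalIntegral.integral_const, real_smul]
    push_cast
    ring
  have e2 : √(lam / π) * (√(4 * π * lam))⁻¹ = 1 / (2 * π) := by
    rw [← div_eq_mul_inv, ← Real.sqrt_div (by positivity),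
      show lam / π / (4 * π * lam) = (1 / (2 * π)) ^ 2 by field_simp; ring,
      Real.sqrt_sq (by positivity)]
  have c1 : Continuous fun x' : ℝ => kx lam x' (0 - s) := by
    unfold kx
    fun_prop
  rw [e1, kap, ← intervalIntegral.integral_sub ((c1.const_mul _).intervalIntegrable _ _)
    (continuous_const.intervalIntegrable _ _)]
  refine (intervalIntegral.norm_integral_le_of_norm_le_const
    (C := 1 / (2 * π) * (C ^ 2 / (4 * lam) + C * w)) fun y hy => ?_).trans_eq ?_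
  · rw [Set.uIoc_of_le (by linarith only [h0, h1])] at hy
    rw [kx, ← mul_assoc, ← ofReal_mul, e2, ← mul_sub, norm_mul, norm_real,
      Real.norm_of_nonneg (by positivity)]
    refine mul_le_mul_of_nonneg_left ((Tau_exp ?_ (by simp)).trans ?_) (by positivity)
    · have : (I * y * ((0 - s : ℝ) : ℂ) - ((0 - s : ℝ) : ℂ) ^ 2 / (4 * lam)) =
          I * ((y * (0 - s) : ℝ) : ℂ) - ((s ^ 2 / (4 * lam) : ℝ) : ℂ) := by
        push_cast
        ring
      rw [this, sub_re, ofReal_re, I_mul_re, ofReal_im, neg_zero, zero_sub, neg_nonpos]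
      positivity
    · have : (I * y * ((0 - s : ℝ) : ℂ) - ((0 - s : ℝ) : ℂ) ^ 2 / (4 * lam)) - -(I * x * s) =
          I * (((x - y) * s : ℝ) : ℂ) - ((s ^ 2 / (4 * lam) : ℝ) : ℂ) := by
        push_cast
        ring
      rw [this, add_comm]
      refine (norm_sub_le _ _).trans (add_le_add ?_ ?_)
      · rw [norm_mul, norm_I, one_mul, norm_real, norm_mul, Real.norm_of_nonneg s0, mul_comm]
        exact mul_le_mul s1 (abs_le.2 ⟨by linarith only [h0, hy, hy.2], by linarith only [h1, hy, hy.1]⟩) (norm_nonneg _)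
          (s0.trans s1)
      · rw [norm_real, Real.norm_of_nonneg (by positivity)]
        gcongr
  · rw [add_sub_cancel_left, abs_of_nonneg hw]
    ring

theorem Tau_near {lam w C x0 x : ℝ} (hl : 0 < lam) (h0 : x0 ≤ x) (h1 : x ≤ x0 + w) (hC : 0 ≤ C) :
    ‖bet lam x0 w C 0 - ((w / (2 * π) : ℝ) : ℂ) *
      ∫ s in (0 : ℝ)..C, cexp (-s / 2) * cexp (-(I * x * s))‖ ≤
      w / (2 * π) * (C ^ 3 / (4 * lam) + C ^ 2 * w) := by
  have c1 := continuous_kap lam x0 w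
  rw [bet, ← intervalIntegral.integral_const_mul, ← intervalIntegral.integral_sub
    (Continuous.intervalIntegrable (by fun_prop) _ _)
    (Continuous.intervalIntegrable (by fun_prop) _ _)]
  refine (intervalIntegral.norm_integral_le_of_norm_le_const
    (C := w / (2 * π) * (C ^ 2 / (4 * lam) + C * w)) fun s hs => ?_).trans_eq ?_
  · rw [Set.uIoc_of_le hC] at hs
    rw [mul_left_comm, ← mul_sub, norm_mul]
    refine (mul_le_of_le_one_left (norm_nonneg _) ?_).trans (Tau_kap hl h0 h1 hs.1.le hs.2)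
    rw [Complex.norm_exp, Real.exp_le_one_iff]
    simp
    linarith only [hs, hs.1]
  · rw [sub_zero, abs_of_nonneg hC]
    ring

theorem Tau_hh (C x : ℝ) : (1 - Real.exp (-C / 2)) / √(1 / 4 + x ^ 2) ≤
    ‖∫ s in (0 : ℝ)..C, cexp (-s / 2) * cexp (-(I * x * s))‖ := by
  have hc : (-(1 / 2 + I * x) : ℂ) ≠ 0 := fun h => by simpa using congrArg re h
  have e : ∀ s : ℝ, cexp (-s / 2) * cexp (-(I * x * s)) = cexp (-(1 / 2 + I * x) * s) :=
    fun s => by rw [← Complex.exp_add]; congr 1; ring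
  have n : ‖(-(1 / 2 + I * x) : ℂ)‖ = √(1 / 4 + x ^ 2) := by
    rw [Complex.norm_eq_sqrt_sq_add_sq]
    simp
    norm_num
  simp only [e]
  rw [integral_exp_mul_complex hc, norm_div, n, norm_sub_rev]
  gcongr
  refine le_trans (le_of_eq ?_) (norm_sub_norm_le _ _)
  simp [Complex.norm_exp]
  ring

theorem Tau_band {lam w C x0 : ℝ} (hl : 0 < lam) (hw : 0 < w) (hC : 0 ≤ C) :
    w / (2 * π) ^ 2 * ((1 - Real.exp (-C / 2)) ^ 2 *
      (2 * Real.arctan (2 * (x0 + w)) - 2 * Real.arctan (2 * x0)) -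
        4 * (C ^ 3 / (4 * lam) + C ^ 2 * w) * w) ≤ ‖bet lam x0 w C 0‖ ^ 2 := by
  have d : ∀ x : ℝ, HasDerivAt (fun x => 2 * Real.arctan (2 * x)) (1 / (1 / 4 + x ^ 2)) x :=
    fun x => ((((hasDerivAt_id' x).const_mul 2).arctan).const_mul 2).congr_deriv (by
      field_simp
      ring)
  obtain ⟨x, hx, e⟩ := exists_hasDerivAt_eq_slope _ _ (lt_add_of_pos_right x0 hw)
    (HasDerivAt.continuousOn fun x _ => d x) fun x _ => d x
  rw [add_sub_cancel_left, eq_div_iff hw.ne'] at e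
  have h1 := Tau_near hl hx.1.le hx.2.le hC
  have h2 := Tau_hh C x
  have t0 := Real.exp_pos (-C / 2)
  have t1 : Real.exp (-C / 2) ≤ 1 := Real.exp_le_one_iff.2 (by linarith only [hC])
  have q0 : 0 < 1 / 4 + x ^ 2 := by positivity
  have q1 : 1 / 2 ≤ √(1 / 4 + x ^ 2) := Real.le_sqrt_of_sq_le (by linarith only [sq_nonneg x, sq_nonneg x])
  obtain ⟨a, ha⟩ : ∃ a, a = (1 - Real.exp (-C / 2)) / √(1 / 4 + x ^ 2) := ⟨_, rfl⟩
  have a0 : 0 ≤ a := ha ▸ div_nonneg (by linarith only [t1]) (Real.sqrt_nonneg _)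
  have a2 : a ≤ 2 := by
    rw [ha, div_le_iff₀ (by linarith only [q1])]
    linarith only [t0, q1]
  have a3 : (1 - Real.exp (-C / 2)) ^ 2 * (1 / (1 / 4 + x ^ 2) * w) = a ^ 2 * w := by
    rw [ha, div_pow, Real.sq_sqrt q0.le]
    ring
  have g0 : 0 ≤ C ^ 3 / (4 * lam) + C ^ 2 * w := by positivity
  rw [← e, a3]
  rw [← ha] at h2
  generalize C ^ 3 / (4 * lam) + C ^ 2 * w = g at *
  have k0 : 0 < w / (2 * π) := by positivity
  rw [norm_sub_rev] at h1
  have h3 := (norm_sub_norm_le _ _).trans h1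
  rw [norm_mul, norm_real, Real.norm_of_nonneg k0.le] at h3
  have h4 : w / (2 * π) * (a - g) ≤ ‖bet lam x0 w C 0‖ := by
    linarith only [h3, h2, k0, mul_le_mul_of_nonneg_left h2 k0.le]
  have e2 : w / (2 * π) ^ 2 * (a ^ 2 * w - 4 * g * w) = (w / (2 * π)) ^ 2 * (a ^ 2 - 4 * g) := by
    ring
  rw [e2]
  rcases le_total a g with h | h
  · exact (mul_nonpos_of_nonneg_of_nonpos (sq_nonneg _) (by linarith only [g0, h, a0, a2, mul_nonneg_of_nonpos_of_nonpos (Mathlib.Tactic.Linarith.sub_nonpos_of_le a0) (Mathlib.Tactic.Linarith.sub_nonpos_of_le a2)])).trans (sq_nonneg _)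
  · refine le_trans ?_ (pow_le_pow_left₀ (mul_nonneg k0.le (sub_nonneg.2 h)) h4 2)
    rw [mul_pow]
    exact mul_le_mul_of_nonneg_left (by linarith only [a2, g0, mul_nonneg_of_nonpos_of_nonpos (Mathlib.Tactic.Linarith.sub_nonpos_of_le a2) (Mathlib.Tactic.Linarith.sub_nonpos_of_le g0), mul_nonneg_of_nonpos_of_nonpos (Mathlib.Tactic.Linarith.sub_nonpos_of_le g0) (Mathlib.Tactic.Linarith.sub_nonpos_of_le g0)]) (sq_nonneg _)

theorem tau_sum {ε : ℝ} (hε : 0 < ε) : ∃ (C T0 w lam1 : ℝ) (J : ℕ), 0 < C ∧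
    Real.exp (-C / 2) ≤ ε ∧ 0 < w ∧ w ≤ 1 ∧ J * w = 2 * T0 ∧ ∀ lam, lam1 ≤ lam →
      (1 - ε) * (w / (2 * π)) ≤ ∑ j ∈ range J, ‖bet lam (-T0 + j * w) w C 0‖ ^ 2 := by
  have p3 := Real.pi_gt_three
  obtain ⟨C, hC, hθ⟩ : ∃ C : ℝ, 0 < C ∧ Real.exp (-C / 2) ≤ ε / 4 := by
    refine ⟨8 / ε, by positivity, ?_⟩
    rw [show -(8 / ε) / 2 = -(ε / 4)⁻¹ by field_simp; ring, Real.exp_neg,
      inv_le_comm₀ (Real.exp_pos _) (by positivity)]
    linarith [Real.add_one_le_exp (ε / 4)⁻¹]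
  obtain ⟨y, y1, y0⟩ := (((Real.tendsto_arctan_atTop.mono_right nhdsWithin_le_nhds).eventually
    (lt_mem_nhds (show π / 2 - ε / 4 < π / 2 by linarith only [hε]))).and (eventually_gt_atTop 0)).exists
  obtain ⟨T, rfl⟩ : ∃ T, y = 2 * T := ⟨y / 2, by ring⟩
  have T0 : 0 < T := by linarith
  obtain ⟨J, hJ⟩ := exists_nat_gt (2 * T + 2 * T * (8 * T * C ^ 2 / ε))
  have u0 : 0 < 2 * T * (8 * T * C ^ 2 / ε) := by positivity
  have J0 : (0 : ℝ) < J := by linarith only [T0, hJ, u0]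
  obtain ⟨w, hw⟩ : ∃ w, w = 2 * T / J := ⟨_, rfl⟩
  have w0 : 0 < w := by rw [hw]; positivity
  have wJ : J * w = 2 * T := by rw [hw]; field_simp
  have w1 : w ≤ 1 := by rw [hw, div_le_one J0]; linarith only [hJ, u0]
  have w2 : 8 * T * C ^ 2 * w ≤ ε := by
    have : w * (8 * T * C ^ 2 / ε) ≤ 1 := by
      rw [hw, div_mul_eq_mul_div, div_le_one J0]
      linarith only [T0, hJ]
    rwa [← mul_div_assoc, div_le_one hε, mul_comm] at this
  refine ⟨C, T, w, 2 * T * C ^ 3 / ε, J, hC, by linarith only [hε, hθ], w0, w1, wJ, fun lam hlam => ?_⟩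
  have hl : 0 < lam := lt_of_lt_of_le (by positivity) hlam
  have l2 : 8 * T * (C ^ 3 / (4 * lam)) ≤ ε := by
    rw [div_le_iff₀ hε] at hlam
    rw [← mul_div_assoc, div_le_iff₀ (by positivity)]
    linarith only [hlam]
  refine le_trans ?_ (sum_le_sum fun j _ => Tau_band (x0 := -T + j * w) hl w0 hC.le)
  have e := sum_range_sub (fun j : ℕ => 2 * Real.arctan (2 * (-T + j * w))) J
  simp only [Nat.cast_add, Nat.cast_one, add_mul, one_mul, ← add_assoc] at e
  rw [← mul_sum, sum_sub_distrib, ← mul_sum, e, sum_const, card_range, nsmul_eq_mul, wJ,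
    Nat.cast_zero, zero_mul, add_zero, show -T + 2 * T = T by ring, mul_neg, Real.arctan_neg,
    show (1 - ε) * (w / (2 * π)) = w / (2 * π) ^ 2 * ((1 - ε) * (2 * π)) by field_simp]
  refine mul_le_mul_of_nonneg_left ?_ (by positivity)
  have a0 := (Real.arctan_pos.2 y0).le
  have a1 := (Real.arctan_lt_pi_div_two (2 * T)).le
  have t0 := (Real.exp_pos (-C / 2)).le
  have e2 : J * (4 * (C ^ 3 / (4 * lam) + C ^ 2 * w) * w) =
      8 * T * (C ^ 3 / (4 * lam)) + 8 * T * C ^ 2 * w := by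
    linear_combination 4 * (C ^ 3 / (4 * lam) + C ^ 2 * w) * wJ
  rw [e2]
  generalize Real.arctan (2 * T) = A at *
  generalize Real.exp (-C / 2) = θ at *
  linarith only [w2, l2, y1, a0, hθ, a1, hε, p3, mul_nonneg (sq_nonneg θ) a0, mul_le_mul hθ a1 a0 (by positivity),
    mul_lt_mul_of_pos_left p3 hε, sq_nonneg θ]

end HooRT
end
end

-- merged part: Pool.Agent.Work.MP_5d318d_nt.RT.One
section
/-! The inequality for one good character. -/

noncomputable section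

open Complex MeasureTheory Finset Filter Topology Metric
open ArithmeticFunction hiding log
open scoped Real

namespace HooRT

theorem One_ev {c : ℝ} (hc : 0 < c) (M : ℝ) :
    ∀ᶠ L : ℝ in atTop, M * (1 + L) ^ 2 * Real.exp (-(c * L)) ≤ 1 := by
  filter_upwards [eventually_ge_atTop 1, eventually_ge_atTop (24 * |M| / c ^ 3)] with L h1 h2
  have h3 := Real.pow_div_factorial_le_exp (c * L) (by positivity) 3
  rw [div_le_iff₀ (by positivity)] at h2
  rw [Real.exp_neg, ← div_eq_mul_inv, div_le_one (Real.exp_pos _)]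
  refine le_trans ?_ h3
  have h4 : (1 + L) ^ 2 ≤ 4 * L ^ 2 := by linarith only [h1, mul_nonneg_of_nonpos_of_nonpos (Mathlib.Tactic.Linarith.sub_nonpos_of_le h1) (Mathlib.Tactic.Linarith.sub_nonpos_of_le h1)]
  have h5 : M * (1 + L) ^ 2 ≤ |M| * (4 * L ^ 2) :=
    mul_le_mul (le_abs_self M) h4 (by positivity) (abs_nonneg M)
  have h6 : 24 * |M| * L ^ 2 ≤ L * c ^ 3 * L ^ 2 := mul_le_mul_of_nonneg_right h2 (by positivity)
  simp only [Nat.factorial, Nat.succ_eq_add_one, Nat.cast_ofNat, Nat.reduceAdd, Nat.reduceMul]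
  linarith only [h5, h6]

theorem One_sq {x y z : ℝ} (hx : 0 ≤ x) (hy : 0 ≤ y) (hz : 0 ≤ z) (h : x - y ≤ z) :
    x ^ 2 - 2 * x * y ≤ z ^ 2 := by
  rcases le_total y x with h1 | h1
  · linarith only [hy, hz, h, h1, mul_nonneg_of_nonpos_of_nonpos (Mathlib.Tactic.Linarith.sub_nonpos_of_le hy) (Mathlib.Tactic.Linarith.sub_nonpos_of_le hy), mul_nonneg_of_nonpos_of_nonpos (Mathlib.Tactic.Linarith.sub_nonpos_of_le hz) (Mathlib.Tactic.Linarith.sub_nonpos_of_le h), mul_nonneg_of_nonpos_of_nonpos (Mathlib.Tactic.Linarith.sub_nonpos_of_le h) (Mathlib.Tactic.Linarith.sub_nonpos_of_le h1)]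
  · linarith only [hx, hy, h1, sq_nonneg z, mul_nonneg_of_nonpos_of_nonpos (Mathlib.Tactic.Linarith.sub_nonpos_of_le hx) (Mathlib.Tactic.Linarith.sub_nonpos_of_le hy), mul_nonneg_of_nonpos_of_nonpos (Mathlib.Tactic.Linarith.sub_nonpos_of_le hx) (Mathlib.Tactic.Linarith.sub_nonpos_of_le h1)]

theorem One_num {ε κ L l S W DD Tr II E1 E2 t : ℝ} (hε : 0 < ε) (hε1 : ε ≤ 1) (hκ : 0 < κ)
    (hL : 0 < L) (hl : (1 - ε / 10) * L ≤ l) (hl1 : l ≤ L) (hW : 0 ≤ W) (hD : 0 ≤ DD)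
    (ht0 : 0 ≤ t) (ht : t ≤ ε / 10)
    (h1 : l ^ 2 * ((1 - ε / 10) * κ) - ε / 10 * κ * L ^ 2 ≤ Tr)
    (h2 : Tr * (L * S) ^ 2 ≤ κ * (1 + ε / 10) * L * ((1 + ε / 4) * II + E1))
    (h3 : II ≤ (1 + ε / 4) * l ^ 2 * (L * W) + E2 + 2 * (1 + t) ^ 2 * DD)
    (h4 : E1 + (1 + ε / 4) * E2 ≤ ε * L ^ 3) :
    (1 - ε) * S ^ 2 * L ^ 3 ≤ (1 + ε) * L ^ 3 * W + ε * L ^ 3 + 2 * (1 + ε) * DD := by
  have a0 : 0 ≤ (1 - ε / 10) * L := mul_nonneg (by linarith only [hε1]) hL.le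
  have a1 : ((1 - ε / 10) * L) ^ 2 ≤ l ^ 2 := pow_le_pow_left₀ a0 hl 2
  have a2 : l ^ 2 ≤ L ^ 2 := pow_le_pow_left₀ (a0.trans hl) hl1 2
  have a3 : (1 - ε) * (1 + ε / 10) ≤ (1 - ε / 10) ^ 3 - ε / 10 := by
    linarith only [hε, hε1, mul_nonneg hε.le hε.le, mul_nonneg (mul_nonneg hε.le hε.le) (sub_nonneg.2 hε1), mul_self_nonneg ε]
  have a4 : (1 - ε) * (1 + ε / 10) * (κ * L ^ 2) ≤ Tr := by
    have b1 := mul_le_mul_of_nonneg_right a3 (by positivity : 0 ≤ κ * L ^ 2)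
    have b2 := mul_le_mul_of_nonneg_right a1
      (mul_nonneg (by linarith only [hε1] : 0 ≤ 1 - ε / 10) hκ.le)
    linarith only [h1, b1, b2]
  have a5 := (mul_le_mul_of_nonneg_right a4 (sq_nonneg (L * S))).trans h2
  have a6 : (1 - ε) * S ^ 2 * L ^ 3 ≤ (1 + ε / 4) * II + E1 := by
    refine le_of_mul_le_mul_left ?_ (by positivity : 0 < κ * (1 + ε / 10) * L)
    refine le_trans (le_of_eq ?_) a5
    ring
  have a7 : (1 + ε / 4) * ((1 + ε / 4) * l ^ 2 * (L * W)) ≤ (1 + ε) * L ^ 3 * W := by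
    have b1 : (1 + ε / 4) * (1 + ε / 4) ≤ 1 + ε := by linarith only [hε, hε1, mul_nonneg_of_nonpos_of_nonpos (le_of_lt (Mathlib.Tactic.Linarith.sub_neg_of_lt hε)) (Mathlib.Tactic.Linarith.sub_nonpos_of_le hε1)]
    have b2 := mul_le_mul b1 a2 (sq_nonneg l) (by positivity)
    have b3 := mul_le_mul_of_nonneg_right b2 (by positivity : 0 ≤ L * W)
    linarith only [b3]
  have a8 : (1 + ε / 4) * (2 * (1 + t) ^ 2 * DD) ≤ 2 * (1 + ε) * DD := by
    have b1 : (1 + t) ^ 2 ≤ 1 + ε / 4 := by linarith only [hε, ht, hε1, ht0, mul_nonneg_of_nonpos_of_nonpos (le_of_lt (Mathlib.Tactic.Linarith.sub_neg_of_lt hε)) (Mathlib.Tactic.Linarith.sub_nonpos_of_le hε1), mul_nonneg_of_nonpos_of_nonpos (le_of_lt (Mathlib.Tactic.Linarith.sub_neg_of_lt hε)) (Mathlib.Tactic.Linarith.sub_nonpos_of_le ht), mul_nonneg_of_nonpos_of_nonpos (Mathlib.Tactic.Linarith.sub_nonpos_of_le ht0) (Mathlib.Tactic.Linarith.sub_nonpos_of_le ht)]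
    have b2 : (1 + ε / 4) * (1 + t) ^ 2 ≤ 1 + ε := by linarith only [hε, b1, hε1, mul_nonneg_of_nonpos_of_nonpos (le_of_lt (Mathlib.Tactic.Linarith.sub_neg_of_lt hε)) (Mathlib.Tactic.Linarith.sub_nonpos_of_le hε1), mul_nonneg_of_nonpos_of_nonpos (le_of_lt (Mathlib.Tactic.Linarith.sub_neg_of_lt hε)) (Mathlib.Tactic.Linarith.sub_nonpos_of_le b1)]
    linarith only [b2, hD, mul_le_mul_of_nonneg_right b2 hD]
  have a9 := mul_le_mul_of_nonneg_left h3 (by positivity : 0 ≤ 1 + ε / 4)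
  linarith only [h4, a6, a7, a8, a9]

theorem one_char {s : Finset ℤ} {p : ℤ → ℝ} {h d A β ε : ℝ} (hs : StD s p h d A β) (hβ : 1 ≤ β)
    (hε : 0 < ε) (hε1 : ε ≤ 1) :
    ∃ (R e lam0 C T0 w L0 : ℝ) (J : ℕ), 0 ≤ R ∧ 0 < e ∧ 0 < lam0 ∧ lam0 ≤ 1 / 200 ∧ 0 ≤ C ∧
      0 ≤ w ∧ w ≤ 1 ∧ ∀ L, L0 ≤ L → ∀ (q : ℕ) [NeZero q], (1 - ε / 10) * L ≤ Real.log q →
        Real.log q ≤ L → ∀ N : ℕ, (4 * β + 1) * L ≤ Real.log N → Real.log N ≤ (4 * β + 2) * L →
          ∀ χ : DirichletCharacter ℂ q, χ.IsPrimitive → Gd R e lam0 C T0 w J L N χ →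
            Ineq s p h d ε L N (lc χ) := by
  obtain ⟨C, T0, w, lam1, J, hC, hθ, hw, hw1, hJ, htau⟩ := tau_sum (ε := ε / 10) (by positivity)
  have hd := hs.d0
  have hA : 0 ≤ A := (hs.nn 0).trans (hs.le 0)
  obtain ⟨κ, hκ⟩ : ∃ κ, κ = w / (2 * π) := ⟨_, rfl⟩
  have κ0 : 0 < κ := by rw [hκ]; positivity
  obtain ⟨d', hd'⟩ : ∃ d', d' = ε * w / 80 := ⟨_, rfl⟩
  have d0 : 0 < d' := by rw [hd']; positivity
  have d1 : d' ≤ 1 := by rw [hd']; nlinarith only [hε, hε1, hw, hw1]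
  obtain ⟨lam0, l0, l1, l2⟩ : ∃ lam0 : ℝ, 0 < lam0 ∧ lam0 ≤ 1 / 200 ∧
      lam0 * (8 * (4 * β + 3)) ≤ d ^ 2 :=
    ⟨min (1 / 200) (d ^ 2 / (8 * (4 * β + 3))), by positivity, min_le_left _ _,
      (le_div_iff₀ (by positivity)).1 (min_le_right _ _)⟩
  obtain ⟨D, D0, D1⟩ : ∃ D : ℝ, 0 ≤ D ∧ lam0 * D ^ 2 / 2 = 3 * β + 1 + 9 * lam0 / 4 := by
    refine ⟨√(2 * (3 * β + 1) / lam0 + 9 / 2), Real.sqrt_nonneg _, ?_⟩
    rw [Real.sq_sqrt (by positivity)]
    field_simp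
    ring
  obtain ⟨K, K1, hK⟩ := exists_efd (T0 + 6 + D)
  obtain ⟨σ1, σ10, hσ1⟩ := rank_bound (ε := ε / 20 * κ) (T0 := T0) (T := T0 + 6 + D)
    (by positivity) hw hw1 d0 d1 (by linarith only [D0]) K1
  obtain ⟨σ, σ0, σa, σb, σc⟩ : ∃ σ : ℝ, 0 < σ ∧ σ ≤ σ1 ∧ σ ≤ 1 ∧
      σ * (2 * (lam0 + 2 * β)) ≤ lam0 * d' ^ 2 :=
    ⟨min σ1 (min 1 (lam0 * d' ^ 2 / (2 * (lam0 + 2 * β)))), by positivity, min_le_left _ _,
      (min_le_right _ _).trans (min_le_left _ _),
      (le_div_iff₀ (by positivity)).1 ((min_le_right _ _).trans (min_le_right _ _))⟩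
  obtain ⟨R, L1, R0, hR⟩ := hσ1 σ σ0 σa
  obtain ⟨e, e0, e1⟩ : ∃ e : ℝ, 0 < e ∧ 4 * J * e ≤ ε / 20 * κ := by
    refine ⟨ε / 20 * κ / (4 * (J + 1)), by positivity, ?_⟩
    rw [← mul_div_assoc, div_le_iff₀ (by positivity)]
    nlinarith only [mul_pos hε κ0]
  obtain ⟨M1, hM1⟩ : ∃ M1, M1 = (1 + 1 / (ε / 4)) * J * (2 * K + 3 + 1) ^ 2 * (2 * A * β) ^ 2 :=
    ⟨_, rfl⟩
  obtain ⟨M2, hM2⟩ : ∃ M2, M2 = (1 + 1 / (ε / 4)) * (12 * Real.exp C) ^ 2 * (2 * A * β * (A * C)) :=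
    ⟨_, rfl⟩
  have M20 : 0 ≤ M2 := by rw [hM2]; positivity
  obtain ⟨L0, hL0⟩ := eventually_atTop.1 ((eventually_ge_atTop L1).and <|
    (eventually_ge_atTop 2).and <| (eventually_ge_atTop (max 1 lam1 / lam0)).and <|
    (eventually_ge_atTop (C / d)).and <| (eventually_ge_atTop (2 * C)).and <|
    (One_ev one_pos (K * Real.exp (3 * C / 2))).and <|
    (One_ev (c := lam0 * d' ^ 2 / 2) (by positivity) (K * C)).and <| (One_ev one_pos 13).and <|
    (eventually_ge_atTop (2 * J * (2 * K + 3) / (ε / 20 * κ))).and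
    (eventually_ge_atTop ((M1 + (1 + ε / 4) * M2) / ε)))
  refine ⟨R, e, lam0, C, T0, w, L0, J, R0, e0, l0, l1, hC.le, hw.le, hw1,
    fun L hL q _ hq1 hq2 N hN1 hN2 χ hχ hG => ?_⟩
  obtain ⟨a1, a2, a3, a4, a5, a6, a7, a8, a9, a10⟩ := hL0 L hL
  have L0' : 0 < L := by linarith only [a2]
  rw [div_le_iff₀ l0, mul_comm] at a3
  rw [div_le_iff₀ hd, mul_comm] at a4
  rw [div_le_iff₀ (by positivity)] at a9 a10
  have hlam : 1 ≤ lam0 * L := (le_max_left _ _).trans a3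
  have hq0 : 0 < Real.log q := lt_of_lt_of_le (mul_pos (by linarith only [hε1]) L0') hq1
  have hq : 2 ≤ q := by
    by_contra hn
    obtain rfl : q = 1 := by have := NeZero.pos q; omega
    simp at hq0
  have hsq : √(lam0 * L) ≤ 1 + L := Real.sqrt_le_iff.2 ⟨by positivity, by nlinarith only [l1, L0']⟩
  have hβL : 0 ≤ β * L := by positivity
  obtain ⟨n, Z, g, hE, hg, hX⟩ := hK q hq χ hχ
  have hx0 : ∀ j : ℕ, j < J → |-T0 + j * w| ≤ T0 := fun j hj => by
    have b1 : (j : ℝ) * w ≤ J * w := mul_le_mul_of_nonneg_right (by exact_mod_cast hj.le) hw.le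
    have b2 : 0 ≤ (j : ℝ) * w := by positivity
    exact abs_le.2 ⟨by linarith only [b2], by linarith only [b1, hJ]⟩
  have hband : ∀ j : ℕ, j < J → ∃ c : Fin n → ℂ, ∀ v : ℝ, |v| ≤ 2 * (β * L) →
      ‖∑ i ∈ kept Z σ (-T0 + j * w) w d', c i * cexp (Z i * v) -
        ∫ u, kap (lam0 * L) (-T0 + j * w) w (v - u) *
          mu (Real.log q) (lc χ) (lc χ⁻¹) N (eta C) u‖ ≤ 2 * K + 3 := fun j hj => by
    refine band_approx hE hlam hw.le hw1 hC.le D0 d0.le σ0.le (by linarith only [hx0 j hj])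
      (by linarith only [hN1, a5]) (by nlinarith only [hN1, hβL, l1, L0']) ?_ ?_
    · have b1 : 9 * (lam0 * L) / 4 + 3 * (2 * (β * L) + C) / 2 - lam0 * L * D ^ 2 / 2 =
          3 * C / 2 + -(1 * L) := by linear_combination (-L) * D1
      rw [b1, Real.exp_add]
      refine le_trans ?_ a6
      calc _ ≤ (1 + L) * (K * (1 + L) * (Real.exp (3 * C / 2) * Real.exp (-(1 * L)))) := by
            gcongr
        _ = _ := by ring
    · have b1 : lam0 * L * σ ^ 2 - lam0 * L * d' ^ 2 + σ * (2 * (β * L)) ≤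
          -(lam0 * d' ^ 2 / 2 * L) := by
        have b2 : lam0 * σ ^ 2 ≤ lam0 * σ := mul_le_mul_of_nonneg_left (by nlinarith only [σ0, σb]) l0.le
        have b3 : lam0 * σ ^ 2 + σ * (2 * β) ≤ lam0 * d' ^ 2 / 2 := by linarith only [b2, σc]
        linarith only [mul_le_mul_of_nonneg_right b3 L0'.le]
      refine le_trans ?_ a7
      calc _ ≤ K * (1 + L) * (C * (1 + L) * Real.exp (-(lam0 * d' ^ 2 / 2 * L))) := by
            gcongr
        _ = _ := by ring
  choose! c hc using hband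
  have hS := hs.scale L0'
  have hdL : 0 < d * L := hS.d0
  have w3 := hS.wt (d' := 3 * (d * L)) (by positivity)
  have w2 := hS.wt (d' := 2 * (d * L)) (by positivity)
  have w1 := hS.wt hdL
  have hsm : (Real.log q + 12 * N) * Real.exp (-(d * L) ^ 2 / (8 * (lam0 * L))) *
      √(lam0 * L) ≤ 1 := by
    have N0 : (0 : ℝ) < N := by
      rcases Nat.eq_zero_or_pos N with rfl | h0
      · simp only [Nat.cast_zero, Real.log_zero] at hN1
        linarith only [hN1, hβL, L0']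
      · exact_mod_cast h0
    have b1 : (N : ℝ) ≤ Real.exp ((4 * β + 2) * L) := (Real.log_le_iff_le_exp N0).1 hN2
    have b2 : L ≤ Real.exp ((4 * β + 2) * L) := by
      linarith only [Real.add_one_le_exp ((4 * β + 2) * L), hβL, L0']
    have b3 : -(d * L) ^ 2 / (8 * (lam0 * L)) ≤ -((4 * β + 2) * L) + -(1 * L) := by
      rw [div_le_iff₀ (by positivity)]
      linarith only [mul_le_mul_of_nonneg_right l2 (sq_nonneg L)]
    refine le_trans ?_ a8
    calc _ ≤ 13 * Real.exp ((4 * β + 2) * L) * Real.exp (-((4 * β + 2) * L) + -(1 * L)) *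
            (1 + L) ^ 2 := by
          gcongr
          · linarith only [b1, b2, hq2]
          · nlinarith only [hsq, L0']
      _ = _ := by
          rw [Real.exp_add, Real.exp_neg ((4 * β + 2) * L)]
          field_simp
  have hcore := core (measurable_mu_eta (Real.log q) C (lc χ) (lc χ⁻¹) N)
    (norm_mu_eta_le hq0.le hE.ha hE.hb C N) w3 w2 hβL hdL.le
    (fun x y hx hy => by
      have b1 : 3 * (d * L) = 2 * (d * L) + d * L := by ring
      rw [b1] at hx ⊢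
      exact st_loc (by positivity) hx hy)
    (by positivity : 0 < lam0 * L) hw.le hw1 hsm (J := J)
    (fun j => kept Z σ (-T0 + j * w) w d') c Z (by positivity) hc
    (ν := κ * (1 + ε / 10) * L) (θ := ε / 4)
    (fun j hj => (hR L a1 q hq hq2 χ hχ n Z g hE hg hX hG.1 hG.2.1 _ (hx0 j hj)).trans_eq (by
      rw [hκ, hd']
      field_simp
      ring)) (by positivity) (by positivity)
  have hen := energy_le (l := Real.log q) (θ := ε / 4) hS hβL hC a4 (by positivity) hE.ha hE.hb N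
    (norm_Ev_inv χ N)
  have htr : Real.log q ^ 2 * ((1 - ε / 10) * κ) - ε / 10 * κ * L ^ 2 ≤
      ∑ j ∈ range J, ‖∑ i ∈ kept Z σ (-T0 + j * w) w d', c j i‖ ^ 2 := by
    have b1 : ∀ j ∈ range J, Real.log q ^ 2 * ‖bet (lam0 * L) (-T0 + j * w) w C 0‖ ^ 2 -
        2 * L * (2 * (e * L) + (2 * K + 3)) ≤
        ‖∑ i ∈ kept Z σ (-T0 + j * w) w d', c j i‖ ^ 2 := fun j hj => by
      have hj' := mem_range.1 hj
      have c1 := hc j hj' 0 (by rw [abs_zero]; positivity)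
      obtain ⟨c2, c3⟩ := hG.2.2 j hj'
      rw [mu_bet hC.le, mu] at c1
      simp only [ofReal_zero, mul_zero, Complex.exp_zero, mul_one] at c1
      have c4 : ‖bet (lam0 * L) (-T0 + j * w) w C 0‖ ≤ 1 :=
        (norm_bet_le (by positivity) hw.le hw1 hC.le _ 0).trans (Real.exp_le_one_iff.2
          (div_nonpos_of_nonpos_of_nonneg (neg_nonpos.2 (sq_nonneg _)) (by positivity)))
      generalize bet (lam0 * L) (-T0 + j * w) w C 0 = τ at c1 c4 ⊢
      generalize ∑ i ∈ kept Z σ (-T0 + j * w) w d', c j i = F at c1 ⊢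
      generalize ∑ n ∈ Icc 1 N, lc χ n / ((√n : ℝ) : ℂ) *
        bet (lam0 * L) (-T0 + j * w) w C (0 - Real.log n) = S1 at c1 c2
      generalize ∑ n ∈ Icc 1 N, lc χ⁻¹ n / ((√n : ℝ) : ℂ) *
        bet (lam0 * L) (-T0 + j * w) w C (0 + Real.log n) = S2 at c1 c3
      have c5 : ‖(Real.log q : ℂ) * τ‖ ≤
          ‖F‖ + ‖F - ((Real.log q : ℝ) * τ - S1 - S2)‖ + ‖S1‖ + ‖S2‖ := by
        have c6 : ((Real.log q : ℝ) : ℂ) * τ =
            F - (F - ((Real.log q : ℝ) * τ - S1 - S2)) + S1 + S2 := by ring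
        calc _ = ‖F - (F - ((Real.log q : ℝ) * τ - S1 - S2)) + S1 + S2‖ := congrArg norm c6
          _ ≤ _ := norm_add₃_le.trans (by gcongr; exact norm_sub_le _ _)
      rw [norm_mul, norm_real, Real.norm_of_nonneg hq0.le] at c5
      have c7 := One_sq (x := Real.log q * ‖τ‖) (y := 2 * (e * L) + (2 * K + 3)) (by positivity)
        (by positivity) (norm_nonneg F) (by linarith only [c1, c2, c3, c5])
      have c8 : Real.log q * ‖τ‖ ≤ L := (mul_le_of_le_one_right hq0.le c4).trans hq2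
      have c9 := mul_le_mul_of_nonneg_right c8 (by positivity : 0 ≤ 2 * (e * L) + (2 * K + 3))
      linarith only [c7, c9]
    have b2 := sum_le_sum b1
    rw [sum_sub_distrib, ← mul_sum, sum_const, card_range, nsmul_eq_mul] at b2
    have b3 := mul_le_mul_of_nonneg_left (htau _ ((le_max_right _ _).trans a3))
      (sq_nonneg (Real.log q))
    rw [← hκ] at b3
    linarith only [b2, b3, mul_le_mul_of_nonneg_right e1 (sq_nonneg L),
      mul_le_mul_of_nonneg_right a9 L0'.le]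
  have s1 : st s p (h * L) (d * L) = fun t => st s p h d (t / L) := funext (st_scale L0')
  have s3 : ∫ t, st s p (h * L) (3 * (d * L)) t = L * ∫ x, st s p h (3 * d) x := by
    simp_rw [← mul_assoc, st_scale L0']
    rw [Measure.integral_comp_div, abs_of_pos L0', smul_eq_mul]
  have s2 : ∫ t, st s p (h * L) (d * L) t ^ 2 = L * ∫ x, st s p h d x ^ 2 := by
    simp_rw [st_scale L0']
    rw [Measure.integral_comp_div (fun x => st s p h d x ^ 2), abs_of_pos L0', smul_eq_mul]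
  have hD := dbl_nonneg w1 w1 (u := fun v => ‖Ev (lc χ) N v‖ ^ 2) fun v => sq_nonneg _
  rw [s3] at hcore
  rw [s2] at hen
  rw [s1] at hen hD
  refine One_num hε hε1 κ0 L0' hq1 hq2 (integral_nonneg fun x => sq_nonneg _) hD
    (Real.exp_pos _).le hθ htr hcore hen ?_
  have b1 : (1 + 1 / (ε / 4)) * J * (2 * K + 3 + 1) ^ 2 * (2 * A * (β * L)) ^ 2 = M1 * L ^ 2 := by
    rw [hM1]
    ring
  have b2 : (1 + 1 / (ε / 4)) * (12 * Real.exp C) ^ 2 * (2 * A * (β * L) * (A * C)) = M2 * L := by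
    rw [hM2]
    ring
  rw [b1, b2]
  have b3 : M2 * L ≤ M2 * L ^ 2 := mul_le_mul_of_nonneg_left (by nlinarith only [a2]) M20
  have b4 := mul_le_mul_of_nonneg_left b3 (by positivity : 0 ≤ 1 + ε / 4)
  linarith only [b4, mul_le_mul_of_nonneg_right a10 (sq_nonneg L)]

end HooRT
end
end

-- merged part: Pool.Agent.Work.MP_5d318d_nt.RT.Bad
section
/-! TASK RT Bad. Few characters are not good.
`markov`: `card * A ≤ ∑` over the filtered set. `Bad_sum`: let `lam = lam0 L`, `M = min q N`. The terms `n > q` have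
total norm at most `2` (`tail_le` with `u = C`, `M = q`: `2 C ≤ L / 2`, `48 lam ≤ L / 2`; there `max (log n - C) 0 =
log n - C`). For `n ≤ M` use `orth` with `b n = Λ n / √n * β n`: `‖b n‖^2 ≤ Λ n / n * (log n * exp (-m^2 / (2 lam)))`,
`m = max (log n - C) 0`, and `log n * exp (..) ≤ C + m exp (-m^2 / (2 lam)) ≤ C + √lam ≤ C + √L`;
`∑ Λ n / n ≤ L + 6` (`abs_sum_vonMangoldt_div_sub_log_le`). So at most `φ (C + √L) (L + 6) / (e L - 2)^2 ≤ φ K / √L`
characters are bad. `bad_card`: union bound over the `2 + 2 J` conditions (`Finset.card_union_le`,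
`card_biUnion_le`); for `mom` use `sum_mom`, `mom_nonneg`, `markov` with `A = L^2`; the conditions for `χ⁻¹` are
counted through the bijection `χ ↦ χ⁻¹` (`Finset.card_bij`/`card_nbij'`, `inv_ne_one`); `norm_bet_le` with
`|0 - log n| = |0 + log n| = log n`. About 190 lines. -/

noncomputable section

open Complex MeasureTheory Finset Filter Topology Metric
open ArithmeticFunction hiding log
open scoped Real

namespace HooRT

theorem markov {ι : Type} (s : Finset ι) {f : ι → ℝ} (hf : ∀ i ∈ s, 0 ≤ f i) {A S : ℝ}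
    (hA : 0 < A) (hS : ∑ i ∈ s, f i ≤ S) :
    ((s.filter fun i => A < f i).card : ℝ) ≤ S / A := by
  rw [le_div_iff₀ hA]
  calc ((s.filter fun i => A < f i).card : ℝ) * A = ∑ _i ∈ s.filter fun i => A < f i, A := by
        rw [sum_const, nsmul_eq_mul]
    _ ≤ ∑ i ∈ s.filter fun i => A < f i, f i := sum_le_sum fun i hi => (mem_filter.1 hi).2.le
    _ ≤ ∑ i ∈ s, f i := sum_le_sum_of_subset_of_nonneg (filter_subset _ _) fun i hi _ => hf i hi
    _ ≤ S := hS

theorem Bad_pt {lam L m : ℝ} (hl : 0 < lam) (hL : lam ≤ L) :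
    m * Real.exp (-m ^ 2 / (4 * lam)) ^ 2 ≤ √L := by
  have hs : 0 < √lam := Real.sqrt_pos.2 hl
  have h2 : √lam ^ 2 = lam := Real.sq_sqrt hl.le
  refine le_trans ?_ (Real.sqrt_le_sqrt hL)
  have e1 : Real.exp (-m ^ 2 / (4 * lam)) ^ 2 = (Real.exp (m ^ 2 / (2 * lam)))⁻¹ := by
    rw [← Real.exp_nat_mul, ← Real.exp_neg]
    congr 1
    field_simp
    ring
  rw [e1, ← div_eq_mul_inv, div_le_iff₀ (Real.exp_pos _)]
  have h3 := Real.add_one_le_exp (m ^ 2 / (2 * lam))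
  refine le_trans ?_ (mul_le_mul_of_nonneg_left h3 hs.le)
  generalize √lam = s at hs h2
  subst h2
  have e2 : s * (m ^ 2 / (2 * s ^ 2) + 1) = (m ^ 2 + 2 * s ^ 2) / (2 * s) := by
    field_simp
  rw [e2, le_div_iff₀ (by positivity)]
  linarith only [hl, sq_nonneg (m - s), sq_nonneg s, sq_nonneg (m - s)]

theorem Bad_b {lam L C : ℝ} (hl : 0 < lam) (hL : lam ≤ L) (hC : 0 ≤ C) (n : ℕ) {β : ℂ}
    (hβ : ‖β‖ ≤ Real.exp (-max (Real.log n - C) 0 ^ 2 / (4 * lam))) :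
    ‖((vonMangoldt n : ℝ) : ℂ) / ((√n : ℝ) : ℂ) * β‖ ^ 2 ≤ vonMangoldt n / n * (C + √L) := by
  have h0 : (0 : ℝ) ≤ vonMangoldt n := vonMangoldt_nonneg
  have h1 : vonMangoldt n ≤ Real.log n := vonMangoldt_le_log
  have h2 := Bad_pt (m := max (Real.log n - C) 0) hl hL
  have h3 : Real.exp (-max (Real.log n - C) 0 ^ 2 / (4 * lam)) ≤ 1 := by
    rw [Real.exp_le_one_iff]
    exact div_nonpos_of_nonpos_of_nonneg (neg_nonpos.2 (sq_nonneg _)) (by positivity)
  have h4 : Real.log n ≤ C + max (Real.log n - C) 0 := by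
    linarith only [le_max_left (Real.log n - C) 0]
  have h5 : ‖β‖ ^ 2 ≤ Real.exp (-max (Real.log n - C) 0 ^ 2 / (4 * lam)) ^ 2 :=
    pow_le_pow_left₀ (norm_nonneg _) hβ 2
  have h6 : Real.exp (-max (Real.log n - C) 0 ^ 2 / (4 * lam)) ^ 2 ≤ 1 :=
    pow_le_one₀ (Real.exp_pos _).le h3
  rw [norm_mul, norm_div, norm_real, norm_real, Real.norm_of_nonneg h0,
    Real.norm_of_nonneg (Real.sqrt_nonneg _), mul_pow, div_pow, Real.sq_sqrt (Nat.cast_nonneg n)]
  have h7 : vonMangoldt n * ‖β‖ ^ 2 ≤ C + √L := by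
    generalize Real.exp (-max (Real.log n - C) 0 ^ 2 / (4 * lam)) ^ 2 = E at h2 h5 h6
    have hE : 0 ≤ E := (sq_nonneg _).trans h5
    calc vonMangoldt n * ‖β‖ ^ 2 ≤ (C + max (Real.log n - C) 0) * E :=
          mul_le_mul (h1.trans h4) h5 (sq_nonneg _) (h0.trans (h1.trans h4))
      _ = C * E + max (Real.log n - C) 0 * E := by ring
      _ ≤ C + √L := add_le_add (mul_le_of_le_one_right hC h6) h2
  calc vonMangoldt n ^ 2 / n * ‖β‖ ^ 2 = vonMangoldt n / n * (vonMangoldt n * ‖β‖ ^ 2) := by ring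
    _ ≤ _ := mul_le_mul_of_nonneg_left h7 (div_nonneg h0 (Nat.cast_nonneg n))

theorem Bad_tail {lam C : ℝ} (hl : 0 < lam) {q : ℕ} (hq : 0 < q)
    (h1 : 2 * C ≤ Real.log q) (h2 : 48 * lam ≤ Real.log q) (N : ℕ) {β : ℕ → ℂ}
    (hβ : ∀ n, ‖β n‖ ≤ Real.exp (-max (Real.log n - C) 0 ^ 2 / (4 * lam)))
    (χ : DirichletCharacter ℂ q) :
    ‖∑ n ∈ Icc 1 N, lc χ n / ((√n : ℝ) : ℂ) * β n‖ ≤
      ‖∑ n ∈ Icc 1 (min q N), χ n * (((vonMangoldt n : ℝ) : ℂ) / ((√n : ℝ) : ℂ) * β n)‖ + 2 := by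
  have e : (Icc 1 N).filter (fun n => n ≤ q) = Icc 1 (min q N) := by
    ext n
    simp only [mem_filter, mem_Icc, le_min_iff]
    tauto
  rw [← sum_filter_add_sum_filter_not (Icc 1 N) (fun n => n ≤ q), e]
  refine (norm_add_le _ _).trans (add_le_add (le_of_eq ?_) ?_)
  · congr 1
    refine sum_congr rfl fun n _ => ?_
    rw [lc]
    ring
  · refine (norm_sum_le _ _).trans (le_trans (sum_le_sum fun n hn => ?_)
      (tail_le hl h1 h2 _ fun n hn => not_le.1 (mem_filter.1 hn).2))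
    have h3 : q < n := not_le.1 (mem_filter.1 hn).2
    have h4 : Real.log q ≤ Real.log n :=
      Real.log_le_log (by exact_mod_cast hq) (by exact_mod_cast h3.le)
    have h5 := hβ n
    rw [max_eq_left (by linarith only [hl, h1, h2, h4])] at h5
    rw [norm_mul, norm_div, norm_real, Real.norm_of_nonneg (Real.sqrt_nonneg _)]
    exact mul_le_mul (div_le_div_of_nonneg_right (norm_lc_le χ n) (Real.sqrt_nonneg _)) h5
      (norm_nonneg _) (div_nonneg vonMangoldt_nonneg (Real.sqrt_nonneg _))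

theorem Bad_inv {q : ℕ} [NeZero q] (P : DirichletCharacter ℂ q → Prop) [DecidablePred P]
    [DecidablePred fun χ : DirichletCharacter ℂ q => P χ⁻¹] :
    (univ.filter fun χ => P χ⁻¹).card = (univ.filter P).card := by
  refine card_nbij' (·⁻¹) (·⁻¹) ?_ ?_ (fun x _ => inv_inv x) fun x _ => inv_inv x
  · intro x hx
    simpa using hx
  · intro x hx
    simpa using hx

open Classical in
theorem Bad_sum {e lam0 C : ℝ} (he : 0 < e) (hl : 0 < lam0) (hl1 : lam0 ≤ 1 / 200) (hC : 0 ≤ C) :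
    ∃ K L0 : ℝ, 0 ≤ K ∧ ∀ L, L0 ≤ L → ∀ (q : ℕ) [NeZero q], L / 2 ≤ Real.log q →
      Real.log q ≤ L → ∀ (N : ℕ) (β : ℕ → ℂ), (∀ n, ‖β n‖ ≤
        Real.exp (-max (Real.log n - C) 0 ^ 2 / (4 * (lam0 * L)))) →
      ((univ.filter fun χ : DirichletCharacter ℂ q =>
        e * L < ‖∑ n ∈ Icc 1 N, lc χ n / ((√n : ℝ) : ℂ) * β n‖).card : ℝ) ≤
          q.totient * (K / √L) := by
  refine ⟨8 * (C + 1) / e ^ 2, max (max (4 * C) (4 / e)) 6, by positivity,
    fun L hL q _ hq1 hq2 N β hβ => ?_⟩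
  have hL1 : 4 * C ≤ L := ((le_max_left _ _).trans (le_max_left _ _)).trans hL
  have hL2 : 4 / e ≤ L := ((le_max_right _ _).trans (le_max_left _ _)).trans hL
  have hL3 : 6 ≤ L := (le_max_right _ _).trans hL
  rw [div_le_iff₀ he] at hL2
  have hq : 0 < q := Nat.pos_of_ne_zero (NeZero.ne q)
  have hlam : 0 < lam0 * L := by positivity
  have hlam1 : lam0 * L ≤ L := by linarith only [hl1, hL3, hl, hq1, hq2, mul_pos_of_neg_of_neg (Mathlib.Tactic.Linarith.sub_neg_of_lt hl) (Mathlib.Tactic.Linarith.sub_neg_of_lt hl), mul_nonneg_of_nonpos_of_nonpos (le_of_lt (Mathlib.Tactic.Linarith.sub_neg_of_lt hl)) (Mathlib.Tactic.Linarith.sub_nonpos_of_le hl1), mul_nonneg_of_nonpos_of_nonpos (Mathlib.Tactic.Linarith.sub_nonpos_of_le hl1) (Mathlib.Tactic.Linarith.sub_nonpos_of_le hq1), mul_nonneg_of_nonpos_of_nonpos (Mathlib.Tactic.Linarith.sub_nonpos_of_le hl1) (Mathlib.Tactic.Linarith.sub_nonpos_of_le hq2)]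
  have hs1 : 1 ≤ √L := Real.one_le_sqrt.2 (by linarith only [hl, hl1, hL3])
  have hs2 : √L ^ 2 = L := Real.sq_sqrt (by linarith only [hl, hl1, hL3])
  have h1 := orth q (min_le_left q N) fun n => ((vonMangoldt n : ℝ) : ℂ) / ((√n : ℝ) : ℂ) * β n
  have h2 : ∑ n ∈ Icc 1 (min q N), ‖((vonMangoldt n : ℝ) : ℂ) / ((√n : ℝ) : ℂ) * β n‖ ^ 2 ≤
      2 * L * ((C + 1) * √L) := by
    refine (sum_le_sum fun n _ => Bad_b hlam hlam1 hC n (hβ n)).trans ?_
    rw [← sum_mul]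
    refine mul_le_mul ?_ (by (refine le_of_not_gt fun h_nl => ?_; linarith only [h_nl, hl, hl1, hC, hs1, mul_pos_of_neg_of_neg (Mathlib.Tactic.Linarith.sub_neg_of_lt hl) (Mathlib.Tactic.Linarith.sub_neg_of_lt h_nl), mul_nonneg_of_nonpos_of_nonpos (Mathlib.Tactic.Linarith.sub_nonpos_of_le hl1) (le_of_lt (Mathlib.Tactic.Linarith.sub_neg_of_lt h_nl)), mul_nonneg_of_nonpos_of_nonpos (Mathlib.Tactic.Linarith.sub_nonpos_of_le hC) (Mathlib.Tactic.Linarith.sub_nonpos_of_le hs1)])) (by positivity) (by positivity)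
    have h3 := (abs_le.1 (Pool.Agent.Lib.ANT.abs_sum_vonMangoldt_div_sub_log_le q hq)).2
    have h4 : ∑ n ∈ Icc 1 (min q N), vonMangoldt n / (n : ℝ) ≤
        ∑ n ∈ Ioc 0 q, vonMangoldt n / (n : ℝ) := by
      refine sum_le_sum_of_subset_of_nonneg (fun n hn => ?_) fun n _ _ =>
        div_nonneg vonMangoldt_nonneg (Nat.cast_nonneg n)
      simp only [mem_Icc, mem_Ioc, le_min_iff] at hn ⊢
      omega
    linarith only [hq2, hL3, h3, h4]
  have h3 := markov univ (f := fun χ : DirichletCharacter ℂ q => ‖∑ n ∈ Icc 1 (min q N),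
    χ n * (((vonMangoldt n : ℝ) : ℂ) / ((√n : ℝ) : ℂ) * β n)‖ ^ 2) (fun _ _ => sq_nonneg _)
    (A := (e * L / 2) ^ 2) (by positivity)
    (h1.trans (mul_le_mul_of_nonneg_left h2 (Nat.cast_nonneg _)))
  refine le_trans (Nat.cast_le.2 (card_le_card fun χ hχ => ?_)) (h3.trans_eq ?_)
  · have h4 := (mem_filter.1 hχ).2.trans_le
      (Bad_tail hlam hq (by linarith only [hq1, hL1]) (by linarith only [hl1, hq1, hL3, hs2, hl, mul_nonneg_of_nonpos_of_nonpos (Mathlib.Tactic.Linarith.sub_nonpos_of_le (sq_nonneg √L)) (Mathlib.Tactic.Linarith.sub_nonpos_of_le hl1), mul_pos_of_neg_of_neg (Mathlib.Tactic.Linarith.sub_neg_of_lt hl) (Mathlib.Tactic.Linarith.sub_neg_of_lt hl), mul_nonneg_of_nonpos_of_nonpos (le_of_lt (Mathlib.Tactic.Linarith.sub_neg_of_lt hl)) (Mathlib.Tactic.Linarith.sub_nonpos_of_le hl1), Mathlib.Tactic.Linarith.mul_zero_eq (Mathlib.Tactic.Linarith.sub_neg_of_lt hl) (sub_eq_zero_of_eq hs2)]) N hβ χ)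
    exact mem_filter.2 ⟨mem_univ _, pow_lt_pow_left₀ (by linarith only [hL2, h4]) (by positivity) two_ne_zero⟩
  · generalize √L = s at hs1 hs2
    subst hs2
    field_simp
    ring

open Classical in
theorem bad_card {R e lam0 C T0 w : ℝ} (hR : 0 ≤ R) (he : 0 < e) (hl : 0 < lam0)
    (hl1 : lam0 ≤ 1 / 200) (hC : 0 ≤ C) (hw : 0 ≤ w) (hw1 : w ≤ 1) (J : ℕ) :
    ∃ K L0 : ℝ, 0 ≤ K ∧ ∀ L, L0 ≤ L → ∀ (q : ℕ) [NeZero q], L / 2 ≤ Real.log q →
      Real.log q ≤ L → ∀ N : ℕ, ((univ.filter fun χ : DirichletCharacter ℂ q =>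
        χ ≠ 1 ∧ ¬ Gd R e lam0 C T0 w J L N χ).card : ℝ) ≤ q.totient * (K / √L) := by
  obtain ⟨K, L0, hK, h⟩ := Bad_sum he hl hl1 hC
  refine ⟨2 * (4 + 8 * (2 * R + 1) ^ 2) + J * (2 * K), max L0 1, by positivity,
    fun L hL q _ hq1 hq2 N => ?_⟩
  have hL0 : L0 ≤ L := (le_max_left _ _).trans hL
  have hL1 : 1 ≤ L := (le_max_right _ _).trans hL
  have hs1 : 1 ≤ √L := Real.one_le_sqrt.2 hL1
  have hs2 : √L ^ 2 = L := Real.sq_sqrt (by linarith only [hl, hl1, hL1])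
  have hlam : 0 < lam0 * L := by positivity
  have m1 : ((univ.filter fun χ : DirichletCharacter ℂ q => χ ≠ 1 ∧ L ^ 2 < mom χ R).card : ℝ) ≤
      q.totient * ((4 + 8 * (2 * R + 1) ^ 2) / √L) := by
    have h1 := markov _ (fun χ _ => mom_nonneg χ R) (A := L ^ 2) (by positivity) (sum_mom q hR)
    rw [filter_filter] at h1
    refine h1.trans ?_
    rw [mul_div_assoc]
    refine mul_le_mul_of_nonneg_left ?_ (Nat.cast_nonneg _)
    rw [div_le_div_iff₀ (by positivity) (by positivity)]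
    have h2 : √L ≤ L := by (refine le_of_not_gt fun h_nl => ?_; linarith only [h_nl, hs2, hl, hL1, hl1, hs1, mul_nonneg_of_nonpos_of_nonpos (le_of_lt (Mathlib.Tactic.Linarith.sub_neg_of_lt hl)) (Mathlib.Tactic.Linarith.sub_nonpos_of_le hL1), mul_pos_of_neg_of_neg (Mathlib.Tactic.Linarith.sub_neg_of_lt hl) (Mathlib.Tactic.Linarith.sub_neg_of_lt h_nl), mul_nonneg_of_nonpos_of_nonpos (Mathlib.Tactic.Linarith.sub_nonpos_of_le hl1) (Mathlib.Tactic.Linarith.sub_nonpos_of_le hs1), mul_nonneg_of_nonpos_of_nonpos (Mathlib.Tactic.Linarith.sub_nonpos_of_le hl1) (le_of_lt (Mathlib.Tactic.Linarith.sub_neg_of_lt h_nl)), mul_nonneg_of_nonpos_of_nonpos (Mathlib.Tactic.Linarith.sub_nonpos_of_le hs1) (Mathlib.Tactic.Linarith.sub_nonpos_of_le hs1)])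
    have h3 : 0 ≤ 8 * (2 * R + 1) ^ 2 := by positivity
    generalize 8 * (2 * R + 1) ^ 2 = c at h3
    have h4 : 2 * (1 + Real.log q) + c ≤ (4 + c) * L := by (refine le_of_not_gt fun h_nl => ?_; linarith only [h_nl, hq2, hL1, hl, hl1, h3, mul_pos_of_neg_of_neg (Mathlib.Tactic.Linarith.sub_neg_of_lt hl) (Mathlib.Tactic.Linarith.sub_neg_of_lt h_nl), mul_nonneg_of_nonpos_of_nonpos (Mathlib.Tactic.Linarith.sub_nonpos_of_le hl1) (le_of_lt (Mathlib.Tactic.Linarith.sub_neg_of_lt h_nl)), mul_nonneg_of_nonpos_of_nonpos (Mathlib.Tactic.Linarith.sub_nonpos_of_le hL1) (Mathlib.Tactic.Linarith.sub_nonpos_of_le h3)])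
    calc (2 * (1 + Real.log q) + c) * √L ≤ (4 + c) * L * L :=
          mul_le_mul h4 h2 (by positivity) (by positivity)
      _ = (4 + c) * L ^ 2 := by ring
  have m2 : ((univ.filter fun χ : DirichletCharacter ℂ q =>
      χ⁻¹ ≠ 1 ∧ L ^ 2 < mom χ⁻¹ R).card : ℝ) ≤ q.totient * ((4 + 8 * (2 * R + 1) ^ 2) / √L) := by
    rw [Bad_inv fun χ : DirichletCharacter ℂ q => χ ≠ 1 ∧ L ^ 2 < mom χ R]
    exact m1
  have m3 : ∀ j : ℕ, ((univ.filter fun χ : DirichletCharacter ℂ q =>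
      e * L < ‖∑ n ∈ Icc 1 N, lc χ n / ((√n : ℝ) : ℂ) *
        bet (lam0 * L) (-T0 + j * w) w C (0 - Real.log n)‖).card : ℝ) ≤ q.totient * (K / √L) :=
    fun j => h L hL0 q hq1 hq2 N _ fun n => by
      have h1 := norm_bet_le hlam hw hw1 hC (-T0 + j * w) (0 - Real.log n)
      rwa [zero_sub, abs_neg, abs_of_nonneg (Real.log_natCast_nonneg n), ← zero_sub (Real.log n)]
        at h1
  have m4 : ∀ j : ℕ, ((univ.filter fun χ : DirichletCharacter ℂ q =>
      e * L < ‖∑ n ∈ Icc 1 N, lc χ⁻¹ n / ((√n : ℝ) : ℂ) *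
        bet (lam0 * L) (-T0 + j * w) w C (0 + Real.log n)‖).card : ℝ) ≤ q.totient * (K / √L) :=
    fun j => by
      rw [Bad_inv fun χ : DirichletCharacter ℂ q => e * L < ‖∑ n ∈ Icc 1 N,
        lc χ n / ((√n : ℝ) : ℂ) * bet (lam0 * L) (-T0 + j * w) w C (0 + Real.log n)‖]
      refine h L hL0 q hq1 hq2 N _ fun n => ?_
      have h1 := norm_bet_le hlam hw hw1 hC (-T0 + j * w) (0 + Real.log n)
      rwa [show |0 + Real.log n| = Real.log n by
        rw [zero_add, abs_of_nonneg (Real.log_natCast_nonneg n)]] at h1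
  generalize hA1 : (univ.filter fun χ : DirichletCharacter ℂ q => χ ≠ 1 ∧ L ^ 2 < mom χ R) = A1
    at m1
  generalize hA2 : (univ.filter fun χ : DirichletCharacter ℂ q =>
    χ⁻¹ ≠ 1 ∧ L ^ 2 < mom χ⁻¹ R) = A2 at m2
  obtain ⟨A3, hA3⟩ : ∃ A3 : ℕ → Finset (DirichletCharacter ℂ q), ∀ j, A3 j =
    univ.filter fun χ : DirichletCharacter ℂ q => e * L < ‖∑ n ∈ Icc 1 N,
      lc χ n / ((√n : ℝ) : ℂ) * bet (lam0 * L) (-T0 + j * w) w C (0 - Real.log n)‖ :=
    ⟨_, fun _ => rfl⟩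
  obtain ⟨A4, hA4⟩ : ∃ A4 : ℕ → Finset (DirichletCharacter ℂ q), ∀ j, A4 j =
    univ.filter fun χ : DirichletCharacter ℂ q => e * L < ‖∑ n ∈ Icc 1 N,
      lc χ⁻¹ n / ((√n : ℝ) : ℂ) * bet (lam0 * L) (-T0 + j * w) w C (0 + Real.log n)‖ :=
    ⟨_, fun _ => rfl⟩
  simp only [← hA3] at m3
  simp only [← hA4] at m4
  have hsub : (univ.filter fun χ : DirichletCharacter ℂ q =>
      χ ≠ 1 ∧ ¬ Gd R e lam0 C T0 w J L N χ) ⊆
      (A1 ∪ A2) ∪ (range J).biUnion fun j => A3 j ∪ A4 j := by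
    intro χ hχ
    obtain ⟨h1, h2⟩ := (mem_filter.1 hχ).2
    by_contra hn
    simp only [mem_union, mem_biUnion, mem_range, not_or, not_exists, not_and, ← hA1, ← hA2, hA3,
      hA4, mem_filter, mem_univ, true_and, not_lt] at hn
    exact h2 ⟨hn.1.1 h1, hn.1.2 (inv_ne_one.2 h1), fun j hj => hn.2 j hj⟩
  have c1 : (((range J).biUnion fun j => A3 j ∪ A4 j).card : ℝ) ≤
      J * (2 * (q.totient * (K / √L))) := by
    refine (Nat.cast_le.2 card_biUnion_le).trans ?_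
    rw [Nat.cast_sum]
    refine (sum_le_sum (g := fun _ => 2 * (q.totient * (K / √L))) fun j _ => ?_).trans_eq ?_
    · refine (Nat.cast_le.2 (card_union_le _ _)).trans ?_
      rw [Nat.cast_add]
      linarith only [m3, m4, m3 j, m4 j]
    · rw [sum_const, card_range, nsmul_eq_mul]
  have c2 : (((A1 ∪ A2) ∪ (range J).biUnion fun j => A3 j ∪ A4 j).card : ℝ) ≤
      A1.card + A2.card + ((range J).biUnion fun j => A3 j ∪ A4 j).card := by
    exact_mod_cast (card_union_le _ _).trans (Nat.add_le_add_right (card_union_le _ _) _)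
  refine (Nat.cast_le.2 (card_le_card hsub)).trans (c2.trans ?_)
  refine (add_le_add (add_le_add m1 m2) c1).trans_eq ?_
  ring

end HooRT
end
end

-- merged part: Pool.Agent.Work.MP_5d318d_nt.RT.Fin
section
/-! The lower bound for the logarithmic averages of the variance. -/

noncomputable section

open Complex MeasureTheory Finset Filter Topology Metric
open ArithmeticFunction hiding log
open scoped Real

namespace HooRT

open Pool.Agent.Work.MP_5d318d_nt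

theorem Fin_delta (S W U M : ℝ) {ε : ℝ} (hε : 0 < ε) : ∃ δ : ℝ, 0 < δ ∧ δ ≤ 1 ∧
    S ^ 2 / 2 - W / 2 - U - ε ≤ ((1 - δ) * ((1 - δ) * (S ^ 2 - 2 * S * δ)) - (1 + δ) * W - δ -
      2 * (1 + δ) * (M * δ)) / (2 * (1 + δ) ^ 2) - (1 + δ) * U - δ := by
  have hc : ContinuousAt (fun δ : ℝ => ((1 - δ) * ((1 - δ) * (S ^ 2 - 2 * S * δ)) - (1 + δ) * W -
      δ - 2 * (1 + δ) * (M * δ)) / (2 * (1 + δ) ^ 2) - (1 + δ) * U - δ) 0 := by
    fun_prop (disch := norm_num)
  have h1 := hc.eventually (lt_mem_nhds (a := S ^ 2 / 2 - W / 2 - U - ε) (by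
    norm_num
    linarith only [hε]))
  obtain ⟨δ, h2, h3⟩ := ((h1.filter_mono nhdsWithin_le_nhds).and
    (Ioc_mem_nhdsGT (zero_lt_one' ℝ))).exists
  exact ⟨δ, h3.1, h3.2, h2.le⟩

theorem Fin_num {n φ X Y T E L δ c D : ℝ} (hφ : 0 < φ) (hL : 0 < L) (d1 : δ ≤ 1) (hY : 0 ≤ Y)
    (hc : 0 < c) (hD : 0 ≤ D) (z1 : n ≤ φ) (z2 : (1 - δ) * φ ≤ n)
    (z3 : n * (X * L ^ 3) ≤ n * (Y * L ^ 3) + c * D) (z4 : D ≤ φ * (L ^ 3 * T + L ^ 2 * E))
    (hE : E ≤ L * δ) : ((1 - δ) * X - Y) / c ≤ T + δ := by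
  have a1 : D ≤ φ * L ^ 3 * (T + δ) := by
    have := mul_le_mul_of_nonneg_left hE (by positivity : 0 ≤ φ * L ^ 2)
    linarith
  have a2 := mul_le_mul_of_nonneg_right z1 (by positivity : 0 ≤ Y * L ^ 3)
  have a3 : φ * L ^ 3 * ((1 - δ) * X - Y) ≤ c * D := by
    rcases le_total 0 X with h | h
    · have := mul_le_mul_of_nonneg_right z2 (by positivity : 0 ≤ X * L ^ 3)
      linarith only [z3, a2, this]
    · exact (mul_nonpos_of_nonneg_of_nonpos (by positivity) (sub_nonpos.2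
        ((mul_nonpos_of_nonneg_of_nonpos (sub_nonneg.2 d1) h).trans hY))).trans (by positivity)
  rw [div_le_iff₀ hc]
  refine le_of_mul_le_mul_left ?_ (by positivity : 0 < φ * L ^ 3)
  have := mul_le_mul_of_nonneg_left a1 hc.le
  linarith

theorem LB.ind {u : ℝ → ℝ} (h : LB u) {s : Set ℝ} (hs : MeasurableSet s) : LB (s.indicator u) := by
  refine ⟨h.meas.indicator hs, fun V => ?_⟩
  obtain ⟨B, hB⟩ := h.bdd V
  exact ⟨B, fun x hx => (norm_indicator_le_norm_self u x).trans (hB x hx)⟩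

theorem Fin_lbG (Q : ℕ) : LB fun v => G (Real.exp v) Q / Real.exp v := by
  have h1 : ∀ A, LB fun v => psiAP ⌊Real.exp v⌋₊ Q A := fun A => by
    refine ⟨(measurable_of_countable fun n => psiAP n Q A).comp
      (Nat.measurable_floor.comp Real.measurable_exp), fun V => ⟨psiAP ⌊Real.exp V⌋₊ Q A,
        fun x hx => ?_⟩⟩
    rw [psiAP, abs_of_nonneg (sum_nonneg fun _ _ => vonMangoldt_nonneg)]
    exact sum_le_sum_of_subset_of_nonneg (filter_subset_filter _ (Icc_subset_Icc_right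
      (Nat.floor_le_floor (Real.exp_le_exp.2 (le_of_abs_le hx))))) fun _ _ _ => vonMangoldt_nonneg
  have h2 : ∀ A, LB fun v => psiAP ⌊Real.exp v⌋₊ Q A + -(Real.exp v / (Nat.totient Q : ℝ)) :=
    fun A => (h1 A).add (LB.of_continuous (by fun_prop))
  have h3 := (LB.sum (red Q) fun A _ => (h2 A).mul (h2 A)).mul
    (LB.of_continuous (u := fun v => Real.exp (-v)) (by fun_prop))
  simpa only [G, sq, sub_eq_add_neg, Real.exp_neg, div_eq_mul_inv] using h3

theorem Fin_split {w f g : ℝ → ℝ} {A V L : ℝ} (hw : Wt w A V) (hf : LB f) (hg : LB g)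
    (hL : 0 < L) :
    ∫ α, w α * ((Set.Icc 0 L).indicator f (α * L) + (Set.Ioi L).indicator g (α * L)) =
      (∫ α in (0 : ℝ)..1, w α * f (α * L)) + ∫ α in Set.Ioi 1, w α * g (α * L) := by
  simp_rw [mul_add]
  rw [integral_add (hw.integrable_mul ((hf.ind measurableSet_Icc).comp_mul L))
    (hw.integrable_mul ((hg.ind measurableSet_Ioi).comp_mul L)),
    intervalIntegral.integral_of_le zero_le_one, ← integral_Icc_eq_integral_Ioc,
    ← integral_indicator measurableSet_Icc, ← integral_indicator measurableSet_Ioi]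
  congr 2 <;> funext α
  · have : α * L ∈ Set.Icc 0 L ↔ α ∈ Set.Icc (0 : ℝ) 1 := by
      rw [Set.mem_Icc, Set.mem_Icc, mul_nonneg_iff_of_pos_right hL, mul_le_iff_le_one_left hL]
    simp only [Set.indicator, this, mul_ite, mul_zero]
  · have : α * L ∈ Set.Ioi L ↔ α ∈ Set.Ioi (1 : ℝ) := by
      rw [Set.mem_Ioi, Set.mem_Ioi, lt_mul_iff_one_lt_left hL]
    simp only [Set.indicator, this, mul_ite, mul_zero]

open Classical in
theorem Fin_sum {ψ : ℝ → ℝ} {B δ K : ℝ} (hψ : Wt ψ B B) (hB : 0 ≤ B) (hδ : 0 ≤ δ) (hK : 0 ≤ K)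
    (Q : ℕ) [NeZero Q] (hL : 0 < Real.log Q) {N : ℕ} (hN1 : 1 ≤ N)
    (hN : 2 * (B * Real.log Q) ≤ Real.log N)
    (hlow : ∀ v, 0 ≤ v → v ≤ Real.log Q →
      ∑ χ : DirichletCharacter ℂ Q, ‖Ev (lc χ) N v‖ ^ 2 ≤ Q.totient * ((1 + δ) * v + K)) :
    ∑ χ : DirichletCharacter ℂ Q with χ ≠ 1, dbl (fun t => ψ (t / Real.log Q))
        (fun t => ψ (t / Real.log Q)) (fun v => ‖Ev (lc χ) N v‖ ^ 2) ≤
      Q.totient * (Real.log Q ^ 3 * ((1 + δ) * (∫ α in (0 : ℝ)..1, α * ∫ x, ψ x * ψ (x + α)) +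
        ∫ α in Set.Ioi (1 : ℝ), G ((Q : ℝ) ^ α) Q / ((Q : ℝ) ^ α * Real.log Q) *
          ∫ x, ψ x * ψ (x + α)) + Real.log Q ^ 2 * (2 * B ^ 2 * B * K)) := by
  have Q0 : (0 : ℝ) < Q := Nat.cast_pos.2 (NeZero.pos Q)
  have hs := hψ.scale hL
  have hw := hψ.auto hB
  have hf : LB fun v : ℝ => (1 + δ) * v + K := LB.of_continuous (by fun_prop)
  have hg := Fin_lbG Q
  have hU := (hf.ind (measurableSet_Icc (a := 0) (b := Real.log Q))).add
    (hg.ind (measurableSet_Ioi (a := Real.log Q)))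
  rw [← dbl_sum hs hs _ fun χ _ => lb_Ev (lc χ) N]
  refine (dbl_mono hs hs hs hs (LB.sum _ fun χ _ => lb_Ev (lc χ) N)
    ((LB.const (Q.totient : ℝ)).mul hU) (fun _ => le_rfl) (fun _ => le_rfl) (fun v => ?_)
    fun v hv => ?_).trans ?_
  · refine mul_nonneg (Nat.cast_nonneg _) (add_nonneg (Set.indicator_nonneg (fun x hx => ?_) _)
      (Set.indicator_nonneg (fun x _ => ?_) _))
    · have := hx.1
      positivity
    · exact div_nonneg (sum_nonneg fun _ _ => sq_nonneg _) (Real.exp_pos _).le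
  · rcases lt_or_ge v 0 with h0 | h0
    · rw [Set.indicator_of_notMem fun h => h0.not_ge h.1,
        Set.indicator_of_notMem (s := Set.Ioi _) fun h => (h0.trans hL).not_gt h]
      simp [Ev_neg _ _ h0]
    rcases le_or_gt v (Real.log Q) with h1 | h1
    · rw [Set.indicator_of_mem (Set.mem_Icc.2 ⟨h0, h1⟩),
        Set.indicator_of_notMem (s := Set.Ioi _) h1.not_gt, add_zero]
      exact (sum_le_sum_of_subset_of_nonneg (filter_subset _ _) fun _ _ _ => sq_nonneg _).trans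
        (hlow v h0 h1)
    · rw [Set.indicator_of_notMem fun h => h1.not_ge h.2, Set.indicator_of_mem (s := Set.Ioi _) h1,
        zero_add]
      exact high_sum Q hN1 ((le_of_abs_le hv).trans hN)
  rw [dbl_smul, dbl_scale hψ hU hL, Fin_split hw hf hg hL]
  refine mul_le_mul_of_nonneg_left ?_ (Nat.cast_nonneg _)
  have e1 : ∫ α in Set.Ioi (1 : ℝ), (∫ x, ψ x * ψ (x + α)) *
      (G (Real.exp (α * Real.log Q)) Q / Real.exp (α * Real.log Q)) = Real.log Q *
        ∫ α in Set.Ioi (1 : ℝ), G ((Q : ℝ) ^ α) Q / ((Q : ℝ) ^ α * Real.log Q) *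
          ∫ x, ψ x * ψ (x + α) := by
    rw [← integral_const_mul]
    congr 1
    funext α
    rw [Real.rpow_def_of_pos Q0, mul_comm (Real.log Q) α]
    field_simp
  have i1 := ((LB.of_continuous continuous_id).mul hw.lb).intervalIntegrable 0 1
  have e2 := intervalIntegral.integral_mono_on zero_le_one
    ((hw.lb.mul (hf.comp_mul (Real.log Q))).intervalIntegrable 0 1)
    ((i1.const_mul ((1 + δ) * Real.log Q)).add (intervalIntegrable_const (c := 2 * B ^ 2 * B * K)))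
    fun α _ => by
      have := mul_le_mul_of_nonneg_right (hw.le α) hK
      simp only [id]
      linarith only [this]
  rw [intervalIntegral.integral_add (i1.const_mul _) intervalIntegrable_const,
    intervalIntegral.integral_const_mul, intervalIntegral.integral_const] at e2
  simp only [id, sub_zero, one_smul] at e2
  rw [e1]
  nlinarith only [mul_le_mul_of_nonneg_left e2 (sq_nonneg (Real.log Q))]

/-- From the primitive character to the character of modulus `Q`. -/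
theorem Fin_chi {ψ : ℝ → ℝ} {B δ L : ℝ} (hψ : Wt ψ B B) (hB : 0 ≤ B) (hδ : 0 < δ) (hδ1 : δ ≤ 1)
    (hL : 0 < L) {s : Finset ℤ} {p : ℤ → ℝ} {h d : ℝ} (hs : StD s p h d B (B + 1))
    (h1 : ∀ x, st s p h d x ≤ ψ x) (h2 : (∫ x, ψ x) - δ ≤ ∫ x, st s p h (3 * d) x)
    {ρ : ℝ → ℝ} (r1 : LB ρ) (r2 : Integrable ρ) (r3 : ∀ v, 0 ≤ ρ v)
    (r4 : ∫ v, ρ v ≤ δ ^ 2 * L ^ 2) {N : ℕ} {a b : ℕ → ℂ}
    (hab : ∀ v, ‖Ev a N v - Ev b N v‖ ^ 2 ≤ ρ v) (hI : Ineq s p h d δ L N a) :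
    (1 - δ) * ((∫ x, ψ x) ^ 2 - 2 * (∫ x, ψ x) * δ) * L ^ 3 ≤
      ((1 + δ) * (∫ x, ψ x ^ 2) + δ + 2 * (1 + δ) * (4 * B ^ 3 * δ)) * L ^ 3 + 2 * (1 + δ) ^ 2 *
        dbl (fun t => ψ (t / L)) (fun t => ψ (t / L)) fun v => ‖Ev b N v‖ ^ 2 := by
  have w1 := hs.wt hs.d0
  have w3 := hs.wt (mul_pos three_pos hs.d0)
  have hS := hψ.scale hL
  have a1 := One_sq (integral_nonneg hψ.nn) hδ.le (integral_nonneg w3.nn) h2
  have a2 : ∫ x, st s p h d x ^ 2 ≤ ∫ x, ψ x ^ 2 := by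
    simp_rw [sq]
    exact integral_mono (w1.integrable_mul w1.lb) (hψ.integrable_mul hψ.lb)
      fun x => mul_self_le_mul_self (w1.nn x) (h1 x)
  have l1 := (LB.const (1 + δ)).mul (lb_Ev b N)
  have l2 := (LB.const (1 + 1 / δ)).mul r1
  have a3 := dbl_mono (w1.scale hL) (w1.scale hL) hS hS (lb_Ev a N) (l1.add l2)
    (fun x => h1 _) (fun x => h1 _) (fun v => by have := r3 v; positivity) fun v _ =>
      (sq_add_le hδ (norm_nonneg _) (norm_le_norm_add_norm_sub' _ (Ev b N v))).trans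
        (add_le_add_right (mul_le_mul_of_nonneg_left (hab v) (by positivity)) _)
  rw [dbl_add hS hS l1 l2, dbl_smul, dbl_smul] at a3
  have a4 := dbl_le hS hS (by positivity) r1 r2 r3
  have a5 : (1 + 1 / δ) * dbl (fun t => ψ (t / L)) (fun t => ψ (t / L)) ρ ≤
      4 * B ^ 3 * δ * L ^ 3 := by
    calc _ ≤ (1 / δ + 1 / δ) * (2 * B * (B * L) * (B * (δ ^ 2 * L ^ 2))) := by
          gcongr
          · exact dbl_nonneg hS hS r3
          · exact one_le_one_div hδ hδ1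
          · exact a4.trans (by gcongr)
      _ = _ := by
          field_simp
          ring
  unfold Ineq at hI
  have b1 := mul_le_mul_of_nonneg_right (mul_le_mul_of_nonneg_left a1 (sub_nonneg.2 hδ1))
    (pow_pos hL 3).le
  have b2 := mul_le_mul_of_nonneg_left a2 (by positivity : 0 ≤ (1 + δ) * L ^ 3)
  have b3 := mul_le_mul_of_nonneg_left (a3.trans (add_le_add_right a5 _))
    (by positivity : 0 ≤ 2 * (1 + δ))
  linarith only [hI, b1, b2, b3]

open Classical in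
theorem windows {ψ : ℝ → ℝ} {B : ℝ} (hl : LowerSemicontinuous ψ) (hψ : Wt ψ B B) (hB : 0 ≤ B)
    {ε : ℝ} (hε : 0 < ε) : ∃ Q0 : ℕ, ∀ Q : ℕ, Q0 ≤ Q →
      (∫ x, ψ x) ^ 2 / 2 - (∫ x, ψ x ^ 2) / 2 -
          (∫ α in (0 : ℝ)..1, α * ∫ x, ψ x * ψ (x + α)) - ε ≤
        ∫ α in Set.Ioi (1 : ℝ), G ((Q : ℝ) ^ α) Q / ((Q : ℝ) ^ α * Real.log Q) *
          ∫ x, ψ x * ψ (x + α) := by
  obtain ⟨δ, d0, d1, hδ⟩ := Fin_delta (∫ x, ψ x) (∫ x, ψ x ^ 2)
    (∫ α in (0 : ℝ)..1, α * ∫ x, ψ x * ψ (x + α)) (4 * B ^ 3) hε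
  obtain ⟨s, p, h, d, hs, h1, h2⟩ := exists_step hl hψ hB d0
  obtain ⟨R, e, lam0, C, T0, w, L0, J, R0, e0, l0, l1, C0, w0, w1, hone⟩ :=
    one_char hs (by linarith only [hB]) d0 d1
  obtain ⟨K, L1, K0, hbad⟩ := bad_card (T0 := T0) R0 e0 l0 l1 C0 w0 w1 J
  obtain ⟨Q1, hcnt⟩ := cnt (c := δ / 10) (by positivity) d0 K0
  obtain ⟨K', K0', hlow⟩ := low_sum d0
  obtain ⟨Q2, hrho⟩ := exists_rho (pow_pos d0 2)
  have ht := Real.tendsto_log_atTop.comp (tendsto_natCast_atTop_atTop (R := ℝ))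
  obtain ⟨Q0, hQ0⟩ := eventually_atTop.1 ((eventually_ge_atTop Q1).and <|
    (eventually_ge_atTop Q2).and <| (eventually_gt_atTop 0).and <|
    ht.eventually <| (eventually_ge_atTop L0).and <| (eventually_ge_atTop L1).and <|
    (eventually_ge_atTop 1).and (eventually_ge_atTop (2 * B ^ 2 * B * K' / δ)))
  refine ⟨Q0, fun Q hQ => hδ.trans ?_⟩
  obtain ⟨a1, a2, a3, a4, a5, a6, a7⟩ := hQ0 Q hQ
  simp only [Function.comp_apply] at a4 a5 a6 a7
  have : NeZero Q := ⟨a3.ne'⟩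
  have hL : 0 < Real.log Q := by linarith only [a6]
  rw [div_le_iff₀ d0] at a7
  obtain ⟨N, N1, hN1, hN2⟩ : ∃ N : ℕ, 1 ≤ N ∧ (4 * (B + 1) + 1) * Real.log Q ≤ Real.log N ∧
      Real.log N ≤ (4 * (B + 1) + 2) * Real.log Q := by
    have b0 := Real.exp_pos ((4 * (B + 1) + 1) * Real.log Q)
    have b1 := Nat.ceil_pos.2 b0
    refine ⟨_, b1, (Real.le_log_iff_exp_le (Nat.cast_pos.2 b1)).2 (Nat.le_ceil _),
      (Real.log_le_iff_le_exp (Nat.cast_pos.2 b1)).2 ((Nat.ceil_lt_add_one b0.le).le.trans ?_)⟩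
    have b2 : 1 ≤ Real.exp ((4 * (B + 1) + 1) * Real.log Q) := Real.one_le_exp (by positivity)
    rw [show (4 * (B + 1) + 2) * Real.log Q = (4 * (B + 1) + 1) * Real.log Q + Real.log Q by ring,
      Real.exp_add]
    nlinarith only [b2, a6, Real.add_one_le_exp (Real.log Q)]
  have hc : 0 < (1 - δ / 10) * Real.log Q := mul_pos (by linarith only [d1]) hL
  have c1 := hcnt Q a1 (fun q χ => Ineq s p h d δ (Real.log Q) N (lc χ)) fun q _ hq hq1 => by
    have hq2 : Real.log q ≤ Real.log Q := Real.log_le_log (Nat.cast_pos.2 (NeZero.pos q))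
      (Nat.cast_le.2 (Nat.le_of_dvd a3 hq))
    have hq3 : 2 ≤ q := by
      by_contra hn
      obtain rfl : q = 1 := by have := NeZero.pos q; omega
      rw [Nat.cast_one, Real.log_one] at hq1
      exact hc.not_ge hq1
    refine le_trans (Nat.cast_le.2 (card_le_card fun χ hχ => ?_))
      (hbad _ a5 q (by nlinarith only [hq1, hL, d1]) hq2 N)
    simp only [mem_filter, mem_univ, true_and] at hχ ⊢
    exact ⟨prim_ne_one hq3 hχ.1, fun k => hχ.2 (hone _ a4 q hq1 hq2 N hN1 hN2 χ hχ.1 k)⟩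
  obtain ⟨ρ, r1, r2, r3, r4, r5⟩ := hrho Q a2
  obtain ⟨Z, hZ⟩ : ∃ Z, Z = univ.filter fun χ : DirichletCharacter ℂ Q =>
    (1 - δ / 10) * Real.log Q ≤ Real.log χ.conductor ∧
      Ineq s p h d δ (Real.log Q) N (lc χ.primitiveCharacter) := ⟨_, rfl⟩
  have hcard : Fintype.card (DirichletCharacter ℂ Q) = Q.totient := by
    rw [← Nat.card_eq_fintype_card, DirichletCharacter.card_eq_totient_of_hasEnoughRootsOfUnity]
  have z1 : (Z.card : ℝ) ≤ Q.totient := Nat.cast_le.2 (hcard ▸ card_le_univ Z)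
  have z2 : (1 - δ) * Q.totient ≤ Z.card := by
    have b1 := card_filter_add_card_filter_not (s := univ) fun χ : DirichletCharacter ℂ Q =>
      (1 - δ / 10) * Real.log Q ≤ Real.log χ.conductor ∧
        Ineq s p h d δ (Real.log Q) N (lc χ.primitiveCharacter)
    rw [← hZ, card_univ, hcard] at b1
    have b2 := congrArg (Nat.cast (R := ℝ)) b1
    rw [Nat.cast_add] at b2
    linarith only [b2, c1]
  have z3 := sum_le_sum (s := Z) fun χ hχ => Fin_chi hψ hB d0 d1 hL hs h1 h2 r1 r2 r3 r4 (r5 χ N)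
    (mem_filter.1 (hZ ▸ hχ)).2.2
  rw [sum_add_distrib, sum_const, sum_const, ← mul_sum, nsmul_eq_mul, nsmul_eq_mul] at z3
  have z0 := fun χ : DirichletCharacter ℂ Q => dbl_nonneg (hψ.scale hL) (hψ.scale hL)
    (u := fun v => ‖Ev (lc χ) N v‖ ^ 2) fun _ => sq_nonneg _
  have z4 := (sum_le_sum_of_subset_of_nonneg (s := Z) (fun χ hχ => mem_filter.2 ⟨mem_univ _, by
      rintro rfl
      have b1 := (mem_filter.1 (hZ ▸ hχ)).2.1
      rw [DirichletCharacter.conductor_one, Nat.cast_one, Real.log_one] at b1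
      exact hc.not_ge b1⟩) fun χ _ _ => z0 χ).trans
    (Fin_sum hψ hB d0.le K0' Q hL N1 (by nlinarith only [hN1, hL, hB]) (hlow Q N))
  have hW : 0 ≤ ∫ x, ψ x ^ 2 := integral_nonneg fun _ => sq_nonneg _
  have z5 := Fin_num (Nat.cast_pos.2 (Nat.totient_pos.2 a3)) hL d1 (by positivity) (by positivity)
    (sum_nonneg fun χ _ => z0 χ) z1 z2 z3 z4 a7
  rw [sub_add_eq_sub_sub, sub_add_eq_sub_sub] at z5
  linarith only [z5]

end HooRT
end
end
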